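import Pool.Agent.Work.MP_659252_gt.Z.HDefs

/-!
# Half circle integrals and trivial tensors.  Size: M.

Let `y s = cp x v s`, `y' = cv x v s` (`y'' = -y`), `y ⬝ y = 1`, `y ⬝ y' = 0`, `y' ⬝ y' = 1`; `y 0 = x`, `y π = -x`, `y' 0 = v`, `y' π = -v`.
PROOF of `half_lie`.  `d/ds (X (y) ⬝ y') = (DX y') ⬝ y' + X (y) ⬝ y'' = (DX y') ⬝ y'` because `X (y) ⬝ y = 0`.  So the integral is
`2 (X (-x) ⬝ (-v) - X x ⬝ v)` (fundamental theorem of calculus; the integrand is continuous as `X` is smooth on `{0}ᶜ`).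
PROOF of `half_diff`.  Let `L (x, v) = -2 ((X x + X (-x)) ⬝ v)`.  On the circle the integrands satisfy `val h = c + Lie + val k`; `val h` and `Lie` are
continuous in `s`, so `val k` is, and `half h x v = c π + L (x, v) + half k x v`.  `(R x, R v)` is orthonormal too (`R` orthogonal) and
`cp (R x) (R v) s = R (cp x v s)`, so `half k (R x) (R v) = half k x v` (`hk`).  Difference: `L (R x, R v) - L (x, v) = l ⬝ v`,
`l = -2 Rᵀ (X (R x) + X (-(R x))) + 2 (X x + X (-x))` (`Matrix.dotProduct_mulVec`, `Matrix.vecMul`).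
-/

namespace Pool.Agent.Work.MP_659252_gt.Z

open scoped ContDiff

variable {d : ℕ}

private theorem cp_cp {x v : V d} (hxx : x ⬝ᵥ x = 1) (hxv : x ⬝ᵥ v = 0) (hvv : v ⬝ᵥ v = 1) (s : ℝ) :
    cp x v s ⬝ᵥ cp x v s = 1 := by
  have hvx : v ⬝ᵥ x = 0 := by rw [dotProduct_comm]; exact hxv
  simp only [cp, dotProduct_add, add_dotProduct, smul_dotProduct, dotProduct_smul, hxx, hxv, hvv, hvx, smul_eq_mul]
  have := Real.sin_sq_add_cos_sq s
  nlinarith

private theorem cp_cv {x v : V d} (hxx : x ⬝ᵥ x = 1) (hxv : x ⬝ᵥ v = 0) (hvv : v ⬝ᵥ v = 1) (s : ℝ) :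
    cp x v s ⬝ᵥ cv x v s = 0 := by
  have hvx : v ⬝ᵥ x = 0 := by rw [dotProduct_comm]; exact hxv
  simp only [cp, cv, dotProduct_add, add_dotProduct, smul_dotProduct, dotProduct_smul, hxx, hxv, hvv, hvx, smul_eq_mul]
  ring

private theorem cv_cv {x v : V d} (hxx : x ⬝ᵥ x = 1) (hxv : x ⬝ᵥ v = 0) (hvv : v ⬝ᵥ v = 1) (s : ℝ) :
    cv x v s ⬝ᵥ cv x v s = 1 := by
  have hvx : v ⬝ᵥ x = 0 := by rw [dotProduct_comm]; exact hxv
  simp only [cv, dotProduct_add, add_dotProduct, smul_dotProduct, dotProduct_smul, hxx, hxv, hvv, hvx, smul_eq_mul]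
  have := Real.sin_sq_add_cos_sq s
  nlinarith

private theorem cp_ne {x v : V d} (hxx : x ⬝ᵥ x = 1) (hxv : x ⬝ᵥ v = 0) (hvv : v ⬝ᵥ v = 1) (s : ℝ) :
    cp x v s ∈ ({0}ᶜ : Set (V d)) := by
  intro h
  have h1 := cp_cp hxx hxv hvv s
  rw [Set.mem_singleton_iff.1 h] at h1
  simp at h1

private theorem hasDerivAt_cp (x v : V d) (s : ℝ) : HasDerivAt (cp x v) (cv x v s) s := by
  unfold cp cv
  exact ((Real.hasDerivAt_cos s).smul_const x).add ((Real.hasDerivAt_sin s).smul_const v)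

private theorem hasDerivAt_cv (x v : V d) (s : ℝ) : HasDerivAt (cv x v) (-cp x v s) s := by
  have h := ((Real.hasDerivAt_sin s).neg.smul_const x).add ((Real.hasDerivAt_cos s).smul_const v)
  have e : -cp x v s = -Real.cos s • x + -Real.sin s • v := by
    unfold cp
    rw [neg_add, neg_smul, neg_smul]
  rw [e]
  exact h

private theorem cont_cp (x v : V d) : Continuous (cp x v) :=
  continuous_iff_continuousAt.2 fun s => (hasDerivAt_cp x v s).continuousAt

private theorem cont_cv (x v : V d) : Continuous (cv x v) :=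
  continuous_iff_continuousAt.2 fun s => (hasDerivAt_cv x v s).continuousAt

private theorem hasDerivAt_dot {a b : ℝ → V d} {a' b' : V d} {s : ℝ} (ha : HasDerivAt a a' s)
    (hb : HasDerivAt b b' s) : HasDerivAt (fun t => a t ⬝ᵥ b t) (a' ⬝ᵥ b s + a s ⬝ᵥ b') s := by
  unfold dotProduct
  rw [← Finset.sum_add_distrib]
  exact HasDerivAt.fun_sum fun i _ => (hasDerivAt_pi.1 ha i).mul (hasDerivAt_pi.1 hb i)

private theorem cont_dot {a b : ℝ → V d} (ha : Continuous a) (hb : Continuous b) :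
    Continuous fun t => a t ⬝ᵥ b t := by
  unfold dotProduct
  exact continuous_finsetSum _ fun i _ => ((continuous_apply i).comp ha).mul ((continuous_apply i).comp hb)

private theorem cont_fd (X : V d → V d) (hX : ContDiffOn ℝ ∞ X {0}ᶜ) {x v : V d} (hxx : x ⬝ᵥ x = 1)
    (hxv : x ⬝ᵥ v = 0) (hvv : v ⬝ᵥ v = 1) : Continuous fun s => fderiv ℝ X (cp x v s) (cv x v s) := by
  have h1 : ContinuousOn (fderiv ℝ X) {0}ᶜ :=
    hX.continuousOn_fderiv_of_isOpen isOpen_compl_singleton (by simp)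
  have h2 : Continuous fun s => fderiv ℝ X (cp x v s) :=
    h1.comp_continuous (cont_cp x v) fun s => cp_ne hxx hxv hvv s
  exact h2.clm_apply (cont_cv x v)

private theorem cont_lie (X : V d → V d) (hX : ContDiffOn ℝ ∞ X {0}ᶜ) {x v : V d} (hxx : x ⬝ᵥ x = 1)
    (hxv : x ⬝ᵥ v = 0) (hvv : v ⬝ᵥ v = 1) :
    Continuous fun s => (fderiv ℝ X (cp x v s) (cv x v s)) ⬝ᵥ cv x v s +
      cv x v s ⬝ᵥ (fderiv ℝ X (cp x v s) (cv x v s)) :=
  (cont_dot (cont_fd X hX hxx hxv hvv) (cont_cv x v)).add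
    (cont_dot (cont_cv x v) (cont_fd X hX hxx hxv hvv))

theorem half_lie (X : V d → V d) (hX : ContDiffOn ℝ ∞ X {0}ᶜ) (ht : ∀ x, x ⬝ᵥ x = 1 → x ⬝ᵥ X x = 0)
    (x v : V d) (hxx : x ⬝ᵥ x = 1) (hxv : x ⬝ᵥ v = 0) (hvv : v ⬝ᵥ v = 1) :
    ∫ s in (0 : ℝ)..Real.pi, ((fderiv ℝ X (cp x v s) (cv x v s)) ⬝ᵥ cv x v s +
      cv x v s ⬝ᵥ (fderiv ℝ X (cp x v s) (cv x v s))) = -2 * ((X x + X (-x)) ⬝ᵥ v) := by
  have hd : ∀ s : ℝ, HasDerivAt (fun t => 2 * (X (cp x v t) ⬝ᵥ cv x v t))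
      ((fderiv ℝ X (cp x v s) (cv x v s)) ⬝ᵥ cv x v s +
        cv x v s ⬝ᵥ (fderiv ℝ X (cp x v s) (cv x v s))) s := by
    intro s
    have hXd : DifferentiableAt ℝ X (cp x v s) :=
      (hX.contDiffAt (isOpen_compl_singleton.mem_nhds (cp_ne hxx hxv hvv s))).differentiableAt (by simp)
    have h1 : HasDerivAt (fun t => X (cp x v t)) (fderiv ℝ X (cp x v s) (cv x v s)) s :=
      hXd.hasFDerivAt.comp_hasDerivAt s (hasDerivAt_cp x v s)
    have h2 := (hasDerivAt_dot h1 (hasDerivAt_cv x v s)).const_mul 2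
    have h3 : X (cp x v s) ⬝ᵥ -cp x v s = 0 := by
      rw [dotProduct_neg, dotProduct_comm, ht _ (cp_cp hxx hxv hvv s), neg_zero]
    have e : (fderiv ℝ X (cp x v s) (cv x v s)) ⬝ᵥ cv x v s +
        cv x v s ⬝ᵥ (fderiv ℝ X (cp x v s) (cv x v s)) =
        2 * ((fderiv ℝ X (cp x v s) (cv x v s)) ⬝ᵥ cv x v s + X (cp x v s) ⬝ᵥ -cp x v s) := by
      rw [h3, dotProduct_comm (cv x v s)]
      ring
    rw [e]
    exact h2
  rw [intervalIntegral.integral_eq_sub_of_hasDerivAt (fun s _ => hd s)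
    ((cont_lie X hX hxx hxv hvv).intervalIntegrable _ _)]
  have e1 : cp x v Real.pi = -x := by simp [cp]
  have e2 : cv x v Real.pi = -v := by simp [cv]
  have e3 : cp x v 0 = x := by simp [cp]
  have e4 : cv x v 0 = v := by simp [cv]
  simp only [e1, e2, e3, e4, add_dotProduct, dotProduct_neg]
  ring

private theorem half_eq (h h₀ k : Ten d) (hh : ContDiffOn ℝ ∞ h {0}ᶜ) (c : ℝ) (X : V d → V d)
    (hX : ContDiffOn ℝ ∞ X {0}ᶜ) (ht : ∀ x, x ⬝ᵥ x = 1 → x ⬝ᵥ X x = 0)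
    (h0 : ∀ x v w, Tan x v → Tan x w →
      val h₀ x v w = c * (v ⬝ᵥ w) + ((fderiv ℝ X x v) ⬝ᵥ w + v ⬝ᵥ (fderiv ℝ X x w)))
    (hdec : ∀ x v w, Tan x v → Tan x w → val h x v w = val h₀ x v w + val k x v w)
    (x v : V d) (hxx : x ⬝ᵥ x = 1) (hxv : x ⬝ᵥ v = 0) (hvv : v ⬝ᵥ v = 1) :
    half h x v = c * Real.pi + -2 * ((X x + X (-x)) ⬝ᵥ v) + half k x v := by
  have hch : Continuous fun s => val h (cp x v s) (cv x v s) (cv x v s) := by
    have h1 : Continuous fun s => h (cp x v s) :=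
      hh.continuousOn.comp_continuous (cont_cp x v) fun s => cp_ne hxx hxv hvv s
    unfold val
    refine continuous_finsetSum _ fun i _ => continuous_finsetSum _ fun j _ => ?_
    have h2 : Continuous fun s => h (cp x v s) i j :=
      (continuous_apply j).comp ((continuous_apply i).comp h1)
    exact h2.mul (((continuous_apply i).comp (cont_cv x v)).mul ((continuous_apply j).comp (cont_cv x v)))
  have hL := cont_lie X hX hxx hxv hvv
  have hk : half k x v = ∫ s in (0 : ℝ)..Real.pi, (val h (cp x v s) (cv x v s) (cv x v s) -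
      (c + ((fderiv ℝ X (cp x v s) (cv x v s)) ⬝ᵥ cv x v s +
        cv x v s ⬝ᵥ (fderiv ℝ X (cp x v s) (cv x v s))))) := by
    unfold half
    refine intervalIntegral.integral_congr fun s _ => ?_
    have hT : Tan (cp x v s) (cv x v s) := ⟨cp_cp hxx hxv hvv s, cp_cv hxx hxv hvv s⟩
    have e1 := hdec _ _ _ hT hT
    have e2 := h0 _ _ _ hT hT
    rw [cv_cv hxx hxv hvv s] at e2
    show val k (cp x v s) (cv x v s) (cv x v s) = _
    linarith
  have hI : ∫ s in (0 : ℝ)..Real.pi, (val h (cp x v s) (cv x v s) (cv x v s) -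
      (c + ((fderiv ℝ X (cp x v s) (cv x v s)) ⬝ᵥ cv x v s +
        cv x v s ⬝ᵥ (fderiv ℝ X (cp x v s) (cv x v s))))) =
      half h x v - (c * Real.pi + -2 * ((X x + X (-x)) ⬝ᵥ v)) := by
    have hcL : Continuous fun s => c + ((fderiv ℝ X (cp x v s) (cv x v s)) ⬝ᵥ cv x v s +
        cv x v s ⬝ᵥ (fderiv ℝ X (cp x v s) (cv x v s))) := continuous_const.add hL
    have i1 := intervalIntegral.integral_sub (μ := MeasureTheory.volume)
      (hch.intervalIntegrable 0 Real.pi) (hcL.intervalIntegrable 0 Real.pi)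
    have i2 := intervalIntegral.integral_add (μ := MeasureTheory.volume)
      ((continuous_const (y := c)).intervalIntegrable 0 Real.pi) (hL.intervalIntegrable 0 Real.pi)
    have i3 := half_lie X hX ht x v hxx hxv hvv
    have i4 : ∫ _ in (0 : ℝ)..Real.pi, c = c * Real.pi := by
      rw [intervalIntegral.integral_const, sub_zero, smul_eq_mul, mul_comm]
    rw [i3, i4] at i2
    rw [i1, i2]
    rfl
  rw [hk, hI]
  ring

private theorem orth_dot {R : Matrix (Fin (d + 1)) (Fin (d + 1)) ℝ}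
    (hR : R ∈ Matrix.orthogonalGroup (Fin (d + 1)) ℝ) (x y : V d) :
    (R.mulVec x) ⬝ᵥ (R.mulVec y) = x ⬝ᵥ y := by
  have h1 : R.transpose * R = 1 := by
    have := (Matrix.mem_unitaryGroup_iff'.1 hR)
    rwa [Matrix.star_eq_conjTranspose, Matrix.conjTranspose_eq_transpose_of_trivial] at this
  rw [Matrix.dotProduct_mulVec, ← Matrix.vecMul_transpose, Matrix.vecMul_vecMul, h1, Matrix.vecMul_one]

theorem half_diff (h h₀ k : Ten d) (hh : ContDiffOn ℝ ∞ h {0}ᶜ) (h₀t : IsTrivial h₀)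
    (hdec : ∀ x v w, Tan x v → Tan x w → val h x v w = val h₀ x v w + val k x v w)
    (R : Matrix (Fin (d + 1)) (Fin (d + 1)) ℝ) (hR : R ∈ Matrix.orthogonalGroup (Fin (d + 1)) ℝ)
    (hk : IsInvariant R k) (x : V d) (hx : x ⬝ᵥ x = 1) :
    ∃ l : V d, ∀ v, x ⬝ᵥ v = 0 → v ⬝ᵥ v = 1 →
      half h (R.mulVec x) (R.mulVec v) - half h x v = l ⬝ᵥ v := by
  obtain ⟨c, X, hX, ht, h0⟩ := h₀t
  refine ⟨(-2 : ℝ) • (Matrix.vecMul (X (R.mulVec x) + X (-(R.mulVec x))) R) + (2 : ℝ) • (X x + X (-x)), ?_⟩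
  intro v hxv hvv
  have e1 := half_eq h h₀ k hh c X hX ht h0 hdec x v hx hxv hvv
  have e2 := half_eq h h₀ k hh c X hX ht h0 hdec (R.mulVec x) (R.mulVec v)
    (by rw [orth_dot hR]; exact hx) (by rw [orth_dot hR]; exact hxv) (by rw [orth_dot hR]; exact hvv)
  have e3 : half k (R.mulVec x) (R.mulVec v) = half k x v := by
    unfold half
    refine intervalIntegral.integral_congr fun s _ => ?_
    have c1 : cp (R.mulVec x) (R.mulVec v) s = R.mulVec (cp x v s) := by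
      unfold cp
      rw [Matrix.mulVec_add, Matrix.mulVec_smul, Matrix.mulVec_smul]
    have c2 : cv (R.mulVec x) (R.mulVec v) s = R.mulVec (cv x v s) := by
      unfold cv
      rw [Matrix.mulVec_add, Matrix.mulVec_smul, Matrix.mulVec_smul]
    have hT : Tan (cp x v s) (cv x v s) := ⟨cp_cp hx hxv hvv s, cp_cv hx hxv hvv s⟩
    show val k _ _ _ = val k _ _ _
    rw [c1, c2]
    exact hk _ _ _ hT hT
  rw [e1, e2, e3, Matrix.dotProduct_mulVec]
  simp only [add_dotProduct, smul_dotProduct, smul_eq_mul]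
  ring

end Pool.Agent.Work.MP_659252_gt.Z
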