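import Pool.Agent.Work.MP_659252_gt.Z.Bas

/-!
# Half circle integrals: definitions
-/

namespace Pool.Agent.Work.MP_659252_gt.Z

variable {d : ℕ}

/-- the point of the great circle of `x`, `v` -/
noncomputable def cp (x v : V d) (s : ℝ) : V d := Real.cos s • x + Real.sin s • v

/-- its velocity -/
noncomputable def cv (x v : V d) (s : ℝ) : V d := -Real.sin s • x + Real.cos s • v

/-- the integral of `h` over the half great circle from `x` to `-x` in the direction `v` -/
noncomputable def half (h : Ten d) (x v : V d) : ℝ :=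
  ∫ s in (0 : ℝ)..Real.pi, val h (cp x v s) (cv x v s) (cv x v s)

/-- the derivative of `RR α μ (R x) (R v)` if `R = 1` moves with velocity `Ω` -/
noncomputable def dRR (α : Fin (d + 1) → ℝ) (μ : ℝ) (Ω : Matrix (Fin (d + 1)) (Fin (d + 1)) ℝ) (x v : V d) : ℝ :=
  2 * Q α μ x v * (Q α μ (Ω.mulVec x) v + Q α μ x (Ω.mulVec v)) - 2 * Q α μ (Ω.mulVec x) x * Q α μ v v -
    2 * Q α μ x x * Q α μ (Ω.mulVec v) v

end Pool.Agent.Work.MP_659252_gt.Z
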