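import Pool.Agent.Work.MP_659252_gt.Z.Bas

/-!
# The rotating frame.  Size: S-M.

`W1 = cos s x - sin s v`, `W2 = sin s x + cos s v`.
PROOF.  `x_eq`, `v_eq`: `cos² + sin² = 1`.  `W_orth`: expand.  `RR_rot`: `RR α λ` is minus a Gram determinant, invariant under rotations of the pair
(for general coefficients `c, s` with `c² + s² = 1`: expand with `Q_add`, `Q_smul`, `Q_comm`).  Same for `RR'` (derivative of `RR` in `λ`; directly:
expand).
`X_rot`: `X1 α μ (c x - s v) (s x + c v) = c X1 α μ x v - s X2 α μ x v`, `X2 α μ (c x - s v) (s x + c v) = s X1 α μ x v + c X2 α μ x v`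
(`X1 x v = M x`, `X2 x v = M v` with `M = -2 A (x vᵀ - v xᵀ) A`, and `x vᵀ - v xᵀ` is invariant under rotations).  Prove it componentwise: both sides
are polynomials in `Q x x, Q x v, Q v v, x_i, v_i`.
`W_deriv`: product rule: `W1' = -sin x + cos (v + be X1) - cos v - sin (-x + be X2) = be (cos X1 - sin X2)`, then `X_rot`.
-/

namespace Pool.Agent.Work.MP_659252_gt.Z

variable {d : ℕ} {α : Fin (d + 1) → ℝ} {B : ℝ → ℝ}

private theorem wd_Q (μ a b e f : ℝ) (x v : V d) :
    Q α μ (a • x + b • v) (e • x + f • v) =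
      a * e * Q α μ x x + (a * f + b * e) * Q α μ x v + b * f * Q α μ v v := by
  have h1 : ∀ y : V d, Q α μ y (e • x + f • v) = e * Q α μ x y + f * Q α μ v y := fun y => by
    rw [Q_comm, Q_add, Q_smul, Q_smul]
  rw [Q_add, Q_smul, Q_smul, h1, h1, Q_comm α μ v x]
  ring

private theorem wd_Q2 (μ a b e f : ℝ) (x v : V d) :
    Q2 α μ (a • x + b • v) (e • x + f • v) =
      a * e * Q2 α μ x x + (a * f + b * e) * Q2 α μ x v + b * f * Q2 α μ v v := by
  have h1 : ∀ y : V d, Q2 α μ y (e • x + f • v) = e * Q2 α μ x y + f * Q2 α μ v y := fun y => by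
    rw [Q2_comm, Q2_add, Q2_smul, Q2_smul]
  rw [Q2_add, Q2_smul, Q2_smul, h1, h1, Q2_comm α μ v x]
  ring

private theorem wd_sub (c s : ℝ) (x v : V d) : c • x - s • v = c • x + (-s) • v := by
  rw [neg_smul, sub_eq_add_neg]

theorem x_eq (x v : ℝ → V d) (s : ℝ) : x s = Real.cos s • W1 x v s + Real.sin s • W2 x v s := by
  ext i
  simp only [W1, W2, Pi.add_apply, Pi.smul_apply, Pi.sub_apply, smul_eq_mul]
  linear_combination (-(x s i)) * Real.sin_sq_add_cos_sq s

theorem v_eq (x v : ℝ → V d) (s : ℝ) : v s = -Real.sin s • W1 x v s + Real.cos s • W2 x v s := by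
  ext i
  simp only [W1, W2, Pi.add_apply, Pi.smul_apply, Pi.sub_apply, smul_eq_mul]
  linear_combination (-(v s i)) * Real.sin_sq_add_cos_sq s

theorem W_orth {x v : ℝ → V d} (h : Sol α B x v) (s : ℝ) :
    W1 x v s ⬝ᵥ W1 x v s = 1 ∧ W1 x v s ⬝ᵥ W2 x v s = 0 ∧ W2 x v s ⬝ᵥ W2 x v s = 1 := by
  have h1 := h.xx s
  have h2 := h.xv s
  have h3 := h.vv s
  have h4 : v s ⬝ᵥ x s = 0 := by rw [dotProduct_comm]; exact h2
  have h5 := Real.sin_sq_add_cos_sq s
  simp only [W1, W2, sub_dotProduct, dotProduct_sub, add_dotProduct, dotProduct_add,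
    smul_dotProduct, dotProduct_smul, smul_eq_mul, h1, h2, h3, h4]
  refine ⟨?_, ?_, ?_⟩
  · linear_combination h5
  · ring
  · linear_combination h5

theorem RR_rot (μ c s : ℝ) (hcs : c ^ 2 + s ^ 2 = 1) (x v : V d) :
    RR α μ (c • x - s • v) (s • x + c • v) = RR α μ x v := by
  have e1 : Q α μ (c • x + (-s) • v) (c • x + (-s) • v) = _ := wd_Q μ c (-s) c (-s) x v
  simp only [RR]
  rw [wd_sub, e1, wd_Q, wd_Q]
  linear_combination (c ^ 2 + s ^ 2 + 1) * (Q α μ x v ^ 2 - Q α μ x x * Q α μ v v) * hcs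

theorem RR'_rot (μ c s : ℝ) (hcs : c ^ 2 + s ^ 2 = 1) (x v : V d) :
    RR' α μ (c • x - s • v) (s • x + c • v) = RR' α μ x v := by
  simp only [RR']
  rw [wd_sub]
  simp only [wd_Q, wd_Q2]
  linear_combination (c ^ 2 + s ^ 2 + 1) * (2 * Q α μ x v * Q2 α μ x v -
    Q2 α μ x x * Q α μ v v - Q α μ x x * Q2 α μ v v) * hcs

theorem X1_rot (μ c s : ℝ) (hcs : c ^ 2 + s ^ 2 = 1) (x v : V d) :
    X1 α μ (c • x - s • v) (s • x + c • v) = c • X1 α μ x v - s • X2 α μ x v := by
  ext i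
  simp only [X1, X2, Pi.sub_apply, Pi.smul_apply, smul_eq_mul]
  rw [wd_sub]
  simp only [wd_Q, Pi.add_apply, Pi.smul_apply, smul_eq_mul]
  linear_combination (c * (2 * (Q α μ x x * v i - Q α μ x v * x i) / (α i - μ)) -
    s * (2 * (Q α μ x v * v i - Q α μ v v * x i) / (α i - μ))) * hcs

theorem X2_rot (μ c s : ℝ) (hcs : c ^ 2 + s ^ 2 = 1) (x v : V d) :
    X2 α μ (c • x - s • v) (s • x + c • v) = s • X1 α μ x v + c • X2 α μ x v := by
  ext i
  simp only [X1, X2, Pi.add_apply, Pi.smul_apply, smul_eq_mul]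
  rw [wd_sub]
  simp only [wd_Q, Pi.add_apply, Pi.smul_apply, smul_eq_mul]
  linear_combination (s * (2 * (Q α μ x x * v i - Q α μ x v * x i) / (α i - μ)) +
    c * (2 * (Q α μ x v * v i - Q α μ v v * x i) / (α i - μ))) * hcs

theorem W1_deriv {x v : ℝ → V d} (h : Sol α B x v) (s : ℝ) :
    HasDerivAt (W1 x v) (be α B (x s) • X1 α (lev α (x s)) (W1 x v s) (W2 x v s)) s := by
  have h0 : X1 α (lev α (x s)) (W1 x v s) (W2 x v s) = _ :=
    X1_rot (lev α (x s)) (Real.cos s) (Real.sin s) (Real.cos_sq_add_sin_sq s) (x s) (v s)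
  have h1 := ((Real.hasDerivAt_cos s).smul (h.dx s)).sub ((Real.hasDerivAt_sin s).smul (h.dv s))
  rw [h0]
  refine h1.congr_deriv ?_
  ext i
  simp only [Pi.add_apply, Pi.smul_apply, Pi.sub_apply, Pi.neg_apply, smul_eq_mul]
  ring

theorem W2_deriv {x v : ℝ → V d} (h : Sol α B x v) (s : ℝ) :
    HasDerivAt (W2 x v) (be α B (x s) • X2 α (lev α (x s)) (W1 x v s) (W2 x v s)) s := by
  have h0 : X2 α (lev α (x s)) (W1 x v s) (W2 x v s) = _ :=
    X2_rot (lev α (x s)) (Real.cos s) (Real.sin s) (Real.cos_sq_add_sin_sq s) (x s) (v s)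
  have h1 := ((Real.hasDerivAt_sin s).smul (h.dx s)).add ((Real.hasDerivAt_cos s).smul (h.dv s))
  rw [h0]
  refine h1.congr_deriv ?_
  ext i
  simp only [Pi.add_apply, Pi.smul_apply, Pi.neg_apply, smul_eq_mul]
  ring

/-- if `b = 0` along a time interval then the frame is constant there -/
theorem W_const {x v : ℝ → V d} (h : Sol α B x v) {a b : ℝ}
    (hz : ∀ s ∈ Set.Icc a b, bb α B (x s) = 0) :
    ∀ s ∈ Set.Icc a b, W1 x v s = W1 x v a ∧ W2 x v s = W2 x v a := by
  have hbe : ∀ s ∈ Set.Icc a b, be α B (x s) = 0 := fun s hs => by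
    simp only [be, hz s hs, zero_div]
  have h1 : ∀ s ∈ Set.Icc a b, W1 x v s = W1 x v a :=
    constant_of_has_deriv_right_zero
      (fun s _ => (W1_deriv h s).continuousAt.continuousWithinAt)
      (fun s hs => by
        have := W1_deriv h s
        rw [hbe s ⟨hs.1, hs.2.le⟩, zero_smul] at this
        exact this.hasDerivWithinAt)
  have h2 : ∀ s ∈ Set.Icc a b, W2 x v s = W2 x v a :=
    constant_of_has_deriv_right_zero
      (fun s _ => (W2_deriv h s).continuousAt.continuousWithinAt)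
      (fun s hs => by
        have := W2_deriv h s
        rw [hbe s ⟨hs.1, hs.2.le⟩, zero_smul] at this
        exact this.hasDerivWithinAt)
  exact fun s hs => ⟨h1 s hs, h2 s hs⟩

end Pool.Agent.Work.MP_659252_gt.Z
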