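import Mathlib

/-!
# Comparison of two time changed solutions of an autonomous equation.  Size: M.  (Mathlib only.)

PROOF.  Let `G s = ∫ t in a..s, g t`, `G' s = ∫ t in a'..s, g' t`: continuous, strictly increasing, `G a = 0 = G' a'`, with derivative `g`, `g'` on the
interval.  By symmetry assume `G b ≤ G' b'`.  Both curves, read in the time `G` (resp. `G'`), solve the autonomous equation, so they agree on
`[0, G b]` by local uniqueness (`F` is locally Lipschitz) and a continuity argument.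
-/

namespace Pool.Agent.Work.MP_659252_gt.Z

open Set Filter Topology

/-- Uniqueness for an autonomous equation with locally Lipschitz right hand side. -/
private theorem autUniq {E : Type*} [NormedAddCommGroup E] [NormedSpace ℝ E] [FiniteDimensional ℝ E]
    (F : E → E) (U : Set E) (hU : IsOpen U) (hF : ContDiffOn ℝ 1 F U) {T : ℝ} (y y' : ℝ → E)
    (hy : ∀ s ∈ Icc 0 T, HasDerivAt y (F (y s)) s) (hy' : ∀ s ∈ Icc 0 T, HasDerivAt y' (F (y' s)) s)
    (hyU : ∀ s ∈ Icc 0 T, y s ∈ U) (h0 : y 0 = y' 0) : ∀ s ∈ Icc 0 T, y s = y' s := by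
  intro s hs
  have hT : (0 : ℝ) ≤ T := hs.1.trans hs.2
  have hcy : ContinuousOn y (Icc 0 T) := fun t ht => (hy t ht).continuousAt.continuousWithinAt
  have hcy' : ContinuousOn y' (Icc 0 T) := fun t ht => (hy' t ht).continuousAt.continuousWithinAt
  have key : Icc 0 T ⊆ {t | y t = y' t} := by
    apply IsClosed.Icc_subset_of_forall_mem_nhdsWithin
    · have : {t | y t = y' t} ∩ Icc 0 T = {t ∈ Icc 0 T | y t = y' t} := by
        ext t; simp [and_comm]
      rw [this]
      exact isClosed_Icc.isClosed_eq hcy hcy'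
    · exact h0
    · rintro x ⟨hx, hx0, hxT⟩
      have hx' : y x = y' x := hx
      have hxI : x ∈ Icc 0 T := ⟨hx0, hxT.le⟩
      have hc1 : ContDiffAt ℝ 1 F (y x) := hF.contDiffAt (hU.mem_nhds (hyU x hxI))
      obtain ⟨K, N, hN, hK⟩ := hc1.exists_lipschitzOnWith
      have h1 : ∀ᶠ t in 𝓝 x, y t ∈ N := (hy x hxI).continuousAt hN
      have h2 : ∀ᶠ t in 𝓝 x, y' t ∈ N := (hy' x hxI).continuousAt (by rw [← hx']; exact hN)
      obtain ⟨δ, hδ, hB⟩ := Metric.eventually_nhds_iff.1 (h1.and h2)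
      set c : ℝ := min (x + δ / 2) T with hc
      have hxc : x < c := lt_min (by linarith) hxT
      have hIcc : ∀ t ∈ Icc x c, t ∈ Icc 0 T := fun t ht => ⟨hx0.trans ht.1, ht.2.trans (min_le_right _ _)⟩
      have hnear : ∀ t ∈ Icc x c, y t ∈ N ∧ y' t ∈ N := by
        intro t ht
        apply hB
        rw [Real.dist_eq, abs_of_nonneg (by linarith [ht.1])]
        have : t ≤ x + δ / 2 := ht.2.trans (min_le_left _ _)
        linarith
      have huniq : EqOn y y' (Icc x c) := by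
        apply ODE_solution_unique_of_mem_Icc_right (v := fun _ => F) (s := fun _ => N) (K := K)
        · intro t ht; exact hK
        · exact hcy.mono hIcc
        · intro t ht; exact (hy t (hIcc t ⟨ht.1, ht.2.le⟩)).hasDerivWithinAt
        · intro t ht; exact (hnear t ⟨ht.1, ht.2.le⟩).1
        · exact hcy'.mono hIcc
        · intro t ht; exact (hy' t (hIcc t ⟨ht.1, ht.2.le⟩)).hasDerivWithinAt
        · intro t ht; exact (hnear t ⟨ht.1, ht.2.le⟩).2
        · exact hx'
      filter_upwards [Ioc_mem_nhdsGT hxc] with t ht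
      exact huniq ⟨ht.1.le, ht.2⟩
  exact key hs

/-- The time change: a homeomorphism `θ` of the line with `θ 0 = a`, strictly increasing, which turns `z` into a solution of the autonomous equation. -/
private theorem timeChange {a b : ℝ} (hab : a < b) (g : ℝ → ℝ) (hg : ContinuousOn g (Icc a b))
    (hgp : ∀ s ∈ Icc a b, 0 < g s) :
    ∃ θ : ℝ → ℝ, ∃ T : ℝ, 0 < T ∧ θ 0 = a ∧ θ T = b ∧ StrictMono θ ∧
      ∀ τ ∈ Icc 0 T, HasDerivAt θ (g (θ τ))⁻¹ τ := by
  set gt : ℝ → ℝ := IccExtend hab.le (domRestrict (Icc a b) g) with hgt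
  have hgtc : Continuous gt := continuous_IccExtend_iff.2 (continuousOn_iff_continuous_domRestrict.1 hg)
  have hgte : ∀ s ∈ Icc a b, gt s = g s := fun s hs => by
    rw [hgt, IccExtend_of_mem hab.le _ hs]; rfl
  obtain ⟨m, hm, hmin⟩ := isCompact_Icc.exists_isMinOn (nonempty_Icc.2 hab.le) hg
  set c := g m with hcdef
  have hc : 0 < c := hgp m hm
  have hgtlow : ∀ s, c ≤ gt s := by
    intro s
    rw [hgt, IccExtend_apply]
    exact hmin (projIcc a b hab.le s).2
  set G : ℝ → ℝ := fun s => ∫ t in a..s, gt t with hG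
  have hGd : ∀ s, HasDerivAt G (gt s) s := fun s => (hgtc.integral_hasStrictDerivAt a s).hasDerivAt
  have hGmono : StrictMono G := strictMono_of_hasDerivAt_pos hGd (fun s => hc.trans_le (hgtlow s))
  have hGc : Continuous G := continuous_iff_continuousAt.2 fun s => (hGd s).continuousAt
  have hGa : G a = 0 := by simp [hG]
  have hmono2 : Monotone (fun s => G s - c * s) := by
    apply monotone_of_deriv_nonneg
    · intro s; exact ((hGd s).sub ((hasDerivAt_id s).const_mul c)).differentiableAt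
    · intro s
      have := ((hGd s).sub ((hasDerivAt_id s).const_mul c)).deriv
      simp only [id, mul_one] at this
      have h2 : deriv (fun s => G s - c * s) s = gt s - c := this
      rw [h2]; linarith [hgtlow s]
  have htop : Tendsto G atTop atTop := by
    have h1 : Tendsto (fun s : ℝ => c * s - c * a) atTop atTop := by
      have := (tendsto_id (α := ℝ) (x := atTop)).const_mul_atTop hc
      exact tendsto_atTop_add_const_right _ (-(c * a)) this |>.congr (fun s => by simp [sub_eq_add_neg])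
    refine tendsto_atTop_mono' _ ?_ h1
    filter_upwards [eventually_ge_atTop a] with s hs
    have := hmono2 hs
    simp only [hGa] at this
    linarith
  have hbot : Tendsto G atBot atBot := by
    have h1 : Tendsto (fun s : ℝ => c * s - c * a) atBot atBot := by
      have := (tendsto_id (α := ℝ) (x := atBot)).const_mul_atBot hc
      exact tendsto_atBot_add_const_right _ (-(c * a)) this |>.congr (fun s => by simp [sub_eq_add_neg])
    refine tendsto_atBot_mono' _ ?_ h1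
    filter_upwards [eventually_le_atBot a] with s hs
    have := hmono2 hs
    simp only [hGa] at this
    linarith
  have hsurj : Function.Surjective G := hGc.surjective htop hbot
  let e : ℝ ≃o ℝ := StrictMono.orderIsoOfSurjective G hGmono hsurj
  have heG : ∀ s, e s = G s := fun s => rfl
  have hesymm : ∀ τ, G (e.symm τ) = τ := fun τ => by rw [← heG]; simp
  have hesymm' : ∀ s, e.symm (G s) = s := fun s => by rw [← heG]; simp
  refine ⟨e.symm, G b, ?_, ?_, ?_, e.symm.strictMono, ?_⟩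
  · rw [← hGa]; exact hGmono hab
  · rw [← hGa]; exact hesymm' a
  · exact hesymm' b
  · intro τ hτ
    have hmem : e.symm τ ∈ Icc a b := by
      constructor
      · have := e.symm.monotone hτ.1
        rw [← hGa, hesymm'] at this; exact this
      · have := e.symm.monotone hτ.2
        rw [hesymm'] at this; exact this
    rw [← hgte _ hmem]
    exact HasDerivAt.of_local_left_inverse e.symm.continuous.continuousAt (hGd _)
      (hc.trans_le (hgtlow _)).ne' (Eventually.of_forall hesymm)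

private theorem timeChange_curve {E : Type*} [NormedAddCommGroup E] [NormedSpace ℝ E]
    (F : E → E) {a b : ℝ} (z : ℝ → E) (g : ℝ → ℝ) (hgp : ∀ s ∈ Icc a b, 0 < g s)
    (hz : ∀ s ∈ Icc a b, HasDerivAt z (g s • F (z s)) s) (θ : ℝ → ℝ) {τ : ℝ}
    (hτ : θ τ ∈ Icc a b) (hθ : HasDerivAt θ (g (θ τ))⁻¹ τ) :
    HasDerivAt (fun τ => z (θ τ)) (F (z (θ τ))) τ := by
  have h1 := (hz (θ τ) hτ).scomp τ hθ
  rw [smul_smul, inv_mul_cancel₀ (hgp _ hτ).ne', one_smul] at h1
  exact h1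

private theorem comparison_aux {E : Type*} [NormedAddCommGroup E] [NormedSpace ℝ E]
    [FiniteDimensional ℝ E]
    (F : E → E) (U : Set E) (hU : IsOpen U) (hF : ContDiffOn ℝ 1 F U) (e : E → ℝ) {a b a' b' : ℝ}
    (z z' : ℝ → E) (g g' : ℝ → ℝ)
    (hgp : ∀ s ∈ Icc a b, 0 < g s) (hgp' : ∀ s ∈ Icc a' b', 0 < g' s)
    (hz : ∀ s ∈ Icc a b, HasDerivAt z (g s • F (z s)) s)
    (hz' : ∀ s ∈ Icc a' b', HasDerivAt z' (g' s • F (z' s)) s)
    (hzU : ∀ s ∈ Icc a b, z s ∈ U) (h0 : z a = z' a') (heb : e (z b) = 0)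
    (he' : ∀ s ∈ Ioo a' b', e (z' s) ≠ 0)
    (θ : ℝ → ℝ) (T : ℝ) (hT : 0 < T) (hθ0 : θ 0 = a) (hθT : θ T = b) (hθm : StrictMono θ)
    (hθd : ∀ τ ∈ Icc 0 T, HasDerivAt θ (g (θ τ))⁻¹ τ)
    (θ' : ℝ → ℝ) (T' : ℝ) (hT' : 0 < T') (hθ0' : θ' 0 = a') (hθT' : θ' T' = b')
    (hθm' : StrictMono θ') (hθd' : ∀ τ ∈ Icc 0 T', HasDerivAt θ' (g' (θ' τ))⁻¹ τ)
    (hTT : T ≤ T') : z b = z' b' := by
  have hmem : ∀ τ ∈ Icc 0 T, θ τ ∈ Icc a b := fun τ hτ =>
    ⟨hθ0 ▸ hθm.monotone hτ.1, hθT ▸ hθm.monotone hτ.2⟩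
  have hmem' : ∀ τ ∈ Icc 0 T', θ' τ ∈ Icc a' b' := fun τ hτ =>
    ⟨hθ0' ▸ hθm'.monotone hτ.1, hθT' ▸ hθm'.monotone hτ.2⟩
  have h1 := autUniq F U hU hF (T := T) (fun τ => z (θ τ)) (fun τ => z' (θ' τ))
    (fun τ hτ => timeChange_curve F z g hgp hz θ (hmem τ hτ) (hθd τ hτ))
    (fun τ hτ => timeChange_curve F z' g' hgp' hz' θ' (hmem' τ ⟨hτ.1, hτ.2.trans hTT⟩)
      (hθd' τ ⟨hτ.1, hτ.2.trans hTT⟩))
    (fun τ hτ => hzU _ (hmem τ hτ)) (by simpa [hθ0, hθ0'] using h0) T ⟨hT.le, le_rfl⟩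
  simp only [hθT] at h1
  rcases hTT.lt_or_eq with hlt | heq
  · exfalso
    have h2 : θ' T ∈ Ioo a' b' := ⟨hθ0' ▸ hθm' hT, hθT' ▸ hθm' hlt⟩
    exact he' _ h2 (h1 ▸ heb)
  · rw [h1, heq, hθT']

theorem comparison {E : Type*} [NormedAddCommGroup E] [NormedSpace ℝ E] [FiniteDimensional ℝ E]
    (F : E → E) (U : Set E) (hU : IsOpen U) (hF : ContDiffOn ℝ 1 F U) (e : E → ℝ) {a b a' b' : ℝ}
    (hab : a < b) (hab' : a' < b') (z z' : ℝ → E) (g g' : ℝ → ℝ)
    (hg : ContinuousOn g (Set.Icc a b)) (hg' : ContinuousOn g' (Set.Icc a' b'))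
    (hgp : ∀ s ∈ Set.Icc a b, 0 < g s) (hgp' : ∀ s ∈ Set.Icc a' b', 0 < g' s)
    (hz : ∀ s ∈ Set.Icc a b, HasDerivAt z (g s • F (z s)) s)
    (hz' : ∀ s ∈ Set.Icc a' b', HasDerivAt z' (g' s • F (z' s)) s)
    (hzU : ∀ s ∈ Set.Icc a b, z s ∈ U) (hzU' : ∀ s ∈ Set.Icc a' b', z' s ∈ U)
    (h0 : z a = z' a')
    (he : ∀ s ∈ Set.Ioo a b, e (z s) ≠ 0) (heb : e (z b) = 0)
    (he' : ∀ s ∈ Set.Ioo a' b', e (z' s) ≠ 0) (heb' : e (z' b') = 0) : z b = z' b' := by
  obtain ⟨θ, T, hT, hθ0, hθT, hθm, hθd⟩ := timeChange hab g hg hgp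
  obtain ⟨θ', T', hT', hθ0', hθT', hθm', hθd'⟩ := timeChange hab' g' hg' hgp'
  rcases le_total T T' with hTT | hTT
  · exact comparison_aux F U hU hF e z z' g g' hgp hgp' hz hz' hzU h0 heb he' θ T hT hθ0 hθT hθm
      hθd θ' T' hT' hθ0' hθT' hθm' hθd' hTT
  · exact (comparison_aux F U hU hF e z' z g' g hgp' hgp hz' hz hzU' h0.symm heb' he θ' T' hT'
      hθ0' hθT' hθm' hθd' θ T hT hθ0 hθT hθm hθd hTT).symm

end Pool.Agent.Work.MP_659252_gt.Z
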