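import Pool.Agent.Work.MP_659252_gt.Z.VarA

/-!
# The Euler-Lagrange equations.  Size: M.

PROOF.  For a constant vector `w` put `p_w(t) = val G (γ t) (γ' t) w` (smooth), `q_w(t) = ∑ (D_w G_ij)(γ t) γ'_i γ'_j`, both linear in `w`, and
`F(t) ∈ V d` with `F(t) ⬝ w = p_w'(t) - q_w(t)/2` for all `w` (`F_j = p_{e_j}' - q_{e_j}/2`), continuous (smooth).
For a smooth `φ : ℝ → ℝ` with support in `(a, b)` and a vector `e` let `W t = φ t • (e - (γ t ⬝ e) • γ t)`, tangent along `γ`.
`weak_EL`: `0 = ∫ (2 val G γ γ' W' + q_W)`, and `val G γ γ' W' = (val G γ γ' W)' - ∑_j W_j p_{e_j}'` (product rule), whose first part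
integrates to `0` (`W a = W b = 0`).  So `0 = -2 ∫ F(t) ⬝ W(t) dt = -2 ∫ φ(t) f(t) dt`, `f(t) = F(t) ⬝ (e - (γ t ⬝ e) γ t)` continuous.
As `φ` is arbitrary, `f = 0` (fundamental lemma: if `f(t₀) > 0` take a bump function `φ ≥ 0` at `t₀` supported where `f > 0`).
For `w` with `γ t ⬝ w = 0` take `e = w`: `F(t) ⬝ w = 0`, i.e. `p_w'(t) = q_w(t)/2`.
-/

namespace Pool.Agent.Work.MP_659252_gt.Z

open scoped ContDiff

variable {d : ℕ}

private noncomputable def pp (G : Ten d) (γ : ℝ → V d) (t : ℝ) : V d :=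
  fun j => ∑ i, G (γ t) i j * deriv γ t i

private noncomputable def qq (G : Ten d) (γ : ℝ → V d) (t : ℝ) (w : V d) : ℝ :=
  ∑ i, ∑ j, fderiv ℝ (fun x => G x i j) (γ t) w * (deriv γ t i * deriv γ t j)

private theorem val_pp (G : Ten d) (γ : ℝ → V d) (t : ℝ) (w : V d) :
    val G (γ t) (deriv γ t) w = pp G γ t ⬝ᵥ w := by
  unfold val pp dotProduct
  rw [Finset.sum_comm]
  refine Finset.sum_congr rfl fun j _ => ?_
  rw [Finset.sum_mul]
  exact Finset.sum_congr rfl fun i _ => by ring

private theorem qq_smul (G : Ten d) (γ : ℝ → V d) (t c : ℝ) (w : V d) :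
    qq G γ t (c • w) = c * qq G γ t w := by
  unfold qq
  rw [Finset.mul_sum]
  refine Finset.sum_congr rfl fun i _ => ?_
  rw [Finset.mul_sum]
  refine Finset.sum_congr rfl fun j _ => ?_
  rw [map_smul, smul_eq_mul]; ring

private theorem gne {G : Ten d} {γ : ℝ → V d} (hγ : IsGeodesic G γ) (t : ℝ) : γ t ∈ ({0}ᶜ : Set (V d)) := by
  intro h
  have h0 : γ t = 0 := h
  have := hγ.sphere t
  rw [h0] at this
  simp at this

private theorem smooth_G {G : Ten d} (hG : IsMetric G) {γ : ℝ → V d} (hγ : IsGeodesic G γ) (i j : Fin (d + 1)) :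
    ContDiff ℝ ∞ (fun t => G (γ t) i j) := by
  have h := hG.smooth.comp_contDiff hγ.smooth (gne hγ)
  exact contDiff_pi.mp (contDiff_pi.mp h i) j

private theorem smooth_dg {G : Ten d} {γ : ℝ → V d} (hγ : IsGeodesic G γ) : ContDiff ℝ ∞ (deriv γ) :=
  (contDiff_infty_iff_deriv.mp hγ.smooth).2

private theorem smooth_pp {G : Ten d} (hG : IsMetric G) {γ : ℝ → V d} (hγ : IsGeodesic G γ) :
    ContDiff ℝ ∞ (pp G γ) := by
  refine contDiff_pi.mpr fun j => ?_
  refine ContDiff.sum fun i _ => ?_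
  exact (smooth_G hG hγ i j).mul (contDiff_pi.mp (smooth_dg hγ) i)

private theorem cont_fd {G : Ten d} (hG : IsMetric G) {γ : ℝ → V d} (hγ : IsGeodesic G γ) (i j : Fin (d + 1)) :
    Continuous (fun t => fderiv ℝ (fun x => G x i j) (γ t)) := by
  have h1 : ContDiffOn ℝ ∞ (fun x => G x i j) ({0}ᶜ : Set (V d)) := by
    have := hG.smooth
    exact contDiffOn_pi.mp (contDiffOn_pi.mp this i) j
  have h2 : ContinuousOn (fderiv ℝ (fun x => G x i j)) ({0}ᶜ : Set (V d)) :=
    h1.continuousOn_fderiv_of_isOpen isOpen_compl_singleton (by simp)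
  exact h2.comp_continuous hγ.smooth.continuous (gne hγ)

private theorem cont_qq {G : Ten d} (hG : IsMetric G) {γ : ℝ → V d} (hγ : IsGeodesic G γ) {v : ℝ → V d}
    (hv : Continuous v) : Continuous (fun t => qq G γ t (v t)) := by
  unfold qq
  have hd : Continuous (deriv γ) := (smooth_dg hγ).continuous
  refine continuous_finsetSum _ fun i _ => continuous_finsetSum _ fun j _ => ?_
  refine ((cont_fd hG hγ i j).clm_apply hv).mul ?_
  exact ((continuous_apply i).comp hd).mul ((continuous_apply j).comp hd)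

private theorem cont_dot {f g : ℝ → V d} (hf : Continuous f) (hg : Continuous g) :
    Continuous (fun t => f t ⬝ᵥ g t) := by
  unfold dotProduct
  exact continuous_finsetSum _ fun i _ => ((continuous_apply i).comp hf).mul ((continuous_apply i).comp hg)

private theorem smooth_dot {f g : ℝ → V d} (hf : ContDiff ℝ ∞ f) (hg : ContDiff ℝ ∞ g) :
    ContDiff ℝ ∞ (fun t => f t ⬝ᵥ g t) := by
  unfold dotProduct
  exact ContDiff.sum fun i _ => (contDiff_pi.mp hf i).mul (contDiff_pi.mp hg i)

private theorem deriv_dot {f g : ℝ → V d} {f' g' : V d} {t : ℝ} (hf : HasDerivAt f f' t) (hg : HasDerivAt g g' t) :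
    HasDerivAt (fun t => f t ⬝ᵥ g t) (f' ⬝ᵥ g t + f t ⬝ᵥ g') t := by
  unfold dotProduct
  rw [← Finset.sum_add_distrib]
  refine HasDerivAt.fun_sum fun i _ => ?_
  exact (hasDerivAt_pi.mp hf i).mul (hasDerivAt_pi.mp hg i)

theorem strong_EL (G : Ten d) (hG : IsMetric G) (γ : ℝ → V d) (hγ : IsGeodesic G γ) (t : ℝ) (w : V d)
    (hw : γ t ⬝ᵥ w = 0) :
    HasDerivAt (fun s => val G (γ s) (deriv γ s) w)
      ((1 / 2) * ∑ i, ∑ j, fderiv ℝ (fun x => G x i j) (γ t) w * (deriv γ t i * deriv γ t j)) t := by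
  have hp : ContDiff ℝ ∞ (pp G γ) := smooth_pp hG hγ
  have hp' : ∀ s, HasDerivAt (pp G γ) (deriv (pp G γ) s) s := fun s =>
    ((hp.differentiable (by simp)) s).hasDerivAt
  have hdp : Continuous (deriv (pp G γ)) := (contDiff_infty_iff_deriv.mp hp).2.continuous
  set v : ℝ → V d := fun s => w - (γ s ⬝ᵥ w) • γ s with hv
  have hvs : ContDiff ℝ ∞ v :=
    contDiff_const.sub ((smooth_dot hγ.smooth contDiff_const).smul hγ.smooth)
  set f : ℝ → ℝ := fun s => 2 * (deriv (pp G γ) s ⬝ᵥ v s) - qq G γ s (v s) with hf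
  have hfc : Continuous f := (continuous_const.mul (cont_dot hdp hvs.continuous)).sub (cont_qq hG hγ hvs.continuous)
  have key : ∀ φ : ℝ → ℝ, ContDiff ℝ ∞ φ → HasCompactSupport φ → ∫ s, φ s • f s = 0 := by
    intro φ hφ hφc
    obtain ⟨R, hR⟩ := hφc.isCompact.isBounded.subset_ball (0 : ℝ)
    set R' : ℝ := max R 1 with hR'
    have hR1 : 0 < R' := lt_of_lt_of_le one_pos (le_max_right _ _)
    have hz : ∀ s, s ≤ -R' ∨ R' ≤ s → φ s = 0 := by
      intro s hs
      by_contra h
      have h1 : s ∈ tsupport φ := subset_tsupport _ h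
      have h2 := hR h1
      rw [Metric.mem_ball, dist_zero_right, Real.norm_eq_abs, abs_lt] at h2
      have h3 : R ≤ R' := le_max_left _ _
      rcases hs with h4 | h4 <;> linarith [h2.1, h2.2]
    set W : ℝ → V d := fun s => φ s • v s with hW
    have hWs : ContDiff ℝ ∞ W := hφ.smul hvs
    have hWd : ∀ s, HasDerivAt W (deriv W s) s := fun s =>
      ((hWs.differentiable (by simp)) s).hasDerivAt
    have hdW : Continuous (deriv W) := (contDiff_infty_iff_deriv.mp hWs).2.continuous
    have hperp : ∀ s, γ s ⬝ᵥ W s = 0 := by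
      intro s
      simp only [hW, hv, dotProduct_smul, dotProduct_sub, hγ.sphere s, smul_eq_mul, mul_one, sub_self, mul_zero]
    have hsupp : ∀ s, s ≤ -R' ∨ R' ≤ s → W s = 0 := by
      intro s hs
      simp only [hW, hz s hs, zero_smul]
    have hab : -R' < R' := by linarith
    have h0 := weak_EL G hG γ hγ (-R') R' hab W hWs hperp hsupp
    have h1 : ∫ s in (-R')..R', (deriv (pp G γ) s ⬝ᵥ W s + pp G γ s ⬝ᵥ deriv W s) = 0 := by
      have hint : IntervalIntegrable (fun s => deriv (pp G γ) s ⬝ᵥ W s + pp G γ s ⬝ᵥ deriv W s)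
          MeasureTheory.volume (-R') R' :=
        ((cont_dot hdp hWs.continuous).add (cont_dot hp.continuous hdW)).intervalIntegrable _ _
      rw [intervalIntegral.integral_eq_sub_of_hasDerivAt (fun s _ => deriv_dot (hp' s) (hWd s)) hint,
        hsupp R' (Or.inr le_rfl), hsupp (-R') (Or.inl le_rfl)]
      simp
    have h2 : ∫ s in (-R')..R', φ s • f s = 0 := by
      have e1 : ∫ s in (-R')..R', φ s • f s = ∫ s in (-R')..R',
          (2 * (deriv (pp G γ) s ⬝ᵥ W s + pp G γ s ⬝ᵥ deriv W s) -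
            (2 * val G (γ s) (deriv γ s) (deriv W s) +
            ∑ i, ∑ j, fderiv ℝ (fun x => G x i j) (γ s) (W s) * (deriv γ s i * deriv γ s j))) := by
        refine intervalIntegral.integral_congr fun s _ => ?_
        have e2 : ∑ i, ∑ j, fderiv ℝ (fun x => G x i j) (γ s) (W s) * (deriv γ s i * deriv γ s j)
            = φ s * qq G γ s (v s) := by
          rw [← qq_smul]; rfl
        have e3 : deriv (pp G γ) s ⬝ᵥ W s = φ s * (deriv (pp G γ) s ⬝ᵥ v s) := by
          simp only [hW, dotProduct_smul, smul_eq_mul]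
        show φ s • f s = _
        rw [e2, val_pp, e3, hf, smul_eq_mul]
        ring
      rw [e1, intervalIntegral.integral_sub, intervalIntegral.integral_const_mul, h1, h0]
      · simp
      · exact (continuous_const.mul ((cont_dot hdp hWs.continuous).add
          (cont_dot hp.continuous hdW))).intervalIntegrable _ _
      · refine Continuous.intervalIntegrable ?_ _ _
        refine Continuous.add ?_ ?_
        · simp only [val_pp]
          exact continuous_const.mul (cont_dot hp.continuous hdW)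
        · exact cont_qq hG hγ hWs.continuous
    rw [← h2]
    refine (intervalIntegral.integral_eq_integral_of_support_subset ?_).symm
    intro s hs
    rw [Function.mem_support] at hs
    have h3 : φ s ≠ 0 := fun h => hs (by rw [h, zero_smul])
    refine ⟨?_, ?_⟩
    · by_contra h
      exact h3 (hz s (Or.inl (not_lt.mp h)))
    · by_contra h
      exact h3 (hz s (Or.inr (not_le.mp h).le))
  have hae := ae_eq_zero_of_integral_contDiff_smul_eq_zero (μ := MeasureTheory.volume) hfc.locallyIntegrable key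
  have hf0 : f = fun _ => 0 := by
    refine (Continuous.ae_eq_iff_eq MeasureTheory.volume hfc continuous_const).mp ?_
    exact hae
  have hft : f t = 0 := congrFun hf0 t
  have hvt : v t = w := by
    simp only [hv, hw, zero_smul, sub_zero]
  rw [hf] at hft
  simp only [hvt] at hft
  have hder : HasDerivAt (fun s => pp G γ s ⬝ᵥ w) (deriv (pp G γ) t ⬝ᵥ w) t := by
    have := deriv_dot (hp' t) (hasDerivAt_const t w)
    simpa using this
  have e4 : (fun s => val G (γ s) (deriv γ s) w) = fun s => pp G γ s ⬝ᵥ w := funext fun s => val_pp G γ s w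
  rw [e4]
  have e5 : ((1 / 2 : ℝ) * ∑ i, ∑ j, fderiv ℝ (fun x => G x i j) (γ t) w * (deriv γ t i * deriv γ t j))
      = deriv (pp G γ) t ⬝ᵥ w := by
    have : ∑ i, ∑ j, fderiv ℝ (fun x => G x i j) (γ t) w * (deriv γ t i * deriv γ t j) = qq G γ t w := rfl
    rw [this]
    linarith
  rw [e5]
  exact hder

end Pool.Agent.Work.MP_659252_gt.Z
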