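import Mathlib

/-!
# Almost sinusoidal motions.  Size: M.  (Mathlib only, real analysis.)

`p`, `q` are Lipschitz with the small constant `η ≤ δ/100`, `X = cos s p + sin s q`, `Y = -sin s p + cos s q`.
PROOF of `half_pass`.  Let `q₀ = q 0 ≥ δ`.  For `0 ≤ s ≤ 5π/4 < 4`: `|p s| ≤ 4 η ≤ q₀/25`, `|q s - q₀| ≤ q₀/25`.
* `s ∈ [0, π/4]`: `cos s ≥ √2/2 > 7/10`, `0 ≤ sin s ≤ 1`: `X' = Y + e ≥ (7/10)(24/25) q₀ - q₀/25 - q₀/100 > 0`, `X 0 = 0`: `X > 0` on `(0, π/4]`
  (`strictMonoOn_of_deriv_pos`).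
* `s ∈ [π/4, 3π/4]`: `sin s ≥ 7/10`: `X ≥ (7/10)(24/25) q₀ - q₀/25 > 0`.
* `s ∈ [3π/4, 5π/4]`: `cos s ≤ -7/10`: `X' < 0`; `X (3π/4) > 0 > X (5π/4)` (`sin (5π/4) = -√2/2`): one zero `T`, `X > 0` on `[3π/4, T)`, and
  `Y T ≤ -(7/10)(24/25) q₀ + q₀/25 < 0`.
PROOF of `crossing`.  Write `p 0 = ρ sin φ`, `q 0 = ρ cos φ`, `ρ = √(p 0² + q 0²) ≥ δ`, `φ ∈ [-π, π]` (`Complex.arg` or `Real` polar coordinates).  For `|s| ≤ 4`:
`|X s - ρ sin (s + φ)| ≤ 8 η ≤ 8 ρ/100`, `|Y s - ρ cos (s + φ)| ≤ 8 ρ/100`.  At `s₋ = -φ - π/4`: `X < 0`, at `s₊ = -φ + π/4`: `X > 0`, between `Y > 0`.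
Intermediate value theorem (`p`, `q` are continuous).
-/

namespace Pool.Agent.Work.MP_659252_gt.Z

private lemma cos_ge {x : ℝ} (h : |x| ≤ Real.pi / 4) : 7 / 10 ≤ Real.cos x := by
  have hpi := Real.pi_pos
  have h1 : Real.cos (Real.pi / 4) ≤ Real.cos |x| :=
    Real.cos_le_cos_of_nonneg_of_le_pi (abs_nonneg x) (by linarith) h
  rw [Real.cos_abs, Real.cos_pi_div_four] at h1
  have h2 : (7 / 5 : ℝ) ≤ √2 := by
    apply Real.le_sqrt_of_sq_le
    norm_num
  linarith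

private lemma abs_mul_le {c x a : ℝ} (hc : |c| ≤ 1) (hx : |x| ≤ a) : |c * x| ≤ a := by
  rw [abs_mul]
  calc |c| * |x| ≤ 1 * |x| := mul_le_mul_of_nonneg_right hc (abs_nonneg x)
    _ ≤ a := by linarith

theorem half_pass (p q X Y : ℝ → ℝ) (δ η : ℝ) (hδ : 0 < δ) (hη : 0 ≤ η) (hsm : η ≤ δ / 100)
    (hp0 : p 0 = 0) (hq0 : δ ≤ q 0) (hp : ∀ s s', |p s - p s'| ≤ η * |s - s'|)
    (hq : ∀ s s', |q s - q s'| ≤ η * |s - s'|) (hX : ∀ s, X s = Real.cos s * p s + Real.sin s * q s)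
    (hY : ∀ s, Y s = -Real.sin s * p s + Real.cos s * q s)
    (hd : ∀ s, ∃ e, |e| ≤ η ∧ HasDerivAt X (Y s + e) s) :
    ∃ T, 3 * Real.pi / 4 < T ∧ T < 5 * Real.pi / 4 ∧ (∀ s ∈ Set.Ioo 0 T, 0 < X s) ∧ X T = 0 ∧ Y T < 0 := by
  have hpi := Real.pi_pos
  have hpi1 := Real.pi_lt_d2
  have hpi2 := Real.pi_gt_three
  set r : ℝ := q 0 with hr
  have hr0 : 0 < r := lt_of_lt_of_le hδ hq0
  have hηr : η ≤ r / 100 := by linarith
  have hP : ∀ s, 0 ≤ s → s ≤ 4 → |p s| ≤ r / 25 := by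
    intro s h0 h4
    have h1 := hp s 0
    rw [hp0, sub_zero, sub_zero, abs_of_nonneg h0] at h1
    nlinarith [mul_le_mul_of_nonneg_left h4 hη]
  have hQ : ∀ s, 0 ≤ s → s ≤ 4 → 24 / 25 * r ≤ q s := by
    intro s h0 h4
    have h1 := hq s 0
    rw [sub_zero, abs_of_nonneg h0] at h1
    have h2 := (abs_le.mp h1).1
    have h3 : η * s ≤ r / 25 := by nlinarith [mul_le_mul_of_nonneg_left h4 hη]
    linarith
  have hsp : ∀ s, 0 ≤ s → s ≤ 4 → |Real.sin s * p s| ≤ r / 25 := fun s h0 h4 =>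
    abs_mul_le (Real.abs_sin_le_one s) (hP s h0 h4)
  have hcp : ∀ s, 0 ≤ s → s ≤ 4 → |Real.cos s * p s| ≤ r / 25 := fun s h0 h4 =>
    abs_mul_le (Real.abs_cos_le_one s) (hP s h0 h4)
  -- trigonometric bounds
  have hcA : ∀ s, 0 ≤ s → s ≤ Real.pi / 4 → 7 / 10 ≤ Real.cos s := fun s h0 h1 =>
    cos_ge (by rw [abs_of_nonneg h0]; exact h1)
  have hsB : ∀ s, Real.pi / 4 ≤ s → s ≤ 3 * Real.pi / 4 → 7 / 10 ≤ Real.sin s := by
    intro s h0 h1
    rw [← Real.cos_pi_div_two_sub]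
    apply cos_ge
    rw [abs_le]
    constructor <;> linarith
  have hcC : ∀ s, 3 * Real.pi / 4 ≤ s → s ≤ 5 * Real.pi / 4 → Real.cos s ≤ -(7 / 10) := by
    intro s h0 h1
    have h2 : 7 / 10 ≤ Real.cos (s - Real.pi) := by
      apply cos_ge
      rw [abs_le]
      constructor <;> linarith
    rw [Real.cos_sub_pi] at h2
    linarith
  have hsC : Real.sin (5 * Real.pi / 4) ≤ -(7 / 10) := by
    have h2 : 7 / 10 ≤ Real.cos (-(Real.pi / 4)) := by
      apply cos_ge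
      rw [abs_neg, abs_of_nonneg (by linarith)]
    have h3 : Real.sin (5 * Real.pi / 4) = -Real.cos (-(Real.pi / 4)) := by
      rw [Real.cos_neg, ← Real.sin_pi_div_two_sub,
        show 5 * Real.pi / 4 = (Real.pi / 2 - Real.pi / 4) + Real.pi by ring, Real.sin_add_pi]
    rw [h3]
    linarith
  have hXc : Continuous X := by
    rw [continuous_iff_continuousAt]
    intro s
    obtain ⟨e, _, he⟩ := hd s
    exact he.continuousAt
  have hX0 : X 0 = 0 := by rw [hX, hp0]; simp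
  -- (A)
  have hA : ∀ s, 0 < s → s ≤ Real.pi / 4 → 0 < X s := by
    have hmono : StrictMonoOn X (Set.Icc 0 (Real.pi / 4)) := by
      apply strictMonoOn_of_deriv_pos (convex_Icc _ _) hXc.continuousOn
      intro s hs
      rw [interior_Icc] at hs
      obtain ⟨e, he, hde⟩ := hd s
      rw [hde.deriv, hY]
      have h1 := hcA s hs.1.le hs.2.le
      have h2 := hQ s hs.1.le (by linarith [hs.2])
      have h3 := (abs_le.mp (hsp s hs.1.le (by linarith [hs.2]))).2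
      have h4 := (abs_le.mp he).1
      have h5 : 7 / 10 * (24 / 25 * r) ≤ Real.cos s * q s :=
        mul_le_mul h1 h2 (by positivity) (by linarith)
      have h6 : -Real.sin s * p s = -(Real.sin s * p s) := by ring
      rw [h6]
      linarith
    intro s h0 h1
    have h2 := hmono (Set.left_mem_Icc.mpr (by linarith)) ⟨h0.le, h1⟩ h0
    rw [hX0] at h2
    exact h2
  -- (B)
  have hB : ∀ s, Real.pi / 4 ≤ s → s ≤ 3 * Real.pi / 4 → 0 < X s := by
    intro s h0 h1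
    have hs0 : 0 ≤ s := by linarith
    have hs4 : s ≤ 4 := by linarith
    have h2 := hsB s h0 h1
    have h3 := hQ s hs0 hs4
    have h4 := (abs_le.mp (hcp s hs0 hs4)).1
    have h5 : 7 / 10 * (24 / 25 * r) ≤ Real.sin s * q s :=
      mul_le_mul h2 h3 (by positivity) (by linarith)
    rw [hX]
    linarith
  -- (C)
  have hYC : ∀ s, 3 * Real.pi / 4 ≤ s → s ≤ 5 * Real.pi / 4 → Y s < -η := by
    intro s h0 h1
    have hs0 : 0 ≤ s := by linarith
    have hs4 : s ≤ 4 := by linarith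
    have h2 := hcC s h0 h1
    have h3 := hQ s hs0 hs4
    have h4 := (abs_le.mp (hsp s hs0 hs4)).1
    have h5 : 7 / 10 * (24 / 25 * r) ≤ (-Real.cos s) * q s :=
      mul_le_mul (by linarith) h3 (by positivity) (by linarith)
    have h6 : -Real.sin s * p s = -(Real.sin s * p s) := by ring
    have h7 : (-Real.cos s) * q s = -(Real.cos s * q s) := by ring
    rw [h7] at h5
    rw [hY, h6]
    linarith
  have hanti : StrictAntiOn X (Set.Icc (3 * Real.pi / 4) (5 * Real.pi / 4)) := by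
    apply strictAntiOn_of_deriv_neg (convex_Icc _ _) hXc.continuousOn
    intro s hs
    rw [interior_Icc] at hs
    obtain ⟨e, he, hde⟩ := hd s
    rw [hde.deriv]
    have h1 := hYC s hs.1.le hs.2.le
    have h4 := (abs_le.mp he).2
    linarith
  have hX3 : 0 < X (3 * Real.pi / 4) := hB _ (by linarith) le_rfl
  have hX5 : X (5 * Real.pi / 4) < 0 := by
    have hs0 : 0 ≤ 5 * Real.pi / 4 := by linarith
    have hs4 : 5 * Real.pi / 4 ≤ 4 := by linarith
    have h3 := hQ _ hs0 hs4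
    have h4 := (abs_le.mp (hcp _ hs0 hs4)).2
    have h5 : 7 / 10 * (24 / 25 * r) ≤ (-Real.sin (5 * Real.pi / 4)) * q (5 * Real.pi / 4) :=
      mul_le_mul (by linarith) h3 (by positivity) (by linarith)
    have h7 : (-Real.sin (5 * Real.pi / 4)) * q (5 * Real.pi / 4) =
      -(Real.sin (5 * Real.pi / 4) * q (5 * Real.pi / 4)) := by ring
    rw [h7] at h5
    rw [hX]
    linarith
  have hle : 3 * Real.pi / 4 ≤ 5 * Real.pi / 4 := by linarith
  obtain ⟨T, hT, hXT⟩ := intermediate_value_Icc' hle hXc.continuousOn ⟨hX5.le, hX3.le⟩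
  have hT1 : 3 * Real.pi / 4 < T := by
    rcases hT.1.lt_or_eq with h | h
    · exact h
    · rw [h] at hX3; linarith
  have hT2 : T < 5 * Real.pi / 4 := by
    rcases hT.2.lt_or_eq with h | h
    · exact h
    · rw [← h] at hX5; linarith
  refine ⟨T, hT1, hT2, ?_, hXT, ?_⟩
  · intro s hs
    rcases le_total s (Real.pi / 4) with h | h
    · exact hA s hs.1 h
    · rcases le_total s (3 * Real.pi / 4) with h' | h'
      · exact hB s h h'
      · have h2 := hanti ⟨h', hs.2.le.trans hT.2⟩ hT hs.2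
        rw [hXT] at h2
        exact h2
  · have := hYC T hT.1 hT.2
    linarith

theorem crossing (p q : ℝ → ℝ) (δ η : ℝ) (hδ : 0 < δ) (hη : 0 ≤ η) (hsm : η ≤ δ / 100)
    (hρ : δ ^ 2 ≤ p 0 ^ 2 + q 0 ^ 2) (hp : ∀ s s', |p s - p s'| ≤ η * |s - s'|)
    (hq : ∀ s s', |q s - q s'| ≤ η * |s - s'|) :
    ∃ s, Real.cos s * p s + Real.sin s * q s = 0 ∧ 0 < -Real.sin s * p s + Real.cos s * q s := by
  have hpi := Real.pi_pos
  have hpi1 := Real.pi_lt_d2
  have hpi2 := Real.pi_gt_three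
  let z : ℂ := ⟨q 0, p 0⟩
  set φ : ℝ := Complex.arg z with hφ
  set r : ℝ := ‖z‖ with hr
  have hr2 : r ^ 2 = p 0 ^ 2 + q 0 ^ 2 := by
    rw [hr, Complex.sq_norm, Complex.normSq_apply]
    show q 0 * q 0 + p 0 * p 0 = _
    ring
  have hr0 : 0 ≤ r := norm_nonneg z
  have hδr : δ ≤ r := by
    rw [← hr2] at hρ
    exact (pow_le_pow_iff_left₀ hδ.le hr0 two_ne_zero).mp hρ
  have hrpos : 0 < r := lt_of_lt_of_le hδ hδr
  have hq0 : q 0 = r * Real.cos φ := by
    have := Complex.norm_mul_cos_arg z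
    exact this.symm
  have hp0 : p 0 = r * Real.sin φ := by
    have := Complex.norm_mul_sin_arg z
    exact this.symm
  have hηr : η ≤ r / 100 := by linarith
  have hφ1 : -Real.pi < φ := Complex.neg_pi_lt_arg z
  have hφ2 : φ ≤ Real.pi := Complex.arg_le_pi z
  have hP : ∀ s, |s| ≤ 4 → |p s - p 0| ≤ r / 25 := by
    intro s h4
    have h1 := hp s 0
    rw [sub_zero] at h1
    nlinarith [mul_le_mul_of_nonneg_left h4 hη]
  have hQ : ∀ s, |s| ≤ 4 → |q s - q 0| ≤ r / 25 := by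
    intro s h4
    have h1 := hq s 0
    rw [sub_zero] at h1
    nlinarith [mul_le_mul_of_nonneg_left h4 hη]
  have hXe : ∀ s, |s| ≤ 4 → |Real.cos s * p s + Real.sin s * q s - r * Real.sin (s + φ)| ≤ 2 * r / 25 := by
    intro s h4
    have h1 := abs_mul_le (Real.abs_cos_le_one s) (hP s h4)
    have h2 := abs_mul_le (Real.abs_sin_le_one s) (hQ s h4)
    have h3 : Real.cos s * p s + Real.sin s * q s - r * Real.sin (s + φ) =
        Real.cos s * (p s - p 0) + Real.sin s * (q s - q 0) := by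
      rw [Real.sin_add, hp0, hq0]; ring
    rw [h3]
    have h4 := abs_add_le (Real.cos s * (p s - p 0)) (Real.sin s * (q s - q 0))
    linarith
  have hYe : ∀ s, |s| ≤ 4 → |-Real.sin s * p s + Real.cos s * q s - r * Real.cos (s + φ)| ≤ 2 * r / 25 := by
    intro s h4
    have h1 := abs_mul_le (Real.abs_cos_le_one s) (hQ s h4)
    have h2 := abs_mul_le (c := -Real.sin s) (by rw [abs_neg]; exact Real.abs_sin_le_one s) (hP s h4)
    have h3 : -Real.sin s * p s + Real.cos s * q s - r * Real.cos (s + φ) =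
        (-Real.sin s) * (p s - p 0) + Real.cos s * (q s - q 0) := by
      rw [Real.cos_add, hp0, hq0]; ring
    rw [h3]
    have h4 := abs_add_le ((-Real.sin s) * (p s - p 0)) (Real.cos s * (q s - q 0))
    linarith
  have hlip : ∀ g : ℝ → ℝ, (∀ s s', |g s - g s'| ≤ η * |s - s'|) → Continuous g := by
    intro g hg
    have : LipschitzWith ⟨η, hη⟩ g := by
      apply LipschitzWith.of_dist_le_mul
      intro x y
      rw [Real.dist_eq, Real.dist_eq]
      exact hg x y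
    exact this.continuous
  have hpc := hlip p hp
  have hqc := hlip q hq
  have hXc : Continuous fun s => Real.cos s * p s + Real.sin s * q s := by fun_prop
  have hlo : -φ - Real.pi / 4 ≤ -φ + Real.pi / 4 := by linarith
  have hle4 : ∀ s, -φ - Real.pi / 4 ≤ s → s ≤ -φ + Real.pi / 4 → |s| ≤ 4 := by
    intro s h0 h1
    rw [abs_le]
    constructor <;> linarith
  have hc4 : 7 / 10 ≤ Real.cos (Real.pi / 4) := by
    apply cos_ge
    rw [abs_of_nonneg (by linarith)]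
  have hs4 : 7 / 10 ≤ Real.sin (Real.pi / 4) := by
    rw [Real.sin_pi_div_four, ← Real.cos_pi_div_four]
    exact hc4
  have hX1 : Real.cos (-φ - Real.pi / 4) * p (-φ - Real.pi / 4) +
      Real.sin (-φ - Real.pi / 4) * q (-φ - Real.pi / 4) ≤ 0 := by
    have h1 := (abs_le.mp (hXe _ (hle4 _ le_rfl hlo))).2
    have h2 : Real.sin (-φ - Real.pi / 4 + φ) = -Real.sin (Real.pi / 4) := by
      rw [show -φ - Real.pi / 4 + φ = -(Real.pi / 4) by ring, Real.sin_neg]
    rw [h2] at h1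
    nlinarith
  have hX2 : 0 ≤ Real.cos (-φ + Real.pi / 4) * p (-φ + Real.pi / 4) +
      Real.sin (-φ + Real.pi / 4) * q (-φ + Real.pi / 4) := by
    have h1 := (abs_le.mp (hXe _ (hle4 _ hlo le_rfl))).1
    have h2 : Real.sin (-φ + Real.pi / 4 + φ) = Real.sin (Real.pi / 4) := by
      rw [show -φ + Real.pi / 4 + φ = (Real.pi / 4) by ring]
    rw [h2] at h1
    nlinarith
  obtain ⟨s, hs, hs0⟩ := intermediate_value_Icc hlo hXc.continuousOn ⟨hX1, hX2⟩
  refine ⟨s, hs0, ?_⟩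
  have h1 := (abs_le.mp (hYe s (hle4 s hs.1 hs.2))).1
  have h2 : 7 / 10 ≤ Real.cos (s + φ) := by
    apply cos_ge
    rw [abs_le]
    constructor <;> linarith [hs.1, hs.2]
  nlinarith

end Pool.Agent.Work.MP_659252_gt.Z
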