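import Pool.Agent.Work.MP_659252_gt.Z.Qm

/-!
# The level function.  Size: M.

`lev α x = sSup S`, `S = {μ | Adm α μ ∧ Q α μ x x ≤ 0}`.  For `x ≠ 0` the function `μ ↦ Q α μ x x` is continuous and strictly increasing on the
admissible interval (`Q_lt`, `Q_deriv`).
PROOF.  `lev_eq`: if `Q α μ x x = 0` then `S = {m | Adm α m ∧ m ≤ μ}` (strict monotonicity), whose greatest element is `μ` (`IsGreatest.csSup_eq`).
`lev_lt`: if `Q α μ x x > 0` then there is `m < μ` admissible with still `Q α m x x > 0` (continuity of `Q` in `μ`), all elements of `S` are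
`< m`, so `sSup S ≤ m < μ` (if `S` is empty then `sSup ∅ = 0 < μ`).
`lt_lev`: if `Q α μ x x < 0` then `Q α m x x < 0` for some admissible `m > μ` (continuity, openness), `m ∈ S`, and `S` is bounded above: by
`α j` for any `j ≠ 0` (there is one: `1 ≤ d`).  So `μ < m ≤ sSup S`.
`lev_root`: intermediate value theorem on `[μ, μ']` gives an admissible `m` with `Q α m x x = 0`, then `lev_eq`.
`lev_neg`, `lev_smul`: `Q α μ (c x) (c x) = c² Q α μ x x`, so the sets `S` agree.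
`bb_eq_zero`: if `Q α lo x x > 0` then `lev < lo`, if `= 0` then `lev = lo`, similarly `lev ≥ hi`; `B = 0` there (`D.supp`).  `bb_neg`: `Real.sign` is odd
(`Real.sign_neg`).
-/

namespace Pool.Agent.Work.MP_659252_gt.Z

variable {d : ℕ} {α : Fin (d + 1) → ℝ} {μ μ' : ℝ}

private theorem Qc (h0 : α 0 = 0) (hμ : Adm α μ) (x : V d) : ContinuousAt (fun m => Q α m x x) μ :=
  (Q_deriv h0 hμ x x).continuousAt

theorem lev_eq (h0 : α 0 = 0) (hμ : Adm α μ) (x : V d) (hx : x ≠ 0) (h : Q α μ x x = 0) : lev α x = μ := by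
  unfold lev
  apply IsGreatest.csSup_eq
  refine ⟨⟨hμ, h.le⟩, ?_⟩
  rintro m ⟨hm, hmQ⟩
  by_contra hcon
  rw [not_le] at hcon
  have := Q_lt h0 hμ hm hcon x hx
  linarith

theorem lev_lt (h0 : α 0 = 0) (hμ : Adm α μ) (x : V d) (hx : x ≠ 0) (h : 0 < Q α μ x x) : lev α x < μ := by
  have h1 : ∀ᶠ m in nhds μ, 0 < Q α m x x := (Qc h0 hμ x).eventually (lt_mem_nhds h)
  have h2 : ∀ᶠ m in nhds μ, Adm α m := (Adm.isOpen α).mem_nhds hμ
  have h3 : ∀ᶠ m in nhdsWithin μ (Set.Iio μ), (0 < Q α m x x ∧ Adm α m) ∧ m < μ :=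
    ((h1.and h2).filter_mono nhdsWithin_le_nhds).and self_mem_nhdsWithin
  obtain ⟨m, ⟨hmQ, hm⟩, hmμ⟩ := h3.exists
  refine lt_of_le_of_lt ?_ hmμ
  unfold lev
  apply Real.sSup_le _ hm.1.le
  rintro n ⟨hn, hnQ⟩
  by_contra hcon
  rw [not_le] at hcon
  have := Q_lt h0 hm hn hcon x hx
  linarith

theorem lt_lev (hd : 1 ≤ d) (h0 : α 0 = 0) (hμ : Adm α μ) (x : V d) (hx : x ≠ 0) (h : Q α μ x x < 0) :
    μ < lev α x := by
  have h1 : ∀ᶠ m in nhds μ, Q α m x x < 0 := (Qc h0 hμ x).eventually (gt_mem_nhds h)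
  have h2 : ∀ᶠ m in nhds μ, Adm α m := (Adm.isOpen α).mem_nhds hμ
  have h3 : ∀ᶠ m in nhdsWithin μ (Set.Ioi μ), (Q α m x x < 0 ∧ Adm α m) ∧ μ < m :=
    ((h1.and h2).filter_mono nhdsWithin_le_nhds).and self_mem_nhdsWithin
  obtain ⟨m, ⟨hmQ, hm⟩, hmμ⟩ := h3.exists
  refine lt_of_lt_of_le hmμ ?_
  unfold lev
  apply le_csSup _ (show m ∈ {μ | Adm α μ ∧ Q α μ x x ≤ 0} from ⟨hm, hmQ.le⟩)
  refine ⟨α (Fin.last d), ?_⟩
  rintro n ⟨hn, -⟩
  refine (hn.2 (Fin.last d) ?_).le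
  intro hlast
  have := congrArg Fin.val hlast
  simp at this
  omega

theorem lev_root (h0 : α 0 = 0) (hμ : Adm α μ) (hμ' : Adm α μ') (hle : μ ≤ μ') (x : V d) (hx : x ≠ 0)
    (h1 : Q α μ x x ≤ 0) (h2 : 0 ≤ Q α μ' x x) :
    μ ≤ lev α x ∧ lev α x ≤ μ' ∧ Q α (lev α x) x x = 0 := by
  have hc : ContinuousOn (fun m => Q α m x x) (Set.Icc μ μ') := by
    intro m hm
    exact (Qc h0 (hμ.convex hμ' hm.1 hm.2) x).continuousWithinAt
  obtain ⟨m, hm, hmQ⟩ := intermediate_value_Icc hle hc ⟨h1, h2⟩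
  have h3 := lev_eq h0 (hμ.convex hμ' hm.1 hm.2) x hx hmQ
  rw [h3]
  exact ⟨hm.1, hm.2, hmQ⟩

theorem lev_neg (x : V d) : lev α (-x) = lev α x := by
  unfold lev
  have h : ∀ m, Q α m (-x) (-x) = Q α m x x := by
    intro m
    rw [Q_neg, Q_comm, Q_neg, neg_neg]
  simp only [h]

theorem lev_smul (c : ℝ) (hc : c ≠ 0) (x : V d) : lev α (c • x) = lev α x := by
  unfold lev
  have h : ∀ m, Q α m (c • x) (c • x) ≤ 0 ↔ Q α m x x ≤ 0 := by
    intro m
    rw [Q_smul, Q_comm, Q_smul, ← mul_assoc]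
    have hc2 : 0 < c * c := mul_self_pos.2 hc
    constructor
    · intro h
      by_contra hcon
      rw [not_le] at hcon
      have := mul_pos hc2 hcon
      linarith
    · intro h
      exact mul_nonpos_of_nonneg_of_nonpos hc2.le h
  simp only [h]

/-- `b` vanishes below and above the ring -/
theorem bb_eq_zero {B : ℝ → ℝ} {lo hi : ℝ} (hd : 1 ≤ d) (D : Dat α B lo hi) (x : V d) (hx : x ≠ 0)
    (h : 0 ≤ Q α lo x x ∨ Q α hi x x ≤ 0) : bb α B x = 0 := by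
  unfold bb
  rw [D.supp, mul_zero]
  rintro ⟨h1, h2⟩
  rcases h with h | h
  · rcases h.eq_or_lt with h3 | h3
    · have := lev_eq D.a0 D.adm_lo x hx h3.symm
      linarith
    · have := lev_lt D.a0 D.adm_lo x hx h3
      linarith
  · rcases h.eq_or_lt with h3 | h3
    · have := lev_eq D.a0 D.adm_hi x hx h3
      linarith
    · have := lt_lev hd D.a0 D.adm_hi x hx h3
      linarith

theorem bb_neg (B : ℝ → ℝ) (x : V d) : bb α B (-x) = -bb α B x := by
  unfold bb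
  rw [lev_neg, Pi.neg_apply, Real.sign_neg, neg_mul]

end Pool.Agent.Work.MP_659252_gt.Z
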