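import Pool.Agent.Work.MP_659252_gt.Z.WDer
import Pool.Agent.Work.MP_659252_gt.Z.Lev

/-!
# Time reversal and antipody exchange `B` and `-B`.  Size: S-M.

Let `x' s = -x (-s)`, `v' s = v (-s)`.
PROOF.  `bb α (-B) (-x) = -(-sign x_0) B... = bb α B x`: precisely `bb α (fun μ => -B μ) (-x) = sign(-x_0) (-B (lev (-x))) = bb α B x` (`lev_neg`), and `Q2 α μ (-x) (-x) =
Q2 α μ x x`, so `be α (-B) (-x) = be α B x`.  `X1 α μ (-x) v = X1 α μ x v`, `X2 α μ (-x) v = -X2 α μ x v` (signs).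
`x'' = (d/ds)(-x (-s)) = x'(-s) = v (-s) + be X1 x v = v' + be' X1 (x') v'`.  `(v')' = -(v'(-s)) = x (-s) - be X2 x v = -x' + be' X2 x' v'`.
Orthonormality is clear.  The frames: `W1 x' v' s = cos s (-x (-s)) - sin s v (-s) = -(cos (-s) x (-s) - sin (-s) v (-s)) = -W1 x v (-s)`, and
`W2 x' v' s = sin s (-x (-s)) + cos s v (-s) = W2 x v (-s)`.
`shift` is immediate.
-/

namespace Pool.Agent.Work.MP_659252_gt.Z

variable {d : ℕ} {α : Fin (d + 1) → ℝ} {B : ℝ → ℝ}

private theorem refl_bb (x : V d) : bb α (fun μ => -B μ) (-x) = bb α B x := by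
  unfold bb
  rw [lev_neg, Pi.neg_apply, Real.sign_neg]
  ring

private theorem refl_Q (μ : ℝ) (x v : V d) : Q α μ v (-x) = -Q α μ v x := by
  rw [Q_comm, Q_neg, Q_comm]

private theorem refl_Q2 (μ : ℝ) (x : V d) : Q2 α μ (-x) (-x) = Q2 α μ x x := by
  unfold Q2
  exact Finset.sum_congr rfl fun i _ => by rw [Pi.neg_apply, neg_mul_neg]

private theorem refl_be (x : V d) : be α (fun μ => -B μ) (-x) = be α B x := by
  unfold be
  rw [refl_bb, lev_neg, refl_Q2]

private theorem refl_X1 (μ : ℝ) (x v : V d) : X1 α μ (-x) v = X1 α μ x v := by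
  funext i
  unfold X1
  rw [Q_neg, refl_Q, Q_neg, Pi.neg_apply]
  ring

private theorem refl_X2 (μ : ℝ) (x v : V d) : X2 α μ (-x) v = -X2 α μ x v := by
  funext i
  unfold X2
  rw [Pi.neg_apply, Q_neg, Pi.neg_apply]
  ring

private theorem refl_comp {y : ℝ → V d} {D : V d} {s : ℝ} (h : HasDerivAt y D (-s)) :
    HasDerivAt (fun s => y (-s)) (-D) s := by
  have h1 := HasDerivAt.scomp s h (hasDerivAt_neg s)
  rw [neg_one_smul] at h1
  exact h1

theorem Sol.reflect {x v : ℝ → V d} (h : Sol α B x v) :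
    Sol α (fun μ => -B μ) (fun s => -x (-s)) (fun s => v (-s)) := by
  refine ⟨fun s => ?_, fun s => ?_, fun s => h.vv (-s), fun s => ?_, fun s => ?_⟩
  · change (-x (-s)) ⬝ᵥ (-x (-s)) = 1
    rw [neg_dotProduct, dotProduct_neg, neg_neg]
    exact h.xx (-s)
  · change (-x (-s)) ⬝ᵥ v (-s) = 0
    rw [neg_dotProduct, h.xv (-s), neg_zero]
  · have h1 := (refl_comp (h.dx (-s))).neg
    change HasDerivAt (fun s => -x (-s)) (v (-s) + be α (fun μ => -B μ) (-x (-s)) •
      X1 α (lev α (-x (-s))) (-x (-s)) (v (-s))) s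
    rw [refl_be, lev_neg, refl_X1]
    rw [neg_neg] at h1
    exact h1
  · have h1 := refl_comp (h.dv (-s))
    change HasDerivAt (fun s => v (-s)) (-(-x (-s)) + be α (fun μ => -B μ) (-x (-s)) •
      X2 α (lev α (-x (-s))) (-x (-s)) (v (-s))) s
    rw [refl_be, lev_neg, refl_X2, smul_neg, ← neg_add]
    exact h1

theorem W_reflect (x v : ℝ → V d) (s : ℝ) :
    W1 (fun s => -x (-s)) (fun s => v (-s)) s = -W1 x v (-s) ∧
      W2 (fun s => -x (-s)) (fun s => v (-s)) s = W2 x v (-s) := by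
  constructor
  · funext i
    simp only [W1, Real.cos_neg, Real.sin_neg, Pi.sub_apply, Pi.neg_apply, Pi.smul_apply, smul_eq_mul]
    ring
  · funext i
    simp only [W2, Real.cos_neg, Real.sin_neg, Pi.add_apply, Pi.neg_apply, Pi.smul_apply, smul_eq_mul]
    ring

theorem Sol.shift {x v : ℝ → V d} (h : Sol α B x v) (c : ℝ) :
    Sol α B (fun s => x (s + c)) (fun s => v (s + c)) := by
  refine ⟨fun s => h.xx (s + c), fun s => h.xv (s + c), fun s => h.vv (s + c), fun s => ?_, fun s => ?_⟩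
  · exact (h.dx (s + c)).comp_add_const s c
  · exact (h.dv (s + c)).comp_add_const s c

end Pool.Agent.Work.MP_659252_gt.Z
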