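import Pool.Agent.Work.MP_659252_gt.Z.Qm

/-!
# A great circle which leaves a cone in the upper half does not come back.  Size: M.

Let `y s = cos s w₁ + sin s w₂`, `y_0 > 0` on `[s', s'']`, `Q y y = 0` at `s'` and `Q (y s') (y' s') ≥ 0`.
PROOF.  Put `x = y s'`, `u = -sin s' w₁ + cos s' w₂ = y' s'`, `r = s'' - s' > 0`: `y s'' = cos r x + sin r u`.
`r < π`: otherwise `s' + π ∈ [s', s'']` and `y (s' + π) = -x` has negative `0`-component.  So `sin r > 0`.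
`z = u_0 x - x_0 u` has `z_0 = 0`, `z ≠ 0` (`x`, `u` are linearly independent because `w₁`, `w₂` are, `x_0 > 0`), so `0 < Q z z = -2 u_0 x_0 Q x u + x_0² Q u u`
(`Q_pos`, `Q x x = 0`), i.e. `x_0 Q u u > 2 u_0 Q x u`.
`Q (y s'') (y s'') = sin² r Q u u + 2 sin r cos r Q x u`, times `x_0 > 0`: `> sin r · 2 Q x u (u_0 sin r + x_0 cos r) ≥ 0`, because
`u_0 sin r + x_0 cos r = (y s'')_0 > 0` and `Q x u ≥ 0`, `sin r > 0`.
-/

namespace Pool.Agent.Work.MP_659252_gt.Z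

variable {d : ℕ} {α : Fin (d + 1) → ℝ} {μ : ℝ}

private theorem Q_comb (a b : ℝ) (x u : V d) :
    Q α μ (a • x + b • u) (a • x + b • u) =
      a ^ 2 * Q α μ x x + 2 * a * b * Q α μ x u + b ^ 2 * Q α μ u u := by
  rw [Q_add, Q_smul, Q_smul, Q_comm α μ x (a • x + b • u), Q_comm α μ u (a • x + b • u), Q_add, Q_add, Q_smul,
    Q_smul, Q_smul, Q_smul, Q_comm α μ u x]
  ring

theorem arc_pos (hμ : Adm α μ) (w₁ w₂ : V d) (h11 : w₁ ⬝ᵥ w₁ = 1) (h12 : w₁ ⬝ᵥ w₂ = 0) (h22 : w₂ ⬝ᵥ w₂ = 1)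
    (s' s'' : ℝ) (hlt : s' < s'')
    (hpos : ∀ s ∈ Set.Icc s' s'', 0 < (Real.cos s • w₁ + Real.sin s • w₂) 0)
    (hz : Q α μ (Real.cos s' • w₁ + Real.sin s' • w₂) (Real.cos s' • w₁ + Real.sin s' • w₂) = 0)
    (hd : 0 ≤ Q α μ (Real.cos s' • w₁ + Real.sin s' • w₂) (-Real.sin s' • w₁ + Real.cos s' • w₂)) :
    0 < Q α μ (Real.cos s'' • w₁ + Real.sin s'' • w₂) (Real.cos s'' • w₁ + Real.sin s'' • w₂) := by
  obtain ⟨x, hx⟩ : ∃ x, x = Real.cos s' • w₁ + Real.sin s' • w₂ := ⟨_, rfl⟩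
  obtain ⟨u, hu⟩ : ∃ u, u = -Real.sin s' • w₁ + Real.cos s' • w₂ := ⟨_, rfl⟩
  obtain ⟨r, hr⟩ : ∃ r, r = s'' - s' := ⟨_, rfl⟩
  have hr0 : 0 < r := by rw [hr]; linarith
  have hs'' : s'' = s' + r := by rw [hr]; ring
  have h21 : w₂ ⬝ᵥ w₁ = 0 := by rw [dotProduct_comm]; exact h12
  have hsc := Real.sin_sq_add_cos_sq s'
  have hxx : x ⬝ᵥ x = 1 := by
    rw [hx]
    simp only [add_dotProduct, dotProduct_add, smul_dotProduct, dotProduct_smul, smul_eq_mul, h11, h12, h22, h21]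
    linarith
  have hxu : x ⬝ᵥ u = 0 := by
    rw [hx, hu]
    simp only [add_dotProduct, dotProduct_add, smul_dotProduct, dotProduct_smul, smul_eq_mul, h11, h12, h22, h21]
    ring
  have hux : u ⬝ᵥ x = 0 := by rw [dotProduct_comm]; exact hxu
  have huu : u ⬝ᵥ u = 1 := by
    rw [hu]
    simp only [add_dotProduct, dotProduct_add, smul_dotProduct, dotProduct_smul, smul_eq_mul, h11, h12, h22, h21]
    linarith
  have hx0 : 0 < x 0 := by
    rw [hx]
    exact hpos s' ⟨le_refl _, hlt.le⟩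
  have hrpi : r < Real.pi := by
    by_contra hcon
    push Not at hcon
    have h1 := hpos (s' + Real.pi) ⟨by linarith [Real.pi_pos], by linarith⟩
    rw [Real.cos_add_pi, Real.sin_add_pi] at h1
    rw [hx] at hx0
    simp only [Pi.add_apply, Pi.smul_apply, smul_eq_mul] at h1 hx0
    linarith
  have hsin : 0 < Real.sin r := Real.sin_pos_of_pos_of_lt_pi hr0 hrpi
  have hy : Real.cos s'' • w₁ + Real.sin s'' • w₂ = Real.cos r • x + Real.sin r • u := by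
    rw [hs'', Real.cos_add, Real.sin_add, hx, hu]
    funext i
    simp only [Pi.add_apply, Pi.smul_apply, smul_eq_mul]
    ring
  have hy0 : 0 < Real.cos r * x 0 + Real.sin r * u 0 := by
    have h1 := hpos s'' ⟨hlt.le, le_refl _⟩
    rw [hy] at h1
    simpa only [Pi.add_apply, Pi.smul_apply, smul_eq_mul] using h1
  rw [← hx] at hz hd
  rw [← hu] at hd
  have hzne : u 0 • x + (-x 0) • u ≠ 0 := by
    intro h0
    have h1 : (u 0 • x + (-x 0) • u) ⬝ᵥ (u 0 • x + (-x 0) • u) = 0 := by rw [h0, zero_dotProduct]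
    simp only [add_dotProduct, dotProduct_add, smul_dotProduct, dotProduct_smul, smul_eq_mul, hxx, hxu, hux,
      huu] at h1
    nlinarith [sq_nonneg (u 0), mul_pos hx0 hx0]
  have hz0 : (u 0 • x + (-x 0) • u) 0 = 0 := by
    simp only [Pi.add_apply, Pi.smul_apply, smul_eq_mul]
    ring
  have hQz := Q_pos hμ _ hzne hz0
  rw [Q_comb, hz] at hQz
  have h1 : 0 < x 0 * (x 0 * Q α μ u u - 2 * u 0 * Q α μ x u) := by nlinarith [hQz]
  have h2 : 0 < x 0 * Q α μ u u - 2 * u 0 * Q α μ x u := (pos_iff_pos_of_mul_pos h1).mp hx0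
  rw [hy, Q_comb, hz]
  have h3 : 0 < Real.sin r * (Real.sin r * (x 0 * Q α μ u u - 2 * u 0 * Q α μ x u)) :=
    mul_pos hsin (mul_pos hsin h2)
  have h4 : 0 ≤ 2 * Real.sin r * Q α μ x u * (Real.cos r * x 0 + Real.sin r * u 0) := by positivity
  have h5 : 0 < x 0 * (Real.cos r ^ 2 * 0 + 2 * Real.cos r * Real.sin r * Q α μ x u +
      Real.sin r ^ 2 * Q α μ u u) := by nlinarith [h3, h4]
  exact (pos_iff_pos_of_mul_pos h5).mp hx0

end Pool.Agent.Work.MP_659252_gt.Z
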