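import Pool.Agent.Work.MP_659252_gt.Z.Defs

/-!
# Auxiliary notions
-/

namespace Pool.Agent.Work.MP_659252_gt.Z

open scoped ContDiff

variable {d : ℕ}

/-- `A_μ x` -/
noncomputable def AX (α : Fin (d + 1) → ℝ) (μ : ℝ) (x : V d) : V d := fun i => x i / (α i - μ)

/-- minus the Gram determinant of `Q_μ` on the plane of `x`, `v` -/
noncomputable def RR (α : Fin (d + 1) → ℝ) (μ : ℝ) (x v : V d) : ℝ :=
  Q α μ x v ^ 2 - Q α μ x x * Q α μ v v

/-- the derivative of `RR` in `μ` -/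
noncomputable def RR' (α : Fin (d + 1) → ℝ) (μ : ℝ) (x v : V d) : ℝ :=
  2 * Q α μ x v * Q2 α μ x v - Q2 α μ x x * Q α μ v v - Q α μ x x * Q2 α μ v v

/-- `M x`, where `M = -2 A ω A`, `ω = x vᵀ - v xᵀ` -/
noncomputable def X1 (α : Fin (d + 1) → ℝ) (μ : ℝ) (x v : V d) : V d := fun i =>
  2 * (Q α μ x x * v i - Q α μ x v * x i) / (α i - μ)

/-- `M v` -/
noncomputable def X2 (α : Fin (d + 1) → ℝ) (μ : ℝ) (x v : V d) : V d := fun i =>
  2 * (Q α μ x v * v i - Q α μ v v * x i) / (α i - μ)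

/-- the odd function `b` -/
noncomputable def bb (α : Fin (d + 1) → ℝ) (B : ℝ → ℝ) (x : V d) : ℝ := Real.sign (x 0) * B (lev α x)

/-- `β = b / (2 (1 + b) N)` -/
noncomputable def be (α : Fin (d + 1) → ℝ) (B : ℝ → ℝ) (x : V d) : ℝ :=
  bb α B x / (2 * (1 + bb α B x) * Q2 α (lev α x) x x)

/-- the hypotheses on `α` and `B`: `B` is smooth and vanishes outside of `lo < μ < hi`. -/
structure Dat (α : Fin (d + 1) → ℝ) (B : ℝ → ℝ) (lo hi : ℝ) : Prop where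
  a0 : α 0 = 0
  lo_pos : 0 < lo
  lo_hi : lo < hi
  adm : ∀ j, j ≠ 0 → hi < α j
  smooth : ContDiff ℝ ∞ B
  supp : ∀ μ, μ ∉ Set.Ioo lo hi → B μ = 0

/-- solutions of the first order system `x' = v + β M x`, `v' = -x + β M v` on the unit tangent bundle -/
structure Sol (α : Fin (d + 1) → ℝ) (B : ℝ → ℝ) (x v : ℝ → V d) : Prop where
  xx : ∀ s, x s ⬝ᵥ x s = 1
  xv : ∀ s, x s ⬝ᵥ v s = 0
  vv : ∀ s, v s ⬝ᵥ v s = 1
  dx : ∀ s, HasDerivAt x (v s + be α B (x s) • X1 α (lev α (x s)) (x s) (v s)) s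
  dv : ∀ s, HasDerivAt v (-x s + be α B (x s) • X2 α (lev α (x s)) (x s) (v s)) s

/-- rotating frame, first vector -/
noncomputable def W1 (x v : ℝ → V d) (s : ℝ) : V d := Real.cos s • x s - Real.sin s • v s

/-- rotating frame, second vector -/
noncomputable def W2 (x v : ℝ → V d) (s : ℝ) : V d := Real.sin s • x s + Real.cos s • v s

/-- the metric `⟨v, w⟩ + ((1 + b)² - 1) ⟨ν, v⟩ ⟨ν, w⟩` -/
noncomputable def Gt (α : Fin (d + 1) → ℝ) (B : ℝ → ℝ) : Ten d := fun x i j =>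
  (if i = j then 1 else 0) + ((1 + bb α B x) ^ 2 - 1) *
    (AX α (lev α x) x i * AX α (lev α x) x j / Q2 α (lev α x) x x)

theorem Dat.adm_lo {α : Fin (d + 1) → ℝ} {B : ℝ → ℝ} {lo hi : ℝ} (D : Dat α B lo hi) : Adm α lo :=
  ⟨D.lo_pos, fun j hj => D.lo_hi.trans (D.adm j hj)⟩

theorem Dat.adm_hi {α : Fin (d + 1) → ℝ} {B : ℝ → ℝ} {lo hi : ℝ} (D : Dat α B lo hi) : Adm α hi :=
  ⟨D.lo_pos.trans D.lo_hi, D.adm⟩

theorem Dat.adm_mem {α : Fin (d + 1) → ℝ} {B : ℝ → ℝ} {lo hi : ℝ} (D : Dat α B lo hi) {μ : ℝ} (h1 : lo ≤ μ)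
    (h2 : μ ≤ hi) : Adm α μ :=
  ⟨D.lo_pos.trans_le h1, fun j hj => h2.trans_lt (D.adm j hj)⟩

theorem Dat.neg {α : Fin (d + 1) → ℝ} {B : ℝ → ℝ} {lo hi : ℝ} (D : Dat α B lo hi) :
    Dat α (fun μ => -B μ) lo hi :=
  ⟨D.a0, D.lo_pos, D.lo_hi, D.adm, D.smooth.neg, fun μ h => by rw [D.supp μ h, neg_zero]⟩

/-- `α_i - μ ≠ 0` for admissible `μ` -/
theorem Adm.ne {α : Fin (d + 1) → ℝ} (h0 : α 0 = 0) {μ : ℝ} (hμ : Adm α μ) (i : Fin (d + 1)) : α i - μ ≠ 0 := by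
  by_cases hi : i = 0
  · rw [hi, h0]
    have := hμ.1
    intro h
    linarith
  · have := hμ.2 i hi
    intro h
    linarith

theorem Q_comm (α : Fin (d + 1) → ℝ) (μ : ℝ) (x y : V d) : Q α μ x y = Q α μ y x := by
  unfold Q
  exact Finset.sum_congr rfl fun i _ => by rw [mul_comm]

theorem Q_add (α : Fin (d + 1) → ℝ) (μ : ℝ) (x y z : V d) : Q α μ (x + y) z = Q α μ x z + Q α μ y z := by
  unfold Q
  rw [← Finset.sum_add_distrib]
  exact Finset.sum_congr rfl fun i _ => by rw [Pi.add_apply]; ring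

theorem Q_smul (α : Fin (d + 1) → ℝ) (μ c : ℝ) (x z : V d) : Q α μ (c • x) z = c * Q α μ x z := by
  unfold Q
  rw [Finset.mul_sum]
  exact Finset.sum_congr rfl fun i _ => by rw [Pi.smul_apply, smul_eq_mul]; ring

theorem Q_neg (α : Fin (d + 1) → ℝ) (μ : ℝ) (x z : V d) : Q α μ (-x) z = -Q α μ x z := by
  unfold Q
  rw [← Finset.sum_neg_distrib]
  exact Finset.sum_congr rfl fun i _ => by rw [Pi.neg_apply]; ring

theorem Q2_comm (α : Fin (d + 1) → ℝ) (μ : ℝ) (x y : V d) : Q2 α μ x y = Q2 α μ y x := by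
  unfold Q2
  exact Finset.sum_congr rfl fun i _ => by rw [mul_comm]

theorem Q2_add (α : Fin (d + 1) → ℝ) (μ : ℝ) (x y z : V d) : Q2 α μ (x + y) z = Q2 α μ x z + Q2 α μ y z := by
  unfold Q2
  rw [← Finset.sum_add_distrib]
  exact Finset.sum_congr rfl fun i _ => by rw [Pi.add_apply]; ring

theorem Q2_smul (α : Fin (d + 1) → ℝ) (μ c : ℝ) (x z : V d) : Q2 α μ (c • x) z = c * Q2 α μ x z := by
  unfold Q2
  rw [Finset.mul_sum]
  exact Finset.sum_congr rfl fun i _ => by rw [Pi.smul_apply, smul_eq_mul]; ring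

/-- `Q_μ` and `Q'_μ` in terms of `A_μ` -/
theorem Q_eq_dot (α : Fin (d + 1) → ℝ) (μ : ℝ) (x y : V d) : Q α μ x y = AX α μ x ⬝ᵥ y := by
  unfold Q AX dotProduct
  exact Finset.sum_congr rfl fun i _ => by ring

theorem Q2_eq_dot (α : Fin (d + 1) → ℝ) (μ : ℝ) (x y : V d) : Q2 α μ x y = AX α μ x ⬝ᵥ AX α μ y := by
  unfold Q2 AX dotProduct
  exact Finset.sum_congr rfl fun i _ => by rw [div_mul_div_comm, sq]

end Pool.Agent.Work.MP_659252_gt.Z
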