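import Pool.Agent.Work.MP_659252_gt.Z.Lev

/-!
# Bounds.  Size: M.

PROOF of `bound`.  If `bb α B x = 0` both sides are `0`.  Otherwise `μ = lev α x ∈ [lo, hi]` and `Q α μ x x = 0` (`bb_eq_zero` contraposed, `lev_root`).  Let
`K = ∑ i, (1/|α_i - lo| + 1/|α_i - hi|)` or any bound of all `1/|α_i - m|`, `m ∈ [lo, hi]` (for `i = 0`: `1/m ≤ 1/lo`; for `j ≠ 0`:
`1/(α_j - m) ≤ 1/(α_j - hi)`), and `L` a bound of all `|α_i - m|` (`i = 0`: `≤ hi`; `j ≠ 0`: `≤ α_j`).  With `|x_i|, |v_i| ≤ 1`: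
`|Q(y,z)| ≤ (d+1) K`, `|X1 i|, |X2 i| ≤ 4 (d+1) K²`, `N = ∑ x_i²/(α_i - μ)² ≥ 1/L²` (`∑ x_i² = 1`), `|be| ≤ |b|/(2 (1/2) N) ≤ ε L²`
(`|b| ≤ |B μ| ≤ ε ≤ 1/2`).  `C = 4 (d+1) K² L² + 1`.
PROOF of `below`.  `Q α lo x x ≥ (1 - x_0²)/M - x_0²/lo`, `M` a bound of the `α_j - lo` (`j ≠ 0`), e.g. `M = 1 + ∑ |α_j|`; it is positive if
`x_0² < δ²`, `δ² = lo/(2 (lo + M))`, say.
-/

namespace Pool.Agent.Work.MP_659252_gt.Z

variable {d : ℕ} {α : Fin (d + 1) → ℝ} {lo hi : ℝ}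

private theorem bnd_unit {x : V d} (h : x ⬝ᵥ x = 1) (i : Fin (d + 1)) : |x i| ≤ 1 := by
  rw [abs_le_one_iff_mul_self_le_one, ← h]
  unfold dotProduct
  exact Finset.single_le_sum (f := fun j => x j * x j) (fun j _ => mul_self_nonneg (x j))
    (Finset.mem_univ i)

private theorem bnd_inv (h0 : α 0 = 0) (hlo : 0 < lo) (hα : ∀ j, j ≠ 0 → hi < α j) {m : ℝ}
    (h1 : lo ≤ m) (h2 : m ≤ hi) (i : Fin (d + 1)) :
    |(α i - m)⁻¹| ≤ lo⁻¹ + ∑ j, |(α j - hi)⁻¹| := by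
  by_cases hi0 : i = 0
  · rw [hi0, h0, zero_sub, abs_inv, abs_neg, abs_of_pos (hlo.trans_le h1)]
    have h3 : m⁻¹ ≤ lo⁻¹ := inv_anti₀ hlo h1
    have h4 : 0 ≤ ∑ j, |(α j - hi)⁻¹| := Finset.sum_nonneg fun j _ => abs_nonneg _
    linarith
  · have hj := hα i hi0
    have h3 : 0 < α i - hi := by linarith
    have h4 : (α i - m)⁻¹ ≤ (α i - hi)⁻¹ := inv_anti₀ h3 (by linarith)
    have h5 : |(α i - m)⁻¹| = (α i - m)⁻¹ := abs_of_pos (inv_pos.2 (by linarith))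
    have h6 : |(α i - hi)⁻¹| ≤ ∑ j, |(α j - hi)⁻¹| :=
      Finset.single_le_sum (f := fun j => |(α j - hi)⁻¹|) (fun j _ => abs_nonneg _)
        (Finset.mem_univ i)
    have h7 : (α i - hi)⁻¹ ≤ |(α i - hi)⁻¹| := le_abs_self _
    have h8 : 0 < lo⁻¹ := inv_pos.2 hlo
    rw [h5]
    linarith

private theorem bnd_Q {K m : ℝ} (hK : ∀ i, |(α i - m)⁻¹| ≤ K) {y z : V d} (hy : ∀ i, |y i| ≤ 1)
    (hz : ∀ i, |z i| ≤ 1) : |Q α m y z| ≤ (d + 1) * K := by
  unfold Q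
  refine (Finset.abs_sum_le_sum_abs _ _).trans ?_
  have h : ∀ i ∈ (Finset.univ : Finset (Fin (d + 1))), |y i * z i / (α i - m)| ≤ K := by
    intro i _
    rw [div_eq_mul_inv, abs_mul, abs_mul]
    have h1 : |y i| * |z i| ≤ 1 := mul_le_one₀ (hy i) (abs_nonneg _) (hz i)
    calc |y i| * |z i| * |(α i - m)⁻¹| ≤ 1 * K :=
          mul_le_mul h1 (hK i) (abs_nonneg _) zero_le_one
      _ = K := one_mul K
  refine (Finset.sum_le_card_nsmul _ _ K h).trans ?_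
  rw [Finset.card_univ, Fintype.card_fin, nsmul_eq_mul]
  push_cast
  exact le_refl _

private theorem bnd_X {A A' p q M K c : ℝ} (hA : |A| ≤ M) (hA' : |A'| ≤ M) (hp : |p| ≤ 1)
    (hq : |q| ≤ 1) (hc : |c⁻¹| ≤ K) : |2 * (A * p - A' * q) / c| ≤ 4 * M * K := by
  have hM : 0 ≤ M := (abs_nonneg _).trans hA
  have h1 : |A * p| ≤ M := by
    rw [abs_mul]
    calc |A| * |p| ≤ M * 1 := mul_le_mul hA hp (abs_nonneg _) hM
      _ = M := mul_one _
  have h2 : |A' * q| ≤ M := by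
    rw [abs_mul]
    calc |A'| * |q| ≤ M * 1 := mul_le_mul hA' hq (abs_nonneg _) hM
      _ = M := mul_one _
  have h3 : |A * p - A' * q| ≤ 2 * M :=
    abs_le.2 ⟨by linarith [(abs_le.1 h1).1, (abs_le.1 h2).2],
      by linarith [(abs_le.1 h1).2, (abs_le.1 h2).1]⟩
  rw [div_eq_mul_inv, abs_mul, abs_mul, abs_two]
  calc 2 * |A * p - A' * q| * |c⁻¹| ≤ 2 * (2 * M) * K :=
        mul_le_mul (by linarith) hc (abs_nonneg _) (by positivity)
    _ = 4 * M * K := by ring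

private theorem bnd_sign (r : ℝ) : |Real.sign r| ≤ 1 := by
  rcases Real.sign_apply_eq r with h | h | h <;> rw [h] <;> simp

theorem bound (hd : 1 ≤ d) (h0 : α 0 = 0) (hlo : 0 < lo) (hlt : lo < hi) (hα : ∀ j, j ≠ 0 → hi < α j) :
    ∃ C : ℝ, 0 < C ∧ ∀ (B : ℝ → ℝ) (ε : ℝ), Dat α B lo hi → 0 ≤ ε → ε ≤ 1 / 2 → (∀ μ, |B μ| ≤ ε) →
      ∀ x v : V d, x ⬝ᵥ x = 1 → x ⬝ᵥ v = 0 → v ⬝ᵥ v = 1 → ∀ i,
        |be α B x * X1 α (lev α x) x v i| ≤ C * ε ∧ |be α B x * X2 α (lev α x) x v i| ≤ C * ε := by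
  set K : ℝ := lo⁻¹ + ∑ j, |(α j - hi)⁻¹| with hKd
  set L : ℝ := hi + ∑ j, |α j| with hLd
  have hK0 : 0 ≤ K := by
    have h1 : 0 < lo⁻¹ := inv_pos.2 hlo
    have h2 : 0 ≤ ∑ j, |(α j - hi)⁻¹| := Finset.sum_nonneg fun j _ => abs_nonneg _
    rw [hKd]
    linarith
  have hL0 : 0 < L := by
    have h2 : 0 ≤ ∑ j, |α j| := Finset.sum_nonneg fun j _ => abs_nonneg _
    rw [hLd]
    linarith
  refine ⟨4 * ((d + 1) * K) * K * L ^ 2 + 1, by positivity, ?_⟩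
  intro B ε D hε0 hε hB x v hxx hxv hvv i
  have hC0 : 0 ≤ (4 * ((d + 1) * K) * K * L ^ 2 + 1) * ε := by positivity
  by_cases hb : bb α B x = 0
  · have h1 : be α B x = 0 := by
      unfold be
      rw [hb, zero_div]
    rw [h1, zero_mul, zero_mul, abs_zero]
    exact ⟨hC0, hC0⟩
  · have hmem : lev α x ∈ Set.Ioo lo hi := by
      by_contra hcon
      apply hb
      unfold bb
      rw [D.supp _ hcon, mul_zero]
    set m : ℝ := lev α x with hm
    have hKi : ∀ i, |(α i - m)⁻¹| ≤ K := bnd_inv h0 hlo hα hmem.1.le hmem.2.le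
    have hx1 := bnd_unit hxx
    have hv1 := bnd_unit hvv
    have hQxx := bnd_Q (α := α) hKi hx1 hx1
    have hQxv := bnd_Q (α := α) hKi hx1 hv1
    have hQvv := bnd_Q (α := α) hKi hv1 hv1
    have hX1 : |X1 α m x v i| ≤ 4 * ((d + 1) * K) * K :=
      bnd_X hQxx hQxv (hv1 i) (hx1 i) (hKi i)
    have hX2 : |X2 α m x v i| ≤ 4 * ((d + 1) * K) * K :=
      bnd_X hQxv hQvv (hv1 i) (hx1 i) (hKi i)
    have hN : 1 / L ^ 2 ≤ Q2 α m x x := by
      unfold Q2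
      rw [← hxx]
      unfold dotProduct
      rw [Finset.sum_div]
      apply Finset.sum_le_sum
      intro j _
      have hne : α j - m ≠ 0 := (D.adm_mem hmem.1.le hmem.2.le).ne h0 j
      apply div_le_div_of_nonneg_left (mul_self_nonneg _) (by positivity)
      rw [sq_le_sq, abs_of_pos hL0]
      have h1 : |α j| ≤ ∑ j, |α j| :=
        Finset.single_le_sum (f := fun j => |α j|) (fun j _ => abs_nonneg _) (Finset.mem_univ j)
      have h2 := abs_le.1 h1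
      have h3 := hmem.1
      have h4 := hmem.2
      rw [abs_le]
      constructor
      · rw [hLd]
        linarith [h2.1]
      · rw [hLd]
        linarith [h2.2]
    have hbb : |bb α B x| ≤ ε := by
      unfold bb
      rw [abs_mul]
      calc |Real.sign (x 0)| * |B (lev α x)| ≤ 1 * ε :=
            mul_le_mul (bnd_sign _) (hB _) (abs_nonneg _) zero_le_one
        _ = ε := one_mul ε
    have hbe : |be α B x| ≤ ε * L ^ 2 := by
      unfold be
      rw [← hm]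
      have hb1 := abs_le.1 hbb
      have hN0 : 0 < Q2 α m x x := lt_of_lt_of_le (by positivity) hN
      have hD : Q2 α m x x ≤ 2 * (1 + bb α B x) * Q2 α m x x := by
        have h1 : (1 : ℝ) ≤ 2 * (1 + bb α B x) := by linarith [hb1.1]
        calc Q2 α m x x = 1 * Q2 α m x x := (one_mul _).symm
          _ ≤ 2 * (1 + bb α B x) * Q2 α m x x := mul_le_mul_of_nonneg_right h1 hN0.le
      have hD0 : 0 < 2 * (1 + bb α B x) * Q2 α m x x := hN0.trans_le hD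
      rw [abs_div, abs_of_pos hD0, div_le_iff₀ hD0]
      have h2 : 1 ≤ L ^ 2 * (2 * (1 + bb α B x) * Q2 α m x x) := by
        have h3 := hN.trans hD
        rwa [div_le_iff₀' (by positivity)] at h3
      calc |bb α B x| ≤ ε * 1 := by rw [mul_one]; exact hbb
        _ ≤ ε * (L ^ 2 * (2 * (1 + bb α B x) * Q2 α m x x)) := mul_le_mul_of_nonneg_left h2 hε0
        _ = ε * L ^ 2 * (2 * (1 + bb α B x) * Q2 α m x x) := by ring
    have key : ∀ X : ℝ, |X| ≤ 4 * ((d + 1) * K) * K →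
        |be α B x * X| ≤ (4 * ((d + 1) * K) * K * L ^ 2 + 1) * ε := by
      intro X hX
      rw [abs_mul]
      calc |be α B x| * |X| ≤ ε * L ^ 2 * (4 * ((d + 1) * K) * K) :=
            mul_le_mul hbe hX (abs_nonneg _) (by positivity)
        _ ≤ (4 * ((d + 1) * K) * K * L ^ 2 + 1) * ε := by nlinarith [hε0]
    exact ⟨key _ hX1, key _ hX2⟩

theorem below (h0 : α 0 = 0) (hlo : Adm α lo) :
    ∃ δ : ℝ, 0 < δ ∧ ∀ x : V d, x ⬝ᵥ x = 1 → x 0 ^ 2 < δ ^ 2 → 0 < Q α lo x x := by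
  set M : ℝ := 1 + ∑ j, |α j| with hMd
  have hM : 0 < M := by
    have h2 : 0 ≤ ∑ j, |α j| := Finset.sum_nonneg fun j _ => abs_nonneg _
    rw [hMd]
    linarith
  have hlo0 := hlo.1
  have hq : 0 < lo / (lo + M) := by positivity
  refine ⟨Real.sqrt (lo / (lo + M)), Real.sqrt_pos.2 hq, ?_⟩
  intro x hxx hx0
  rw [Real.sq_sqrt hq.le, lt_div_iff₀ (by positivity)] at hx0
  have hsum : ∑ j : Fin d, x j.succ * x j.succ = 1 - x 0 ^ 2 := by
    have h1 := hxx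
    unfold dotProduct at h1
    rw [Fin.sum_univ_succ] at h1
    linarith
  have hge : (1 - x 0 ^ 2) / M ≤ ∑ j : Fin d, x j.succ * x j.succ / (α j.succ - lo) := by
    rw [← hsum, Finset.sum_div]
    apply Finset.sum_le_sum
    intro j _
    have h1 := hlo.2 j.succ (Fin.succ_ne_zero j)
    apply div_le_div_of_nonneg_left (mul_self_nonneg _) (by linarith)
    have h2 : |α j.succ| ≤ ∑ j, |α j| :=
      Finset.single_le_sum (f := fun j => |α j|) (fun j _ => abs_nonneg _)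
        (Finset.mem_univ j.succ)
    have h3 := (abs_le.1 h2).2
    rw [hMd]
    linarith
  have e : Q α lo x x = x 0 * x 0 / (α 0 - lo) +
      ∑ j : Fin d, x j.succ * x j.succ / (α j.succ - lo) := by
    unfold Q
    rw [Fin.sum_univ_succ]
  rw [e, h0, zero_sub, div_neg]
  have h4 : x 0 * x 0 / lo < (1 - x 0 ^ 2) / M := by
    rw [div_lt_div_iff₀ hlo0 hM]
    nlinarith
  linarith

end Pool.Agent.Work.MP_659252_gt.Z
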