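import Pool.Agent.Work.MP_659252_gt.Z.Uniq

/-!
# Great circles on which `b` vanishes are solutions.  Size: S-M.

PROOF.  Put `x' s = cos (s - s₀) • x s₀ + sin (s - s₀) • v s₀`, `v' s = -sin (s - s₀) • x s₀ + cos (s - s₀) • v s₀`.  By hypothesis `bb = 0` along
`x'`, so `be = 0` and `(x', v')` is a solution (`Sol`: the orthonormality is preserved by the rotation, the derivatives are clear).  It agrees with
`(x, v)` at `s₀`: `Sol.unique`.
-/

namespace Pool.Agent.Work.MP_659252_gt.Z

variable {d : ℕ} {α : Fin (d + 1) → ℝ} {B : ℝ → ℝ} {lo hi : ℝ}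

theorem Sol.circle (hd : 1 ≤ d) (D : Dat α B lo hi) (hB : ∀ μ, |B μ| < 1) {x v : ℝ → V d}
    (h : Sol α B x v) (s₀ : ℝ)
    (hz : ∀ θ : ℝ, bb α B (Real.cos θ • x s₀ + Real.sin θ • v s₀) = 0) (s : ℝ) :
    x s = Real.cos (s - s₀) • x s₀ + Real.sin (s - s₀) • v s₀ ∧
      v s = -Real.sin (s - s₀) • x s₀ + Real.cos (s - s₀) • v s₀ := by
  have hx := h.xx s₀
  have hxv := h.xv s₀
  have hvx : v s₀ ⬝ᵥ x s₀ = 0 := by rw [dotProduct_comm]; exact hxv
  have hv := h.vv s₀
  have hbe : ∀ t, be α B (Real.cos (t - s₀) • x s₀ + Real.sin (t - s₀) • v s₀) = 0 := by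
    intro t
    unfold be
    rw [hz (t - s₀), zero_div]
  have hc : ∀ t, HasDerivAt (fun t : ℝ => Real.cos (t - s₀)) (-Real.sin (t - s₀)) t := by
    intro t
    have h1 := ((hasDerivAt_id t).sub_const s₀).cos
    simpa using h1
  have hs : ∀ t, HasDerivAt (fun t : ℝ => Real.sin (t - s₀)) (Real.cos (t - s₀)) t := by
    intro t
    have h1 := ((hasDerivAt_id t).sub_const s₀).sin
    simpa using h1
  have h' : Sol α B (fun t => Real.cos (t - s₀) • x s₀ + Real.sin (t - s₀) • v s₀)
      (fun t => -Real.sin (t - s₀) • x s₀ + Real.cos (t - s₀) • v s₀) := by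
    refine ⟨fun t => ?_, fun t => ?_, fun t => ?_, fun t => ?_, fun t => ?_⟩
    · simp only [add_dotProduct, dotProduct_add, smul_dotProduct, dotProduct_smul, smul_eq_mul, hx, hxv, hv, hvx]
      linarith [Real.sin_sq_add_cos_sq (t - s₀)]
    · simp only [add_dotProduct, dotProduct_add, smul_dotProduct, dotProduct_smul, smul_eq_mul, hx, hxv, hv, hvx]
      ring
    · simp only [add_dotProduct, dotProduct_add, smul_dotProduct, dotProduct_smul, smul_eq_mul, hx, hxv, hv, hvx]
      linarith [Real.sin_sq_add_cos_sq (t - s₀)]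
    · have h1 := ((hc t).smul_const (x s₀)).add ((hs t).smul_const (v s₀))
      simp only [hbe, zero_smul, add_zero]
      exact h1
    · have h1 := ((hs t).neg.smul_const (x s₀)).add ((hc t).smul_const (v s₀))
      simp only [hbe, zero_smul, add_zero]
      refine h1.congr_deriv ?_
      funext i
      simp only [Pi.add_apply, Pi.smul_apply, Pi.neg_apply, smul_eq_mul]
      ring
  refine Sol.unique hd D hB h h' s₀ ?_ ?_ s
  · simp
  · simp

end Pool.Agent.Work.MP_659252_gt.Z
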