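import Pool.Agent.Work.MP_659252_gt.Z.Lev

/-!
# The conserved quantities.  Size: M.

PROOF.  It is enough that `s ↦ RR α λ (x s) (v s)` has derivative `0` everywhere (`is_const_of_deriv_eq_zero`).  The pair `(x, v)` moves by the
rotation part (`x' = v`, `v' = -x`), which does not change `RR` (derivative: `2 Q x v (Q v v - Q x x) - 2 Q x v Q v v + 2 Q x x Q x v = 0`), plus `be`
times `(X1, X2)`.  If `be = 0` we are done.  Otherwise `bb ≠ 0`, so (contraposition of `bb_eq_zero`, `lev_root`) `μ = lev α (x s)` is admissible.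
Let `c0 = Q μ x x`, `c1 = Q μ x v`, `c2 = Q μ v v` (`c0 = 0` is not needed), `L0 = Q λ x x`, `L1 = Q λ x v`, `L2 = Q λ v v`, and for vectors `y, z`:
`P y z = ∑ y_i z_i/((α_i - λ)(α_i - μ))`, so that `(λ - μ) P y z = Q λ y z - Q μ y z`.  Then
`Q λ y (X1 μ x v) = 2 (c0 P y v - c1 P y x)`, `Q λ y (X2 μ x v) = 2 (c1 P y v - c2 P y x)`, and
`d RR = 2 L1 (dQ x v) - (dQ x x) L2 - L0 (dQ v v)`, `dQ x x = 4 (c0 P x v - c1 P x x)`, `dQ x v = 2 (c0 P v v - c1 P x v) + 2 (c1 P x v - c2 P x x)`,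
`dQ v v = 4 (c1 P v v - c2 P x v)`: so `-(1/4) d RR = (c0 P x v - c1 P x x) L2 + L0 (c1 P v v - c2 P x v) - L1 (c0 P v v - c2 P x x)`.
If `λ ≠ μ`: `P = (L - c)/(λ - μ)` and this is `0` by `ring` (after field_simp).  If `λ = μ` then `L_i = c_i` and it is `0` by `ring`.
-/

namespace Pool.Agent.Work.MP_659252_gt.Z

variable {d : ℕ} {α : Fin (d + 1) → ℝ} {B : ℝ → ℝ} {lo hi : ℝ}

private theorem Q_hasDeriv (l : ℝ) {y z : ℝ → V d} {y' z' : V d} {s : ℝ} (hy : HasDerivAt y y' s)
    (hz : HasDerivAt z z' s) :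
    HasDerivAt (fun t => Q α l (y t) (z t)) (Q α l y' (z s) + Q α l (y s) z') s := by
  have h : ∀ i ∈ (Finset.univ : Finset (Fin (d + 1))),
      HasDerivAt (fun t => y t i * z t i / (α i - l)) ((y' i * z s i + y s i * z' i) / (α i - l)) s := by
    intro i _
    exact (((hasDerivAt_pi.mp hy) i).mul ((hasDerivAt_pi.mp hz) i)).div_const _
  have h2 := HasDerivAt.fun_sum h
  have e : ∑ i, (y' i * z s i + y s i * z' i) / (α i - l) = Q α l y' (z s) + Q α l (y s) z' := by
    unfold Q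
    rw [← Finset.sum_add_distrib]
    exact Finset.sum_congr rfl fun i _ => by ring
  rw [e] at h2
  exact h2

private noncomputable def P (α : Fin (d + 1) → ℝ) (l μ : ℝ) (y z : V d) : ℝ :=
  ∑ i, y i * z i / ((α i - l) * (α i - μ))

private theorem P_eq (h0 : α 0 = 0) {l μ : ℝ} (hl : Adm α l) (hμ : Adm α μ) (y z : V d) :
    (l - μ) * P α l μ y z = Q α l y z - Q α μ y z := by
  unfold P Q
  rw [Finset.mul_sum, ← Finset.sum_sub_distrib]
  refine Finset.sum_congr rfl fun i _ => ?_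
  have h1 := hl.ne h0 i
  have h2 := hμ.ne h0 i
  field_simp
  ring

private theorem Q_X1 (l μ : ℝ) (x v y : V d) :
    Q α l (X1 α μ x v) y = 2 * (Q α μ x x * P α l μ v y - Q α μ x v * P α l μ x y) := by
  have e : ∀ c0 c1 : ℝ, Q α l (fun i => 2 * (c0 * v i - c1 * x i) / (α i - μ)) y =
      2 * (c0 * P α l μ v y - c1 * P α l μ x y) := by
    intro c0 c1
    unfold Q P
    rw [Finset.mul_sum, Finset.mul_sum, ← Finset.sum_sub_distrib, Finset.mul_sum]
    refine Finset.sum_congr rfl fun i _ => ?_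
    simp only [← div_div]
    ring
  exact e _ _

private theorem Q_X2 (l μ : ℝ) (x v y : V d) :
    Q α l (X2 α μ x v) y = 2 * (Q α μ x v * P α l μ v y - Q α μ v v * P α l μ x y) := by
  have e : ∀ c0 c1 : ℝ, Q α l (fun i => 2 * (c0 * v i - c1 * x i) / (α i - μ)) y =
      2 * (c0 * P α l μ v y - c1 * P α l μ x y) := by
    intro c0 c1
    unfold Q P
    rw [Finset.mul_sum, Finset.mul_sum, ← Finset.sum_sub_distrib, Finset.mul_sum]
    refine Finset.sum_congr rfl fun i _ => ?_
    simp only [← div_div]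
    ring
  exact e _ _

private theorem P_comm (l μ : ℝ) (y z : V d) : P α l μ y z = P α l μ z y := by
  unfold P
  exact Finset.sum_congr rfl fun i _ => by rw [mul_comm (y i)]

private theorem key (h0 : α 0 = 0) {l μ : ℝ} (hl : Adm α l) (hμ : Adm α μ) (x v : V d) :
    2 * Q α l x v * (Q α l (X1 α μ x v) v + Q α l (X2 α μ x v) x) - 2 * Q α l (X1 α μ x v) x * Q α l v v -
      2 * Q α l x x * Q α l (X2 α μ x v) v = 0 := by
  rw [Q_X1, Q_X1, Q_X2, Q_X2, P_comm l μ v x]
  by_cases hlm : l = μ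
  · subst hlm
    ring
  · have hne : l - μ ≠ 0 := sub_ne_zero.mpr hlm
    have e1 : P α l μ x x = (Q α l x x - Q α μ x x) / (l - μ) := by
      rw [eq_div_iff hne, mul_comm]; exact P_eq h0 hl hμ x x
    have e2 : P α l μ x v = (Q α l x v - Q α μ x v) / (l - μ) := by
      rw [eq_div_iff hne, mul_comm]; exact P_eq h0 hl hμ x v
    have e3 : P α l μ v v = (Q α l v v - Q α μ v v) / (l - μ) := by
      rw [eq_div_iff hne, mul_comm]; exact P_eq h0 hl hμ v v
    rw [e1, e2, e3]
    ring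

theorem RR_const (hd : 1 ≤ d) (D : Dat α B lo hi) {x v : ℝ → V d} (h : Sol α B x v) (l : ℝ) (hl : Adm α l)
    (s s' : ℝ) : RR α l (x s) (v s) = RR α l (x s') (v s') := by
  have hder : ∀ t, HasDerivAt (fun t => RR α l (x t) (v t)) 0 t := by
    intro t
    have hxv := Q_hasDeriv (α := α) l (h.dx t) (h.dv t)
    have hxx := Q_hasDeriv (α := α) l (h.dx t) (h.dx t)
    have hvv := Q_hasDeriv (α := α) l (h.dv t) (h.dv t)
    have hR := (hxv.pow 2).sub (hxx.mul hvv)
    have hR' : HasDerivAt (fun t => RR α l (x t) (v t)) _ t := hR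
    refine hR'.congr_deriv ?_
    set b := be α B (x t) with hb
    set Y1 := X1 α (lev α (x t)) (x t) (v t) with hY1
    set Y2 := X2 α (lev α (x t)) (x t) (v t) with hY2
    have a1 : Q α l (v t + b • Y1) (v t) = Q α l (v t) (v t) + b * Q α l Y1 (v t) := by
      rw [Q_add, Q_smul]
    have a2 : Q α l (x t) (-x t + b • Y2) = -Q α l (x t) (x t) + b * Q α l Y2 (x t) := by
      rw [Q_comm, Q_add, Q_smul, Q_neg]
    have a3 : Q α l (v t + b • Y1) (x t) = Q α l (x t) (v t) + b * Q α l Y1 (x t) := by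
      rw [Q_add, Q_smul, Q_comm α l (v t) (x t)]
    have a4 : Q α l (x t) (v t + b • Y1) = Q α l (x t) (v t) + b * Q α l Y1 (x t) := by
      rw [Q_comm, a3]
    have a5 : Q α l (-x t + b • Y2) (v t) = -Q α l (x t) (v t) + b * Q α l Y2 (v t) := by
      rw [Q_add, Q_smul, Q_neg]
    have a6 : Q α l (v t) (-x t + b • Y2) = -Q α l (x t) (v t) + b * Q α l Y2 (v t) := by
      rw [Q_comm, a5]
    rw [a1, a2, a3, a4, a5, a6]
    by_cases hb0 : b = 0
    · rw [hb0]
      norm_num
      ring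
    · have hbb : bb α B (x t) ≠ 0 := by
        intro h'
        apply hb0
        rw [hb]
        unfold be
        rw [h', zero_div]
      have hx0 : x t ≠ 0 := by
        intro h'
        have := h.xx t
        rw [h'] at this
        simp at this
      have hnot : ¬ (0 ≤ Q α lo (x t) (x t) ∨ Q α hi (x t) (x t) ≤ 0) := fun h' =>
        hbb (bb_eq_zero hd D (x t) hx0 h')
      rw [not_or, not_le, not_le] at hnot
      obtain ⟨m1, m2, _⟩ := lev_root D.a0 D.adm_lo D.adm_hi D.lo_hi.le (x t) hx0 hnot.1.le hnot.2.le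
      have hμ : Adm α (lev α (x t)) := D.adm_mem m1 m2
      have hk := key D.a0 hl hμ (x t) (v t)
      rw [← hY1, ← hY2] at hk
      norm_num
      linear_combination b * hk
  exact is_const_of_deriv_eq_zero (fun t => (hder t).differentiableAt) (fun t => (hder t).deriv) s s'

end Pool.Agent.Work.MP_659252_gt.Z
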