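import Pool.Agent.Work.MP_659252_gt.Z.Bas

/-!
# Elementary facts on the forms `Q_μ`.  Size: S-M.

PROOF.  `Q α μ x x = ∑ x_i² / (α_i - μ)`; for `i = 0` the coefficient is `-1/μ`, for `j ≠ 0` it is `1/(α_j - μ) > 0`.
* `Q_lt`: every coefficient `1/(α_i - μ)` is strictly increasing in `μ` on the admissible interval (for `i = 0`: `-1/μ`; for `j ≠ 0`:
  `0 < α_j - μ' < α_j - μ`), and some `x_i ≠ 0` (`Finset.sum_lt_sum`).
* `Q_pos`: all terms are `≥ 0` and one is `> 0`.   * `Q_ne`: contraposition of `Q_pos`.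
* `Q2_pos`: all terms are `x_i²/(α_i - μ)² ≥ 0`, one is `> 0` (`Adm.ne`).
* `Q_deriv`: `d/dμ 1/(α_i - μ) = 1/(α_i - μ)²` (`HasDerivAt.fun_sum`, `HasDerivAt.inv`), `Q2_deriv_cont`: continuity of the same functions.
-/

namespace Pool.Agent.Work.MP_659252_gt.Z

variable {d : ℕ} {α : Fin (d + 1) → ℝ} {μ μ' : ℝ}

private theorem coef_lt (h0 : α 0 = 0) (hμ : Adm α μ) (hμ' : Adm α μ') (h : μ < μ') (i : Fin (d + 1)) :
    1 / (α i - μ) < 1 / (α i - μ') := by
  by_cases hi : i = 0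
  · rw [hi, h0]
    have h1 := hμ.1
    have h2 := hμ'.1
    have e1 : 1 / (0 - μ) = -(1 / μ) := by rw [zero_sub, one_div_neg_eq_neg_one_div]
    have e2 : 1 / (0 - μ') = -(1 / μ') := by rw [zero_sub, one_div_neg_eq_neg_one_div]
    rw [e1, e2]
    have := one_div_lt_one_div_of_lt h1 h
    linarith
  · have h1 := hμ'.2 i hi
    exact one_div_lt_one_div_of_lt (by linarith) (by linarith)

private theorem exists_ne (x : V d) (hx : x ≠ 0) : ∃ i, x i ≠ 0 := by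
  by_contra hcon
  push Not at hcon
  exact hx (funext hcon)

theorem Q_lt (h0 : α 0 = 0) (hμ : Adm α μ) (hμ' : Adm α μ') (h : μ < μ') (x : V d) (hx : x ≠ 0) :
    Q α μ x x < Q α μ' x x := by
  unfold Q
  have hc := coef_lt h0 hμ hμ' h
  obtain ⟨i, hi⟩ := exists_ne x hx
  refine Finset.sum_lt_sum (fun j _ => ?_) ⟨i, Finset.mem_univ i, ?_⟩
  · have h1 := mul_le_mul_of_nonneg_left (hc j).le (mul_self_nonneg (x j))
    rw [div_eq_mul_one_div, div_eq_mul_one_div (x j * x j) (α j - μ')]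
    exact h1
  · have h1 := mul_lt_mul_of_pos_left (hc i) (mul_self_pos.mpr hi)
    rw [div_eq_mul_one_div, div_eq_mul_one_div (x i * x i) (α i - μ')]
    exact h1

theorem Q_pos (hμ : Adm α μ) (x : V d) (hx : x ≠ 0) (hx0 : x 0 = 0) : 0 < Q α μ x x := by
  unfold Q
  obtain ⟨i, hi⟩ := exists_ne x hx
  have hi0 : i ≠ 0 := fun h => hi (by rw [h]; exact hx0)
  refine Finset.sum_pos' (fun j _ => ?_) ⟨i, Finset.mem_univ i, ?_⟩
  · by_cases hj : j = 0
    · rw [hj, hx0]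
      simp
    · exact div_nonneg (mul_self_nonneg _) (sub_nonneg.mpr (hμ.2 j hj).le)
  · exact div_pos (mul_self_pos.mpr hi) (sub_pos.mpr (hμ.2 i hi0))

theorem Q_ne (hμ : Adm α μ) (x : V d) (hx : x ≠ 0) (h : Q α μ x x ≤ 0) : x 0 ≠ 0 := by
  intro hx0
  have := Q_pos hμ x hx hx0
  linarith

theorem Q2_pos (h0 : α 0 = 0) (hμ : Adm α μ) (x : V d) (hx : x ≠ 0) : 0 < Q2 α μ x x := by
  unfold Q2
  obtain ⟨i, hi⟩ := exists_ne x hx
  refine Finset.sum_pos' (fun j _ => ?_) ⟨i, Finset.mem_univ i, ?_⟩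
  · exact div_nonneg (mul_self_nonneg _) (sq_nonneg _)
  · exact div_pos (mul_self_pos.mpr hi) (by have := Adm.ne h0 hμ i; positivity)

theorem Q_deriv (h0 : α 0 = 0) (hμ : Adm α μ) (x y : V d) :
    HasDerivAt (fun m => Q α m x y) (Q2 α μ x y) μ := by
  unfold Q Q2
  refine HasDerivAt.fun_sum fun i _ => ?_
  have hne := Adm.ne h0 hμ i
  have h1 : HasDerivAt (fun m : ℝ => α i - m) (-1) μ := (hasDerivAt_id μ).const_sub (α i)
  have h2 := (h1.inv hne).const_mul (x i * y i)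
  have e : x i * y i * (-(-1) / (α i - μ) ^ 2) = x i * y i / (α i - μ) ^ 2 := by ring
  rw [e] at h2
  exact h2

theorem Adm.isOpen (α : Fin (d + 1) → ℝ) : IsOpen {μ | Adm α μ} := by
  have e : {μ | Adm α μ} = Set.Ioi 0 ∩ ⋂ j : Fin (d + 1), {μ : ℝ | j ≠ 0 → μ < α j} := by
    ext m
    simp [Adm]
  rw [e]
  refine isOpen_Ioi.inter (isOpen_iInter_of_finite fun j => ?_)
  by_cases hj : j = 0
  · have : {μ : ℝ | j ≠ 0 → μ < α j} = Set.univ := by
      ext m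
      simp [hj]
    rw [this]
    exact isOpen_univ
  · have : {μ : ℝ | j ≠ 0 → μ < α j} = Set.Iio (α j) := by
      ext m
      simp [hj]
    rw [this]
    exact isOpen_Iio

theorem Adm.convex (hμ : Adm α μ) (hμ' : Adm α μ') {m : ℝ} (h1 : μ ≤ m) (h2 : m ≤ μ') : Adm α m :=
  ⟨lt_of_lt_of_le hμ.1 h1, fun j hj => lt_of_le_of_lt h2 (hμ'.2 j hj)⟩

end Pool.Agent.Work.MP_659252_gt.Z
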