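import Pool.Agent.Work.MP_659252_gt.Z.ZDefs
import Pool.Agent.Work.MP_659252_gt.Z.Qm

/-!
# The field `FF` is smooth.  Size: S-M.

PROOF.  On `{z | Adm α z.1}` all denominators `α_i - z.1` are nonzero (`Adm.ne`), the components of `FF` are finite sums and products of coordinate
functions, of `1/(α_i - m)`, `1/(α_i - m)²` and of the smooth function `B m`.  Open: preimage of the open set `{μ | Adm α μ}` (`Adm.isOpen`) under `z ↦ z.1`.
-/

namespace Pool.Agent.Work.MP_659252_gt.Z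

open scoped ContDiff

variable {d : ℕ} {α : Fin (d + 1) → ℝ} {B : ℝ → ℝ}

private theorem cQ {E : Type} [NormedAddCommGroup E] [NormedSpace ℝ E] {S : Set E} {m : E → ℝ}
    {f g : E → V d} (hm : ContDiffOn ℝ 1 m S) (hf : ∀ i, ContDiffOn ℝ 1 (fun z => f z i) S)
    (hg : ∀ i, ContDiffOn ℝ 1 (fun z => g z i) S) (hne : ∀ z ∈ S, ∀ i, α i - m z ≠ 0) :
    ContDiffOn ℝ 1 (fun z => Q α (m z) (f z) (g z)) S := by
  unfold Q
  refine ContDiffOn.sum fun i _ => ?_
  exact ((hf i).mul (hg i)).div (contDiffOn_const.sub hm) (fun z hz => hne z hz i)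

private theorem cQ2 {E : Type} [NormedAddCommGroup E] [NormedSpace ℝ E] {S : Set E} {m : E → ℝ}
    {f g : E → V d} (hm : ContDiffOn ℝ 1 m S) (hf : ∀ i, ContDiffOn ℝ 1 (fun z => f z i) S)
    (hg : ∀ i, ContDiffOn ℝ 1 (fun z => g z i) S) (hne : ∀ z ∈ S, ∀ i, α i - m z ≠ 0) :
    ContDiffOn ℝ 1 (fun z => Q2 α (m z) (f z) (g z)) S := by
  unfold Q2
  refine ContDiffOn.sum fun i _ => ?_
  exact ((hf i).mul (hg i)).div ((contDiffOn_const.sub hm).pow 2)
    (fun z hz => pow_ne_zero 2 (hne z hz i))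

theorem FF_contDiffOn (h0 : α 0 = 0) (hB : ContDiff ℝ ∞ B) :
    ContDiffOn ℝ 1 (FF α B) {z | Adm α z.1} := by
  set S : Set (ℝ × ℝ × V d × V d) := {z | Adm α z.1} with hS
  have hm : ContDiffOn ℝ 1 (fun z : ℝ × ℝ × V d × V d => z.1) S := contDiff_fst.contDiffOn
  have hp : ContDiffOn ℝ 1 (fun z : ℝ × ℝ × V d × V d => z.2.1) S :=
    (contDiff_fst.comp contDiff_snd).contDiffOn
  have hx' : ContDiff ℝ 1 (fun z : ℝ × ℝ × V d × V d => z.2.2.1) :=
    contDiff_fst.comp (contDiff_snd.comp contDiff_snd)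
  have hv' : ContDiff ℝ 1 (fun z : ℝ × ℝ × V d × V d => z.2.2.2) :=
    contDiff_snd.comp (contDiff_snd.comp contDiff_snd)
  have hx : ∀ i, ContDiffOn ℝ 1 (fun z : ℝ × ℝ × V d × V d => z.2.2.1 i) S :=
    fun i => (contDiff_pi.1 hx' i).contDiffOn
  have hv : ∀ i, ContDiffOn ℝ 1 (fun z : ℝ × ℝ × V d × V d => z.2.2.2 i) S :=
    fun i => (contDiff_pi.1 hv' i).contDiffOn
  have hne : ∀ z ∈ S, ∀ i, α i - z.1 ≠ 0 := fun z hz i => Adm.ne h0 hz i
  have qxx := cQ (α := α) hm hx hx hne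
  have qxv := cQ (α := α) hm hx hv hne
  have qvv := cQ (α := α) hm hv hv hne
  have q2xx := cQ2 (α := α) hm hx hx hne
  have q2xv := cQ2 (α := α) hm hx hv hne
  have q2vv := cQ2 (α := α) hm hv hv hne
  have hBm : ContDiffOn ℝ 1 (fun z : ℝ × ℝ × V d × V d => B z.1 / 2) S :=
    ((hB.of_le (by exact_mod_cast le_top)).comp contDiff_fst).contDiffOn.div_const 2
  have hR : ContDiffOn ℝ 1 (fun z : ℝ × ℝ × V d × V d => -RR' α z.1 z.2.2.1 z.2.2.2) S := by
    unfold RR'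
    exact ((((contDiffOn_const (c := (2 : ℝ))).mul qxv).mul q2xv).sub (q2xx.mul qvv)
      |>.sub (qxx.mul q2vv)).neg
  have h1 : ContDiffOn ℝ 1 (fun z : ℝ × ℝ × V d × V d => (B z.1 / 2) • X1 α z.1 z.2.2.1 z.2.2.2) S := by
    rw [contDiffOn_pi]
    intro i
    refine hBm.mul ?_
    unfold X1
    exact ((contDiffOn_const (c := (2 : ℝ))).mul ((qxx.mul (hv i)).sub (qxv.mul (hx i)))).div
      (contDiffOn_const.sub hm) (fun z hz => hne z hz i)
  have h2 : ContDiffOn ℝ 1 (fun z : ℝ × ℝ × V d × V d => (B z.1 / 2) • X2 α z.1 z.2.2.1 z.2.2.2) S := by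
    rw [contDiffOn_pi]
    intro i
    refine hBm.mul ?_
    unfold X2
    exact ((contDiffOn_const (c := (2 : ℝ))).mul ((qxv.mul (hv i)).sub (qvv.mul (hx i)))).div
      (contDiffOn_const.sub hm) (fun z hz => hne z hz i)
  exact ((contDiffOn_const (c := (-2 : ℝ))).mul hp).prodMk (hR.prodMk (h1.prodMk h2))

theorem FF_open (α : Fin (d + 1) → ℝ) : IsOpen {z : ℝ × ℝ × V d × V d | Adm α z.1} :=
  (Adm.isOpen α).preimage continuous_fst

end Pool.Agent.Work.MP_659252_gt.Z
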