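import Pool.Agent.Work.MP_659252_gt.Z.Qm

/-!
# The sign of `RR`.  Size: S-M.

`x`, `v` orthonormal; `RR = Q(x,v)² - Q(x,x) Q(v,v)` is minus the discriminant of the quadratic form `Q_μ` on their plane.
PROOF.  `RR_pos`: let `z = v_0 x - x_0 v`: `z_0 = 0` and `z ≠ 0` (`z ⬝ z = v_0² + x_0²`, and if `x_0 = v_0 = 0` then `Q x x > 0` by `Q_pos`, contradiction).
So `0 < Q z z = v_0² Q x x - 2 x_0 v_0 Q x v + x_0² Q v v` (`Q_pos`).  With `a = Q x x < 0`, `c = Q v v`, `m = Q x v`: if `m² ≤ a c` then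
`a (v_0² a - 2 x_0 v_0 m + x_0² c) = (v_0 a - x_0 m)² + x_0² (a c - m²) ≥ 0` but the left side is `< 0`.
`RR_mono`: `RR α μ ≥ 0` gives `θ` with `Q α μ y y ≤ 0`, `y = cos θ x + sin θ v` (otherwise the form is positive on the unit circle of the plane, so positive
definite, and `RR < 0`: take `y = x`, and the minimum; elementary: if `Q x x > 0` and `Q(y,y) > 0` for the normalised `y ∝ Q(x,x) v - Q(x,v) x` then
`Q(y,y) ∝ -Q(x,x) RR > 0`).  Then `Q α μ' y y < Q α μ y y ≤ 0` (`Q_lt`), and `RR_pos` for the orthonormal pair `(y, y^⊥)`, `y^⊥ = -sin θ x + cos θ v`, whose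
`RR` is the same (rotation invariance, expand).
`RR_neg_pt`: `0 < RR` gives `θ` with `Q y y < 0`: if `Q x x < 0` take `θ = 0`; if `Q x x = 0` then `Q x v ≠ 0`, small `θ`; if `Q x x > 0` the normalised
`Q(x,x) v - Q(x,v) x` has `Q = -Q(x,x) RR · (positive) < 0`.
`RR_nonpos`: if `Q y y ≥ 0` on the circle then `RR ≤ 0` (contraposition of `RR_neg_pt`).   `Q_nonneg_of_RR`: contraposition of `RR_pos`.
-/

namespace Pool.Agent.Work.MP_659252_gt.Z

variable {d : ℕ} {α : Fin (d + 1) → ℝ} {μ μ' : ℝ}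

private theorem rf_add (x y z : V d) : Q α μ x (y + z) = Q α μ x y + Q α μ x z := by
  rw [Q_comm, Q_add, Q_comm α μ y, Q_comm α μ z]

private theorem rf_smul (c : ℝ) (x z : V d) : Q α μ x (c • z) = c * Q α μ x z := by
  rw [Q_comm, Q_smul, Q_comm α μ z]

private theorem rf_comb2 (a b a' b' : ℝ) (x v : V d) :
    Q α μ (a • x + b • v) (a' • x + b' • v) =
      a * a' * Q α μ x x + (a * b' + b * a') * Q α μ x v + b * b' * Q α μ v v := by
  rw [Q_add, Q_smul, Q_smul, rf_add, rf_add, rf_smul, rf_smul, rf_smul, rf_smul, Q_comm α μ v x]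
  ring

private theorem rf_comb (a b : ℝ) (x v : V d) :
    Q α μ (a • x + b • v) (a • x + b • v) =
      a ^ 2 * Q α μ x x + 2 * a * b * Q α μ x v + b ^ 2 * Q α μ v v := by
  rw [rf_comb2]
  ring

private theorem rf_dot (a b a' b' : ℝ) (x v : V d) (hxx : x ⬝ᵥ x = 1) (hxv : x ⬝ᵥ v = 0)
    (hvv : v ⬝ᵥ v = 1) : (a • x + b • v) ⬝ᵥ (a' • x + b' • v) = a * a' + b * b' := by
  have hvx : v ⬝ᵥ x = 0 := by rw [dotProduct_comm]; exact hxv
  simp only [add_dotProduct, dotProduct_add, smul_dotProduct, dotProduct_smul, smul_eq_mul, hxx,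
    hxv, hvv, hvx]
  ring

private theorem rf_rot (θ : ℝ) (x v : V d) :
    RR α μ (Real.cos θ • x + Real.sin θ • v) ((-Real.sin θ) • x + Real.cos θ • v) = RR α μ x v := by
  have h1 : RR α μ (Real.cos θ • x + Real.sin θ • v) ((-Real.sin θ) • x + Real.cos θ • v) =
      (Real.sin θ ^ 2 + Real.cos θ ^ 2) ^ 2 * RR α μ x v := by
    unfold RR
    rw [rf_comb2, rf_comb2, rf_comb2]
    ring
  rw [h1, Real.sin_sq_add_cos_sq]
  ring

private theorem rf_ne {x : V d} (h : x ⬝ᵥ x = 1) : x ≠ 0 := by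
  rintro rfl
  simp at h

private theorem rf_arg (X Y : ℝ) (h : X ≠ 0 ∨ Y ≠ 0) (x v : V d) :
    ∃ θ : ℝ, ∃ r : ℝ, 0 < r ∧ Q α μ (Real.cos θ • x + Real.sin θ • v)
      (Real.cos θ • x + Real.sin θ • v) =
      r * (X ^ 2 * Q α μ x x + 2 * X * Y * Q α μ x v + Y ^ 2 * Q α μ v v) := by
  have hz : (⟨X, Y⟩ : ℂ) ≠ 0 := by
    intro h0
    have h1 := congrArg Complex.re h0
    have h2 := congrArg Complex.im h0
    simp only [Complex.zero_re, Complex.zero_im] at h1 h2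
    rcases h with h | h
    · exact h h1
    · exact h h2
  have hn : 0 < ‖(⟨X, Y⟩ : ℂ)‖ := norm_pos_iff.2 hz
  refine ⟨Complex.arg ⟨X, Y⟩, (‖(⟨X, Y⟩ : ℂ)‖ ^ 2)⁻¹, by positivity, ?_⟩
  rw [rf_comb, Complex.cos_arg hz, Complex.sin_arg]
  have : ‖(⟨X, Y⟩ : ℂ)‖ ≠ 0 := hn.ne'
  field_simp

theorem RR_pos (hμ : Adm α μ) (x v : V d) (hxx : x ⬝ᵥ x = 1) (hxv : x ⬝ᵥ v = 0) (hvv : v ⬝ᵥ v = 1)
    (h : Q α μ x x < 0) : 0 < RR α μ x v := by
  by_contra hcon
  rw [not_lt] at hcon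
  have hz0 : (v 0 • x + (-x 0) • v) 0 = 0 := by
    simp only [Pi.add_apply, Pi.smul_apply, smul_eq_mul]
    ring
  have hdot := rf_dot (v 0) (-x 0) (v 0) (-x 0) x v hxx hxv hvv
  have hzne : v 0 • x + (-x 0) • v ≠ 0 := by
    intro h0
    rw [h0, zero_dotProduct] at hdot
    have h1 : x 0 = 0 := by nlinarith [sq_nonneg (v 0), sq_nonneg (x 0)]
    exact absurd (Q_pos hμ x (rf_ne hxx) h1) (not_lt.2 h.le)
  have hpos := Q_pos hμ _ hzne hz0
  rw [rf_comb] at hpos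
  unfold RR at hcon
  set a := Q α μ x x with ha
  set m := Q α μ x v with hm
  set c := Q α μ v v with hc
  have h1 : a * ((v 0) ^ 2 * a + 2 * (v 0) * (-x 0) * m + (-x 0) ^ 2 * c) < 0 :=
    mul_neg_of_neg_of_pos h hpos
  have h2 : a * ((v 0) ^ 2 * a + 2 * (v 0) * (-x 0) * m + (-x 0) ^ 2 * c) =
      (v 0 * a - x 0 * m) ^ 2 + (x 0) ^ 2 * (a * c - m ^ 2) := by ring
  have h3 : 0 ≤ (x 0) ^ 2 * (a * c - m ^ 2) := by
    apply mul_nonneg (sq_nonneg _)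
    linarith
  have h4 := sq_nonneg (v 0 * a - x 0 * m)
  linarith

theorem RR_mono (h0 : α 0 = 0) (hμ : Adm α μ) (hμ' : Adm α μ') (hlt : μ' < μ) (x v : V d)
    (hxx : x ⬝ᵥ x = 1) (hxv : x ⬝ᵥ v = 0) (hvv : v ⬝ᵥ v = 1) (h : 0 ≤ RR α μ x v) : 0 < RR α μ' x v := by
  have key : ∃ θ : ℝ, Q α μ (Real.cos θ • x + Real.sin θ • v)
      (Real.cos θ • x + Real.sin θ • v) ≤ 0 := by
    unfold RR at h
    by_cases ha : Q α μ x x ≤ 0
    · refine ⟨0, ?_⟩
      rw [rf_comb, Real.cos_zero, Real.sin_zero]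
      linarith
    · rw [not_le] at ha
      obtain ⟨θ, r, hr, he⟩ := rf_arg (α := α) (μ := μ) (-(Q α μ x v)) (Q α μ x x)
        (Or.inr ha.ne') x v
      refine ⟨θ, ?_⟩
      rw [he]
      have h1 : (-(Q α μ x v)) ^ 2 * Q α μ x x + 2 * (-(Q α μ x v)) * Q α μ x x * Q α μ x v +
          Q α μ x x ^ 2 * Q α μ v v = -(Q α μ x x * (Q α μ x v ^ 2 - Q α μ x x * Q α μ v v)) := by
        ring
      rw [h1]
      have h2 : 0 ≤ r * (Q α μ x x * (Q α μ x v ^ 2 - Q α μ x x * Q α μ v v)) := by positivity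
      linarith
  obtain ⟨θ, hθ⟩ := key
  have hyy := rf_dot (Real.cos θ) (Real.sin θ) (Real.cos θ) (Real.sin θ) x v hxx hxv hvv
  have hyz := rf_dot (Real.cos θ) (Real.sin θ) (-Real.sin θ) (Real.cos θ) x v hxx hxv hvv
  have hzz := rf_dot (-Real.sin θ) (Real.cos θ) (-Real.sin θ) (Real.cos θ) x v hxx hxv hvv
  have hsc := Real.sin_sq_add_cos_sq θ
  rw [show Real.cos θ * Real.cos θ + Real.sin θ * Real.sin θ = 1 by nlinarith] at hyy
  rw [show Real.cos θ * -Real.sin θ + Real.sin θ * Real.cos θ = 0 by ring] at hyz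
  rw [show -Real.sin θ * -Real.sin θ + Real.cos θ * Real.cos θ = 1 by nlinarith] at hzz
  have h1 := Q_lt h0 hμ' hμ hlt _ (rf_ne hyy)
  have h2 := RR_pos hμ' _ _ hyy hyz hzz (h1.trans_le hθ)
  rw [rf_rot] at h2
  exact h2

theorem RR_neg_pt (x v : V d) (h : 0 < RR α μ x v) :
    ∃ θ : ℝ, Q α μ (Real.cos θ • x + Real.sin θ • v) (Real.cos θ • x + Real.sin θ • v) < 0 := by
  unfold RR at h
  by_cases ha : Q α μ x x < 0
  · refine ⟨0, ?_⟩
    rw [rf_comb, Real.cos_zero, Real.sin_zero]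
    linarith
  rw [not_lt] at ha
  by_cases hc : Q α μ v v < 0
  · refine ⟨Real.pi / 2, ?_⟩
    rw [rf_comb, Real.cos_pi_div_two, Real.sin_pi_div_two]
    linarith
  rw [not_lt] at hc
  set a := Q α μ x x with haa
  set m := Q α μ x v with hmm
  set c := Q α μ v v with hcc
  have hm : m ≠ 0 := by
    rintro hm0
    rw [hm0] at h
    have := mul_nonneg ha hc
    linarith
  set δ := m ^ 2 - a * c with hδ
  set ε := δ / (a + 1) with hε
  have ha1 : 0 < a + 1 := by linarith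
  have hε0 : 0 < ε := by positivity
  have hεa : ε * (a + 1) = δ := by
    rw [hε]
    field_simp
  obtain ⟨θ, r, hr, he⟩ := rf_arg (α := α) (μ := μ) (-(c + ε)) m (Or.inr hm) x v
  refine ⟨θ, ?_⟩
  rw [he]
  apply mul_neg_of_pos_of_neg hr
  rw [← haa, ← hmm, ← hcc]
  have h1 : (-(c + ε)) ^ 2 * a + 2 * (-(c + ε)) * m * m + m ^ 2 * c =
      a * ε ^ 2 - δ * (c + 2 * ε) := by
    rw [hδ]
    ring
  rw [h1]
  have h2 : a * ε ^ 2 = ε * δ - ε ^ 2 := by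
    rw [← hεa]
    ring
  rw [h2]
  have h3 : 0 ≤ δ * c := mul_nonneg h.le hc
  have h4 : 0 < ε * δ := mul_pos hε0 h
  have h5 : 0 < ε ^ 2 := by positivity
  nlinarith

theorem RR_nonpos (x v : V d)
    (h : ∀ θ : ℝ, 0 ≤ Q α μ (Real.cos θ • x + Real.sin θ • v) (Real.cos θ • x + Real.sin θ • v)) :
    RR α μ x v ≤ 0 := by
  by_contra hcon
  rw [not_le] at hcon
  obtain ⟨θ, hθ⟩ := RR_neg_pt x v hcon
  exact absurd (h θ) (not_le.2 hθ)

/-- if `RR ≤ 0` then `Q ≥ 0` on the whole circle -/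
theorem Q_nonneg_of_RR (hμ : Adm α μ) (x v : V d) (hxx : x ⬝ᵥ x = 1) (hxv : x ⬝ᵥ v = 0) (hvv : v ⬝ᵥ v = 1)
    (h : RR α μ x v ≤ 0) (θ : ℝ) :
    0 ≤ Q α μ (Real.cos θ • x + Real.sin θ • v) (Real.cos θ • x + Real.sin θ • v) := by
  by_contra hcon
  rw [not_le] at hcon
  have hyy := rf_dot (Real.cos θ) (Real.sin θ) (Real.cos θ) (Real.sin θ) x v hxx hxv hvv
  have hyz := rf_dot (Real.cos θ) (Real.sin θ) (-Real.sin θ) (Real.cos θ) x v hxx hxv hvv
  have hzz := rf_dot (-Real.sin θ) (Real.cos θ) (-Real.sin θ) (Real.cos θ) x v hxx hxv hvv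
  have hsc := Real.sin_sq_add_cos_sq θ
  rw [show Real.cos θ * Real.cos θ + Real.sin θ * Real.sin θ = 1 by nlinarith] at hyy
  rw [show Real.cos θ * -Real.sin θ + Real.sin θ * Real.cos θ = 0 by ring] at hyz
  rw [show -Real.sin θ * -Real.sin θ + Real.cos θ * Real.cos θ = 1 by nlinarith] at hzz
  have h2 := RR_pos hμ _ _ hyy hyz hzz hcon
  rw [rf_rot] at h2
  exact absurd h (not_le.2 h2)

end Pool.Agent.Work.MP_659252_gt.Z
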