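import Pool.Agent.Work.MP_659252_gt.Z.Zpm
import Pool.Agent.Work.MP_659252_gt.Z.Comp
import Pool.Agent.Work.MP_659252_gt.Z.FLip
import Pool.Agent.Work.MP_659252_gt.Z.Cons
import Pool.Agent.Work.MP_659252_gt.Z.RFact

/-!
# One ring passage: comparison of a solution for `B` and a solution for `-B`.  Size: M.

`(x, v)` solves the system for `B` on the ring times `[a, b]`, `(x', v')` solves it for `-B` on the ring times `[a', b']`.  Both start at the same
state: `ZZ α 1 x v a = ZZ α (-1) x' v' a'`, and end at the first time at which the level is `c` (`c = lo` or `c = hi`).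
PROOF.  `comparison` with `F = FF α B`, `U = {z | Adm α z.1}`, `e z = z.1 - c`, `g s = gg α B (x s)`, `g' s = gg α (-B) (x' s)` (positive and continuous:
`gg_pos`, `gg_cont`, `x` continuous), `Z_plus`, `Z_minus`; the states are in `U` by `lev_root` and `Dat.adm_mem`.  (`D.neg` is the datum of `-B`, the ring
condition `InRing` does not depend on `B`; for `-B` use `hB' : |-B μ| < 1`.)
-/

namespace Pool.Agent.Work.MP_659252_gt.Z

variable {d : ℕ} {α : Fin (d + 1) → ℝ} {B : ℝ → ℝ} {lo hi : ℝ}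

private theorem ring_adm (D : Dat α B lo hi) {x : V d} (hx : InRing α lo hi x) :
    Adm α (lev α x) := by
  have hx0 : x ≠ 0 := by
    intro h
    have := hx.1
    rw [h, Pi.zero_apply] at this
    exact lt_irrefl _ this
  obtain ⟨h1, h2, -⟩ := lev_root D.a0 D.adm_lo D.adm_hi D.lo_hi.le x hx0 hx.2.1 hx.2.2
  exact D.adm_mem h1 h2

theorem ring_compare (hd : 1 ≤ d) (D : Dat α B lo hi) (hB : ∀ μ, |B μ| < 1) {x v x' v' : ℝ → V d}
    (h : Sol α B x v) (h' : Sol α (fun μ => -B μ) x' v') {a b a' b' : ℝ} (hab : a < b) (hab' : a' < b')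
    (hr : ∀ s ∈ Set.Icc a b, InRing α lo hi (x s)) (hr' : ∀ s ∈ Set.Icc a' b', InRing α lo hi (x' s))
    (h0 : ZZ α 1 x v a = ZZ α (-1) x' v' a') (c : ℝ)
    (he : ∀ s ∈ Set.Ioo a b, lev α (x s) ≠ c) (heb : lev α (x b) = c)
    (he' : ∀ s ∈ Set.Ioo a' b', lev α (x' s) ≠ c) (heb' : lev α (x' b') = c) :
    ZZ α 1 x v b = ZZ α (-1) x' v' b' := by
  have hB' : ∀ μ, |(fun μ => -B μ) μ| < 1 := fun μ => by
    show |-B μ| < 1
    rw [abs_neg]
    exact hB μ
  refine comparison (FF α B) {z | Adm α z.1} (FF_open α) (FF_contDiffOn D.a0 D.smooth)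
    (fun z => z.1 - c) hab hab' (ZZ α 1 x v) (ZZ α (-1) x' v') (fun s => gg α B (x s))
    (fun s => gg α (fun μ => -B μ) (x' s)) ?_ ?_ ?_ ?_ ?_ ?_ ?_ ?_ h0 ?_ ?_ ?_ ?_
  · intro s hs
    have h1 : ContinuousAt (gg α B) (x s) := gg_cont hd D hB (x s) (hr s hs)
    exact (ContinuousAt.comp (g := gg α B) (f := x) h1 (h.dx s).continuousAt).continuousWithinAt
  · intro s hs
    have h1 : ContinuousAt (gg α (fun μ => -B μ)) (x' s) :=
      gg_cont hd D.neg hB' (x' s) (hr' s hs)
    exact (ContinuousAt.comp (g := gg α (fun μ => -B μ)) (f := x') h1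
      (h'.dx s).continuousAt).continuousWithinAt
  · intro s hs
    exact gg_pos hd D hB (x s) (hr s hs)
  · intro s hs
    exact gg_pos hd D.neg hB' (x' s) (hr' s hs)
  · intro s hs
    exact Z_plus hd D hB h s (hr s hs)
  · intro s hs
    exact Z_minus hd D hB h' s (hr' s hs)
  · intro s hs
    exact ring_adm D (hr s hs)
  · intro s hs
    exact ring_adm D (hr' s hs)
  · intro s hs h1
    exact he s hs (sub_eq_zero.1 h1)
  · exact sub_eq_zero.2 heb
  · intro s hs h1
    exact he' s hs (sub_eq_zero.1 h1)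
  · exact sub_eq_zero.2 heb'

end Pool.Agent.Work.MP_659252_gt.Z
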