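import Mathlib

/-!
# Zoll metrics on the sphere `S^d` and the confocal directions: the objects of the theorem

`V d = ℝ^{d+1}`, the sphere is `x ⬝ᵥ x = 1`.  A tensor field on the sphere is given by a field of matrices on
`ℝ^{d+1} \ {0}`; only its values on tangent vectors at the points of the sphere matter (every smooth tensor field on
the sphere has such an extension).
-/

namespace Pool.Agent.Work.MP_659252_gt.Z

open scoped ContDiff

/-- The space `ℝ^{d+1}`. -/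
abbrev V (d : ℕ) : Type := Fin (d + 1) → ℝ

/-- Fields of matrices on `ℝ^{d+1}`. -/
abbrev Ten (d : ℕ) : Type := V d → Fin (d + 1) → Fin (d + 1) → ℝ

/-- The value of the tensor `G` at `x` on the vectors `v`, `w`. -/
def val {d : ℕ} (G : Ten d) (x v w : V d) : ℝ := ∑ i, ∑ j, G x i j * (v i * w j)

/-- `x` is a point of the unit sphere and `v` is a tangent vector of the sphere at `x`. -/
def Tan {d : ℕ} (x v : V d) : Prop := x ⬝ᵥ x = 1 ∧ x ⬝ᵥ v = 0

/-- `G` is a smooth Riemannian metric on the sphere. -/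
structure IsMetric {d : ℕ} (G : Ten d) : Prop where
  smooth : ContDiffOn ℝ ∞ G {0}ᶜ
  symm : ∀ x i j, G x i j = G x j i
  pos : ∀ x v, Tan x v → v ≠ 0 → 0 < val G x v v

/-- `Γ (s, t)` is a smooth variation on the sphere of the curve `γ`, fixed outside of `a < t < b`. -/
structure IsVariation {d : ℕ} (γ : ℝ → V d) (a b : ℝ) (Γ : ℝ × ℝ → V d) : Prop where
  smooth : ContDiff ℝ ∞ Γ
  sphere : ∀ p, Γ p ⬝ᵥ Γ p = 1
  start : ∀ t, Γ (0, t) = γ t
  fixed : ∀ s t, t ≤ a ∨ b ≤ t → Γ (s, t) = γ t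

/-- The energy of the curve `γ` between the times `a` and `b`. -/
noncomputable def energy {d : ℕ} (G : Ten d) (γ : ℝ → V d) (a b : ℝ) : ℝ :=
  ∫ t in a..b, val G (γ t) (deriv γ t) (deriv γ t)

/-- `γ` is a geodesic of `G`: a smooth curve on the sphere which is a critical point of the energy. -/
structure IsGeodesic {d : ℕ} (G : Ten d) (γ : ℝ → V d) : Prop where
  smooth : ContDiff ℝ ∞ γ
  sphere : ∀ t, γ t ⬝ᵥ γ t = 1
  crit : ∀ (a b : ℝ) (Γ : ℝ × ℝ → V d), a < b → IsVariation γ a b Γ →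
    deriv (fun s => energy G (fun t => Γ (s, t)) a b) 0 = 0

/-- `G` is a Zoll metric: all geodesics (parametrised by arc length) are periodic with the same length `L` and
simple. -/
def IsZoll {d : ℕ} (G : Ten d) : Prop :=
  IsMetric G ∧ ∃ L : ℝ, 0 < L ∧ ∀ γ : ℝ → V d, IsGeodesic G γ →
    (∀ t, val G (γ t) (deriv γ t) (deriv γ t) = 1) →
    (∀ t, γ (t + L) = γ t) ∧ Set.InjOn γ (Set.Ico 0 L)

/-- `h` is a tangent vector at the round metric to the space of Zoll metrics: the derivative of a smooth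
one-parameter family of Zoll metrics through the round metric. -/
def InT {d : ℕ} (h : Ten d) : Prop :=
  ∃ ε : ℝ, 0 < ε ∧ ∃ G : ℝ → Ten d,
    ContDiffOn ℝ ∞ (fun p : ℝ × V d => G p.1 p.2) (Set.Ioo (-ε) ε ×ˢ {0}ᶜ) ∧
    (∀ t ∈ Set.Ioo (-ε) ε, IsZoll (G t)) ∧
    (∀ x v w, Tan x v → Tan x w → val (G 0) x v w = v ⬝ᵥ w) ∧
    ∀ x v w, Tan x v → Tan x w → HasDerivAt (fun t => val (G t) x v w) (val h x v w) 0

/-- `h` is a trivial direction `c g₀ + L_X g₀`, `X` a smooth vector field on the sphere, `g₀` the round metric: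
`(L_X g₀)(v, w) = ⟨D_v X, w⟩ + ⟨v, D_w X⟩`. -/
def IsTrivial {d : ℕ} (h : Ten d) : Prop :=
  ∃ (c : ℝ) (X : V d → V d), ContDiffOn ℝ ∞ X {0}ᶜ ∧ (∀ x, x ⬝ᵥ x = 1 → x ⬝ᵥ X x = 0) ∧
    ∀ x v w, Tan x v → Tan x w →
      val h x v w = c * (v ⬝ᵥ w) + ((fderiv ℝ X x v) ⬝ᵥ w + v ⬝ᵥ (fderiv ℝ X x w))

/-- The tensor `k` is invariant under the rotation (or reflection) `R`. -/
def IsInvariant {d : ℕ} (R : Matrix (Fin (d + 1)) (Fin (d + 1)) ℝ) (k : Ten d) : Prop :=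
  ∀ x v w, Tan x v → Tan x w → val k (R.mulVec x) (R.mulVec v) (R.mulVec w) = val k x v w

/-- The quadratic forms `Q_μ(x, y) = ∑ x_i y_i / (α_i - μ)`. -/
noncomputable def Q {d : ℕ} (α : Fin (d + 1) → ℝ) (μ : ℝ) (x y : V d) : ℝ := ∑ i, x i * y i / (α i - μ)

/-- `Q'_μ(x, y) = ∑ x_i y_i / (α_i - μ)²`. -/
noncomputable def Q2 {d : ℕ} (α : Fin (d + 1) → ℝ) (μ : ℝ) (x y : V d) : ℝ := ∑ i, x i * y i / (α i - μ) ^ 2

/-- `0 < μ < α_j` for all `j ≠ 0`. -/
def Adm {d : ℕ} (α : Fin (d + 1) → ℝ) (μ : ℝ) : Prop := 0 < μ ∧ ∀ j, j ≠ 0 → μ < α j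

/-- The level of `x`: the largest admissible `μ` with `Q_μ(x, x) ≤ 0` (for `α 0 = 0` this is
`x_0² / μ ≥ ∑_{j ≥ 1} x_j² / (α_j - μ)`; its level sets are confocal quadratic cones). -/
noncomputable def lev {d : ℕ} (α : Fin (d + 1) → ℝ) (x : V d) : ℝ := sSup {μ | Adm α μ ∧ Q α μ x x ≤ 0}

/-- The confocal tensor `2 b ν ⊗ ν`, `b = sign (x_0) B(lev x)`, `ν` the unit normal of the level sets of `lev`,
`ν_i = x_i / (α_i - lev x) / √(∑ x_i² / (α_i - lev x)²)`. -/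
noncomputable def conf {d : ℕ} (α : Fin (d + 1) → ℝ) (B : ℝ → ℝ) : Ten d := fun x i j =>
  2 * (Real.sign (x 0) * B (lev α x)) *
    (x i / (α i - lev α x) * (x j / (α j - lev α x)) / Q2 α (lev α x) x x)

end Pool.Agent.Work.MP_659252_gt.Z
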