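import Pool.Agent.Work.MP_659252_gt.Z.Bas

/-!
# Auxiliary notions for the derivation of the first order system
-/

namespace Pool.Agent.Work.MP_659252_gt.Z

variable {d : ℕ}

/-- `∑ x_i y_i / (α_i - μ)³` -/
noncomputable def Q3 (α : Fin (d + 1) → ℝ) (μ : ℝ) (x y : V d) : ℝ := ∑ i, x i * y i / (α i - μ) ^ 3

/-- `v = γ' + (b Q(γ, γ') / N) A γ` -/
noncomputable def vv (α : Fin (d + 1) → ℝ) (B : ℝ → ℝ) (γ : ℝ → V d) (t : ℝ) : V d :=
  deriv γ t + (bb α B (γ t) * Q α (lev α (γ t)) (γ t) (deriv γ t) /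
    Q2 α (lev α (γ t)) (γ t) (γ t)) • AX α (lev α (γ t)) (γ t)

/-- derivative of `k = ((1 + b)² - 1)/N` in the direction `w` at the point `p` of level `μ`; `b`, `b1` are the value
and the derivative of `b` as a function of `μ` -/
noncomputable def Dk (α : Fin (d + 1) → ℝ) (μ b b1 : ℝ) (p w : V d) : ℝ :=
  2 * (1 + b) * (b1 * (-2 * Q α μ p w / Q2 α μ p p)) / Q2 α μ p p -
    (2 * b + b ^ 2) * (2 * Q2 α μ p w - 4 * Q α μ p w / Q2 α μ p p * Q3 α μ p p) / Q2 α μ p p ^ 2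

/-- derivative of `N = Q2 α (lev γ) γ γ` along a curve with `γ = p`, `γ' = p1` -/
noncomputable def DN (α : Fin (d + 1) → ℝ) (μ : ℝ) (p p1 : V d) : ℝ :=
  2 * Q2 α μ p p1 - 4 * Q α μ p p1 / Q2 α μ p p * Q3 α μ p p

/-- derivative of `q = Q α (lev γ) γ γ'` along a curve with `γ = p`, `γ' = p1`, `γ'' = p2` -/
noncomputable def Dq (α : Fin (d + 1) → ℝ) (μ : ℝ) (p p1 p2 : V d) : ℝ :=
  Q α μ p1 p1 + Q α μ p p2 - 2 * Q α μ p p1 / Q2 α μ p p * Q2 α μ p p1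

/-- derivative of `k q`, `k = ((1 + b)² - 1)/N` -/
noncomputable def DK (α : Fin (d + 1) → ℝ) (μ b b1 : ℝ) (p p1 p2 : V d) : ℝ :=
  Dk α μ b b1 p p1 * Q α μ p p1 + (2 * b + b ^ 2) / Q2 α μ p p * Dq α μ p p1 p2

/-- derivative of `b q / N` -/
noncomputable def DC (α : Fin (d + 1) → ℝ) (μ b b1 : ℝ) (p p1 p2 : V d) : ℝ :=
  b1 * (-2 * Q α μ p p1 / Q2 α μ p p) * Q α μ p p1 / Q2 α μ p p + b * Dq α μ p p1 p2 / Q2 α μ p p -
    b * Q α μ p p1 * DN α μ p p1 / Q2 α μ p p ^ 2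

end Pool.Agent.Work.MP_659252_gt.Z
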