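import Pool.Agent.Work.MP_659252_gt.Z.LevD
import Pool.Agent.Work.MP_659252_gt.Z.FDefs

/-!
# Derivatives along a curve at a time where the level is a root.  Size: M.

Let `γ` be a smooth curve, `p = γ t ≠ 0`, `p1 = γ' t`, `p2 = γ'' t`, `μ = lev α p` admissible with `Q α μ p p = 0`, `N = Q2 α μ p p > 0`.
PROOF.  `lev` is differentiable at `p` with `D_w lev = -2 Q(p,w)/N` (`lev_contDiffAt`, `lev_fderiv`): chain rule gives (1).
(2) `Real.sign (γ s 0)` is constant near `t` (`p 0 ≠ 0` by `Q_ne`), `B` is differentiable.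
(3)-(6): the functions `(m, y) ↦ ∑ y_i²/(α_i - m)²`, `∑ y_i z_i/(α_i - m)`, `y_i/(α_i - m)` have the obvious derivatives (term by term:
`HasDerivAt.div`, `α_i - m ≠ 0`), with `m' = μ' = -2 q/N`.  E.g. (5): `(AX)' = p1_i/(α_i - μ) + p_i μ'/(α_i - μ)²`.
-/

namespace Pool.Agent.Work.MP_659252_gt.Z

open scoped ContDiff

variable {d : ℕ} {α : Fin (d + 1) → ℝ} {B : ℝ → ℝ}

private theorem hasDerivAt_Q {m : ℝ → ℝ} {m' : ℝ} {y z : ℝ → V d} {y' z' : V d} {t : ℝ}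
    (hne : ∀ i, α i - m t ≠ 0) (hm : HasDerivAt m m' t) (hy : HasDerivAt y y' t)
    (hz : HasDerivAt z z' t) :
    HasDerivAt (fun s => Q α (m s) (y s) (z s))
      (Q α (m t) y' (z t) + Q α (m t) (y t) z' + m' * Q2 α (m t) (y t) (z t)) t := by
  have hterm : ∀ i, HasDerivAt (fun s => y s i * z s i / (α i - m s))
      (y' i * z t i / (α i - m t) + y t i * z' i / (α i - m t) +
        m' * (y t i * z t i / (α i - m t) ^ 2)) t := by
    intro i
    have h1 := ((hasDerivAt_pi.1 hy i).fun_mul (hasDerivAt_pi.1 hz i)).fun_div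
      (hm.const_sub (α i)) (hne i)
    refine h1.congr_deriv ?_
    have h := hne i
    field_simp
    ring
  have h2 := HasDerivAt.fun_sum (u := Finset.univ) fun i _ => hterm i
  unfold Q Q2
  refine h2.congr_deriv ?_
  rw [Finset.mul_sum, ← Finset.sum_add_distrib, ← Finset.sum_add_distrib]

private theorem hasDerivAt_Q2 {m : ℝ → ℝ} {m' : ℝ} {y z : ℝ → V d} {y' z' : V d} {t : ℝ}
    (hne : ∀ i, α i - m t ≠ 0) (hm : HasDerivAt m m' t) (hy : HasDerivAt y y' t)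
    (hz : HasDerivAt z z' t) :
    HasDerivAt (fun s => Q2 α (m s) (y s) (z s))
      (Q2 α (m t) y' (z t) + Q2 α (m t) (y t) z' + 2 * m' * Q3 α (m t) (y t) (z t)) t := by
  have hterm : ∀ i, HasDerivAt (fun s => y s i * z s i / (α i - m s) ^ 2)
      (y' i * z t i / (α i - m t) ^ 2 + y t i * z' i / (α i - m t) ^ 2 +
        2 * m' * (y t i * z t i / (α i - m t) ^ 3)) t := by
    intro i
    have h1 := ((hasDerivAt_pi.1 hy i).fun_mul (hasDerivAt_pi.1 hz i)).fun_div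
      ((hm.const_sub (α i)).fun_pow 2) (pow_ne_zero 2 (hne i))
    refine h1.congr_deriv ?_
    have h := hne i
    field_simp
    push_cast
    ring
  have h2 := HasDerivAt.fun_sum (u := Finset.univ) fun i _ => hterm i
  unfold Q2 Q3
  refine h2.congr_deriv ?_
  rw [Finset.mul_sum, ← Finset.sum_add_distrib, ← Finset.sum_add_distrib]

private theorem hasDerivAt_AX {m : ℝ → ℝ} {m' : ℝ} {y : ℝ → V d} {y' : V d} {t : ℝ}
    (hne : ∀ i, α i - m t ≠ 0) (hm : HasDerivAt m m' t) (hy : HasDerivAt y y' t) :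
    HasDerivAt (fun s => AX α (m s) (y s))
      (AX α (m t) y' + m' • AX α (m t) (AX α (m t) (y t))) t := by
  rw [hasDerivAt_pi]
  intro i
  have h1 := (hasDerivAt_pi.1 hy i).fun_div (hm.const_sub (α i)) (hne i)
  unfold AX
  refine h1.congr_deriv ?_
  have h := hne i
  simp only [Pi.add_apply, Pi.smul_apply, smul_eq_mul]
  field_simp
  ring

private theorem gd (γ : ℝ → V d) (hγ : ContDiff ℝ ∞ γ) (t : ℝ) : HasDerivAt γ (deriv γ t) t :=
  (hγ.differentiable (by simp) t).hasDerivAt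

private theorem gdd (γ : ℝ → V d) (hγ : ContDiff ℝ ∞ γ) (t : ℝ) :
    HasDerivAt (deriv γ) (deriv (deriv γ) t) t := by
  have h : ContDiff ℝ ∞ (deriv γ) := (contDiff_infty_iff_deriv.1 hγ).2
  exact (h.differentiable (by simp) t).hasDerivAt

theorem fa_lev (h0 : α 0 = 0) (γ : ℝ → V d) (hγ : ContDiff ℝ ∞ γ) (t : ℝ) (hp : γ t ≠ 0)
    (hμ : Adm α (lev α (γ t))) (hr : Q α (lev α (γ t)) (γ t) (γ t) = 0) :
    HasDerivAt (fun s => lev α (γ s))
      (-2 * Q α (lev α (γ t)) (γ t) (deriv γ t) / Q2 α (lev α (γ t)) (γ t) (γ t)) t := by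
  have h1 : DifferentiableAt ℝ (lev α) (γ t) :=
    (lev_contDiffAt h0 hμ (γ t) hp hr).differentiableAt (by simp)
  have h2 := h1.hasFDerivAt.comp_hasDerivAt t (gd γ hγ t)
  rw [lev_fderiv h0 hμ (γ t) hp hr] at h2
  exact h2

theorem fa_bb (h0 : α 0 = 0) (hB : ContDiff ℝ ∞ B) (γ : ℝ → V d) (hγ : ContDiff ℝ ∞ γ) (t : ℝ) (hp : γ t ≠ 0)
    (hμ : Adm α (lev α (γ t))) (hr : Q α (lev α (γ t)) (γ t) (γ t) = 0) :
    HasDerivAt (fun s => bb α B (γ s))
      (Real.sign (γ t 0) * deriv B (lev α (γ t)) *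
        (-2 * Q α (lev α (γ t)) (γ t) (deriv γ t) / Q2 α (lev α (γ t)) (γ t) (γ t))) t := by
  have h1 := fa_lev h0 γ hγ t hp hμ hr
  have hBd : HasDerivAt B (deriv B (lev α (γ t))) (lev α (γ t)) :=
    (hB.differentiable (by simp) _).hasDerivAt
  have h2 := (hBd.comp t h1).const_mul (Real.sign (γ t 0))
  have hx0 : γ t 0 ≠ 0 := Q_ne hμ (γ t) hp hr.le
  have hc : ContinuousAt (fun s => γ s 0) t :=
    ((continuous_apply 0).comp hγ.continuous).continuousAt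
  have hs : ∀ᶠ s in nhds t, Real.sign (γ s 0) = Real.sign (γ t 0) := by
    rcases lt_or_gt_of_ne hx0 with h | h
    · filter_upwards [hc.eventually (gt_mem_nhds h)] with s hs
      rw [Real.sign_of_neg hs, Real.sign_of_neg h]
    · filter_upwards [hc.eventually (lt_mem_nhds h)] with s hs
      rw [Real.sign_of_pos hs, Real.sign_of_pos h]
  rw [← mul_assoc] at h2
  refine h2.congr_of_eventuallyEq ?_
  filter_upwards [hs] with s hs
  unfold bb
  rw [hs]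
  rfl

theorem fa_N (h0 : α 0 = 0) (γ : ℝ → V d) (hγ : ContDiff ℝ ∞ γ) (t : ℝ) (hp : γ t ≠ 0)
    (hμ : Adm α (lev α (γ t))) (hr : Q α (lev α (γ t)) (γ t) (γ t) = 0) :
    HasDerivAt (fun s => Q2 α (lev α (γ s)) (γ s) (γ s)) (DN α (lev α (γ t)) (γ t) (deriv γ t)) t := by
  have h := hasDerivAt_Q2 (α := α) (m := fun s => lev α (γ s)) (Adm.ne h0 hμ)
    (fa_lev h0 γ hγ t hp hμ hr) (gd γ hγ t) (gd γ hγ t)
  refine h.congr_deriv ?_
  unfold DN
  rw [Q2_comm α _ (deriv γ t) (γ t)]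
  ring

theorem fa_q (h0 : α 0 = 0) (γ : ℝ → V d) (hγ : ContDiff ℝ ∞ γ) (t : ℝ) (hp : γ t ≠ 0)
    (hμ : Adm α (lev α (γ t))) (hr : Q α (lev α (γ t)) (γ t) (γ t) = 0) :
    HasDerivAt (fun s => Q α (lev α (γ s)) (γ s) (deriv γ s))
      (Dq α (lev α (γ t)) (γ t) (deriv γ t) (deriv (deriv γ) t)) t := by
  have h := hasDerivAt_Q (α := α) (m := fun s => lev α (γ s)) (Adm.ne h0 hμ)
    (fa_lev h0 γ hγ t hp hμ hr) (gd γ hγ t) (gdd γ hγ t)
  refine h.congr_deriv ?_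
  unfold Dq
  ring

theorem fa_AX (h0 : α 0 = 0) (γ : ℝ → V d) (hγ : ContDiff ℝ ∞ γ) (t : ℝ) (hp : γ t ≠ 0)
    (hμ : Adm α (lev α (γ t))) (hr : Q α (lev α (γ t)) (γ t) (γ t) = 0) :
    HasDerivAt (fun s => AX α (lev α (γ s)) (γ s))
      (AX α (lev α (γ t)) (deriv γ t) +
        (-2 * Q α (lev α (γ t)) (γ t) (deriv γ t) / Q2 α (lev α (γ t)) (γ t) (γ t)) •
          AX α (lev α (γ t)) (AX α (lev α (γ t)) (γ t))) t :=
  hasDerivAt_AX (α := α) (m := fun s => lev α (γ s)) (Adm.ne h0 hμ)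
    (fa_lev h0 γ hγ t hp hμ hr) (gd γ hγ t)

/-- the case of a constant vector `w` in the place of `γ'` -/
theorem fa_Qw (h0 : α 0 = 0) (γ : ℝ → V d) (hγ : ContDiff ℝ ∞ γ) (t : ℝ) (hp : γ t ≠ 0)
    (hμ : Adm α (lev α (γ t))) (hr : Q α (lev α (γ t)) (γ t) (γ t) = 0) (w : V d) :
    HasDerivAt (fun s => Q α (lev α (γ s)) (γ s) w)
      (Q α (lev α (γ t)) (deriv γ t) w -
        2 * Q α (lev α (γ t)) (γ t) (deriv γ t) / Q2 α (lev α (γ t)) (γ t) (γ t) *
          Q2 α (lev α (γ t)) (γ t) w) t := by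
  have h := hasDerivAt_Q (α := α) (m := fun s => lev α (γ s)) (Adm.ne h0 hμ)
    (fa_lev h0 γ hγ t hp hμ hr) (gd γ hγ t) (hasDerivAt_const t w)
  refine h.congr_deriv ?_
  have hz : Q α (lev α (γ t)) (γ t) 0 = 0 := by
    unfold Q
    simp
  rw [hz]
  ring

end Pool.Agent.Work.MP_659252_gt.Z
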