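import Pool.Agent.Work.MP_659252_gt.Z.Glue

/-!
# The metrics `g_b`.  Size: M.

Write `N = Q2 α (lev x) x x`, `b = bb α B x`, `k = (1 + b)² - 1 = b (2 + b)`.
PROOF.  `val_Gt`: expand the sums, `∑ AX_i v_i = Q α (lev x) x v` (`Q_eq_dot`).  `val_conf`: same.
`Gt_smooth`: the entries are `δ_ij + t b (2 + t b) Φ_ij(x, lev x)`, `Φ_ij(x, μ) = x_i x_j/((α_i - μ)(α_j - μ) Q2 α μ x x)` smooth where `x ≠ 0`,
`μ` admissible (`Q2_pos`, `Adm.ne`); `bb α (t B) = t bb α B`; so the entry is `δ_ij + t (bb Φ_ij)(2 + t bb)`, and `bb Φ_ij`, `bb` are smooth on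
`{0}ᶜ` (`glue`, `bb_contDiffOn`).
`Gt_isMetric`: smooth: the case `t = 1`; symmetric: clear; positive: for `x ⬝ x = 1`, `v ≠ 0`: if `b = 0` it is `v ⬝ v > 0`; if `b ≠ 0` then
`Q2 > 0` (`bb_eq_zero`, `lev_root`, `Q2_pos`), by Cauchy-Schwarz `Q(x,v)² = (AX ⬝ v)² ≤ (AX ⬝ AX)(v ⬝ v) = N (v ⬝ v)`, so
`v⬝v + ((1+b)² - 1) Q(x,v)²/N ≥ min(1, (1+b)²) (v ⬝ v) > 0` because `|b| ≤ |B| < 1`.
`Gt_deriv`: `t ↦ v⬝w + ((1 + t b)² - 1) c`, derivative `2 b c` at `0`.   `Gt_zero`: `t = 0` gives `v ⬝ w`.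
-/

namespace Pool.Agent.Work.MP_659252_gt.Z

open scoped ContDiff

variable {d : ℕ} {α : Fin (d + 1) → ℝ} {B : ℝ → ℝ} {lo hi : ℝ}

private theorem rank1 (K N : ℝ) (A v w : V d) :
    ∑ i, ∑ j, K * (A i * A j / N) * (v i * w j) = K * ((A ⬝ᵥ v) * (A ⬝ᵥ w) / N) := by
  have h1 : ∀ i, ∑ j, K * (A i * A j / N) * (v i * w j) = K / N * (A i * v i) * (A ⬝ᵥ w) := by
    intro i
    unfold dotProduct
    rw [Finset.mul_sum]
    exact Finset.sum_congr rfl fun j _ => by ring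
  rw [Finset.sum_congr rfl fun i _ => h1 i, ← Finset.sum_mul, ← Finset.mul_sum]
  show K / N * (A ⬝ᵥ v) * (A ⬝ᵥ w) = _
  ring

theorem val_Gt (x v w : V d) : val (Gt α B) x v w = v ⬝ᵥ w + ((1 + bb α B x) ^ 2 - 1) *
    (Q α (lev α x) x v * Q α (lev α x) x w / Q2 α (lev α x) x x) := by
  rw [Q_eq_dot α _ x v, Q_eq_dot α _ x w, ← rank1]
  unfold val Gt
  simp only [add_mul, Finset.sum_add_distrib]
  congr 1
  unfold dotProduct
  refine Finset.sum_congr rfl fun i _ => ?_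
  simp

theorem val_conf (x v w : V d) : val (conf α B) x v w = 2 * bb α B x *
    (Q α (lev α x) x v * Q α (lev α x) x w / Q2 α (lev α x) x x) := by
  rw [Q_eq_dot α _ x v, Q_eq_dot α _ x w, ← rank1]
  rfl

private theorem bb_mul (t : ℝ) (x : V d) : bb α (fun μ => t * B μ) x = t * bb α B x := by
  unfold bb
  ring

private theorem smoothΦ (h0 : α 0 = 0) (i j : Fin (d + 1)) :
    ContDiffOn ℝ ∞ (fun p : V d × ℝ => AX α p.2 p.1 i * AX α p.2 p.1 j / Q2 α p.2 p.1 p.1)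
      {p | p.1 ≠ 0 ∧ Adm α p.2} := by
  have hc : ∀ k : Fin (d + 1), ContDiffOn ℝ ∞ (fun p : V d × ℝ => p.1 k) {p | p.1 ≠ 0 ∧ Adm α p.2} := by
    intro k
    fun_prop
  have hs : ∀ k : Fin (d + 1), ContDiffOn ℝ ∞ (fun p : V d × ℝ => α k - p.2) {p | p.1 ≠ 0 ∧ Adm α p.2} := by
    intro k
    fun_prop
  have hAX : ∀ k : Fin (d + 1), ContDiffOn ℝ ∞ (fun p : V d × ℝ => AX α p.2 p.1 k)
      {p | p.1 ≠ 0 ∧ Adm α p.2} := by
    intro k
    exact (hc k).div (hs k) fun p hp => hp.2.ne h0 k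
  refine ((hAX i).mul (hAX j)).div ?_ fun p hp => (Q2_pos h0 hp.2 p.1 hp.1).ne'
  unfold Q2
  refine ContDiffOn.sum fun k _ => ?_
  exact ((hc k).mul (hc k)).div ((hs k).pow 2) fun p hp => pow_ne_zero 2 (hp.2.ne h0 k)

theorem Gt_smooth (hd : 1 ≤ d) (D : Dat α B lo hi) :
    ContDiffOn ℝ ∞ (fun p : ℝ × V d => Gt α (fun μ => p.1 * B μ) p.2) (Set.univ ×ˢ {0}ᶜ) := by
  have hmaps : Set.MapsTo (fun p : ℝ × V d => p.2) (Set.univ ×ˢ ({0}ᶜ : Set (V d))) ({0}ᶜ : Set (V d)) :=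
    fun p hp => hp.2
  have hb : ContDiffOn ℝ ∞ (fun p : ℝ × V d => bb α B p.2) (Set.univ ×ˢ ({0}ᶜ : Set (V d))) :=
    ContDiffOn.comp (g := bb α B) (f := fun p : ℝ × V d => p.2) (bb_contDiffOn hd D) contDiffOn_snd hmaps
  refine contDiffOn_pi.2 fun i => contDiffOn_pi.2 fun j => ?_
  have hg := glue hd D _ (smoothΦ (α := α) D.a0 i j)
  have hg' : ContDiffOn ℝ ∞ (fun p : ℝ × V d => bb α B p.2 *
      (AX α (lev α p.2) p.2 i * AX α (lev α p.2) p.2 j / Q2 α (lev α p.2) p.2 p.2))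
      (Set.univ ×ˢ ({0}ᶜ : Set (V d))) :=
    ContDiffOn.comp (g := fun x : V d => bb α B x *
      (AX α (lev α x) x i * AX α (lev α x) x j / Q2 α (lev α x) x x))
      (f := fun p : ℝ × V d => p.2) hg contDiffOn_snd hmaps
  have h1 : ContDiffOn ℝ ∞ (fun p : ℝ × V d => (if i = j then (1 : ℝ) else 0) +
      p.1 * (2 + p.1 * bb α B p.2) * (bb α B p.2 *
      (AX α (lev α p.2) p.2 i * AX α (lev α p.2) p.2 j / Q2 α (lev α p.2) p.2 p.2)))
      (Set.univ ×ˢ ({0}ᶜ : Set (V d))) :=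
    contDiffOn_const.add ((contDiffOn_fst.mul (contDiffOn_const.add (contDiffOn_fst.mul hb))).mul hg')
  refine h1.congr fun p _ => ?_
  show Gt α (fun μ => p.1 * B μ) p.2 i j = _
  unfold Gt
  rw [bb_mul]
  ring

theorem Gt_isMetric (hd : 1 ≤ d) (D : Dat α B lo hi) (hB : ∀ μ, |B μ| < 1) : IsMetric (Gt α B) := by
  refine ⟨?_, ?_, ?_⟩
  · have h := Gt_smooth hd D
    have h1 : ContDiffOn ℝ ∞ (fun x : V d => ((1 : ℝ), x)) ({0}ᶜ : Set (V d)) :=
      contDiffOn_const.prodMk contDiffOn_id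
    have h2 := ContDiffOn.comp (g := fun p : ℝ × V d => Gt α (fun μ => p.1 * B μ) p.2)
      (f := fun x : V d => ((1 : ℝ), x)) h h1 (fun x hx => ⟨Set.mem_univ _, hx⟩)
    refine h2.congr fun x _ => ?_
    show Gt α B x = Gt α (fun μ => 1 * B μ) x
    simp only [one_mul]
  · intro x i j
    unfold Gt
    rw [mul_comm (AX α (lev α x) x i)]
    simp only [eq_comm]
  · intro x v hxv hv
    have hx : x ≠ 0 := by
      rintro rfl
      have := hxv.1
      simp at this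
    have hvv : 0 < v ⬝ᵥ v := by
      obtain ⟨i, hi⟩ := Function.ne_iff.1 hv
      have hi' : v i ≠ 0 := hi
      exact Finset.sum_pos' (fun k _ => mul_self_nonneg _) ⟨i, Finset.mem_univ _, mul_self_pos.2 hi'⟩
    rw [val_Gt]
    by_cases hb : bb α B x = 0
    · rw [hb]; simpa using hvv
    · have h1 : Q α lo x x < 0 := by
        by_contra h
        exact hb (bb_eq_zero hd D x hx (Or.inl (not_lt.1 h)))
      have h2 : 0 < Q α hi x x := by
        by_contra h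
        exact hb (bb_eq_zero hd D x hx (Or.inr (not_lt.1 h)))
      obtain ⟨h3, h4, h5⟩ := lev_root D.a0 D.adm_lo D.adm_hi D.lo_hi.le x hx h1.le h2.le
      have hN := Q2_pos D.a0 (D.adm_mem h3 h4) x hx
      have hcs : Q α (lev α x) x v * Q α (lev α x) x v ≤ Q2 α (lev α x) x x * (v ⬝ᵥ v) := by
        have h := Finset.sum_mul_sq_le_sq_mul_sq Finset.univ (AX α (lev α x) x) v
        rw [Q_eq_dot, Q2_eq_dot]
        unfold dotProduct
        calc _ = (∑ i, AX α (lev α x) x i * v i) ^ 2 := by ring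
          _ ≤ _ := h
          _ = _ := by simp only [sq]
      have hr : Q α (lev α x) x v * Q α (lev α x) x v / Q2 α (lev α x) x x ≤ v ⬝ᵥ v := by
        rw [div_le_iff₀ hN]
        linarith
      have hr0 : 0 ≤ Q α (lev α x) x v * Q α (lev α x) x v / Q2 α (lev α x) x x :=
        div_nonneg (mul_self_nonneg _) hN.le
      have hbabs : |bb α B x| < 1 := by
        unfold bb
        rw [abs_mul]
        have hs : |Real.sign (x 0)| ≤ 1 := by
          rcases Real.sign_apply_eq (x 0) with h | h | h <;> rw [h] <;> norm_num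
        calc |Real.sign (x 0)| * |B (lev α x)| ≤ 1 * |B (lev α x)| :=
              mul_le_mul_of_nonneg_right hs (abs_nonneg _)
          _ < 1 := by rw [one_mul]; exact hB _
      have hb1 := (abs_lt.1 hbabs).1
      have hb2 := (abs_lt.1 hbabs).2
      set r := Q α (lev α x) x v * Q α (lev α x) x v / Q2 α (lev α x) x x
      set b := bb α B x
      have hp : 0 < (1 + b) ^ 2 := by have : 0 < 1 + b := by linarith
                                      positivity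
      rcases le_or_gt 1 ((1 + b) ^ 2) with h6 | h6
      · have : 0 ≤ ((1 + b) ^ 2 - 1) * r := mul_nonneg (by linarith) hr0
        linarith
      · have h7 : ((1 + b) ^ 2 - 1) * (v ⬝ᵥ v) ≤ ((1 + b) ^ 2 - 1) * r :=
          mul_le_mul_of_nonpos_left hr (by linarith)
        have h8 : 0 < (1 + b) ^ 2 * (v ⬝ᵥ v) := mul_pos hp hvv
        nlinarith

theorem Gt_zero (x v w : V d) : val (Gt α (fun μ => 0 * B μ)) x v w = v ⬝ᵥ w := by
  rw [val_Gt, bb_mul]
  ring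

theorem Gt_deriv (x v w : V d) :
    HasDerivAt (fun t : ℝ => val (Gt α (fun μ => t * B μ)) x v w) (val (conf α B) x v w) 0 := by
  rw [val_conf]
  set c := Q α (lev α x) x v * Q α (lev α x) x w / Q2 α (lev α x) x x with hc
  have h1 : (fun t : ℝ => val (Gt α (fun μ => t * B μ)) x v w) =
      fun t : ℝ => v ⬝ᵥ w + ((1 + t * bb α B x) ^ 2 - 1) * c := by
    funext t
    rw [val_Gt, bb_mul]
  rw [h1]
  have h2 : HasDerivAt (fun t : ℝ => 1 + t * bb α B x) (bb α B x) 0 := by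
    simpa using ((hasDerivAt_id (0 : ℝ)).mul_const (bb α B x)).const_add 1
  have h3 := (((h2.pow 2).sub_const 1).mul_const c).const_add (v ⬝ᵥ w)
  refine h3.congr_deriv ?_
  simp

end Pool.Agent.Work.MP_659252_gt.Z
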