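import Pool.Agent.Work.MP_659252_gt.Z.FA
import Pool.Agent.Work.MP_659252_gt.Z.MetA
import Pool.Agent.Work.MP_659252_gt.Z.VarB

/-!
# The Euler-Lagrange equations of `g_b` in the ring.  Size: M.

Let `p = γ t`, `p1`, `p2`, `μ = lev α p`, `N = Q2 α μ p p`, `b = bb α B p`, `b1 = sign (p 0) B'(μ)`, `q = Q α μ p p1`.
PROOF.  (1) `val (Gt) (γ s) (γ' s) w = γ' ⬝ w + k q Q(γ, w)`, `k = ((1 + b)² - 1)/N` (`val_Gt`); its derivative at `t` is
`p2 ⬝ w + DK Q(p,w) + k q (Q(p1,w) - (2 q/N) Q2(p,w))` (`fa_bb`, `fa_N`, `fa_q`, `fa_Qw`; `DK` is the derivative of `k q`, and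
`(2b + b²)' = 2 (1 + b) b'`, so that the derivative of `k` along `γ` is `Dk α μ b b1 p p1`).
(2) The right side: for constant `c = p1` the function `x ↦ val (Gt) x c c = c ⬝ c + k(x) Q α (lev x) x c ^ 2` has at `p` in the direction `w` the
derivative `Dk(w) q² + 2 k q (Q(w,c) - (2 Q(p,w)/N) Q2(p,c))`: apply (the proofs of) `fa_*` to the straight line `s ↦ p + s w` (a smooth curve),
whose derivative at `0` is `w`.  And `∑ ∑ fderiv (Gt_ij) p w c_i c_j` is the derivative of `s ↦ val Gt (p + s w) c c` at `0` (the entries are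
differentiable at `p` by `Gt_isMetric.smooth`).
(3) `strong_EL` (the derivative is unique).
-/

namespace Pool.Agent.Work.MP_659252_gt.Z

open scoped ContDiff

variable {d : ℕ} {α : Fin (d + 1) → ℝ} {B : ℝ → ℝ} {lo hi : ℝ}

/-- derivative of `(1 + b)² - 1) (u v / n)` -/
private theorem hd_form {b u v n : ℝ → ℝ} {b' u' v' n' t : ℝ} (hb : HasDerivAt b b' t)
    (hu : HasDerivAt u u' t) (hv : HasDerivAt v v' t) (hn : HasDerivAt n n' t) (h0 : n t ≠ 0) :
    HasDerivAt (fun s => ((1 + b s) ^ 2 - 1) * (u s * v s / n s))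
      (2 * (1 + b t) * b' * (u t * v t / n t) +
        ((1 + b t) ^ 2 - 1) * (((u' * v t + u t * v') * n t - u t * v t * n') / n t ^ 2)) t := by
  have h1 : HasDerivAt (fun s => (1 + b s) ^ 2 - 1) (2 * (1 + b t) * b') t := by
    refine (((hb.const_add 1).fun_pow 2).sub_const 1).congr_deriv ?_
    push_cast
    ring
  have h2 : HasDerivAt (fun s => u s * v s / n s)
      (((u' * v t + u t * v') * n t - u t * v t * n') / n t ^ 2) t :=
    (hu.fun_mul hv).fun_div hn h0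
  exact h1.fun_mul h2

private theorem alg {A b b1 q N u D v v' r s T : ℝ} (hN : N ≠ 0)
    (e : 1 / 2 * (2 * (1 + b) * (b1 * (-2 * u / N)) * (q * q / N) +
        ((1 + b) ^ 2 - 1) * ((((v' - 2 * u / N * s) * q + q * (v' - 2 * u / N * s)) * N -
          q * q * (2 * r - 4 * u / N * T)) / N ^ 2)) =
      A + (2 * (1 + b) * (b1 * (-2 * q / N)) * (q * u / N) +
        ((1 + b) ^ 2 - 1) * (((D * u + q * (v - 2 * q / N * r)) * N -
          q * u * (2 * s - 4 * q / N * T)) / N ^ 2))) :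
    A + ((2 * (1 + b) * (b1 * (-2 * q / N)) / N -
        (2 * b + b ^ 2) * (2 * s - 4 * q / N * T) / N ^ 2) * q + (2 * b + b ^ 2) / N * D) * u +
        (2 * b + b ^ 2) / N * q * (v - 2 * q / N * r) =
      1 / 2 * ((2 * (1 + b) * (b1 * (-2 * u / N)) / N -
        (2 * b + b ^ 2) * (2 * r - 4 * u / N * T) / N ^ 2) * q ^ 2 +
        2 * ((2 * b + b ^ 2) / N) * q * (v' - 2 * u / N * s)) := by
  have h : (A + ((2 * (1 + b) * (b1 * (-2 * q / N)) / N -
        (2 * b + b ^ 2) * (2 * s - 4 * q / N * T) / N ^ 2) * q + (2 * b + b ^ 2) / N * D) * u +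
        (2 * b + b ^ 2) / N * q * (v - 2 * q / N * r)) -
      (1 / 2 * ((2 * (1 + b) * (b1 * (-2 * u / N)) / N -
        (2 * b + b ^ 2) * (2 * r - 4 * u / N * T) / N ^ 2) * q ^ 2 +
        2 * ((2 * b + b ^ 2) / N) * q * (v' - 2 * u / N * s))) =
      (A + (2 * (1 + b) * (b1 * (-2 * q / N)) * (q * u / N) +
        ((1 + b) ^ 2 - 1) * (((D * u + q * (v - 2 * q / N * r)) * N -
          q * u * (2 * s - 4 * q / N * T)) / N ^ 2))) -
      (1 / 2 * (2 * (1 + b) * (b1 * (-2 * u / N)) * (q * q / N) +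
        ((1 + b) ^ 2 - 1) * ((((v' - 2 * u / N * s) * q + q * (v' - 2 * u / N * s)) * N -
          q * q * (2 * r - 4 * u / N * T)) / N ^ 2))) := by
    field_simp
    ring
  linarith

theorem EL_ring (hd : 1 ≤ d) (D : Dat α B lo hi) (hB : ∀ μ, |B μ| < 1) (γ : ℝ → V d)
    (hγ : IsGeodesic (Gt α B) γ) (t : ℝ)
    (h1 : Q α lo (γ t) (γ t) ≤ 0) (h2 : 0 ≤ Q α hi (γ t) (γ t))
    (p p1 p2 : V d) (hp : p = γ t) (hp1 : p1 = deriv γ t) (hp2 : p2 = deriv (deriv γ) t)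
    (μ b b1 : ℝ) (hμ : μ = lev α p) (hb : b = bb α B p) (hb1 : b1 = Real.sign (p 0) * deriv B μ)
    (w : V d) (hw : p ⬝ᵥ w = 0) :
    p2 ⬝ᵥ w + DK α μ b b1 p p1 p2 * Q α μ p w +
        (2 * b + b ^ 2) / Q2 α μ p p * Q α μ p p1 *
          (Q α μ p1 w - 2 * Q α μ p p1 / Q2 α μ p p * Q2 α μ p w) =
      (1 / 2) * (Dk α μ b b1 p w * Q α μ p p1 ^ 2 + 2 * ((2 * b + b ^ 2) / Q2 α μ p p) * Q α μ p p1 *
        (Q α μ w p1 - 2 * Q α μ p w / Q2 α μ p p * Q2 α μ p p1)) := by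
  have h0 := D.a0
  have hne : γ t ≠ 0 := by
    intro h
    have := hγ.sphere t
    rw [h, zero_dotProduct] at this
    exact zero_ne_one this
  obtain ⟨hl1, hl2, hr⟩ := lev_root h0 D.adm_lo D.adm_hi D.lo_hi.le (γ t) hne h1 h2
  have hadm : Adm α (lev α (γ t)) := D.adm_mem hl1 hl2
  have hG := Gt_isMetric hd D hB
  have hN : Q2 α (lev α (γ t)) (γ t) (γ t) ≠ 0 := (Q2_pos h0 hadm (γ t) hne).ne'
  have hsm := hγ.smooth
  have hdd : HasDerivAt (deriv γ) (deriv (deriv γ) t) t := by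
    have h : ContDiff ℝ ∞ (deriv γ) := (contDiff_infty_iff_deriv.1 hsm).2
    exact (h.differentiable (by simp) t).hasDerivAt
  -- the left side
  have e1 : HasDerivAt (fun s => deriv γ s ⬝ᵥ w) (deriv (deriv γ) t ⬝ᵥ w) t := by
    unfold dotProduct
    exact HasDerivAt.fun_sum fun i _ => (hasDerivAt_pi.1 hdd i).mul_const (w i)
  have e2 := hd_form (fa_bb h0 D.smooth γ hsm t hne hadm hr) (fa_q h0 γ hsm t hne hadm hr)
    (fa_Qw h0 γ hsm t hne hadm hr w) (fa_N h0 γ hsm t hne hadm hr) hN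
  have e3 := e1.fun_add e2
  have hE := strong_EL (Gt α B) hG γ hγ t w (by rw [← hp]; exact hw)
  have e4 := hE.unique (e3.congr_of_eventuallyEq (Filter.Eventually.of_forall fun s =>
    val_Gt (γ s) (deriv γ s) w))
  -- the right side
  have hℓ : ContDiff ℝ ∞ (fun s : ℝ => γ t + s • w) :=
    contDiff_const.add (contDiff_id.smul contDiff_const)
  have hℓ0 : γ t + (0 : ℝ) • w = γ t := by rw [zero_smul, add_zero]
  have hℓd' : HasDerivAt (fun s : ℝ => γ t + s • w) w 0 := by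
    simpa using ((hasDerivAt_id (0 : ℝ)).smul_const w).const_add (γ t)
  have hℓd : deriv (fun s : ℝ => γ t + s • w) 0 = w := hℓd'.deriv
  have f1 := fa_bb (B := B) h0 D.smooth (fun s : ℝ => γ t + s • w) hℓ 0
    (by rw [hℓ0]; exact hne) (by rw [hℓ0]; exact hadm) (by rw [hℓ0]; exact hr)
  have f2 := fa_Qw h0 (fun s : ℝ => γ t + s • w) hℓ 0
    (by rw [hℓ0]; exact hne) (by rw [hℓ0]; exact hadm) (by rw [hℓ0]; exact hr) (deriv γ t)
  have f3 := fa_N h0 (fun s : ℝ => γ t + s • w) hℓ 0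
    (by rw [hℓ0]; exact hne) (by rw [hℓ0]; exact hadm) (by rw [hℓ0]; exact hr)
  rw [hℓd] at f1 f2 f3
  have f4 := hd_form f1 f2 f2 f3 (by
    change Q2 α (lev α (γ t + (0 : ℝ) • w)) (γ t + (0 : ℝ) • w) (γ t + (0 : ℝ) • w) ≠ 0
    rw [zero_smul, add_zero]
    exact hN)
  have f5 := (f4.const_add (deriv γ t ⬝ᵥ deriv γ t)).congr_of_eventuallyEq
    (Filter.Eventually.of_forall fun s => val_Gt (α := α) (B := B) (γ t + s • w) (deriv γ t)
      (deriv γ t))
  have hdiff : ∀ i j, HasFDerivAt (fun x => Gt α B x i j)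
      (fderiv ℝ (fun x => Gt α B x i j) (γ t)) (γ t) := by
    intro i j
    have hc : ContDiffAt ℝ ∞ (Gt α B) (γ t) :=
      (hG.smooth).contDiffAt (isOpen_compl_singleton.mem_nhds hne)
    have hda : DifferentiableAt ℝ (Gt α B) (γ t) := hc.differentiableAt (by simp)
    have h3 : DifferentiableAt ℝ (fun x => Gt α B x i j) (γ t) :=
      differentiableAt_pi.1 (differentiableAt_pi.1 hda i) j
    exact h3.hasFDerivAt
  have f6 : HasDerivAt (fun s : ℝ => val (Gt α B) (γ t + s • w) (deriv γ t) (deriv γ t))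
      (∑ i, ∑ j, fderiv ℝ (fun x => Gt α B x i j) (γ t) w * (deriv γ t i * deriv γ t j)) 0 := by
    unfold val
    refine HasDerivAt.fun_sum fun i _ => HasDerivAt.fun_sum fun j _ => ?_
    have h4 : HasFDerivAt (fun x => Gt α B x i j)
        (fderiv ℝ (fun x => Gt α B x i j) (γ t)) (γ t + (0 : ℝ) • w) := by
      rw [hℓ0]
      exact hdiff i j
    exact (h4.comp_hasDerivAt 0 hℓd').mul_const _
  have f7 := f6.unique f5
  rw [f7] at e4
  simp only [zero_smul, add_zero] at e4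
  subst hp hp1 hp2 hμ hb hb1
  unfold DN at e4
  unfold DK Dk
  exact alg hN e4

end Pool.Agent.Work.MP_659252_gt.Z
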