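import Pool.Agent.Work.MP_659252_gt.Z.FDefs
import Pool.Agent.Work.MP_659252_gt.Z.Qm

/-!
# The algebra of the first order system.  Size: M.  (Pure algebra; checked numerically.)

Notation: `N = Q2 p p`, `q = Q p p1`, `r = Q2 p p1`, `s = Q p1 p1`, `m = Q3 p p`, `y = Q p p2`, `c = 2b + b²`, `A = AX α μ`.  By definition
`(A z) ⬝ w = Q z w`, `(A (A z)) ⬝ w = Q2 z w`, `Q p (A z) = Q2 p z`, `Q2 p (A p) = Q3 p p = m`, `Q p1 (A p) = r`, `Q p (A p) = N`.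
PROOF.  (i) `w = A p` is allowed in `hE` (`p ⬝ A p = Q p p = 0`), and `p2 ⬝ A p = y`:
  `y + DK N + (c/N) q (r - 2 q m/N) = (1/2) (Dk(Ap) q² + 2 (c/N) q (r - 2 r))`,
with `Dk(Ap) = 2 (1+b) b1 (-2)/N - c (2 m - 4 m)/N²`, `Dk(p1) = 2(1+b) b1 (-2q/N)/N - c (2 r - 4 q m/N)/N²`, `DK = Dk(p1) q + (c/N)(s + y - 2 q r/N)`.
As `1 + c = (1+b)²` this gives `(1+b)² y = - c s + ...`: equivalently (with `q' = Dq = s + y - 2qr/N`)
  `(1+b)² q' = s - 2 q r/N - c m q²/N² + 2 (1+b) b1 q²/N`.   (*)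
(ii) For `w ⊥ p`: `hE` reads `p2 ⬝ w = λ Q p w + (c q²/N²) Q2 p w`, where `λ = - DK - 2 (1+b) b1 q²/N² + 2 c m q²/N³ - 2 c q r/N²` (the terms
`(c/N) q Q(p1,w)` cancel).
(iii) Let `u` be left side minus right side of the claim.  `X2 p v ⬝ w = 2 (Q p v Q v w - Q v v Q p w)`, `Q p v = (1+b) q` (as `Q p (A p) = N`),
`Q v w = Q p1 w + (b q/N) Q2 p w`, `Q v v = s + 2 b q r/N + b² q² m/N²`.  So for `w ⊥ p`
  `u ⬝ w = (λ + DC + (b/((1+b) N)) Q v v) Q p w`, and the bracket is `0` by (*) (field_simp; linear_combination (coefficient) * (*)).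
`u ⬝ p = p2 ⬝ p + (b q/N) (q - 2 q N/N ...)`: with `(A p) ⬝ p = 0`, `(A p1) ⬝ p = q`, `(A (A p)) ⬝ p = N`, `p2 ⬝ p = - p1 ⬝ p1 = -(1 - c q²/N)`,
`X2 p v ⬝ p = 2 (1+b) q Q v p = 2 (1+b)² q²`: `u ⬝ p = -1 + c q²/N + (b q/N)(q - 2 q) + 1 - b (1+b) q²/N = 0`.
Every vector is `(w ⬝ p) p` plus a vector orthogonal to `p` (`p ⬝ p = 1`), so `u ⬝ w = 0` for all `w`, `u = 0`.
-/

namespace Pool.Agent.Work.MP_659252_gt.Z

variable {d : ℕ} {α : Fin (d + 1) → ℝ}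

private theorem fc_AA (μ : ℝ) (x w : V d) : AX α μ (AX α μ x) ⬝ᵥ w = Q2 α μ x w := by
  unfold Q2 AX dotProduct
  exact Finset.sum_congr rfl fun i _ => by
    show x i / (α i - μ) / (α i - μ) * w i = x i * w i / (α i - μ) ^ 2
    rw [sq, div_div]
    ring

private theorem fc_AAA (μ : ℝ) (x w : V d) : AX α μ (AX α μ x) ⬝ᵥ AX α μ w = Q3 α μ x w := by
  unfold Q3 AX dotProduct
  exact Finset.sum_congr rfl fun i _ => by
    show x i / (α i - μ) / (α i - μ) * (w i / (α i - μ)) = x i * w i / (α i - μ) ^ 3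
    rw [div_div, div_mul_div_comm]
    congr 1
    ring

private theorem fc_X2 (μ : ℝ) (x v w : V d) :
    X2 α μ x v ⬝ᵥ w = 2 * (Q α μ x v * Q α μ v w - Q α μ v v * Q α μ x w) := by
  have e : X2 α μ x v = (2 * Q α μ x v) • AX α μ v - (2 * Q α μ v v) • AX α μ x := by
    funext i
    simp only [X2, AX, Pi.sub_apply, Pi.smul_apply, smul_eq_mul]
    ring
  rw [e, sub_dotProduct, smul_dotProduct, smul_dotProduct, ← Q_eq_dot, ← Q_eq_dot, smul_eq_mul,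
    smul_eq_mul]
  ring

private theorem fc_Npos (h0 : α 0 = 0) (μ : ℝ) (hμ : Adm α μ) (p : V d) (hpp : p ⬝ᵥ p = 1) :
    Q2 α μ p p ≠ 0 := by
  intro h
  have h1 : AX α μ p ⬝ᵥ AX α μ p = 0 := by rw [← Q2_eq_dot, h]
  have h2 : AX α μ p = 0 := dotProduct_self_eq_zero.mp h1
  have h3 : p = 0 := by
    funext i
    have h4 := congrFun h2 i
    simp only [AX, Pi.zero_apply] at h4
    rcases div_eq_zero_iff.mp h4 with h5 | h5
    · exact h5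
    · exact absurd h5 (hμ.ne h0 i)
  rw [h3, dotProduct_zero] at hpp
  exact zero_ne_one hpp

private theorem fc_bracket {N q r s m y b b1 : ℝ} (hN : N ≠ 0) (hb : 1 + b ≠ 0)
    (E : y + ((2 * (1 + b) * (b1 * (-2 * q / N)) / N -
        (2 * b + b ^ 2) * (2 * r - 4 * q / N * m) / N ^ 2) * q +
        (2 * b + b ^ 2) / N * (s + y - 2 * q / N * r)) * N +
      (2 * b + b ^ 2) / N * q * (r - 2 * q / N * m) =
      (1 / 2) * ((2 * (1 + b) * (b1 * (-2 * N / N)) / N -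
        (2 * b + b ^ 2) * (2 * m - 4 * N / N * m) / N ^ 2) * q ^ 2 +
        2 * ((2 * b + b ^ 2) / N) * q * (r - 2 * N / N * r))) :
    -((2 * (1 + b) * (b1 * (-2 * q / N)) / N -
        (2 * b + b ^ 2) * (2 * r - 4 * q / N * m) / N ^ 2) * q +
        (2 * b + b ^ 2) / N * (s + y - 2 * q / N * r)) -
      2 * (1 + b) * b1 * q ^ 2 / N ^ 2 + 2 * (2 * b + b ^ 2) * m * q ^ 2 / N ^ 3 -
      2 * (2 * b + b ^ 2) * q * r / N ^ 2 +
      (b1 * (-2 * q / N) * q / N + b * (s + y - 2 * q / N * r) / N -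
        b * q * (2 * r - 4 * q / N * m) / N ^ 2) +
      b / ((1 + b) * N) * (s + 2 * (b * q / N) * r + (b * q / N) ^ 2 * m) = 0 := by
  have key : -((2 * (1 + b) * (b1 * (-2 * q / N)) / N -
        (2 * b + b ^ 2) * (2 * r - 4 * q / N * m) / N ^ 2) * q +
        (2 * b + b ^ 2) / N * (s + y - 2 * q / N * r)) -
      2 * (1 + b) * b1 * q ^ 2 / N ^ 2 + 2 * (2 * b + b ^ 2) * m * q ^ 2 / N ^ 3 -
      2 * (2 * b + b ^ 2) * q * r / N ^ 2 +
      (b1 * (-2 * q / N) * q / N + b * (s + y - 2 * q / N * r) / N -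
        b * q * (2 * r - 4 * q / N * m) / N ^ 2) +
      b / ((1 + b) * N) * (s + 2 * (b * q / N) * r + (b * q / N) ^ 2 * m) =
      -(b / ((1 + b) * N)) * ((y + ((2 * (1 + b) * (b1 * (-2 * q / N)) / N -
        (2 * b + b ^ 2) * (2 * r - 4 * q / N * m) / N ^ 2) * q +
        (2 * b + b ^ 2) / N * (s + y - 2 * q / N * r)) * N +
      (2 * b + b ^ 2) / N * q * (r - 2 * q / N * m)) -
      ((1 / 2) * ((2 * (1 + b) * (b1 * (-2 * N / N)) / N -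
        (2 * b + b ^ 2) * (2 * m - 4 * N / N * m) / N ^ 2) * q ^ 2 +
        2 * ((2 * b + b ^ 2) / N) * q * (r - 2 * N / N * r)))) := by
    field_simp
    ring
  rw [key, E, sub_self, mul_zero]

theorem fc (h0 : α 0 = 0) (μ b b1 : ℝ) (hμ : Adm α μ) (hb : 1 + b ≠ 0) (p p1 p2 v : V d)
    (hpp : p ⬝ᵥ p = 1) (hpp1 : p ⬝ᵥ p1 = 0) (hpp2 : p ⬝ᵥ p2 = -(p1 ⬝ᵥ p1)) (hQ : Q α μ p p = 0)
    (hunit : p1 ⬝ᵥ p1 + (2 * b + b ^ 2) * Q α μ p p1 ^ 2 / Q2 α μ p p = 1)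
    (hE : ∀ w : V d, p ⬝ᵥ w = 0 →
      p2 ⬝ᵥ w + DK α μ b b1 p p1 p2 * Q α μ p w +
          (2 * b + b ^ 2) / Q2 α μ p p * Q α μ p p1 *
            (Q α μ p1 w - 2 * Q α μ p p1 / Q2 α μ p p * Q2 α μ p w) =
        (1 / 2) * (Dk α μ b b1 p w * Q α μ p p1 ^ 2 + 2 * ((2 * b + b ^ 2) / Q2 α μ p p) * Q α μ p p1 *
          (Q α μ w p1 - 2 * Q α μ p w / Q2 α μ p p * Q2 α μ p p1)))
    (hv : v = p1 + (b * Q α μ p p1 / Q2 α μ p p) • AX α μ p) :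
    p2 + (DC α μ b b1 p p1 p2 • AX α μ p + (b * Q α μ p p1 / Q2 α μ p p) •
        (AX α μ p1 + (-2 * Q α μ p p1 / Q2 α μ p p) • AX α μ (AX α μ p))) =
      -p + (b / (2 * (1 + b) * Q2 α μ p p)) • X2 α μ p v := by
  have hN := fc_Npos h0 μ hμ p hpp
  have hAp : p ⬝ᵥ AX α μ p = 0 := by rw [dotProduct_comm, ← Q_eq_dot, hQ]
  have E := hE (AX α μ p) hAp
  -- values
  have v1 : p2 ⬝ᵥ AX α μ p = Q α μ p p2 := by rw [dotProduct_comm, ← Q_eq_dot]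
  have v2 : Q α μ p (AX α μ p) = Q2 α μ p p := by rw [Q_eq_dot, ← Q2_eq_dot]
  have v3 : Q α μ p1 (AX α μ p) = Q2 α μ p p1 := by rw [Q_eq_dot, ← Q2_eq_dot, Q2_comm]
  have v3' : Q α μ (AX α μ p) p1 = Q2 α μ p p1 := by rw [Q_comm, v3]
  have v4 : Q2 α μ p (AX α μ p) = Q3 α μ p p := by
    rw [Q2_comm, Q2_eq_dot, fc_AAA]
  have v5 : ∀ w, Q α μ (AX α μ p) w = Q2 α μ p w := fun w => by rw [Q_eq_dot, fc_AA]
  have v6 : Q2 α μ (AX α μ p) p = Q3 α μ p p := by rw [Q2_comm, v4]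
  -- values at `v`
  have w1 : Q α μ p v = (1 + b) * Q α μ p p1 := by
    rw [hv, Q_comm, Q_add, Q_smul, Q_comm α μ (AX α μ p) p, v2, Q_comm α μ p1 p]
    field_simp
  have w2 : ∀ w, Q α μ v w = Q α μ p1 w + b * Q α μ p p1 / Q2 α μ p p * Q2 α μ p w := by
    intro w
    rw [hv, Q_add, Q_smul, v5]
  have w3 : Q α μ v v = Q α μ p1 p1 + 2 * (b * Q α μ p p1 / Q2 α μ p p) * Q2 α μ p p1 +
      (b * Q α μ p p1 / Q2 α μ p p) ^ 2 * Q3 α μ p p := by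
    rw [w2 v, Q_comm α μ p1 v, w2 p1, Q2_comm α μ p v, hv, Q2_add, Q2_smul, v6, Q2_comm α μ p1 p]
    ring
  have hL : ∀ w, (p2 + (DC α μ b b1 p p1 p2 • AX α μ p + (b * Q α μ p p1 / Q2 α μ p p) •
        (AX α μ p1 + (-2 * Q α μ p p1 / Q2 α μ p p) • AX α μ (AX α μ p)))) ⬝ᵥ w =
      p2 ⬝ᵥ w + (DC α μ b b1 p p1 p2 * Q α μ p w + b * Q α μ p p1 / Q2 α μ p p *
        (Q α μ p1 w + -2 * Q α μ p p1 / Q2 α μ p p * Q2 α μ p w)) := by
    intro w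
    rw [add_dotProduct, add_dotProduct, smul_dotProduct, smul_dotProduct, add_dotProduct,
      smul_dotProduct, fc_AA, ← Q_eq_dot, ← Q_eq_dot]
    simp only [smul_eq_mul]
  have hR : ∀ w, (-p + (b / (2 * (1 + b) * Q2 α μ p p)) • X2 α μ p v) ⬝ᵥ w =
      -(p ⬝ᵥ w) + b / (2 * (1 + b) * Q2 α μ p p) *
        (2 * (Q α μ p v * Q α μ v w - Q α μ v v * Q α μ p w)) := by
    intro w
    rw [add_dotProduct, neg_dotProduct, smul_dotProduct, fc_X2, smul_eq_mul]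
  have H1 : ∀ w, p ⬝ᵥ w = 0 → (p2 + (DC α μ b b1 p p1 p2 • AX α μ p +
        (b * Q α μ p p1 / Q2 α μ p p) •
        (AX α μ p1 + (-2 * Q α μ p p1 / Q2 α μ p p) • AX α μ (AX α μ p)))) ⬝ᵥ w =
      (-p + (b / (2 * (1 + b) * Q2 α μ p p)) • X2 α μ p v) ⬝ᵥ w := by
    intro w hw
    have F := hE w hw
    rw [hL, hR, hw, w1, w2, w3]
    rw [Q_comm α μ w p1] at F
    simp only [DK, DC, Dk, Dq, DN, v1, v2, v3, v3', v4] at E F ⊢
    have B := fc_bracket hN hb (s := Q α μ p1 p1) (m := Q3 α μ p p) (y := Q α μ p p2)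
      (r := Q2 α μ p p1) (q := Q α μ p p1) (b1 := b1) E
    generalize Q2 α μ p p = N at *
    generalize Q α μ p p1 = q at *
    generalize Q2 α μ p p1 = r at *
    generalize Q α μ p1 p1 = s at *
    generalize Q3 α μ p p = m at *
    generalize Q α μ p p2 = y at *
    generalize Q α μ p w = a at *
    generalize Q2 α μ p w = e at *
    generalize Q α μ p1 w = f at *
    generalize p2 ⬝ᵥ w = g at *
    have key : g + ((b1 * (-2 * q / N) * q / N + b * (s + y - 2 * q / N * r) / N -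
          b * q * (2 * r - 4 * q / N * m) / N ^ 2) * a + b * q / N * (f + -2 * q / N * e)) -
        (-0 + b / (2 * (1 + b) * N) * (2 * ((1 + b) * q * (f + b * q / N * e) -
          (s + 2 * (b * q / N) * r + (b * q / N) ^ 2 * m) * a))) =
        (-((2 * (1 + b) * (b1 * (-2 * q / N)) / N -
        (2 * b + b ^ 2) * (2 * r - 4 * q / N * m) / N ^ 2) * q +
        (2 * b + b ^ 2) / N * (s + y - 2 * q / N * r)) -
      2 * (1 + b) * b1 * q ^ 2 / N ^ 2 + 2 * (2 * b + b ^ 2) * m * q ^ 2 / N ^ 3 -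
      2 * (2 * b + b ^ 2) * q * r / N ^ 2 +
      (b1 * (-2 * q / N) * q / N + b * (s + y - 2 * q / N * r) / N -
        b * q * (2 * r - 4 * q / N * m) / N ^ 2) +
      b / ((1 + b) * N) * (s + 2 * (b * q / N) * r + (b * q / N) ^ 2 * m)) * a +
      ((g + ((2 * (1 + b) * (b1 * (-2 * q / N)) / N -
        (2 * b + b ^ 2) * (2 * r - 4 * q / N * m) / N ^ 2) * q +
        (2 * b + b ^ 2) / N * (s + y - 2 * q / N * r)) * a +
        (2 * b + b ^ 2) / N * q * (f - 2 * q / N * e)) -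
        (1 / 2) * ((2 * (1 + b) * (b1 * (-2 * a / N)) / N -
        (2 * b + b ^ 2) * (2 * e - 4 * a / N * m) / N ^ 2) * q ^ 2 +
        2 * ((2 * b + b ^ 2) / N) * q * (f - 2 * a / N * r))) := by
      field_simp
      ring
    rw [B, F, sub_self, zero_mul, add_zero] at key
    exact sub_eq_zero.mp key
  have H2 : (p2 + (DC α μ b b1 p p1 p2 • AX α μ p +
        (b * Q α μ p p1 / Q2 α μ p p) •
        (AX α μ p1 + (-2 * Q α μ p p1 / Q2 α μ p p) • AX α μ (AX α μ p)))) ⬝ᵥ p =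
      (-p + (b / (2 * (1 + b) * Q2 α μ p p)) • X2 α μ p v) ⬝ᵥ p := by
    rw [hL, hR, hpp, w1, w2, hQ, dotProduct_comm p2 p, hpp2, Q_comm α μ p1 p]
    have h1 : p1 ⬝ᵥ p1 = 1 - (2 * b + b ^ 2) * Q α μ p p1 ^ 2 / Q2 α μ p p := by linarith
    rw [h1]
    field_simp
    ring
  refine dotProduct_eq _ _ fun w => ?_
  have h3 : w = (w - (p ⬝ᵥ w) • p) + (p ⬝ᵥ w) • p := by abel
  have h4 : p ⬝ᵥ (w - (p ⬝ᵥ w) • p) = 0 := by
    rw [dotProduct_sub, dotProduct_smul, hpp, smul_eq_mul, mul_one, sub_self]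
  rw [h3, dotProduct_add, dotProduct_add, H1 _ h4, dotProduct_smul, dotProduct_smul, H2]

end Pool.Agent.Work.MP_659252_gt.Z
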