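import Pool.Agent.Work.MP_659252_gt.Z.HCurve
import Pool.Agent.Work.MP_659252_gt.Z.Qm

/-!
# A linear function which vanishes on good directions vanishes.  Size: M.

PROOF.  There is `v₁ ≠ 0` with `(v₁)_0 = 0`, `x ⬝ v₁ = 0`, `Q x v₁ = 0` (three linear conditions in dimension `d + 1 ≥ 4`).  `Q v₁ v₁ > 0` (`Q_pos`), so
`RR α μ x v₁ = -Q x x Q v₁ v₁ < 0`.  By continuity (`Q_curve`) there is `δ > 0` with `RR α μ (R t x) (R t v₁) < 0` for `|t| < δ` (`RR` is a polynomial in three `Q`s).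
Fix `t`, `|t| < δ`, and `l` as in the hypothesis, and `w` with `x ⬝ w = 0`.  For small `e > 0` also `RR α μ x (v₁ + e w) < 0` and `RR α μ (R t x) (R t (v₁ + e w)) < 0`
(polynomials in `e`), and `v₁ + e w ≠ 0`.  With `c = 1/√((v₁ + e w)⬝(v₁ + e w))`, `v = c (v₁ + e w)` is a unit vector orthogonal to `x`, and `RR` is multiplied by `c²`: so
`l ⬝ v = 0`, `l ⬝ (v₁ + e w) = 0`; the same for `e = 0`: `l ⬝ v₁ = 0`.  Hence `l ⬝ w = 0`.
-/

namespace Pool.Agent.Work.MP_659252_gt.Z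

variable {d : ℕ} {α : Fin (d + 1) → ℝ} {μ : ℝ}

private theorem hlin_Q_smul_right (c : ℝ) (y z : V d) : Q α μ y (c • z) = c * Q α μ y z := by
  rw [Q_comm, Q_smul, Q_comm]

private theorem hlin_RR_smul (c : ℝ) (y z : V d) : RR α μ y (c • z) = c ^ 2 * RR α μ y z := by
  unfold RR
  rw [hlin_Q_smul_right, hlin_Q_smul_right, Q_smul]
  ring

private theorem hlin_RR_zero (y : V d) : RR α μ y 0 = 0 := by
  have h := hlin_RR_smul (α := α) (μ := μ) 0 y 0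
  rw [smul_zero] at h
  rw [h]
  ring

private theorem hlin_cont (y u w : V d) : Continuous (fun e : ℝ => RR α μ y (u + e • w)) := by
  unfold RR Q
  simp only [Pi.add_apply, Pi.smul_apply, smul_eq_mul]
  fun_prop

private theorem hlin_exists (hd : 3 ≤ d) (x : V d) :
    ∃ v : V d, v ≠ 0 ∧ v 0 = 0 ∧ x ⬝ᵥ v = 0 ∧ Q α μ x v = 0 := by
  let M : Matrix (Fin 3) (Fin (d + 1)) ℝ := Matrix.of ![Pi.single 0 1, x, AX α μ x]
  have hker : LinearMap.ker M.mulVecLin ≠ ⊥ := by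
    apply LinearMap.ker_ne_bot_of_finrank_lt
    simp only [Module.finrank_fintype_fun_eq_card, Fintype.card_fin]
    omega
  obtain ⟨v, hv, hv0⟩ := Submodule.exists_mem_ne_zero_of_ne_bot hker
  rw [LinearMap.mem_ker, Matrix.mulVecLin_apply] at hv
  refine ⟨v, hv0, ?_, ?_, ?_⟩
  · have h := congrFun hv 0
    change (Pi.single 0 1 : V d) ⬝ᵥ v = 0 at h
    rw [single_dotProduct, one_mul] at h
    exact h
  · exact congrFun hv 1
  · rw [Q_eq_dot]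
    exact congrFun hv 2

private theorem hlin_scale (T : Matrix (Fin (d + 1)) (Fin (d + 1)) ℝ) (x l : V d)
    (h : ∀ v, x ⬝ᵥ v = 0 → v ⬝ᵥ v = 1 → RR α μ x v ≤ 0 →
        RR α μ (T.mulVec x) (T.mulVec v) ≤ 0 → l ⬝ᵥ v = 0)
    (u : V d) (hu : x ⬝ᵥ u = 0) (h1 : RR α μ x u < 0)
    (h2 : RR α μ (T.mulVec x) (T.mulVec u) < 0) : l ⬝ᵥ u = 0 := by
  have hu0 : u ≠ 0 := by
    rintro rfl
    rw [hlin_RR_zero] at h1
    exact lt_irrefl _ h1
  have hpos : 0 < u ⬝ᵥ u := by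
    have h3 : 0 ≤ u ⬝ᵥ u := Finset.sum_nonneg fun i _ => mul_self_nonneg (u i)
    rcases h3.eq_or_lt with h4 | h4
    · exact absurd (dotProduct_self_eq_zero.1 h4.symm) hu0
    · exact h4
  have hs : 0 < Real.sqrt (u ⬝ᵥ u) := Real.sqrt_pos.2 hpos
  have hss : Real.sqrt (u ⬝ᵥ u) ^ 2 = u ⬝ᵥ u := Real.sq_sqrt hpos.le
  have hc : (1 / Real.sqrt (u ⬝ᵥ u)) ≠ 0 := by positivity
  have key := h ((1 / Real.sqrt (u ⬝ᵥ u)) • u) (by rw [dotProduct_smul, hu, smul_zero])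
    (by
      rw [dotProduct_smul, smul_dotProduct, smul_eq_mul, smul_eq_mul]
      field_simp
      exact hss.symm)
    (by
      rw [hlin_RR_smul]
      exact mul_nonpos_of_nonneg_of_nonpos (sq_nonneg _) h1.le)
    (by
      rw [Matrix.mulVec_smul, hlin_RR_smul]
      exact mul_nonpos_of_nonneg_of_nonpos (sq_nonneg _) h2.le)
  rw [dotProduct_smul, smul_eq_mul] at key
  exact (mul_eq_zero.1 key).resolve_left hc

theorem lin_zero (hd : 3 ≤ d) (hμ : Adm α μ) (R : ℝ → Matrix (Fin (d + 1)) (Fin (d + 1)) ℝ)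
    (Ω : Matrix (Fin (d + 1)) (Fin (d + 1)) ℝ) (h1 : R 0 = 1)
    (hD : ∀ i j, HasDerivAt (fun t => R t i j) (Ω i j) 0) (x : V d) (hx : 0 < Q α μ x x) :
    ∃ δ : ℝ, 0 < δ ∧ ∀ t, |t| < δ → ∀ l : V d,
      (∀ v, x ⬝ᵥ v = 0 → v ⬝ᵥ v = 1 → RR α μ x v ≤ 0 →
        RR α μ ((R t).mulVec x) ((R t).mulVec v) ≤ 0 → l ⬝ᵥ v = 0) →
      ∀ w, x ⬝ᵥ w = 0 → l ⬝ᵥ w = 0 := by
  obtain ⟨v₁, hv0, hv1, hv2, hv3⟩ := hlin_exists (α := α) (μ := μ) hd x
  have hR1 : RR α μ x v₁ < 0 := by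
    unfold RR
    rw [hv3]
    have := mul_pos hx (Q_pos hμ v₁ hv0 hv1)
    nlinarith
  have hcont : ContinuousAt (fun t => RR α μ ((R t).mulVec x) ((R t).mulVec v₁)) 0 := by
    unfold RR
    exact ((Q_curve R Ω h1 hD x v₁).pow 2).sub
      ((Q_curve R Ω h1 hD x x).mul (Q_curve R Ω h1 hD v₁ v₁))
  have hval : RR α μ ((R 0).mulVec x) ((R 0).mulVec v₁) < 0 := by
    rw [h1, Matrix.one_mulVec, Matrix.one_mulVec]
    exact hR1
  have hev : ∀ᶠ t in nhds (0 : ℝ), RR α μ ((R t).mulVec x) ((R t).mulVec v₁) < 0 :=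
    hcont.eventually (gt_mem_nhds hval)
  obtain ⟨δ, hδ, hball⟩ := Metric.eventually_nhds_iff.1 hev
  refine ⟨δ, hδ, ?_⟩
  intro t ht l hl w hw
  have ht' : RR α μ ((R t).mulVec x) ((R t).mulVec v₁) < 0 := by
    apply hball
    rw [Real.dist_eq, sub_zero]
    exact ht
  have c1 := (hlin_cont (α := α) (μ := μ) x v₁ w).continuousAt (x := 0)
  have c2 := (hlin_cont (α := α) (μ := μ) ((R t).mulVec x) ((R t).mulVec v₁)
    ((R t).mulVec w)).continuousAt (x := 0)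
  have e1 : ∀ᶠ e in nhds (0 : ℝ), RR α μ x (v₁ + e • w) < 0 :=
    c1.eventually (gt_mem_nhds (by simpa using hR1))
  have e2 : ∀ᶠ e in nhds (0 : ℝ),
      RR α μ ((R t).mulVec x) ((R t).mulVec v₁ + e • (R t).mulVec w) < 0 :=
    c2.eventually (gt_mem_nhds (by simpa using ht'))
  have e3 : ∀ᶠ e in nhdsWithin (0 : ℝ) (Set.Ioi 0), (RR α μ x (v₁ + e • w) < 0 ∧
      RR α μ ((R t).mulVec x) ((R t).mulVec v₁ + e • (R t).mulVec w) < 0) ∧ 0 < e :=
    ((e1.and e2).filter_mono nhdsWithin_le_nhds).and self_mem_nhdsWithin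
  obtain ⟨e, ⟨he1, he2⟩, he0⟩ := e3.exists
  have k1 := hlin_scale (R t) x l hl v₁ hv2 hR1 ht'
  have k2 := hlin_scale (R t) x l hl (v₁ + e • w)
    (by rw [dotProduct_add, dotProduct_smul, hv2, hw, smul_zero, add_zero]) he1
    (by rw [Matrix.mulVec_add, Matrix.mulVec_smul]; exact he2)
  rw [dotProduct_add, dotProduct_smul, k1, zero_add, smul_eq_mul] at k2
  exact (mul_eq_zero.1 k2).resolve_left he0.ne'

end Pool.Agent.Work.MP_659252_gt.Z
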