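import Pool.Agent.Work.MP_659252_gt.Z.HDefs
import Pool.Agent.Work.MP_659252_gt.Z.Qm

/-!
# A half circle meets only one half of the cone.  Size: S-M.

`y_i = cp x v s_i`, `s_1, s_2 ∈ (0, π)`, `Q y_i y_i < 0`.
PROOF.  First the reverse Cauchy-Schwarz fact: if `Q y y < 0`, `Q z z < 0`, `y_0 > 0`, `z_0 > 0` then `Q y z < 0`: `u = z_0 y - y_0 z` has `u_0 = 0`, so
`0 ≤ Q u u = z_0² Q y y - 2 y_0 z_0 Q y z + y_0² Q z z` (`Q_pos`, or `u = 0`), hence `2 y_0 z_0 Q y z ≤ z_0² Q y y + y_0² Q z z < 0`.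
Suppose `(y_1)_0 (y_2)_0 ≤ 0`; both are nonzero (`Q_ne`), so after exchanging the indices or replacing `Q`-signs: `y_1` and `z = -y_2` have `0`-components of the same
sign (both positive, or both negative: then use `-y_1`, `y_2`).  So `Q y_1 (-y_2) < 0`, `Q y_1 y_2 > 0`.
Now `sin (s_2 - s_1) x = sin s_2 y_1 - sin s_1 y_2` (addition formula), `sin s_i > 0`:
`sin² (s_2 - s_1) Q x x = sin² s_2 Q y_1 y_1 - 2 sin s_1 sin s_2 Q y_1 y_2 + sin² s_1 Q y_2 y_2 < 0`, contradiction to `Q x x > 0`.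
-/

namespace Pool.Agent.Work.MP_659252_gt.Z

variable {d : ℕ} {α : Fin (d + 1) → ℝ} {μ : ℝ}

private theorem hs_add_right (α : Fin (d + 1) → ℝ) (μ : ℝ) (x y z : V d) :
    Q α μ x (y + z) = Q α μ x y + Q α μ x z := by
  rw [Q_comm, Q_add, Q_comm α μ y x, Q_comm α μ z x]

private theorem hs_smul_right (α : Fin (d + 1) → ℝ) (μ c : ℝ) (x z : V d) :
    Q α μ x (c • z) = c * Q α μ x z := by
  rw [Q_comm, Q_smul, Q_comm α μ z x]

private theorem hs_expand (α : Fin (d + 1) → ℝ) (μ p q : ℝ) (y z : V d) :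
    Q α μ (p • y + q • z) (p • y + q • z)
      = p ^ 2 * Q α μ y y + 2 * p * q * Q α μ y z + q ^ 2 * Q α μ z z := by
  rw [Q_add, hs_add_right, hs_add_right, Q_smul, Q_smul, Q_smul, Q_smul, hs_smul_right, hs_smul_right,
    hs_smul_right, hs_smul_right, Q_comm α μ z y]
  ring

private theorem hs_rcs (hμ : Adm α μ) (y z : V d) (hy : Q α μ y y < 0) (hz : Q α μ z z < 0)
    (h : 0 < y 0 * z 0) : Q α μ y z < 0 := by
  have hu : 0 ≤ Q α μ (z 0 • y + (-(y 0)) • z) (z 0 • y + (-(y 0)) • z) := by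
    by_cases hu0 : z 0 • y + (-(y 0)) • z = 0
    · rw [hu0]
      simp [Q]
    · refine (Q_pos hμ _ hu0 ?_).le
      simp only [Pi.add_apply, Pi.smul_apply, smul_eq_mul]
      ring
  rw [hs_expand] at hu
  have hy0 : y 0 ≠ 0 := by
    intro h0
    rw [h0, zero_mul] at h
    exact lt_irrefl _ h
  have hz0 : z 0 ≠ 0 := by
    intro h0
    rw [h0, mul_zero] at h
    exact lt_irrefl _ h
  have h1 : z 0 ^ 2 * Q α μ y y < 0 := mul_neg_of_pos_of_neg (by positivity) hy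
  have h2 : (-(y 0)) ^ 2 * Q α μ z z < 0 := by
    refine mul_neg_of_pos_of_neg ?_ hz
    rw [neg_sq]
    positivity
  by_contra hcon
  have h3 : 0 ≤ Q α μ y z := not_lt.1 hcon
  have h4 : 0 ≤ (y 0 * z 0) * Q α μ y z := mul_nonneg h.le h3
  nlinarith

theorem same_side (hμ : Adm α μ) (x v : V d) (hx : 0 < Q α μ x x)
    (s₁ s₂ : ℝ) (h₁ : s₁ ∈ Set.Ioo 0 Real.pi) (h₂ : s₂ ∈ Set.Ioo 0 Real.pi)
    (hq₁ : Q α μ (cp x v s₁) (cp x v s₁) < 0) (hq₂ : Q α μ (cp x v s₂) (cp x v s₂) < 0) :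
    0 < cp x v s₁ 0 * cp x v s₂ 0 := by
  by_contra hcon
  have hle : cp x v s₁ 0 * cp x v s₂ 0 ≤ 0 := not_lt.1 hcon
  have hne : ∀ y : V d, Q α μ y y < 0 → y 0 ≠ 0 := by
    intro y hy
    refine Q_ne hμ y ?_ hy.le
    rintro rfl
    simp [Q] at hy
  have hlt : cp x v s₁ 0 * cp x v s₂ 0 < 0 :=
    lt_of_le_of_ne hle (mul_ne_zero (hne _ hq₁) (hne _ hq₂))
  have hneg : Q α μ ((-1 : ℝ) • cp x v s₂) ((-1 : ℝ) • cp x v s₂) < 0 := by
    rw [Q_smul, hs_smul_right]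
    linarith
  have h5 : Q α μ (cp x v s₁) ((-1 : ℝ) • cp x v s₂) < 0 := by
    refine hs_rcs hμ _ _ hq₁ hneg ?_
    simp only [Pi.smul_apply, smul_eq_mul]
    linarith
  rw [hs_smul_right] at h5
  have hs1 := Real.sin_pos_of_pos_of_lt_pi h₁.1 h₁.2
  have hs2 := Real.sin_pos_of_pos_of_lt_pi h₂.1 h₂.2
  have hkey : Real.sin (s₂ - s₁) • x + (0 : ℝ) • x
      = Real.sin s₂ • cp x v s₁ + (-Real.sin s₁) • cp x v s₂ := by
    unfold cp
    ext i
    simp only [Pi.add_apply, Pi.smul_apply, smul_eq_mul, Real.sin_sub]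
    ring
  have h6 := congrArg (fun w => Q α μ w w) hkey
  simp only [hs_expand] at h6
  have h7 : 0 ≤ Real.sin (s₂ - s₁) ^ 2 * Q α μ x x := mul_nonneg (sq_nonneg _) hx.le
  have h8 : Real.sin s₂ ^ 2 * Q α μ (cp x v s₁) (cp x v s₁) < 0 :=
    mul_neg_of_pos_of_neg (by positivity) hq₁
  have h9 : (-Real.sin s₁) ^ 2 * Q α μ (cp x v s₂) (cp x v s₂) < 0 := by
    refine mul_neg_of_pos_of_neg ?_ hq₂
    rw [neg_sq]
    positivity
  have h10 : 0 < Real.sin s₂ * Real.sin s₁ * Q α μ (cp x v s₁) (cp x v s₂) :=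
    mul_pos (mul_pos hs2 hs1) (by linarith)
  nlinarith

end Pool.Agent.Work.MP_659252_gt.Z
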