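import Pool.Agent.Work.MP_659252_gt.Z.HZero
import Pool.Agent.Work.MP_659252_gt.Z.HSign

/-!
# The half circle integral of `conf` on planes which meet the cone.  Size: M.

Let `y s = cp x v s`, `f s = val (conf α B) (y s) (y' s) (y' s) = 2 bb (y) Q(y, y')²/N` (`val_conf`), continuous (`conf_smooth`, `y ≠ 0`).
PROOF.  (1) A point with `f ≠ 0`: `RR α m x v > 0` for `m ∈ [lo, m₁]`, `m₁ > lo` (continuity of `m ↦ RR α m x v`, `Q_deriv`; `m₁ < hi`).  Choose `μ ∈ (lo, m₁)` with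
`B μ ≠ 0`.  `RR α μ x v > 0` gives a point of the circle with `Q α μ < 0` (`RR_neg_pt`), by antipody at a time in `(0, π)` (`cp x v (s + π) = -cp x v s`; not `0`, as
`Q α μ x x > Q α lo x x > 0`).  By the intermediate value theorem there is `s ∈ (0, π)` with `Q α μ (y s) (y s) = 0`; then `lev = μ` (`lev_eq`), `y_0 ≠ 0` (`Q_ne`),
`Q α μ y y' ^ 2 = RR α μ y y' = RR α μ x v > 0` (rotation invariance: expand), `Q2 > 0`: `f s ≠ 0`.
(2) `f` has a constant sign on `(0, π)`: if `f s ≠ 0` then `B (lev) > 0` and `Q α lo (y s) (y s) < 0` (`bb_eq_zero` contraposed), `f s` has the sign of `(y s)_0`, and by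
`same_side` all these signs agree.  So `f ≥ 0` on `[0, π]` or `f ≤ 0` on `[0, π]`, continuous and not identically `0`: the integral is not `0`
(`intervalIntegral.integral_pos` or `Continuous.integral_pos_of_hasCompactSupport_nonneg_nonzero`, `intervalIntegral.integral_pos_iff_support_of_nonneg_ae`).
-/

namespace Pool.Agent.Work.MP_659252_gt.Z

variable {d : ℕ} {α : Fin (d + 1) → ℝ} {B : ℝ → ℝ} {lo hi : ℝ}

private theorem hne_cp_dot (x v : V d) (hxx : x ⬝ᵥ x = 1) (hxv : x ⬝ᵥ v = 0)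
    (hvv : v ⬝ᵥ v = 1) (s : ℝ) : cp x v s ⬝ᵥ cp x v s = 1 := by
  have hvx : v ⬝ᵥ x = 0 := by rw [dotProduct_comm]; exact hxv
  unfold cp
  rw [dotProduct_add, add_dotProduct, add_dotProduct, smul_dotProduct, smul_dotProduct,
    smul_dotProduct, smul_dotProduct, dotProduct_smul, dotProduct_smul, dotProduct_smul,
    dotProduct_smul, hxx, hxv, hvx, hvv]
  simp only [smul_eq_mul]
  linear_combination Real.sin_sq_add_cos_sq s

private theorem hne_cp_ne (x v : V d) (hxx : x ⬝ᵥ x = 1) (hxv : x ⬝ᵥ v = 0)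
    (hvv : v ⬝ᵥ v = 1) (s : ℝ) : cp x v s ≠ 0 := by
  intro h
  have h1 := hne_cp_dot x v hxx hxv hvv s
  rw [h, dotProduct_zero] at h1
  exact zero_ne_one h1

private theorem hne_Q_lin (α : Fin (d + 1) → ℝ) (μ : ℝ) (x v : V d) (a b a' b' : ℝ) :
    Q α μ (a • x + b • v) (a' • x + b' • v) =
      a * a' * Q α μ x x + (a * b' + b * a') * Q α μ x v + b * b' * Q α μ v v := by
  rw [Q_add, Q_smul, Q_smul, Q_comm α μ x, Q_comm α μ v, Q_add, Q_add, Q_smul, Q_smul, Q_smul,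
    Q_smul, Q_comm α μ v x]
  ring

private theorem hne_Q_yy (α : Fin (d + 1) → ℝ) (μ : ℝ) (x v : V d) (s : ℝ) :
    Q α μ (cp x v s) (cp x v s) = Real.cos s * Real.cos s * Q α μ x x +
      (Real.cos s * Real.sin s + Real.sin s * Real.cos s) * Q α μ x v +
      Real.sin s * Real.sin s * Q α μ v v :=
  hne_Q_lin α μ x v _ _ _ _

private theorem hne_RR (α : Fin (d + 1) → ℝ) (μ : ℝ) (x v : V d) (s : ℝ) :
    RR α μ (cp x v s) (cv x v s) = RR α μ x v := by
  unfold RR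
  have h1 := hne_Q_yy α μ x v s
  have h2 : Q α μ (cp x v s) (cv x v s) = _ := hne_Q_lin α μ x v _ _ _ _
  have h3 : Q α μ (cv x v s) (cv x v s) = _ := hne_Q_lin α μ x v _ _ _ _
  rw [h1, h2, h3]
  have h4 := Real.sin_sq_add_cos_sq s
  have h5 : (Real.sin s ^ 2 + Real.cos s ^ 2) ^ 2 = 1 := by rw [h4]; norm_num
  linear_combination (Q α μ x v ^ 2 - Q α μ x x * Q α μ v v) * h5

private theorem hne_q_cont (α : Fin (d + 1) → ℝ) (μ : ℝ) (x v : V d) :
    Continuous (fun s => Q α μ (cp x v s) (cp x v s)) := by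
  simp only [hne_Q_yy]
  fun_prop

private theorem hne_q_per (α : Fin (d + 1) → ℝ) (μ : ℝ) (x v : V d) :
    Function.Periodic (fun s => Q α μ (cp x v s) (cp x v s)) Real.pi := by
  intro s
  simp only [hne_Q_yy, Real.cos_add_pi, Real.sin_add_pi]
  ring

private theorem hne_cont (hd : 1 ≤ d) (D : Dat α B lo hi) (x v : V d) (hxx : x ⬝ᵥ x = 1)
    (hxv : x ⬝ᵥ v = 0) (hvv : v ⬝ᵥ v = 1) :
    Continuous (fun s => val (conf α B) (cp x v s) (cv x v s) (cv x v s)) := by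
  have h1 : Continuous (fun s => cp x v s) := by
    unfold cp
    fun_prop
  have h2 : Continuous (fun s => cv x v s) := by
    unfold cv
    fun_prop
  have h3 : Continuous (fun s => conf α B (cp x v s)) :=
    (conf_smooth hd D).continuousOn.comp_continuous h1 fun s => hne_cp_ne x v hxx hxv hvv s
  unfold val
  refine continuous_finsetSum _ fun i _ => continuous_finsetSum _ fun j _ => ?_
  have h4 : Continuous (fun s => conf α B (cp x v s) i j) :=
    (continuous_apply j).comp ((continuous_apply i).comp h3)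
  have h5 : ∀ i, Continuous (fun s => cv x v s i) := fun i => (continuous_apply i).comp h2
  exact h4.mul ((h5 i).mul (h5 j))

/-- a point with a nonzero integrand -/
private theorem hne_pt (hd : 1 ≤ d) (D : Dat α B lo hi)
    (hBlo : ∀ m, lo < m → ∃ μ, lo < μ ∧ μ < m ∧ B μ ≠ 0) (x v : V d) (hxx : x ⬝ᵥ x = 1)
    (hxv : x ⬝ᵥ v = 0) (hvv : v ⬝ᵥ v = 1) (hx : 0 < Q α lo x x) (h : 0 < RR α lo x v) :
    ∃ s ∈ Set.Ioo 0 Real.pi, val (conf α B) (cp x v s) (cv x v s) (cv x v s) ≠ 0 := by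
  have hQc : ∀ y z : V d, ContinuousAt (fun m => Q α m y z) lo := fun y z =>
    (Q_deriv D.a0 D.adm_lo y z).continuousAt
  have hRc : ContinuousAt (fun m => RR α m x v) lo := by
    unfold RR
    exact ((hQc x v).pow 2).sub ((hQc x x).mul (hQc v v))
  have h1 : ∀ᶠ m in nhds lo, 0 < RR α m x v := hRc.eventually (lt_mem_nhds h)
  obtain ⟨l, u, hlu, hsub⟩ := mem_nhds_iff_exists_Ioo_subset.1 h1
  obtain ⟨μ, hμ1, hμ2, hμB⟩ := hBlo u hlu.2
  have hRR : 0 < RR α μ x v := hsub ⟨hlu.1.trans hμ1, hμ2⟩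
  have hμmem : μ ∈ Set.Ioo lo hi := by
    by_contra hcon
    exact hμB (D.supp μ hcon)
  have hadm : Adm α μ := D.adm_mem hμmem.1.le hμmem.2.le
  have hx0 : x ≠ 0 := by
    rintro rfl
    rw [dotProduct_zero] at hxx
    exact zero_ne_one hxx
  obtain ⟨θ, hθ⟩ := RR_neg_pt x v hRR
  obtain ⟨θ', hθ', hθe⟩ := (hne_q_per α μ x v).exists_mem_Ico₀ Real.pi_pos θ
  have hθ2 : Q α μ (cp x v θ') (cp x v θ') < 0 := by
    have h2 : Q α μ (cp x v θ) (cp x v θ) = Q α μ (cp x v θ') (cp x v θ') := hθe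
    rw [← h2]
    exact hθ
  have h00 : Q α μ (cp x v 0) (cp x v 0) = Q α μ x x := by
    rw [hne_Q_yy, Real.cos_zero, Real.sin_zero]
    ring
  have hq0 : 0 < Q α μ (cp x v 0) (cp x v 0) := by
    rw [h00]
    exact hx.trans (Q_lt D.a0 D.adm_lo hadm hμmem.1 x hx0)
  obtain ⟨s, hs, hsq⟩ := intermediate_value_Ioo' hθ'.1
    (hne_q_cont α μ x v).continuousOn ⟨hθ2, hq0⟩
  have hsq' : Q α μ (cp x v s) (cp x v s) = 0 := hsq
  have hyne := hne_cp_ne x v hxx hxv hvv s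
  have hlev : lev α (cp x v s) = μ := lev_eq D.a0 hadm _ hyne hsq'
  have hy0 : cp x v s 0 ≠ 0 := Q_ne hadm _ hyne hsq'.le
  refine ⟨s, ⟨hs.1, hs.2.trans hθ'.2⟩, ?_⟩
  rw [val_conf, hlev]
  have hRs := hne_RR α μ x v s
  have hQ : Q α μ (cp x v s) (cv x v s) ≠ 0 := by
    intro h2
    unfold RR at hRs
    rw [h2, hsq'] at hRs
    have h3 : RR α μ x v = 0 := by
      unfold RR
      rw [← hRs]
      ring
    exact hRR.ne' h3
  have hQ2 := Q2_pos D.a0 hadm _ hyne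
  have hbb : bb α B (cp x v s) ≠ 0 := by
    unfold bb
    rw [hlev]
    refine mul_ne_zero ?_ hμB
    rw [Ne, Real.sign_eq_zero_iff]
    exact hy0
  exact mul_ne_zero (mul_ne_zero two_ne_zero hbb) (div_ne_zero (mul_ne_zero hQ hQ) hQ2.ne')

/-- the sign of the integrand -/
private theorem hne_sign (hd : 1 ≤ d) (D : Dat α B lo hi) (hB0 : ∀ μ, 0 ≤ B μ) (x v : V d)
    (hxx : x ⬝ᵥ x = 1) (hxv : x ⬝ᵥ v = 0) (hvv : v ⬝ᵥ v = 1) (hx : 0 < Q α lo x x)
    {s₀ s : ℝ} (hs₀ : s₀ ∈ Set.Ioo 0 Real.pi) (hs : s ∈ Set.Ioo 0 Real.pi)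
    (h₀ : val (conf α B) (cp x v s₀) (cv x v s₀) (cv x v s₀) ≠ 0) :
    0 ≤ Real.sign (cp x v s₀ 0) * val (conf α B) (cp x v s) (cv x v s) (cv x v s) ∧
      0 < Real.sign (cp x v s₀ 0) * val (conf α B) (cp x v s₀) (cv x v s₀) (cv x v s₀) := by
  have key : ∀ s, val (conf α B) (cp x v s) (cv x v s) (cv x v s) ≠ 0 →
      Q α lo (cp x v s) (cp x v s) < 0 := by
    intro s hne
    by_contra hcon
    rw [not_lt] at hcon
    apply hne
    rw [val_conf, bb_eq_zero hd D _ (hne_cp_ne x v hxx hxv hvv s) (Or.inl hcon)]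
    ring
  have hval : ∀ s, val (conf α B) (cp x v s) (cv x v s) (cv x v s) =
      Real.sign (cp x v s 0) * (2 * B (lev α (cp x v s)) *
        (Q α (lev α (cp x v s)) (cp x v s) (cv x v s) ^ 2 /
          Q2 α (lev α (cp x v s)) (cp x v s) (cp x v s))) := by
    intro s
    rw [val_conf]
    unfold bb
    ring
  have hg : ∀ s, 0 ≤ 2 * B (lev α (cp x v s)) *
        (Q α (lev α (cp x v s)) (cp x v s) (cv x v s) ^ 2 /
          Q2 α (lev α (cp x v s)) (cp x v s) (cp x v s)) := by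
    intro s
    refine mul_nonneg (mul_nonneg zero_le_two (hB0 _)) (div_nonneg (sq_nonneg _) ?_)
    unfold Q2
    exact Finset.sum_nonneg fun i _ => div_nonneg (mul_self_nonneg _) (sq_nonneg _)
  have hpos : ∀ s, s ∈ Set.Ioo 0 Real.pi →
      val (conf α B) (cp x v s) (cv x v s) (cv x v s) ≠ 0 →
      0 < Real.sign (cp x v s₀ 0) * val (conf α B) (cp x v s) (cv x v s) (cv x v s) := by
    intro s hs hne
    have h1 := same_side D.adm_lo x v hx s₀ s hs₀ hs (key s₀ h₀) (key s hne)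
    have h2 := hg s
    have h3 : 2 * B (lev α (cp x v s)) *
        (Q α (lev α (cp x v s)) (cp x v s) (cv x v s) ^ 2 /
          Q2 α (lev α (cp x v s)) (cp x v s) (cp x v s)) ≠ 0 := by
      intro h4
      apply hne
      rw [hval, h4, mul_zero]
    have h4 : Real.sign (cp x v s₀ 0) * Real.sign (cp x v s 0) = 1 := by
      rcases pos_and_pos_or_neg_and_neg_of_mul_pos h1 with ⟨h5, h6⟩ | ⟨h5, h6⟩
      · rw [Real.sign_of_pos h5, Real.sign_of_pos h6, one_mul]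
      · rw [Real.sign_of_neg h5, Real.sign_of_neg h6]
        norm_num
    rw [hval, ← mul_assoc, h4, one_mul]
    exact lt_of_le_of_ne h2 h3.symm
  refine ⟨?_, hpos s₀ hs₀ h₀⟩
  by_cases hne : val (conf α B) (cp x v s) (cv x v s) (cv x v s) = 0
  · rw [hne, mul_zero]
  · exact (hpos s hs hne).le

theorem half_ne (hd : 1 ≤ d) (D : Dat α B lo hi) (hB0 : ∀ μ, 0 ≤ B μ)
    (hBlo : ∀ m, lo < m → ∃ μ, lo < μ ∧ μ < m ∧ B μ ≠ 0) (x v : V d) (hxx : x ⬝ᵥ x = 1) (hxv : x ⬝ᵥ v = 0)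
    (hvv : v ⬝ᵥ v = 1) (hx : 0 < Q α lo x x) (h : 0 < RR α lo x v) : half (conf α B) x v ≠ 0 := by
  obtain ⟨s₀, hs₀, h₀⟩ := hne_pt hd D hBlo x v hxx hxv hvv hx h
  have hcont := hne_cont hd D x v hxx hxv hvv
  have hc2 : Continuous (fun s => Real.sign (cp x v s₀ 0) *
      val (conf α B) (cp x v s) (cv x v s) (cv x v s)) := continuous_const.mul hcont
  have h1 : ∀ s ∈ Set.Ioo 0 Real.pi, 0 ≤ Real.sign (cp x v s₀ 0) *
      val (conf α B) (cp x v s) (cv x v s) (cv x v s) := fun s hs =>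
    (hne_sign hd D hB0 x v hxx hxv hvv hx hs₀ hs h₀).1
  have h2 : 0 < Real.sign (cp x v s₀ 0) *
      val (conf α B) (cp x v s₀) (cv x v s₀) (cv x v s₀) :=
    (hne_sign hd D hB0 x v hxx hxv hvv hx hs₀ hs₀ h₀).2
  have h3 : ∀ s ∈ Set.Icc 0 Real.pi, 0 ≤ Real.sign (cp x v s₀ 0) *
      val (conf α B) (cp x v s) (cv x v s) (cv x v s) := by
    have h4 : IsClosed {s | 0 ≤ Real.sign (cp x v s₀ 0) *
        val (conf α B) (cp x v s) (cv x v s) (cv x v s)} := isClosed_le continuous_const hc2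
    have h5 : Set.Ioo 0 Real.pi ⊆ {s | 0 ≤ Real.sign (cp x v s₀ 0) *
        val (conf α B) (cp x v s) (cv x v s) (cv x v s)} := h1
    have h6 := h4.closure_subset_iff.2 h5
    rw [closure_Ioo Real.pi_pos.ne] at h6
    exact h6
  have h4 : 0 < ∫ s in (0 : ℝ)..Real.pi, Real.sign (cp x v s₀ 0) *
      val (conf α B) (cp x v s) (cv x v s) (cv x v s) :=
    intervalIntegral.integral_pos Real.pi_pos hc2.continuousOn
      (fun s hs => h3 s (Set.Ioc_subset_Icc_self hs)) ⟨s₀, Set.Ioo_subset_Icc_self hs₀, h2⟩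
  rw [intervalIntegral.integral_const_mul] at h4
  intro h5
  unfold half at h5
  rw [h5, mul_zero] at h4
  exact lt_irrefl _ h4

end Pool.Agent.Work.MP_659252_gt.Z
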