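import Pool.Agent.Work.MP_659252_gt.Z.Defs

/-!
# Rotations which fix a vector.  Size: S-M.

PROOF.  `d ≥ 2`: there are two orthonormal vectors `p`, `q` orthogonal to `e` (the orthogonal complement of `e` in `ℝ^{d+1}` has dimension `≥ d ≥ 2`; Gram-Schmidt).  Put
`R t = 1 + (cos t - 1) (p pᵀ + q qᵀ) + sin t (q pᵀ - p qᵀ)`.  `R t` is orthogonal (`R tᵀ R t = 1`: multiply out with `p⬝p = q⬝q = 1`, `p⬝q = 0`, `cos² + sin² = 1`),
`R t e = e`, `R 0 = 1`, derivative at `0`: `Ω = q pᵀ - p qᵀ`, and `Ω p = q ≠ 0`.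
(For `e = 0` any two orthonormal vectors.)
-/

namespace Pool.Agent.Work.MP_659252_gt.Z

open Matrix in
/-- a unit vector orthogonal to two given vectors -/
private theorem exists_unit {d : ℕ} (hd : 2 ≤ d) (e f : V d) :
    ∃ p : V d, p ⬝ᵥ p = 1 ∧ e ⬝ᵥ p = 0 ∧ f ⬝ᵥ p = 0 := by
  set F : V d →ₗ[ℝ] (Fin 2 → ℝ) := Matrix.mulVecLin (Matrix.of ![e, f]) with hF
  have h1 : LinearMap.ker F ≠ ⊥ := by
    apply LinearMap.ker_ne_bot_of_finrank_lt
    rw [Module.finrank_fin_fun, Module.finrank_fin_fun]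
    omega
  obtain ⟨v, hv, hv0⟩ := Submodule.exists_mem_ne_zero_of_ne_bot h1
  have h2 : F v = 0 := hv
  have he : e ⬝ᵥ v = 0 := by
    have := congrFun h2 0
    simpa [hF, Matrix.mulVec] using this
  have hf : f ⬝ᵥ v = 0 := by
    have := congrFun h2 1
    simpa [hF, Matrix.mulVec] using this
  have hn : 0 ≤ v ⬝ᵥ v := Finset.sum_nonneg fun i _ => mul_self_nonneg _
  have hpos : 0 < v ⬝ᵥ v := lt_of_le_of_ne hn fun h => hv0 (dotProduct_self_eq_zero.1 h.symm)
  set c : ℝ := (Real.sqrt (v ⬝ᵥ v))⁻¹ with hc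
  refine ⟨c • v, ?_, ?_, ?_⟩
  · rw [smul_dotProduct, dotProduct_smul, smul_eq_mul, smul_eq_mul, ← mul_assoc, hc, ← mul_inv,
      Real.mul_self_sqrt hn, inv_mul_cancel₀ hpos.ne']
  · rw [dotProduct_smul, he, smul_zero]
  · rw [dotProduct_smul, hf, smul_zero]

theorem rot_fix {d : ℕ} (hd : 2 ≤ d) (e : V d) :
    ∃ (R : ℝ → Matrix (Fin (d + 1)) (Fin (d + 1)) ℝ) (Ω : Matrix (Fin (d + 1)) (Fin (d + 1)) ℝ),
      (∀ t, R t ∈ Matrix.orthogonalGroup (Fin (d + 1)) ℝ) ∧ R 0 = 1 ∧ Ω ≠ 0 ∧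
      (∀ i j, HasDerivAt (fun t => R t i j) (Ω i j) 0) ∧ ∀ t, (R t).mulVec e = e := by
  obtain ⟨p, hpp, hep, -⟩ := exists_unit hd e e
  obtain ⟨q, hqq, heq, hpq⟩ := exists_unit hd e p
  have hqp : q ⬝ᵥ p = 0 := by rw [dotProduct_comm, hpq]
  have hpe : p ⬝ᵥ e = 0 := by rw [dotProduct_comm, hep]
  have hqe : q ⬝ᵥ e = 0 := by rw [dotProduct_comm, heq]
  have hmul : ∀ u v w x : V d, Matrix.vecMulVec u v * Matrix.vecMulVec w x
      = (v ⬝ᵥ w) • Matrix.vecMulVec u x := by
    intro u v w x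
    rw [Matrix.vecMulVec_mul_vecMulVec]
    ext i j
    simp only [Matrix.vecMulVec_apply, Pi.smul_apply, Matrix.smul_apply, smul_eq_mul]
    ring
  set A : Matrix (Fin (d + 1)) (Fin (d + 1)) ℝ :=
    Matrix.vecMulVec p p + Matrix.vecMulVec q q with hA
  set J : Matrix (Fin (d + 1)) (Fin (d + 1)) ℝ :=
    Matrix.vecMulVec q p - Matrix.vecMulVec p q with hJ
  have hAA : A * A = A := by
    rw [hA]
    simp only [add_mul, mul_add, hmul, hpp, hqq, hpq, hqp, one_smul, zero_smul, add_zero, zero_add]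
  have hAJ : A * J = J := by
    rw [hA, hJ]
    simp only [add_mul, mul_sub, hmul, hpp, hqq, hpq, hqp, one_smul, zero_smul]
    abel
  have hJA : J * A = J := by
    rw [hA, hJ]
    simp only [sub_mul, mul_add, hmul, hpp, hqq, hpq, hqp, one_smul, zero_smul]
    abel
  have hJJ : J * J = -A := by
    rw [hA, hJ]
    simp only [sub_mul, mul_sub, hmul, hpp, hqq, hpq, hqp, one_smul, zero_smul, sub_zero, zero_sub]
    abel
  have hAt : Matrix.transpose A = A := by
    rw [hA, Matrix.transpose_add, Matrix.transpose_vecMulVec, Matrix.transpose_vecMulVec]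
  have hJt : Matrix.transpose J = -J := by
    rw [hJ, Matrix.transpose_sub, Matrix.transpose_vecMulVec, Matrix.transpose_vecMulVec]
    abel
  have hAe : A.mulVec e = 0 := by
    rw [hA, Matrix.add_mulVec, Matrix.vecMulVec_mulVec, Matrix.vecMulVec_mulVec, hpe, hqe]
    simp
  have hJe : J.mulVec e = 0 := by
    rw [hJ, Matrix.sub_mulVec, Matrix.vecMulVec_mulVec, Matrix.vecMulVec_mulVec, hpe, hqe]
    simp
  refine ⟨fun t => 1 + (Real.cos t - 1) • A + Real.sin t • J, J, ?_, ?_, ?_, ?_, ?_⟩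
  · intro t
    rw [Matrix.mem_orthogonalGroup_iff]
    have h1 : Matrix.transpose (1 + (Real.cos t - 1) • A + Real.sin t • J)
        = 1 + (Real.cos t - 1) • A - Real.sin t • J := by
      rw [Matrix.transpose_add, Matrix.transpose_add, Matrix.transpose_one,
        Matrix.transpose_smul, Matrix.transpose_smul, hAt, hJt, smul_neg]
      exact (sub_eq_add_neg _ _).symm
    rw [h1]
    have h2 : (1 + (Real.cos t - 1) • A + Real.sin t • J) *
        (1 + (Real.cos t - 1) • A - Real.sin t • J)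
        = 1 + ((Real.cos t - 1) * (Real.cos t - 1) + 2 * (Real.cos t - 1)
          + Real.sin t * Real.sin t) • A := by
      simp only [add_mul, mul_add, mul_sub, one_mul, mul_one, smul_mul_assoc, mul_smul_comm,
        smul_smul, hAA, hAJ, hJA, hJJ]
      module
    have h3 : (Real.cos t - 1) * (Real.cos t - 1) + 2 * (Real.cos t - 1)
          + Real.sin t * Real.sin t = 0 := by
      linear_combination Real.sin_sq_add_cos_sq t
    rw [h2, h3, zero_smul, add_zero]
  · simp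
  · intro h0
    have h1 : J.mulVec p = q := by
      rw [hJ, Matrix.sub_mulVec, Matrix.vecMulVec_mulVec, Matrix.vecMulVec_mulVec, hpp, hqp]
      simp
    rw [h0, Matrix.zero_mulVec] at h1
    rw [← h1] at hqq
    simp at hqq
  · intro i j
    have h1 : HasDerivAt (fun t => (1 : Matrix (Fin (d + 1)) (Fin (d + 1)) ℝ) i j
        + (Real.cos t - 1) * A i j + Real.sin t * J i j)
        (0 + (-Real.sin 0) * A i j + Real.cos 0 * J i j) 0 :=
      ((hasDerivAt_const _ _).add (((Real.hasDerivAt_cos 0).sub_const 1).mul_const _)).add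
        ((Real.hasDerivAt_sin 0).mul_const _)
    simpa using h1
  · intro t
    rw [Matrix.add_mulVec, Matrix.add_mulVec, Matrix.one_mulVec, Matrix.smul_mulVec,
      Matrix.smul_mulVec, hAe, hJe, smul_zero, smul_zero, add_zero, add_zero]

end Pool.Agent.Work.MP_659252_gt.Z
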