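import Pool.Agent.Work.MP_659252_gt.Z.HDefs
import Pool.Agent.Work.MP_659252_gt.Z.Qm

/-!
# A tangent plane which is moved transversally.  Size: M.

Let `a_i = 1/(α_i - μ)`, pairwise distinct (`α` injective), `a_0 < 0`, `a_j > 0` (`j ≠ 0`).  `q(z) = Q (Ω z) z = ∑_{i,j} a_i Ω_ij z_j z_i`, and `Ω_ji = -Ω_ij`.
PROOF.  Step 1: there is `z` with `Q z z = 0`, `z 0 ≠ 0`, `q(z) ≠ 0`.  If `Ω_0i ≠ 0` for some `i ≠ 0`: `z = z_0 e_0 + e_i` with `z_0 = √(μ a_i)` (`Q z z = -z_0²/μ + a_i = 0`),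
`q(z) = (a_0 - a_i) Ω_0i z_0 ≠ 0`.  Otherwise `Ω_0i = 0` for all `i`, and `Ω_ij ≠ 0` for some `i ≠ j`, both `≠ 0`: `z = z_0 e_0 + e_i + e_j`, `z_0 = √(μ (a_i + a_j))`,
`q(z) = (a_i - a_j) Ω_ij ≠ 0`.
Step 2: there is `u ≠ 0` with `u_0 = 0`, `Q z u = 0` (the space `{u_0 = 0}` has dimension `d ≥ 2`, one linear condition; e.g. a nonzero element of the kernel of
`u ↦ (u 0, Q z u) : ℝ^(d+1) → ℝ²`, `LinearMap.exists_ne_zero...` by dimension, or explicitly in two coordinates `j ≠ k`: `u = (a_k z_k) e_j - (a_j z_j) e_k` if not zero, else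
`e_j` or `e_k`).  `Q u u > 0` (`Q_pos`).
Step 3: `x = u/√(u⬝u)`, `w = z - (z ⬝ x) x`, `w ≠ 0` (`z_0 ≠ 0 = x_0`), `v = w/√(w⬝w)`.  Orthonormal.  `Q x z = 0`, `Q z z = 0`, `Q x x > 0`.
`RR x v = RR x w/(w⬝w) = RR x z/(w⬝w) = 0` (shear invariance: expand `Q x w = -(z⬝x) Q x x`, `Q w w = (z⬝x)² Q x x`).
`dRR Ω x w = dRR Ω x z` (shear invariance, expand, linear in `Ω`) `= -2 Q x x q(z) ≠ 0`, and `dRR Ω x v = dRR Ω x w/(w⬝w)`.
-/

namespace Pool.Agent.Work.MP_659252_gt.Z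

variable {d : ℕ} {α : Fin (d + 1) → ℝ} {μ : ℝ}

private theorem ht_addr (α : Fin (d + 1) → ℝ) (μ : ℝ) (x y z : V d) :
    Q α μ x (y + z) = Q α μ x y + Q α μ x z := by
  rw [Q_comm, Q_add, Q_comm α μ y x, Q_comm α μ z x]

private theorem ht_smulr (α : Fin (d + 1) → ℝ) (μ c : ℝ) (x z : V d) :
    Q α μ x (c • z) = c * Q α μ x z := by
  rw [Q_comm, Q_smul, Q_comm]

private theorem ht_single (α : Fin (d + 1) → ℝ) (μ : ℝ) (y : V d) (i : Fin (d + 1)) :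
    Q α μ y (Pi.single i 1) = y i / (α i - μ) := by
  unfold Q
  rw [Finset.sum_eq_single i]
  · rw [Pi.single_eq_same, mul_one]
  · intro j _ hj
    rw [Pi.single_eq_of_ne hj, mul_zero, zero_div]
  · intro h
    exact absurd (Finset.mem_univ _) h

private theorem ht_P (α : Fin (d + 1) → ℝ) (μ : ℝ) (Ω : Matrix (Fin (d + 1)) (Fin (d + 1)) ℝ)
    (i j : Fin (d + 1)) :
    Q α μ (Ω.mulVec (Pi.single j 1)) (Pi.single i 1) = Ω i j / (α i - μ) := by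
  rw [ht_single, Matrix.mulVec_single_one]
  rfl

private theorem ht_QS (α : Fin (d + 1) → ℝ) (μ : ℝ) (i j : Fin (d + 1)) :
    Q α μ (Pi.single j 1) (Pi.single i 1) = if i = j then 1 / (α i - μ) else 0 := by
  rw [ht_single]
  by_cases h : i = j
  · rw [if_pos h, h, Pi.single_eq_same]
  · rw [if_neg h, Pi.single_eq_of_ne h, zero_div]

/-- Step 1 -/
private theorem ht_step1 (h0 : α 0 = 0) (hμ : Adm α μ) (hinj : Function.Injective α)
    (Ω : Matrix (Fin (d + 1)) (Fin (d + 1)) ℝ) (hΩ : Ω.transpose = -Ω) (hne : Ω ≠ 0) :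
    ∃ z : V d, Q α μ z z = 0 ∧ z 0 ≠ 0 ∧ Q α μ (Ω.mulVec z) z ≠ 0 := by
  by_contra hcon
  push Not at hcon
  have hsk : ∀ i j, Ω j i = -Ω i j := by
    intro i j
    have := congrFun (congrFun hΩ i) j
    simpa using this
  have hdiag : ∀ i, Ω i i = 0 := by
    intro i
    have := hsk i i
    linarith
  have hμ0 : 0 < μ := hμ.1
  have ha0 : 1 / (α 0 - μ) = -(1 / μ) := by
    rw [h0, zero_sub, one_div, one_div, inv_neg]
  have hapos : ∀ i, i ≠ 0 → 0 < 1 / (α i - μ) := by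
    intro i hi
    have := hμ.2 i hi
    exact one_div_pos.2 (by linarith)
  have hden : ∀ i, α i - μ ≠ 0 := fun i => Adm.ne h0 hμ i
  -- first part
  have h1 : ∀ i, i ≠ 0 → Ω 0 i = 0 := by
    intro i hi
    set c : ℝ := Real.sqrt (μ * (1 / (α i - μ))) with hc
    have hcp : 0 < c := Real.sqrt_pos.2 (mul_pos hμ0 (hapos i hi))
    have hc2 : c * c = μ * (1 / (α i - μ)) := Real.mul_self_sqrt (mul_pos hμ0 (hapos i hi)).le
    have h2 := hcon (c • Pi.single 0 1 + Pi.single i 1) (by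
      rw [Q_add, Q_smul, ht_addr, ht_addr, ht_smulr, ht_smulr, ht_QS, ht_QS, ht_QS, ht_QS,
        if_pos rfl, if_pos rfl, if_neg hi, if_neg (Ne.symm hi), ha0]
      have : c * (c * -(1 / μ) + 0) + (c * 0 + 1 / (α i - μ)) =
          -(c * c) * (1 / μ) + 1 / (α i - μ) := by ring
      rw [this, hc2]
      field_simp
      ring) (by
      rw [Pi.add_apply, Pi.smul_apply, Pi.single_eq_same, Pi.single_eq_of_ne (Ne.symm hi)]
      simpa using hcp.ne')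
    rw [Matrix.mulVec_add, Matrix.mulVec_smul, Q_add, Q_smul, ht_addr, ht_addr, ht_smulr, ht_smulr,
      ht_P, ht_P, ht_P, ht_P, hdiag, hdiag, hsk 0 i] at h2
    have h3 : c * Ω 0 i * (1 / (α 0 - μ) - 1 / (α i - μ)) = 0 := by
      rw [← h2]
      ring
    have h4 : 1 / (α 0 - μ) - 1 / (α i - μ) ≠ 0 := by
      rw [ha0]
      have := hapos i hi
      have h5 : 0 < 1 / μ := one_div_pos.2 hμ0
      intro h6
      linarith
    rcases mul_eq_zero.1 h3 with h5 | h5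
    · rcases mul_eq_zero.1 h5 with h6 | h6
      · exact absurd h6 hcp.ne'
      · exact h6
    · exact absurd h5 h4
  have h2 : ∀ i j, i ≠ 0 → j ≠ 0 → i ≠ j → Ω i j = 0 := by
    intro i j hi hj hij
    have hsum : 0 < 1 / (α i - μ) + 1 / (α j - μ) := add_pos (hapos i hi) (hapos j hj)
    set c : ℝ := Real.sqrt (μ * (1 / (α i - μ) + 1 / (α j - μ))) with hc
    have hcp : 0 < c := Real.sqrt_pos.2 (mul_pos hμ0 hsum)
    have hc2 : c * c = μ * (1 / (α i - μ) + 1 / (α j - μ)) :=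
      Real.mul_self_sqrt (mul_pos hμ0 hsum).le
    have h2 := hcon (c • Pi.single 0 1 + (Pi.single i 1 + Pi.single j 1)) (by
      rw [Q_add, Q_smul, Q_add]
      simp only [ht_addr, ht_smulr, ht_QS, hi, hj, hij, Ne.symm hi, Ne.symm hj, Ne.symm hij,
        if_true, if_false]
      rw [ha0]
      have : c * (c * -(1 / μ) + (0 + 0)) + (c * 0 + (1 / (α i - μ) + 0) +
          (c * 0 + (0 + 1 / (α j - μ)))) =
          -(c * c) * (1 / μ) + (1 / (α i - μ) + 1 / (α j - μ)) := by ring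
      rw [this, hc2]
      field_simp
      ring) (by
      rw [Pi.add_apply, Pi.add_apply, Pi.smul_apply, Pi.single_eq_same,
        Pi.single_eq_of_ne (Ne.symm hi), Pi.single_eq_of_ne (Ne.symm hj)]
      simpa using hcp.ne')
    rw [Matrix.mulVec_add, Matrix.mulVec_add, Matrix.mulVec_smul, Q_add, Q_smul, Q_add] at h2
    simp only [ht_addr, ht_smulr, ht_P] at h2
    rw [hdiag, hdiag, hdiag, hsk 0 i, hsk 0 j, h1 i hi, h1 j hj, hsk i j] at h2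
    have h3 : Ω i j * (1 / (α i - μ) - 1 / (α j - μ)) = 0 := by
      rw [← h2]
      ring
    rcases mul_eq_zero.1 h3 with h5 | h5
    · exact h5
    · exfalso
      rw [sub_eq_zero, one_div, one_div] at h5
      have h6 := inv_injective h5
      exact hij (hinj (by linarith))
  apply hne
  ext i j
  rw [Matrix.zero_apply]
  by_cases hij : i = j
  · rw [hij]
    exact hdiag j
  · by_cases hi : i = 0
    · rw [hi]
      exact h1 j (fun h => hij (hi.trans h.symm))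
    · by_cases hj : j = 0
      · rw [hj, hsk 0 i, h1 i hi, neg_zero]
      · exact h2 i j hi hj hij

/-- Step 2 -/
private theorem ht_step2 (hd : 2 ≤ d) (α : Fin (d + 1) → ℝ) (μ : ℝ) (z : V d) :
    ∃ u : V d, u ≠ 0 ∧ u 0 = 0 ∧ Q α μ z u = 0 := by
  let ψ : V d →ₗ[ℝ] ℝ :=
    { toFun := fun u => Q α μ z u
      map_add' := fun a b => ht_addr α μ z a b
      map_smul' := fun c a => by
        rw [ht_smulr]
        rfl }
  let φ : V d →ₗ[ℝ] ℝ × ℝ := LinearMap.prod (LinearMap.proj 0) ψ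
  have hk : LinearMap.ker φ ≠ ⊥ := by
    apply LinearMap.ker_ne_bot_of_finrank_lt
    rw [Module.finrank_prod, Module.finrank_self, Module.finrank_fin_fun]
    omega
  obtain ⟨u, hu, hu0⟩ := Submodule.exists_mem_ne_zero_of_ne_bot hk
  have h1 : φ u = 0 := LinearMap.mem_ker.1 hu
  exact ⟨u, hu0, congrArg Prod.fst h1, congrArg Prod.snd h1⟩

theorem tangent_plane (hd : 2 ≤ d) (h0 : α 0 = 0) (hμ : Adm α μ) (hinj : Function.Injective α)
    (Ω : Matrix (Fin (d + 1)) (Fin (d + 1)) ℝ) (hΩ : Ω.transpose = -Ω) (hne : Ω ≠ 0) :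
    ∃ x v : V d, x ⬝ᵥ x = 1 ∧ x ⬝ᵥ v = 0 ∧ v ⬝ᵥ v = 1 ∧ 0 < Q α μ x x ∧ RR α μ x v = 0 ∧
      dRR α μ Ω x v ≠ 0 := by
  obtain ⟨z, hz, hz0, hq⟩ := ht_step1 h0 hμ hinj Ω hΩ hne
  obtain ⟨u, hu, hu0, hzu⟩ := ht_step2 hd α μ z
  have hupos : 0 < u ⬝ᵥ u := by
    have h1 : 0 ≤ u ⬝ᵥ u := Finset.sum_nonneg fun i _ => mul_self_nonneg _
    refine lt_of_le_of_ne h1 fun h => hu ?_
    exact dotProduct_self_eq_zero.1 h.symm
  set a : ℝ := (Real.sqrt (u ⬝ᵥ u))⁻¹ with ha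
  have hapos : 0 < a := inv_pos.2 (Real.sqrt_pos.2 hupos)
  have haa : a * a * (u ⬝ᵥ u) = 1 := by
    have h1 : Real.sqrt (u ⬝ᵥ u) * Real.sqrt (u ⬝ᵥ u) = u ⬝ᵥ u := Real.mul_self_sqrt hupos.le
    have h2 : a * Real.sqrt (u ⬝ᵥ u) = 1 := inv_mul_cancel₀ (Real.sqrt_pos.2 hupos).ne'
    calc a * a * (u ⬝ᵥ u) = a * a * (Real.sqrt (u ⬝ᵥ u) * Real.sqrt (u ⬝ᵥ u)) := by rw [h1]
      _ = (a * Real.sqrt (u ⬝ᵥ u)) * (a * Real.sqrt (u ⬝ᵥ u)) := by ring
      _ = 1 := by rw [h2, one_mul]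
  obtain ⟨x, hx⟩ : ∃ x : V d, x = a • u := ⟨_, rfl⟩
  have hxx : x ⬝ᵥ x = 1 := by
    rw [hx, smul_dotProduct, dotProduct_smul, smul_eq_mul, smul_eq_mul, ← haa]
    ring
  have hx0 : x 0 = 0 := by rw [hx, Pi.smul_apply, hu0, smul_zero]
  have hxne : x ≠ 0 := by
    intro h
    rw [h, zero_dotProduct] at hxx
    exact zero_ne_one hxx
  have hA : 0 < Q α μ x x := Q_pos hμ x hxne hx0
  have hxz : Q α μ x z = 0 := by rw [hx, Q_smul, Q_comm, hzu, mul_zero]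
  obtain ⟨t, ht⟩ : ∃ t : ℝ, t = -(z ⬝ᵥ x) := ⟨_, rfl⟩
  obtain ⟨w, hw⟩ : ∃ w : V d, w = z + t • x := ⟨_, rfl⟩
  have hw0 : w 0 ≠ 0 := by
    rw [hw, Pi.add_apply, Pi.smul_apply, hx0, smul_zero, add_zero]
    exact hz0
  have hxw : x ⬝ᵥ w = 0 := by
    rw [hw, dotProduct_add, dotProduct_smul, hxx, ht, dotProduct_comm x z, smul_eq_mul]
    ring
  have hwpos : 0 < w ⬝ᵥ w := by
    have h1 : 0 ≤ w ⬝ᵥ w := Finset.sum_nonneg fun i _ => mul_self_nonneg _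
    refine lt_of_le_of_ne h1 fun h => hw0 ?_
    rw [dotProduct_self_eq_zero.1 h.symm]
    rfl
  set c : ℝ := (Real.sqrt (w ⬝ᵥ w))⁻¹ with hc
  have hcpos : 0 < c := inv_pos.2 (Real.sqrt_pos.2 hwpos)
  have hcc : c * c * (w ⬝ᵥ w) = 1 := by
    have h1 : Real.sqrt (w ⬝ᵥ w) * Real.sqrt (w ⬝ᵥ w) = w ⬝ᵥ w := Real.mul_self_sqrt hwpos.le
    have h2 : c * Real.sqrt (w ⬝ᵥ w) = 1 := inv_mul_cancel₀ (Real.sqrt_pos.2 hwpos).ne'
    calc c * c * (w ⬝ᵥ w) = c * c * (Real.sqrt (w ⬝ᵥ w) * Real.sqrt (w ⬝ᵥ w)) := by rw [h1]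
      _ = (c * Real.sqrt (w ⬝ᵥ w)) * (c * Real.sqrt (w ⬝ᵥ w)) := by ring
      _ = 1 := by rw [h2, one_mul]
  have hxw' : Q α μ x w = t * Q α μ x x := by
    rw [hw, ht_addr, ht_smulr, hxz, zero_add]
  have hww : Q α μ w w = t ^ 2 * Q α μ x x := by
    rw [hw, Q_add, Q_smul, ht_addr, ht_addr, ht_smulr, ht_smulr, hz, hxz, Q_comm α μ z x, hxz]
    ring
  refine ⟨x, c • w, hxx, ?_, ?_, hA, ?_, ?_⟩
  · rw [dotProduct_smul, hxw, smul_zero]
  · rw [smul_dotProduct, dotProduct_smul, smul_eq_mul, smul_eq_mul, ← hcc]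
    ring
  · unfold RR
    rw [ht_smulr, Q_smul, ht_smulr, hxw', hww]
    ring
  · have hd1 : dRR α μ Ω x (c • w) = c * c * (-2 * Q α μ x x * Q α μ (Ω.mulVec z) z) := by
      unfold dRR
      rw [Matrix.mulVec_smul, ht_smulr, ht_smulr, ht_smulr, Q_smul, Q_smul, ht_smulr, ht_smulr,
        hxw', hww, hw, Matrix.mulVec_add, Matrix.mulVec_smul]
      simp only [ht_addr, ht_smulr, Q_add, Q_smul]
      rw [Q_comm α μ x (Ω.mulVec z), Q_comm α μ x (Ω.mulVec x)]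
      ring
    rw [hd1]
    refine mul_ne_zero (mul_ne_zero hcpos.ne' hcpos.ne') (mul_ne_zero ?_ hq)
    exact mul_ne_zero (by norm_num) hA.ne'

end Pool.Agent.Work.MP_659252_gt.Z
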