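import Pool.Agent.Work.MP_659252_gt.Z.HLie
import Pool.Agent.Work.MP_659252_gt.Z.HNe
import Pool.Agent.Work.MP_659252_gt.Z.HTan
import Pool.Agent.Work.MP_659252_gt.Z.HLin
import Pool.Agent.Work.MP_659252_gt.Z.HRot

/-!
# Assembly, second part: the class of `conf α B` is not invariant under any curve of rotations
-/

namespace Pool.Agent.Work.MP_659252_gt.Z

open scoped ContDiff

variable {d : ℕ} {α : Fin (d + 1) → ℝ} {B : ℝ → ℝ} {lo hi : ℝ}

private theorem orth_preserve (R : Matrix (Fin (d + 1)) (Fin (d + 1)) ℝ)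
    (hR : R ∈ Matrix.orthogonalGroup (Fin (d + 1)) ℝ) (x y : V d) : R.mulVec x ⬝ᵥ R.mulVec y = x ⬝ᵥ y := by
  rw [Matrix.dotProduct_mulVec, Matrix.vecMul_mulVec]
  have h := (Matrix.mem_orthogonalGroup_iff' (Fin (d + 1)) ℝ).mp hR
  rw [h, Matrix.vecMul_one]

/-- a function with `φ 0 = 0` and nonzero derivative at `0` takes positive values arbitrarily close to `0` -/
private theorem exists_pos_near (φ : ℝ → ℝ) (D : ℝ) (h0 : φ 0 = 0) (hD : D ≠ 0) (h : HasDerivAt φ D 0) (δ : ℝ)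
    (hδ : 0 < δ) : ∃ t, |t| < δ ∧ 0 < φ t := by
  by_contra hcon
  push Not at hcon
  have hmax : IsLocalMax φ 0 := by
    filter_upwards [Metric.ball_mem_nhds (0 : ℝ) hδ] with t ht
    rw [h0]
    refine hcon t ?_
    rwa [Metric.mem_ball, Real.dist_eq, sub_zero] at ht
  exact hD (hmax.hasDerivAt_eq_zero h)

theorem no_inv (hd : 3 ≤ d) (D : Dat α B lo hi) (hinj : Function.Injective α) (hB0 : ∀ μ, 0 ≤ B μ)
    (hBlo : ∀ m, lo < m → ∃ μ, lo < μ ∧ μ < m ∧ B μ ≠ 0)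
    (R : ℝ → Matrix (Fin (d + 1)) (Fin (d + 1)) ℝ) (Ω : Matrix (Fin (d + 1)) (Fin (d + 1)) ℝ)
    (hR : ∀ t, R t ∈ Matrix.orthogonalGroup (Fin (d + 1)) ℝ) (h1 : R 0 = 1) (hΩ : Ω ≠ 0)
    (hD : ∀ i j, HasDerivAt (fun t => R t i j) (Ω i j) 0) (h₀ k : Ten d) (h₀t : IsTrivial h₀)
    (hk : ∀ t, IsInvariant (R t) k)
    (hdec : ∀ x v w, Tan x v → Tan x w → val (conf α B) x v w = val h₀ x v w + val k x v w) : False := by
  have hd1 : 1 ≤ d := by omega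
  obtain ⟨x, v, hxx, hxv, hvv, hQ, hRR, hdRR⟩ :=
    tangent_plane (by omega) D.a0 D.adm_lo hinj Ω (skew_curve R hR Ω h1 hD) hΩ
  obtain ⟨δ, hδ, Hδ⟩ := lin_zero hd D.adm_lo R Ω h1 hD x hQ
  -- `Q (R t x) (R t x) > 0` for small `t`
  have hc := Q_curve (α := α) (μ := lo) R Ω h1 hD x x
  have hpos : ∀ᶠ t in nhds (0 : ℝ), 0 < Q α lo ((R t).mulVec x) ((R t).mulVec x) := by
    refine hc.eventually (lt_mem_nhds ?_)
    show 0 < Q α lo ((R 0).mulVec x) ((R 0).mulVec x)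
    rw [h1, Matrix.one_mulVec]
    exact hQ
  obtain ⟨δ', hδ', Hδ'⟩ := Metric.eventually_nhds_iff.mp hpos
  obtain ⟨t, ht, hφ⟩ := exists_pos_near (fun t => RR α lo ((R t).mulVec x) ((R t).mulVec v)) (dRR α lo Ω x v)
    (by rw [h1, Matrix.one_mulVec, Matrix.one_mulVec]; exact hRR) hdRR (RR_curve R Ω h1 hD x v) (min δ δ')
    (lt_min hδ hδ')
  obtain ⟨l, hl⟩ := half_diff (conf α B) h₀ k (conf_smooth hd1 D) h₀t hdec (R t) (hR t) (hk t) x hxx
  have hl0 : ∀ w, x ⬝ᵥ w = 0 → l ⬝ᵥ w = 0 := by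
    refine Hδ t (ht.trans_le (min_le_left _ _)) l fun u hxu huu hu1 hu2 => ?_
    rw [← hl u hxu huu, half_zero hd1 D x u hxx hxu huu hu1,
      half_zero hd1 D _ _ (by rw [orth_preserve _ (hR t)]; exact hxx) (by rw [orth_preserve _ (hR t)]; exact hxu)
        (by rw [orth_preserve _ (hR t)]; exact huu) hu2, sub_zero]
  have h2 := hl v hxv hvv
  rw [hl0 v hxv, half_zero hd1 D x v hxx hxv hvv hRR.le, sub_zero] at h2
  refine half_ne hd1 D hB0 hBlo _ _ (by rw [orth_preserve _ (hR t)]; exact hxx)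
    (by rw [orth_preserve _ (hR t)]; exact hxv) (by rw [orth_preserve _ (hR t)]; exact hvv) ?_ hφ h2
  refine Hδ' ?_
  rw [Real.dist_eq, sub_zero]
  exact ht.trans_le (min_le_right _ _)

end Pool.Agent.Work.MP_659252_gt.Z
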