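import Pool.Agent.Work.MP_659252_gt.Z.FinA
import Pool.Agent.Work.MP_659252_gt.Z.FinB

/-!
# Final assembly
-/

namespace Pool.Agent.Work.MP_659252_gt.Z

open scoped ContDiff

variable {d : ℕ} {α : Fin (d + 1) → ℝ} {B : ℝ → ℝ} {lo hi : ℝ}

/-- enlarge the support interval -/
private theorem dat_of (h0 : α 0 = 0) (hB : ContDiff ℝ ∞ B) {lo hi : ℝ} (hlo : Adm α lo) (hhi : Adm α hi)
    (hle : lo ≤ hi) (hsupp : ∀ μ, μ ∉ Set.Icc lo hi → B μ = 0) : ∃ lo' hi', Dat α B lo' hi' := by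
  obtain ⟨hi', h1, h2⟩ : ∃ hi', hi < hi' ∧ ∀ j, j ≠ 0 → hi' < α j := by
    have h : ∀ᶠ m in nhds hi, ∀ j, j ≠ 0 → m < α j := by
      rw [Filter.eventually_all]
      intro j
      by_cases hj : j = 0
      · exact Filter.Eventually.of_forall fun m hm => absurd hj hm
      · filter_upwards [gt_mem_nhds (hhi.2 j hj)] with m hm _
        exact hm
    obtain ⟨δ, hδ, H⟩ := Metric.eventually_nhds_iff.mp h
    refine ⟨hi + δ / 2, by linarith, H ?_⟩
    rw [Real.dist_eq, add_sub_cancel_left, abs_of_pos (by linarith)]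
    linarith
  refine ⟨lo / 2, hi', h0, half_pos hlo.1, ?_, h2, hB, fun μ hμ => hsupp μ fun hm => hμ ?_⟩
  · have := hlo.1
    linarith
  · have := hlo.1
    exact ⟨by linarith [hm.1], by linarith [hm.2]⟩

/-- shrink the lower end of the support interval to the infimum of the support -/
private theorem dat_inf (D : Dat α B lo hi) (hne : ∃ μ, B μ ≠ 0) :
    ∃ lo', Dat α B lo' hi ∧ ∀ m, lo' < m → ∃ μ, lo' < μ ∧ μ < m ∧ B μ ≠ 0 := by
  have hcont : Continuous B := D.smooth.continuous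
  have hbd : BddBelow {μ | B μ ≠ 0} := ⟨lo, fun μ hμ => by
    by_contra hlt
    push Not at hlt
    exact hμ (D.supp μ fun h => absurd h.1 (by linarith))⟩
  have hnon : ({μ | B μ ≠ 0} : Set ℝ).Nonempty := hne
  set s := sInf {μ | B μ ≠ 0} with hs
  have hs0 : B s = 0 := by
    by_contra hn
    have hopen : IsOpen {μ | B μ ≠ 0} := isOpen_ne_fun hcont continuous_const
    obtain ⟨δ, hδ, H⟩ := Metric.isOpen_iff.mp hopen s hn
    have hmem : s - δ / 2 ∈ {μ | B μ ≠ 0} := H (by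
      rw [Metric.mem_ball, Real.dist_eq]
      rw [show s - δ / 2 - s = -(δ / 2) by ring, abs_neg, abs_of_pos (by linarith)]
      linarith)
    have := csInf_le hbd hmem
    rw [← hs] at this
    linarith
  have hlos : lo ≤ s := le_csInf hnon fun μ hμ => by
    by_contra hlt
    push Not at hlt
    exact hμ (D.supp μ fun h => absurd h.1 (by linarith))
  have hlow : ∀ μ, μ ≤ s → B μ = 0 := fun μ hμ => by
    by_contra hn
    have h1 := csInf_le hbd hn
    rw [← hs] at h1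
    have : μ = s := le_antisymm hμ h1
    rw [this] at hn
    exact hn hs0
  have hshi : s < hi := by
    obtain ⟨μ, hμ⟩ := hne
    have h1 := csInf_le hbd hμ
    rw [← hs] at h1
    by_contra hge
    push Not at hge
    exact hμ (D.supp μ fun h => absurd h.2 (by linarith))
  refine ⟨s, ⟨D.a0, D.lo_pos.trans_le hlos, hshi, D.adm, D.smooth, fun μ hμ => ?_⟩, fun m hm => ?_⟩
  · by_cases h : μ ≤ s
    · exact hlow μ h
    · refine D.supp μ fun hmem => hμ ⟨not_le.mp h, hmem.2⟩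
  · obtain ⟨μ, hμ, hlt⟩ := exists_lt_of_csInf_lt hnon hm
    refine ⟨μ, ?_, hlt, hμ⟩
    by_contra hle
    push Not at hle
    exact hμ (hlow μ hle)

/-- The theorem: confocal directions are tangent to the space of Zoll metrics, and they are not invariant (modulo
trivial directions) under any curve of rotations if the `α i` are distinct. -/
theorem main (d : ℕ) (hd : 3 ≤ d) (α : Fin (d + 1) → ℝ) (h0 : α 0 = 0) (B : ℝ → ℝ) (hB : ContDiff ℝ ∞ B)
    (lo hi : ℝ) (hlo : Adm α lo) (hhi : Adm α hi) (hle : lo ≤ hi)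
    (hsupp : ∀ μ, μ ∉ Set.Icc lo hi → B μ = 0) :
    InT (conf α B) ∧
    (Function.Injective α → (∀ μ, 0 ≤ B μ) → (∃ μ, B μ ≠ 0) →
      (∀ R : ℝ → Matrix (Fin (d + 1)) (Fin (d + 1)) ℝ, (∀ t, R t ∈ Matrix.orthogonalGroup (Fin (d + 1)) ℝ) →
        R 0 = 1 → (∃ Ω : Matrix (Fin (d + 1)) (Fin (d + 1)) ℝ, Ω ≠ 0 ∧
          ∀ i j, HasDerivAt (fun t => R t i j) (Ω i j) 0) →
        ¬ ∃ h₀ k : Ten d, IsTrivial h₀ ∧ (∀ t, IsInvariant (R t) k) ∧
          ∀ x v w, Tan x v → Tan x w → val (conf α B) x v w = val h₀ x v w + val k x v w) ∧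
      (∀ e : V d, ¬ ∃ h₀ k : Ten d, IsTrivial h₀ ∧
        (∀ R ∈ Matrix.orthogonalGroup (Fin (d + 1)) ℝ, R.mulVec e = e → IsInvariant R k) ∧
          ∀ x v w, Tan x v → Tan x w → val (conf α B) x v w = val h₀ x v w + val k x v w)) := by
  obtain ⟨lo', hi', D⟩ := dat_of h0 hB hlo hhi hle hsupp
  refine ⟨conf_inT_aux (by omega) D, fun hinj hB0 hne => ?_⟩
  obtain ⟨lo'', D'', hlo''⟩ := dat_inf D hne
  have key : ∀ R : ℝ → Matrix (Fin (d + 1)) (Fin (d + 1)) ℝ,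
      (∀ t, R t ∈ Matrix.orthogonalGroup (Fin (d + 1)) ℝ) →
        R 0 = 1 → (∃ Ω : Matrix (Fin (d + 1)) (Fin (d + 1)) ℝ, Ω ≠ 0 ∧
          ∀ i j, HasDerivAt (fun t => R t i j) (Ω i j) 0) →
        ¬ ∃ h₀ k : Ten d, IsTrivial h₀ ∧ (∀ t, IsInvariant (R t) k) ∧
          ∀ x v w, Tan x v → Tan x w → val (conf α B) x v w = val h₀ x v w + val k x v w := by
    rintro R hR h1 ⟨Ω, hΩ, hD⟩ ⟨h₀, k, h₀t, hk, hdec⟩
    exact no_inv hd D'' hinj hB0 hlo'' R Ω hR h1 hΩ hD h₀ k h₀t hk hdec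
  refine ⟨key, fun e => ?_⟩
  rintro ⟨h₀, k, h₀t, hk, hdec⟩
  obtain ⟨R, Ω, hR, h1, hΩ, hD, he⟩ := rot_fix (by omega : 2 ≤ d) e
  exact key R hR h1 ⟨Ω, hΩ, hD⟩ ⟨h₀, k, h₀t, fun t => hk (R t) (hR t) (he t), hdec⟩

end Pool.Agent.Work.MP_659252_gt.Z
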