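import Pool.Agent.Work.MP_659252_gt.Z.Lev

/-!
# The level function is smooth.  Size: M.

PROOF.  Let `Q α μ x x = 0`, `μ` admissible, `x ≠ 0`.  Consider `Ψ : V d × ℝ → V d × ℝ`, `Ψ (y, m) = (y, Q α m y y)`, smooth near `(x, μ)`
(`α_i - m ≠ 0` there: `Adm.ne`, `Adm.isOpen`), with derivative `(w, r) ↦ (w, 2 Q α μ x w + r Q2 α μ x x)` at `(x, μ)`: `ContDiffAt`, and an
equivalence because `Q2 α μ x x > 0` (`Q2_pos`).  The local inverse (`ContDiffAt.toOpenPartialHomeomorph` / `ContDiffAt.to_localInverse`) is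
smooth, and near `x` the second component `m(y)` of `Ψ⁻¹ (y, 0)` satisfies `Q α (m y) y y = 0`, `m y` admissible, so `lev α y = m y` by
`lev_eq`.  Hence `lev` is smooth at `x`.  (Alternative: `HasStrictFDerivAt.implicitFunction`.)
Derivative: differentiate `Q α (lev α y) y y = 0` at `x` in the direction `w`: `2 Q α μ x w + (D lev w) Q2 α μ x x = 0`.
`lev_cont`: a consequence.
-/

namespace Pool.Agent.Work.MP_659252_gt.Z

open scoped ContDiff Topology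

variable {d : ℕ} {α : Fin (d + 1) → ℝ} {μ : ℝ}

/-- the quadratic form as a function of the point and of the parameter -/
private noncomputable def ff (α : Fin (d + 1) → ℝ) (p : V d × ℝ) : ℝ := Q α p.2 p.1 p.1

private theorem ff_contDiffAt (h0 : α 0 = 0) (hμ : Adm α μ) (x : V d) :
    ContDiffAt ℝ ∞ (ff α) (x, μ) := by
  unfold ff Q
  refine ContDiffAt.sum fun i _ => ?_
  have h1 : ContDiffAt ℝ ∞ (fun p : V d × ℝ => p.1 i) (x, μ) := by fun_prop
  have h2 : ContDiffAt ℝ ∞ (fun p : V d × ℝ => α i - p.2) (x, μ) := by fun_prop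
  exact (h1.mul h1).div h2 (hμ.ne h0 i)

private theorem ff_fderiv_right (h0 : α 0 = 0) (hμ : Adm α μ) (x : V d) (r : ℝ) :
    fderiv ℝ (ff α) (x, μ) (0, r) = r * Q2 α μ x x := by
  have hd : HasFDerivAt (ff α) (fderiv ℝ (ff α) (x, μ)) (x, μ) :=
    ((ff_contDiffAt h0 hμ x).differentiableAt (by simp)).hasFDerivAt
  have hc : HasDerivAt (fun m : ℝ => ((x, m) : V d × ℝ)) ((0 : V d), (1 : ℝ)) μ :=
    (hasDerivAt_const μ x).prodMk (hasDerivAt_id μ)
  have h1 : HasDerivAt (fun m : ℝ => Q α m x x) (fderiv ℝ (ff α) (x, μ) ((0 : V d), (1 : ℝ))) μ :=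
    HasFDerivAt.comp_hasDerivAt μ hd hc
  have h2 := h1.unique (Q_deriv h0 hμ x x)
  have h3 : ((0 : V d), r) = r • ((0 : V d), (1 : ℝ)) := by simp
  rw [h3, map_smul, h2, smul_eq_mul]

private theorem ff_fderiv_left (h0 : α 0 = 0) (hμ : Adm α μ) (x w : V d) :
    fderiv ℝ (ff α) (x, μ) (w, 0) = 2 * Q α μ x w := by
  have hd : HasFDerivAt (ff α) (fderiv ℝ (ff α) (x, μ)) (x, μ) :=
    ((ff_contDiffAt h0 hμ x).differentiableAt (by simp)).hasFDerivAt
  have hl : HasDerivAt (fun t : ℝ => x + t • w) w 0 := by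
    simpa using ((hasDerivAt_id (0 : ℝ)).smul_const w).const_add x
  have hc : HasDerivAt (fun t : ℝ => ((x + t • w, μ) : V d × ℝ)) (w, (0 : ℝ)) 0 :=
    hl.prodMk (hasDerivAt_const 0 μ)
  have hd' : HasFDerivAt (ff α) (fderiv ℝ (ff α) (x, μ)) ((x + (0 : ℝ) • w, μ) : V d × ℝ) := by
    simpa using hd
  have h1 : HasDerivAt (fun t : ℝ => Q α μ (x + t • w) (x + t • w))
      (fderiv ℝ (ff α) (x, μ) (w, (0 : ℝ))) 0 := by
    have h1' := HasFDerivAt.comp_hasDerivAt (f := fun t : ℝ => ((x + t • w, μ) : V d × ℝ))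
      (0 : ℝ) hd' hc
    exact h1'
  have h2 : (fun t : ℝ => Q α μ (x + t • w) (x + t • w)) =
      fun t : ℝ => Q α μ x x + t * (2 * Q α μ x w) + t ^ 2 * Q α μ w w := by
    funext t
    rw [Q_add, Q_smul, Q_comm α μ x, Q_comm α μ w, Q_add, Q_add, Q_smul, Q_smul, Q_comm α μ w x]
    ring
  rw [h2] at h1
  have h3 : HasDerivAt (fun t : ℝ => Q α μ x x + t * (2 * Q α μ x w) + t ^ 2 * Q α μ w w)
      (2 * Q α μ x w) 0 := by
    have ha : HasDerivAt (fun t : ℝ => t * (2 * Q α μ x w)) (1 * (2 * Q α μ x w)) 0 :=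
      (hasDerivAt_id (0 : ℝ)).mul_const _
    have hb : HasDerivAt (fun t : ℝ => t ^ 2 * Q α μ w w)
        (((2 : ℕ) * (0 : ℝ) ^ (2 - 1)) * Q α μ w w) 0 :=
      (hasDerivAt_pow 2 (0 : ℝ)).mul_const _
    have hs := (ha.const_add (Q α μ x x)).add hb
    have e : 1 * (2 * Q α μ x w) + (((2 : ℕ) * (0 : ℝ) ^ (2 - 1)) * Q α μ w w) =
        2 * Q α μ x w := by norm_num
    rw [e] at hs
    exact hs
  exact h1.unique h3

private theorem ff_inv (h0 : α 0 = 0) (hμ : Adm α μ) (x : V d) (hx : x ≠ 0) :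
    (fderiv ℝ (ff α) (x, μ) ∘L ContinuousLinearMap.inr ℝ (V d) ℝ).IsInvertible := by
  have hpos := Q2_pos h0 hμ x hx
  refine ⟨ContinuousLinearEquiv.unitsEquivAut ℝ (Units.mk0 (Q2 α μ x x) hpos.ne'), ?_⟩
  ext
  simp [ff_fderiv_right h0 hμ x]

private theorem lev_eventually (h0 : α 0 = 0) (hμ : Adm α μ) (x : V d) (hx : x ≠ 0)
    (h : Q α μ x x = 0) :
    ∃ ψ : V d → ℝ, ContDiffAt ℝ ∞ ψ x ∧ ψ x = μ ∧ ∀ᶠ y in 𝓝 x, ff α (y, ψ y) = 0 ∧ lev α y = ψ y := by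
  have cdf := ff_contDiffAt h0 hμ x
  have pn : (∞ : WithTop ℕ∞) ≠ 0 := by simp
  have hi := ff_inv h0 hμ x hx
  have hc := cdf.contDiffAt_implicitFunction pn hi
  have he := cdf.eventually_apply_implicitFunction pn hi
  have hs := cdf.implicitFunction_apply_self pn hi
  refine ⟨cdf.implicitFunction pn hi, hc, hs, ?_⟩
  have hcont : ContinuousAt (cdf.implicitFunction pn hi) x := hc.continuousAt
  have hadm : ∀ᶠ y in 𝓝 x, Adm α (cdf.implicitFunction pn hi y) := by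
    have hmem : {m | Adm α m} ∈ 𝓝 (cdf.implicitFunction pn hi x) := by
      rw [hs]
      exact (Adm.isOpen α).mem_nhds hμ
    exact hcont.eventually_mem hmem
  have hne : ∀ᶠ y in 𝓝 x, y ≠ 0 := isOpen_ne.mem_nhds hx
  filter_upwards [he, hadm, hne] with y h1 h2 h3
  have h4 : ff α (y, cdf.implicitFunction pn hi y) = 0 := by
    rw [h1]
    exact h
  exact ⟨h4, lev_eq h0 h2 y h3 h4⟩

theorem lev_contDiffAt (h0 : α 0 = 0) (hμ : Adm α μ) (x : V d) (hx : x ≠ 0) (h : Q α μ x x = 0) :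
    ContDiffAt ℝ ∞ (lev α) x := by
  obtain ⟨ψ, hψ, -, he⟩ := lev_eventually h0 hμ x hx h
  exact hψ.congr_of_eventuallyEq (he.mono fun y hy => hy.2)

theorem lev_fderiv (h0 : α 0 = 0) (hμ : Adm α μ) (x : V d) (hx : x ≠ 0) (h : Q α μ x x = 0) (w : V d) :
    fderiv ℝ (lev α) x w = -2 * Q α μ x w / Q2 α μ x x := by
  obtain ⟨ψ, hψ, hψx, he⟩ := lev_eventually h0 hμ x hx h
  have hpos := Q2_pos h0 hμ x hx
  have heq : lev α =ᶠ[𝓝 x] ψ := he.mono fun y hy => hy.2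
  rw [heq.fderiv_eq]
  have hd : HasFDerivAt (ff α) (fderiv ℝ (ff α) (x, μ)) (x, ψ x) := by
    rw [hψx]
    exact ((ff_contDiffAt h0 hμ x).differentiableAt (by simp)).hasFDerivAt
  have hψd : HasFDerivAt ψ (fderiv ℝ ψ x) x := (hψ.differentiableAt (by simp)).hasFDerivAt
  have hp : HasFDerivAt (fun y => (y, ψ y)) ((ContinuousLinearMap.id ℝ (V d)).prod (fderiv ℝ ψ x)) x :=
    (hasFDerivAt_id x).prodMk hψd
  have hcomp : HasFDerivAt (fun y => ff α (y, ψ y))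
      ((fderiv ℝ (ff α) (x, μ)).comp ((ContinuousLinearMap.id ℝ (V d)).prod (fderiv ℝ ψ x))) x :=
    HasFDerivAt.comp (f := fun y => ((y, ψ y) : V d × ℝ)) x hd hp
  have hz : (fun y => ff α (y, ψ y)) =ᶠ[𝓝 x] fun _ => (0 : ℝ) := he.mono fun y hy => hy.1
  have h0' : HasFDerivAt (fun _ : V d => (0 : ℝ)) (0 : V d →L[ℝ] ℝ) x := hasFDerivAt_const 0 x
  have hu := (hcomp.congr_of_eventuallyEq hz.symm).unique h0'
  have hw := congrArg (fun T : V d →L[ℝ] ℝ => T w) hu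
  have h5 : ((w, fderiv ℝ ψ x w) : V d × ℝ) = (w, 0) + (0, fderiv ℝ ψ x w) := by simp
  have h6 : fderiv ℝ (ff α) (x, μ) (w, fderiv ℝ ψ x w) = 0 := by simpa using hw
  rw [h5, map_add, ff_fderiv_left h0 hμ, ff_fderiv_right h0 hμ] at h6
  rw [eq_div_iff hpos.ne']
  linarith

end Pool.Agent.Work.MP_659252_gt.Z
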