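import Pool.Agent.Work.MP_659252_gt.Z.WDer
import Pool.Agent.Work.MP_659252_gt.Z.Cons
import Pool.Agent.Work.MP_659252_gt.Z.RFact
import Pool.Agent.Work.MP_659252_gt.Z.LevD

/-!
# A passage through the upper half sphere, upper boundary of the ring.  Size: M.

`[a, b]` is a time interval with `x_0 > 0` and `A = Q α lo x x ≤ 0`, `A a = A b = 0`, `Q α lo x v < 0` at `a`, `> 0` at `b`, and `RR α hi > 0` (conserved).
Let `C s = Q α hi (x s) (x s)`, `C > A`-type facts: `C a > 0`, `C b > 0` (`Q_lt`).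
Facts.  (1) On times with `A ≤ 0 ≤ C` (ring) the level `μ(s) = lev α (x s) ∈ [lo, hi]` is a root (`lev_root`), continuous (`lev_contDiffAt`), and
`q(s) = Q α μ (x s) (v s)` satisfies `q² = RR α μ (x s) (v s) = RR α μ (x 0) (v 0) > 0` (`RR_const`; `RR_mono` from `hi` down to `μ`, or `μ = hi`).  So `q` is
continuous and without zero on every interval of ring times: constant sign.
(2) At a time with `C = 0`: `μ = hi` (`lev_eq`), `q = Q α hi x v`, and `C` has derivative `2 Q α hi x v` (`bb = 0` there, `be = 0`).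
(3) Where `C ≤ 0`: `bb = 0` (`bb_eq_zero`), on intervals the frame is constant (`W_const`).
PROOF.  `C < 0` or `= 0` somewhere in `(a, b)`: otherwise `[a, b]` is an interval of ring times, `q(a) < 0 < q(b)`: contradiction.
Let `a' = inf {s ∈ [a, b] | C s ≤ 0}`, `b' = sup {...}`: `a < a' ≤ b' < b`, `C a' = C b' = 0`, `C > 0` on `[a, a')` and `(b', b]`; by (1) `q < 0` on `[a, a']`, so
`Q α hi (x a') (v a') < 0`, and `q > 0` on `[b', b]`.  Hence `a' < b'`... (only `a' ≤ b'` is needed).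
Claim: `C ≤ 0` on `[a', b']`: if `C s* > 0` let `(s', s'')` be the component of `{C > 0}` around `s*`, `[s', s''] ⊆ [a', b']` ring times, `C s' = C s'' = 0`,
derivative of `C` at `s'` `≥ 0` so `q(s') > 0`, at `s''` `≤ 0` so `q(s'') < 0`: contradiction to the constant sign.  So the frame is constant on `[a', b']`.
-/

namespace Pool.Agent.Work.MP_659252_gt.Z

variable {d : ℕ} {α : Fin (d + 1) → ℝ} {B : ℝ → ℝ} {lo hi : ℝ}

open Set Filter Topology in
private theorem deriv_nonneg_of_right {C : ℝ → ℝ} {c s t : ℝ} (hst : s < t) (h : HasDerivAt C c s) (h0 : C s = 0)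
    (hp : ∀ r ∈ Set.Ioo s t, 0 < C r) : 0 ≤ c := by
  have h1 : Tendsto (slope C s) (𝓝[>] s) (𝓝 c) :=
    (hasDerivAt_iff_tendsto_slope.1 h).mono_left (nhdsWithin_mono _ fun r hr => ne_of_gt hr)
  refine ge_of_tendsto h1 ?_
  filter_upwards [Ioo_mem_nhdsGT hst] with r hr
  rw [slope_def_field, h0, sub_zero]
  exact div_nonneg (hp r hr).le (sub_nonneg.2 hr.1.le)

open Set Filter Topology in
private theorem deriv_nonpos_of_left {C : ℝ → ℝ} {c s t : ℝ} (hst : t < s) (h : HasDerivAt C c s) (h0 : C s = 0)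
    (hp : ∀ r ∈ Set.Ioo t s, 0 < C r) : c ≤ 0 := by
  have h1 : Tendsto (slope C s) (𝓝[<] s) (𝓝 c) :=
    (hasDerivAt_iff_tendsto_slope.1 h).mono_left (nhdsWithin_mono _ fun r hr => ne_of_lt hr)
  refine le_of_tendsto h1 ?_
  filter_upwards [Ioo_mem_nhdsLT hst] with r hr
  rw [slope_def_field, h0, sub_zero]
  exact div_nonpos_of_nonneg_of_nonpos (hp r hr).le (sub_nonpos.2 hr.2.le)

private theorem ne0 {x v : ℝ → V d} (h : Sol α B x v) (s : ℝ) : x s ≠ 0 := by
  intro h0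
  have := h.xx s
  rw [h0] at this
  simp at this

private theorem cont_x {x v : ℝ → V d} (h : Sol α B x v) : Continuous x :=
  continuous_iff_continuousAt.2 fun s => (h.dx s).continuousAt

private theorem cont_v {x v : ℝ → V d} (h : Sol α B x v) : Continuous v :=
  continuous_iff_continuousAt.2 fun s => (h.dv s).continuousAt

private theorem cont_Q {x v : ℝ → V d} (hx : Continuous x) (hv : Continuous v) (μ : ℝ) :
    Continuous fun s => Q α μ (x s) (v s) := by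
  unfold Q
  refine continuous_finsetSum _ fun i _ => ?_
  exact (((continuous_apply i).comp hx).mul ((continuous_apply i).comp hv)).div_const _

/-- at a ring time the function `q` is continuous, and it is not zero -/
private theorem q_cont (hd : 1 ≤ d) (D : Dat α B lo hi) {x v : ℝ → V d} (h : Sol α B x v) (s : ℝ)
    (h1 : Q α lo (x s) (x s) ≤ 0) (h2 : 0 ≤ Q α hi (x s) (x s)) :
    ContinuousAt (fun s => Q α (lev α (x s)) (x s) (v s)) s := by
  obtain ⟨hl1, hl2, hl3⟩ := lev_root D.a0 D.adm_lo D.adm_hi D.lo_hi.le (x s) (ne0 h s) h1 h2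
  have hadm := D.adm_mem hl1 hl2
  have hlev : ContinuousAt (fun s => lev α (x s)) s :=
    ((lev_contDiffAt D.a0 hadm (x s) (ne0 h s) hl3).continuousAt).comp (cont_x h).continuousAt
  unfold Q
  refine tendsto_finsetSum _ fun i _ => ?_
  have hx : ContinuousAt (fun s => x s i) s := ((continuous_apply i).comp (cont_x h)).continuousAt
  have hv : ContinuousAt (fun s => v s i) s := ((continuous_apply i).comp (cont_v h)).continuousAt
  exact (hx.mul hv).div (continuousAt_const.sub hlev) (hadm.ne D.a0 i)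

private theorem q_ne (hd : 1 ≤ d) (D : Dat α B lo hi) {x v : ℝ → V d} (h : Sol α B x v)
    (hR : 0 < RR α hi (x 0) (v 0)) (s : ℝ)
    (h1 : Q α lo (x s) (x s) ≤ 0) (h2 : 0 ≤ Q α hi (x s) (x s)) :
    Q α (lev α (x s)) (x s) (v s) ≠ 0 := by
  obtain ⟨hl1, hl2, hl3⟩ := lev_root D.a0 D.adm_lo D.adm_hi D.lo_hi.le (x s) (ne0 h s) h1 h2
  have hadm := D.adm_mem hl1 hl2
  have hRR : 0 < RR α (lev α (x s)) (x s) (v s) := by
    rw [RR_const hd D h _ hadm s 0]
    rcases hl2.eq_or_lt with heq | hlt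
    · rw [heq]; exact hR
    · exact RR_mono D.a0 D.adm_hi hadm hlt (x 0) (v 0) (h.xx 0) (h.xv 0) (h.vv 0) hR.le
  intro h0
  unfold RR at hRR
  rw [hl3, h0] at hRR
  simp at hRR

/-- constant sign of `q` on an interval of ring times -/
private theorem q_sign (hd : 1 ≤ d) (D : Dat α B lo hi) {x v : ℝ → V d} (h : Sol α B x v)
    (hR : 0 < RR α hi (x 0) (v 0)) {s t : ℝ} (hst : s ≤ t)
    (h1 : ∀ r ∈ Set.Icc s t, Q α lo (x r) (x r) ≤ 0) (h2 : ∀ r ∈ Set.Icc s t, 0 ≤ Q α hi (x r) (x r)) :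
    Q α (lev α (x s)) (x s) (v s) < 0 ↔ Q α (lev α (x t)) (x t) (v t) < 0 := by
  have hc : ContinuousOn (fun s => Q α (lev α (x s)) (x s) (v s)) (Set.Icc s t) := fun r hr =>
    (q_cont hd D h r (h1 r hr) (h2 r hr)).continuousWithinAt
  have hnes := q_ne hd D h hR s (h1 s ⟨le_rfl, hst⟩) (h2 s ⟨le_rfl, hst⟩)
  have hnet := q_ne hd D h hR t (h1 t ⟨hst, le_rfl⟩) (h2 t ⟨hst, le_rfl⟩)
  constructor
  · intro hs
    by_contra hcon
    have ht : 0 ≤ Q α (lev α (x t)) (x t) (v t) := not_lt.1 hcon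
    obtain ⟨r, hr, hr0⟩ := intermediate_value_Icc hst hc ⟨hs.le, ht⟩
    exact q_ne hd D h hR r (h1 r hr) (h2 r hr) hr0
  · intro ht
    by_contra hcon
    have hs : 0 ≤ Q α (lev α (x s)) (x s) (v s) := not_lt.1 hcon
    obtain ⟨r, hr, hr0⟩ := intermediate_value_Icc' hst hc ⟨ht.le, hs⟩
    exact q_ne hd D h hR r (h1 r hr) (h2 r hr) hr0

private theorem Q_self_deriv {x : ℝ → V d} {x' : V d} {s : ℝ} (μ : ℝ) (h : HasDerivAt x x' s) :
    HasDerivAt (fun s => Q α μ (x s) (x s)) (2 * Q α μ (x s) x') s := by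
  have h1 : ∀ i, HasDerivAt (fun s => x s i) (x' i) s := fun i => (hasDerivAt_pi.1 h) i
  have h2 : HasDerivAt (fun s => ∑ i, x s i * x s i / (α i - μ))
      (∑ i, (x' i * x s i + x s i * x' i) / (α i - μ)) s :=
    HasDerivAt.fun_sum fun i _ => ((h1 i).mul (h1 i)).div_const _
  unfold Q
  convert h2 using 1
  rw [Finset.mul_sum]
  exact Finset.sum_congr rfl fun i _ => by ring

/-- derivative of `C` at a time with `C = 0` -/
private theorem C_deriv (hd : 1 ≤ d) (D : Dat α B lo hi) {x v : ℝ → V d} (h : Sol α B x v) (s : ℝ)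
    (h0 : Q α hi (x s) (x s) = 0) :
    HasDerivAt (fun s => Q α hi (x s) (x s)) (2 * Q α hi (x s) (v s)) s := by
  have hbb : bb α B (x s) = 0 := bb_eq_zero hd D (x s) (ne0 h s) (Or.inr h0.le)
  have hbe : be α B (x s) = 0 := by unfold be; rw [hbb]; simp
  have h1 := h.dx s
  rw [hbe, zero_smul, add_zero] at h1
  exact Q_self_deriv hi h1

private theorem lev_hi (D : Dat α B lo hi) {x v : ℝ → V d} (h : Sol α B x v) (s : ℝ)
    (h0 : Q α hi (x s) (x s) = 0) : lev α (x s) = hi := lev_eq D.a0 D.adm_hi (x s) (ne0 h s) h0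

private theorem lev_lo (D : Dat α B lo hi) {x v : ℝ → V d} (h : Sol α B x v) (s : ℝ)
    (h0 : Q α lo (x s) (x s) = 0) : lev α (x s) = lo := lev_eq D.a0 D.adm_lo (x s) (ne0 h s) h0

theorem path_hi (hd : 1 ≤ d) (D : Dat α B lo hi) (hB : ∀ μ, |B μ| < 1) {x v : ℝ → V d} (h : Sol α B x v)
    (a b : ℝ) (hab : a < b) (hpos : ∀ s ∈ Set.Icc a b, 0 < x s 0)
    (ha : Q α lo (x a) (x a) = 0) (ha' : Q α lo (x a) (v a) < 0)
    (hb : Q α lo (x b) (x b) = 0) (hb' : 0 < Q α lo (x b) (v b))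
    (hin : ∀ s ∈ Set.Ioo a b, Q α lo (x s) (x s) < 0) (hR : 0 < RR α hi (x 0) (v 0)) :
    ∃ a' b' : ℝ, a < a' ∧ a' ≤ b' ∧ b' < b ∧
      (∀ s ∈ Set.Ico a a', 0 < Q α hi (x s) (x s)) ∧
      Q α hi (x a') (x a') = 0 ∧ Q α hi (x a') (v a') < 0 ∧
      (W1 x v b' = W1 x v a' ∧ W2 x v b' = W2 x v a') ∧
      Q α hi (x b') (x b') = 0 ∧ 0 < Q α hi (x b') (v b') ∧
      (∀ s ∈ Set.Ioc b' b, 0 < Q α hi (x s) (x s)) := by
  set C : ℝ → ℝ := fun s => Q α hi (x s) (x s) with hC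
  have hCc : Continuous C := cont_Q (cont_x h) (cont_x h) hi
  have hA : ∀ s ∈ Set.Icc a b, Q α lo (x s) (x s) ≤ 0 := by
    intro s hs
    rcases hs.1.eq_or_lt with h1 | h1
    · rw [← h1]; exact ha.le
    rcases hs.2.eq_or_lt with h2 | h2
    · rw [h2]; exact hb.le
    exact (hin s ⟨h1, h2⟩).le
  have hCa : 0 < C a := by
    have := Q_lt D.a0 D.adm_lo D.adm_hi D.lo_hi (x a) (ne0 h a)
    rw [ha] at this; exact this
  have hCb : 0 < C b := by
    have := Q_lt D.a0 D.adm_lo D.adm_hi D.lo_hi (x b) (ne0 h b)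
    rw [hb] at this; exact this
  have hqa : Q α (lev α (x a)) (x a) (v a) < 0 := by rw [lev_lo D h a ha]; exact ha'
  have hqb : ¬ Q α (lev α (x b)) (x b) (v b) < 0 := by rw [lev_lo D h b hb]; exact not_lt.2 hb'.le
  set S : Set ℝ := {s | s ∈ Set.Icc a b ∧ C s ≤ 0} with hS
  have hSc : IsCompact S := by
    have : S = Set.Icc a b ∩ C ⁻¹' Set.Iic 0 := rfl
    rw [this]
    exact isCompact_Icc.inter_right (isClosed_Iic.preimage hCc)
  have hSne : S.Nonempty := by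
    by_contra hcon
    rw [Set.not_nonempty_iff_eq_empty] at hcon
    have h2 : ∀ r ∈ Set.Icc a b, 0 ≤ C r := by
      intro r hr
      by_contra hlt
      have : r ∈ S := ⟨hr, (not_le.1 hlt).le⟩
      rw [hcon] at this
      exact this
    exact hqb ((q_sign hd D h hR hab.le hA h2).1 hqa)
  obtain ⟨a', ha'S, hmin⟩ := hSc.exists_isLeast hSne
  obtain ⟨b', hb'S, hmax⟩ := hSc.exists_isGreatest hSne
  have haa' : a < a' := by
    rcases ha'S.1.1.eq_or_lt with h1 | h1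
    · exfalso; have := ha'S.2; rw [← h1] at this; linarith
    · exact h1
  have hbb' : b' < b := by
    rcases hb'S.1.2.eq_or_lt with h1 | h1
    · exfalso; have := hb'S.2; rw [h1] at this; linarith
    · exact h1
  have hab' : a' ≤ b' := hmin hb'S
  have hpa : ∀ s ∈ Set.Ico a a', 0 < C s := by
    intro s hs
    by_contra hcon
    have : s ∈ S := ⟨⟨hs.1, hs.2.le.trans ha'S.1.2⟩, not_lt.1 hcon⟩
    exact absurd (hmin this) (not_le.2 hs.2)
  have hpb : ∀ s ∈ Set.Ioc b' b, 0 < C s := by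
    intro s hs
    by_contra hcon
    have : s ∈ S := ⟨⟨hb'S.1.1.trans hs.1.le, hs.2⟩, not_lt.1 hcon⟩
    exact absurd (hmax this) (not_le.2 hs.1)
  have hCa' : C a' = 0 := by
    obtain ⟨r, hr, hr0⟩ := intermediate_value_Icc' haa'.le hCc.continuousOn ⟨ha'S.2, hCa.le⟩
    have hrS : r ∈ S := ⟨⟨hr.1, hr.2.trans ha'S.1.2⟩, le_of_eq hr0⟩
    have : r = a' := le_antisymm hr.2 (hmin hrS)
    rw [← this]; exact hr0
  have hCb' : C b' = 0 := by
    obtain ⟨r, hr, hr0⟩ := intermediate_value_Icc hbb'.le hCc.continuousOn ⟨hb'S.2, hCb.le⟩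
    have hrS : r ∈ S := ⟨⟨hb'S.1.1.trans hr.1, hr.2⟩, le_of_eq hr0⟩
    have : r = b' := le_antisymm (hmax hrS) hr.1
    rw [← this]; exact hr0
  have hqa' : Q α (lev α (x a')) (x a') (v a') < 0 := by
    refine (q_sign hd D h hR haa'.le (fun r hr => hA r ⟨hr.1, hr.2.trans ha'S.1.2⟩) ?_).1 hqa
    intro r hr
    rcases hr.2.eq_or_lt with h1 | h1
    · rw [h1]; exact hCa'.ge
    · exact (hpa r ⟨hr.1, h1⟩).le
  have hqb' : 0 < Q α (lev α (x b')) (x b') (v b') := by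
    have h1 : ¬ Q α (lev α (x b')) (x b') (v b') < 0 := by
      intro hneg
      refine hqb ((q_sign hd D h hR hbb'.le (fun r hr => hA r ⟨hb'S.1.1.trans hr.1, hr.2⟩) ?_).1 hneg)
      intro r hr
      rcases hr.1.eq_or_lt with h1 | h1
      · rw [← h1]; exact hCb'.ge
      · exact (hpb r ⟨h1, hr.2⟩).le
    exact lt_of_le_of_ne (not_lt.1 h1)
      (q_ne hd D h hR b' (hA b' hb'S.1) hCb'.ge).symm
  rw [lev_hi D h a' hCa'] at hqa'
  rw [lev_hi D h b' hCb'] at hqb'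
  have hmid : ∀ s ∈ Set.Icc a' b', C s ≤ 0 := by
    intro s hs
    by_contra hcon
    have hCs : 0 < C s := not_le.1 hcon
    set S1 : Set ℝ := Set.Icc a' s ∩ C ⁻¹' Set.Iic 0 with hS1
    set S2 : Set ℝ := Set.Icc s b' ∩ C ⁻¹' Set.Iic 0 with hS2
    have hS1c : IsCompact S1 := isCompact_Icc.inter_right (isClosed_Iic.preimage hCc)
    have hS2c : IsCompact S2 := isCompact_Icc.inter_right (isClosed_Iic.preimage hCc)
    obtain ⟨s1, hs1S, hs1⟩ := hS1c.exists_isGreatest ⟨a', ⟨le_rfl, hs.1⟩, hCa'.le⟩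
    obtain ⟨s2, hs2S, hs2⟩ := hS2c.exists_isLeast ⟨b', ⟨hs.2, le_rfl⟩, hCb'.le⟩
    have hs1lt : s1 < s := by
      rcases hs1S.1.2.eq_or_lt with h1 | h1
      · exfalso; have h3 : C s1 ≤ 0 := hs1S.2; rw [h1] at h3; linarith
      · exact h1
    have hs2gt : s < s2 := by
      rcases hs2S.1.1.eq_or_lt with h1 | h1
      · exfalso; have h3 : C s2 ≤ 0 := hs2S.2; rw [← h1] at h3; linarith
      · exact h1
    have hbetween : ∀ r ∈ Set.Ioo s1 s2, 0 < C r := by
      intro r hr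
      by_contra hcon
      have hr0 : C r ≤ 0 := not_lt.1 hcon
      rcases le_total r s with h1 | h1
      · exact absurd (hs1 ⟨⟨hs1S.1.1.trans hr.1.le, h1⟩, hr0⟩) (not_le.2 hr.1)
      · exact absurd (hs2 ⟨⟨h1, hr.2.le.trans hs2S.1.2⟩, hr0⟩) (not_le.2 hr.2)
    have hC1 : C s1 = 0 := by
      obtain ⟨r, hr, hr0⟩ := intermediate_value_Icc hs1lt.le hCc.continuousOn ⟨hs1S.2, hCs.le⟩
      have hrS : r ∈ S1 := ⟨⟨hs1S.1.1.trans hr.1, hr.2⟩, le_of_eq hr0⟩
      have : r = s1 := le_antisymm (hs1 hrS) hr.1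
      rw [← this]; exact hr0
    have hC2 : C s2 = 0 := by
      obtain ⟨r, hr, hr0⟩ := intermediate_value_Icc' hs2gt.le hCc.continuousOn ⟨hs2S.2, hCs.le⟩
      have hrS : r ∈ S2 := ⟨⟨hr.1, hr.2.trans hs2S.1.2⟩, le_of_eq hr0⟩
      have : r = s2 := le_antisymm hr.2 (hs2 hrS)
      rw [← this]; exact hr0
    have h12 : s1 < s2 := hs1lt.trans hs2gt
    have hsub : ∀ r ∈ Set.Icc s1 s2, r ∈ Set.Icc a b := fun r hr =>
      ⟨ha'S.1.1.trans (hs1S.1.1.trans hr.1), hr.2.trans (hs2S.1.2.trans hb'S.1.2)⟩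
    have hring : ∀ r ∈ Set.Icc s1 s2, 0 ≤ C r := by
      intro r hr
      rcases hr.1.eq_or_lt with h1 | h1
      · rw [← h1]; exact hC1.ge
      rcases hr.2.eq_or_lt with h2 | h2
      · rw [h2]; exact hC2.ge
      exact (hbetween r ⟨h1, h2⟩).le
    have hd1 := deriv_nonneg_of_right h12 (C_deriv hd D h s1 hC1) hC1 hbetween
    have hd2 := deriv_nonpos_of_left h12 (C_deriv hd D h s2 hC2) hC2 hbetween
    have hq1 := q_ne hd D h hR s1 (hA s1 (hsub s1 ⟨le_rfl, h12.le⟩)) (hring s1 ⟨le_rfl, h12.le⟩)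
    have hq2 := q_ne hd D h hR s2 (hA s2 (hsub s2 ⟨h12.le, le_rfl⟩)) (hring s2 ⟨h12.le, le_rfl⟩)
    have hsg := q_sign hd D h hR h12.le (fun r hr => hA r (hsub r hr)) hring
    rw [lev_hi D h s1 hC1] at hq1 hsg
    rw [lev_hi D h s2 hC2] at hq2 hsg
    have h3 : Q α hi (x s2) (v s2) < 0 := lt_of_le_of_ne (by linarith) hq2
    have h4 := hsg.2 h3
    linarith
  refine ⟨a', b', haa', hab', hbb', hpa, hCa', hqa', ?_, hCb', hqb', hpb⟩
  exact W_const h (fun s hs => bb_eq_zero hd D (x s) (ne0 h s) (Or.inr (hmid s hs))) b' ⟨hab', le_rfl⟩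

/-- if `RR α hi ≤ 0` the solution never goes beyond the ring -/
theorem never_hi (hd : 1 ≤ d) (D : Dat α B lo hi) {x v : ℝ → V d} (h : Sol α B x v)
    (hR : RR α hi (x 0) (v 0) ≤ 0) (s : ℝ) : 0 ≤ Q α hi (x s) (x s) := by
  by_contra hcon
  have h1 := RR_pos D.adm_hi (x s) (v s) (h.xx s) (h.xv s) (h.vv s) (not_le.1 hcon)
  rw [RR_const hd D h hi D.adm_hi s 0] at h1
  linarith

end Pool.Agent.Work.MP_659252_gt.Z
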