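import Pool.Agent.Work.MP_659252_gt.Z.PathLo
import Pool.Agent.Work.MP_659252_gt.Z.PathHi
import Pool.Agent.Work.MP_659252_gt.Z.CmpA

/-!
# The two half passages give the same frame.  Size: M-L.

`(x, v)` is a solution for `B`, `(x', v')` for `-B`, both pass through the upper half sphere during `[0, T]`, `[0, T']`, and
`x' 0 = -x 0`, `v' 0 = v 0`.  Claim: `W1' (T') = -W1 (T)`, `W2' (T') = W2 (T)`.
PROOF.  `RR α l (x' 0) (v' 0) = RR α l (x 0) (v 0)` (`RR` is even in the first vector).  At time `0`: `W1 0 = x 0`, `W2 0 = v 0`.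
Case 0: `RR α lo ≤ 0`: `path_none` for both (`D.neg`).
Case A: `RR α lo > 0`, `RR α hi ≤ 0`: `path_lo` for both gives `a, b`, `a', b'`; the times of `[a, b]` are ring times: `x_0 > 0` (`0 < a`, `b < T`), `Q lo ≤ 0`,
`0 ≤ Q hi` (`never_hi`).  States at the start: level `lo` (`lev_eq`), `Q α lo (x a) (v a) = -√(RR α lo)` (its square is `RR` because `Q lo x x = 0`,
`RR_const`, it is negative), frame `W(0)`: `ZZ α 1 x v a = (lo, -√R, x 0, v 0) = (lo, -√R, -x' 0, v' 0) = ZZ α (-1) x' v' a'`.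
`ring_compare` with `c = lo`: on `(a, b)` `Q lo < 0`, so `lo < lev` (`lt_lev`), at `b` `lev = lo`.  So the frames at the end agree, and they are the frames at
`T`, `T'`.
Case B: `RR α hi > 0` (then `RR α lo > 0` by `RR_mono`): `path_lo`, then `path_hi` for both.  First piece `[a, a₁]`: `c = hi` (on `(a, a₁)` `Q hi > 0`, so
`lev < hi`, `lev_lt`); the states at `a₁` agree.  Start of the second piece `[b₁, b]`: level `hi`, `Q α hi (x b₁) (v b₁) = +√(RR α hi)`, frame the same as at `a₁`: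
the states at `b₁`, `b₁'` agree.  Second piece with `c = lo` (`b₁ < b`; on `(b₁, b)` `Q lo < 0`).
-/

namespace Pool.Agent.Work.MP_659252_gt.Z

variable {d : ℕ} {α : Fin (d + 1) → ℝ} {B : ℝ → ℝ} {lo hi : ℝ}

private theorem sol_ne {x v : ℝ → V d} (h : Sol α B x v) (s : ℝ) : x s ≠ 0 := by
  intro h0
  have h1 := h.xx s
  rw [h0, dotProduct_zero] at h1
  exact zero_ne_one h1

private theorem W1_zero (x v : ℝ → V d) : W1 x v 0 = x 0 := by
  unfold W1
  rw [Real.cos_zero, Real.sin_zero, one_smul, zero_smul, sub_zero]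

private theorem W2_zero (x v : ℝ → V d) : W2 x v 0 = v 0 := by
  unfold W2
  rw [Real.cos_zero, Real.sin_zero, one_smul, zero_smul, zero_add]

private theorem RR_neg_left (l : ℝ) (y z : V d) : RR α l (-y) z = RR α l y z := by
  unfold RR
  have e1 : Q α l (-y) (-y) = Q α l y y := by
    rw [Q_neg, Q_comm, Q_neg, neg_neg]
  rw [e1, Q_neg, neg_sq]

private theorem q_sq (hd : 1 ≤ d) (D : Dat α B lo hi) {x v : ℝ → V d} (h : Sol α B x v) {l : ℝ}
    (hl : Adm α l) {s : ℝ} (hQ : Q α l (x s) (x s) = 0) :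
    Q α l (x s) (v s) ^ 2 = RR α l (x 0) (v 0) := by
  rw [← RR_const hd D h l hl s 0]
  unfold RR
  rw [hQ, zero_mul, sub_zero]

private theorem state_neg (hd : 1 ≤ d) (D : Dat α B lo hi) {x v : ℝ → V d} (h : Sol α B x v) {l : ℝ}
    (hl : Adm α l) {s : ℝ} (hQ : Q α l (x s) (x s) = 0) (hq : Q α l (x s) (v s) < 0) (c : ℝ) :
    ZZ α c x v s = (l, -Real.sqrt (RR α l (x 0) (v 0)), c • W1 x v s, W2 x v s) := by
  unfold ZZ
  rw [lev_eq D.a0 hl (x s) (sol_ne h s) hQ, ← q_sq hd D h hl hQ, Real.sqrt_sq_eq_abs,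
    abs_of_neg hq, neg_neg]

private theorem state_pos (hd : 1 ≤ d) (D : Dat α B lo hi) {x v : ℝ → V d} (h : Sol α B x v) {l : ℝ}
    (hl : Adm α l) {s : ℝ} (hQ : Q α l (x s) (x s) = 0) (hq : 0 < Q α l (x s) (v s)) (c : ℝ) :
    ZZ α c x v s = (l, Real.sqrt (RR α l (x 0) (v 0)), c • W1 x v s, W2 x v s) := by
  unfold ZZ
  rw [lev_eq D.a0 hl (x s) (sol_ne h s) hQ, ← q_sq hd D h hl hQ, Real.sqrt_sq_eq_abs,
    abs_of_pos hq]

private theorem frames {x v x' v' : ℝ → V d} {s s' : ℝ}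
    (h : ZZ α 1 x v s = ZZ α (-1) x' v' s') : W1 x' v' s' = -W1 x v s ∧ W2 x' v' s' = W2 x v s := by
  unfold ZZ at h
  have h1 := congrArg (fun z : ℝ × ℝ × V d × V d => z.2.2.1) h
  have h2 := congrArg (fun z : ℝ × ℝ × V d × V d => z.2.2.2) h
  simp only [one_smul, neg_smul] at h1 h2
  exact ⟨by rw [h1, neg_neg], h2.symm⟩

theorem pass (hd : 1 ≤ d) (D : Dat α B lo hi) (hB : ∀ μ, |B μ| < 1) {x v x' v' : ℝ → V d}
    (h : Sol α B x v) (h' : Sol α (fun μ => -B μ) x' v')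
    (T : ℝ) (hT : 0 < T) (h0 : x 0 0 = 0) (hpos : ∀ s ∈ Set.Ioo 0 T, 0 < x s 0) (hT0 : x T 0 = 0)
    (T' : ℝ) (hT' : 0 < T') (h0' : x' 0 0 = 0) (hpos' : ∀ s ∈ Set.Ioo 0 T', 0 < x' s 0) (hT0' : x' T' 0 = 0)
    (hx : x' 0 = -x 0) (hv : v' 0 = v 0) :
    W1 x' v' T' = -W1 x v T ∧ W2 x' v' T' = W2 x v T := by
  have hB' : ∀ μ, |(fun μ => -B μ) μ| < 1 := fun μ => by
    show |-B μ| < 1
    rw [abs_neg]
    exact hB μ
  have hRR : ∀ l, RR α l (x' 0) (v' 0) = RR α l (x 0) (v 0) := by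
    intro l
    rw [hx, hv, RR_neg_left]
  have hw1 : W1 x' v' 0 = -W1 x v 0 := by rw [W1_zero, W1_zero, hx]
  have hw2 : W2 x' v' 0 = W2 x v 0 := by rw [W2_zero, W2_zero, hv]
  by_cases hR : RR α lo (x 0) (v 0) ≤ 0
  · obtain ⟨-, h1, h2⟩ := path_none hd D h hR T
    obtain ⟨-, h3, h4⟩ := path_none hd D.neg h' (by rw [hRR]; exact hR) T'
    exact ⟨by rw [h3, h1, hw1], by rw [h4, h2, hw2]⟩
  rw [not_le] at hR
  obtain ⟨a, b, ha0, hab, hbT, ⟨hWa1, hWa2⟩, ⟨hWb1, hWb2⟩, hQa, hqa, hQb, hqb, hin⟩ :=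
    path_lo hd D hB h T hT h0 hpos hT0 hR
  obtain ⟨a', b', ha0', hab', hbT', ⟨hWa1', hWa2'⟩, ⟨hWb1', hWb2'⟩, hQa', hqa', hQb', hqb', hin'⟩ :=
    path_lo hd D.neg hB' h' T' hT' h0' hpos' hT0' (by rw [hRR]; exact hR)
  have hposI : ∀ s ∈ Set.Icc a b, 0 < x s 0 := fun s hs =>
    hpos s ⟨ha0.trans_le hs.1, hs.2.trans_lt hbT⟩
  have hposI' : ∀ s ∈ Set.Icc a' b', 0 < x' s 0 := fun s hs =>
    hpos' s ⟨ha0'.trans_le hs.1, hs.2.trans_lt hbT'⟩
  have hlo : ∀ s ∈ Set.Icc a b, Q α lo (x s) (x s) ≤ 0 := by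
    intro s hs
    rcases hs.1.eq_or_lt with h1 | h1
    · rw [← h1]
      exact hQa.le
    rcases hs.2.eq_or_lt with h2 | h2
    · rw [h2]
      exact hQb.le
    exact (hin s ⟨h1, h2⟩).le
  have hlo' : ∀ s ∈ Set.Icc a' b', Q α lo (x' s) (x' s) ≤ 0 := by
    intro s hs
    rcases hs.1.eq_or_lt with h1 | h1
    · rw [← h1]
      exact hQa'.le
    rcases hs.2.eq_or_lt with h2 | h2
    · rw [h2]
      exact hQb'.le
    exact (hin' s ⟨h1, h2⟩).le
  -- the states at the start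
  have hstart : ZZ α 1 x v a = ZZ α (-1) x' v' a' := by
    rw [state_neg hd D h D.adm_lo hQa hqa, state_neg hd D.neg h' D.adm_lo hQa' hqa', hRR,
      hWa1, hWa2, hWa1', hWa2', hw1, hw2, one_smul, neg_smul, one_smul, neg_neg]
  have hfin : ZZ α 1 x v b = ZZ α (-1) x' v' b' := by
    by_cases hRh : RR α hi (x 0) (v 0) ≤ 0
    · refine ring_compare hd D hB h h' hab hab' ?_ ?_ hstart lo ?_ ?_ ?_ ?_
      · intro s hs
        exact ⟨hposI s hs, hlo s hs, never_hi hd D h hRh s⟩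
      · intro s hs
        exact ⟨hposI' s hs, hlo' s hs, never_hi hd D.neg h' (by rw [hRR]; exact hRh) s⟩
      · intro s hs
        exact (lt_lev hd D.a0 D.adm_lo (x s) (sol_ne h s) (hin s hs)).ne'
      · exact lev_eq D.a0 D.adm_lo (x b) (sol_ne h b) hQb
      · intro s hs
        exact (lt_lev hd D.a0 D.adm_lo (x' s) (sol_ne h' s) (hin' s hs)).ne'
      · exact lev_eq D.a0 D.adm_lo (x' b') (sol_ne h' b') hQb'
    · rw [not_le] at hRh
      obtain ⟨a₁, b₁, haa, hab₁, hbb, hC1, hQa₁, hqa₁, ⟨hV1, hV2⟩, hQb₁, hqb₁, hC2⟩ :=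
        path_hi hd D hB h a b hab hposI hQa hqa hQb hqb hin hRh
      obtain ⟨a₁', b₁', haa', hab₁', hbb', hC1', hQa₁', hqa₁', ⟨hV1', hV2'⟩, hQb₁', hqb₁', hC2'⟩ :=
        path_hi hd D.neg hB' h' a' b' hab' hposI' hQa' hqa' hQb' hqb' hin' (by rw [hRR]; exact hRh)
      -- first piece
      have h1 : ZZ α 1 x v a₁ = ZZ α (-1) x' v' a₁' := by
        refine ring_compare hd D hB h h' haa haa' ?_ ?_ hstart hi ?_ ?_ ?_ ?_
        · intro s hs
          have hs' : s ∈ Set.Icc a b := ⟨hs.1, by linarith [hs.2]⟩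
          refine ⟨hposI s hs', hlo s hs', ?_⟩
          rcases hs.2.eq_or_lt with h2 | h2
          · rw [h2]
            exact hQa₁.ge
          · exact (hC1 s ⟨hs.1, h2⟩).le
        · intro s hs
          have hs' : s ∈ Set.Icc a' b' := ⟨hs.1, by linarith [hs.2]⟩
          refine ⟨hposI' s hs', hlo' s hs', ?_⟩
          rcases hs.2.eq_or_lt with h2 | h2
          · rw [h2]
            exact hQa₁'.ge
          · exact (hC1' s ⟨hs.1, h2⟩).le
        · intro s hs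
          exact (lev_lt D.a0 D.adm_hi (x s) (sol_ne h s) (hC1 s ⟨hs.1.le, hs.2⟩)).ne
        · exact lev_eq D.a0 D.adm_hi (x a₁) (sol_ne h a₁) hQa₁
        · intro s hs
          exact (lev_lt D.a0 D.adm_hi (x' s) (sol_ne h' s) (hC1' s ⟨hs.1.le, hs.2⟩)).ne
        · exact lev_eq D.a0 D.adm_hi (x' a₁') (sol_ne h' a₁') hQa₁'
      obtain ⟨hf1, hf2⟩ := frames h1
      have hmid : ZZ α 1 x v b₁ = ZZ α (-1) x' v' b₁' := by
        rw [state_pos hd D h D.adm_hi hQb₁ hqb₁, state_pos hd D.neg h' D.adm_hi hQb₁' hqb₁', hRR,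
          hV1, hV2, hV1', hV2', hf1, hf2, one_smul, neg_smul, one_smul, neg_neg]
      refine ring_compare hd D hB h h' hbb hbb' ?_ ?_ hmid lo ?_ ?_ ?_ ?_
      · intro s hs
        have hs' : s ∈ Set.Icc a b := ⟨by linarith [hs.1], hs.2⟩
        refine ⟨hposI s hs', hlo s hs', ?_⟩
        rcases hs.1.eq_or_lt with h2 | h2
        · rw [← h2]
          exact hQb₁.ge
        · exact (hC2 s ⟨h2, hs.2⟩).le
      · intro s hs
        have hs' : s ∈ Set.Icc a' b' := ⟨by linarith [hs.1], hs.2⟩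
        refine ⟨hposI' s hs', hlo' s hs', ?_⟩
        rcases hs.1.eq_or_lt with h2 | h2
        · rw [← h2]
          exact hQb₁'.ge
        · exact (hC2' s ⟨h2, hs.2⟩).le
      · intro s hs
        exact (lt_lev hd D.a0 D.adm_lo (x s) (sol_ne h s)
          (hin s ⟨by linarith [hs.1], hs.2⟩)).ne'
      · exact lev_eq D.a0 D.adm_lo (x b) (sol_ne h b) hQb
      · intro s hs
        exact (lt_lev hd D.a0 D.adm_lo (x' s) (sol_ne h' s)
          (hin' s ⟨by linarith [hs.1], hs.2⟩)).ne'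
      · exact lev_eq D.a0 D.adm_lo (x' b') (sol_ne h' b') hQb'
  obtain ⟨hf1, hf2⟩ := frames hfin
  exact ⟨by rw [← hWb1', hf1, hWb1], by rw [← hWb2', hf2, hWb2]⟩

end Pool.Agent.Work.MP_659252_gt.Z
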