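import Pool.Agent.Work.MP_659252_gt.Z.Half
import Pool.Agent.Work.MP_659252_gt.Z.WLip
import Pool.Agent.Work.MP_659252_gt.Z.Refl
import Pool.Agent.Work.MP_659252_gt.Z.Pass
import Pool.Agent.Work.MP_659252_gt.Z.Circ

/-!
# All solutions have period `2π`.  Size: M-L.

Let `C` be the constant of `W_lip`, `δ` the one of `below` (for `lo`), `ε = min (1/2) (δ/(200 C))`; then `η = C ε ≤ δ/100`.
PROOF.  Let `(x, v)` be a solution.  Let `r(s) = x_0(s)² + v_0(s)²`.
(1) If `r(s₀) < δ²` for some `s₀`: every point `y = cos θ x s₀ + sin θ v s₀` of the circle has `y ⬝ y = 1`, `y_0² ≤ r(s₀) < δ²` (Cauchy-Schwarz), so `Q α lo y y > 0`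
(`below`), `bb = 0` (`bb_eq_zero`): `Sol.circle` gives `x s = cos (s - s₀) x s₀ + sin (s - s₀) v s₀`, period `2π`.
(2) Otherwise `r(s) ≥ δ²` for all `s`.  `crossing` with `p = W1_0`, `q = W2_0` (`x_0 = cos s p + sin s q`, `v_0 = -sin s p + cos s q`: `x_eq`, `v_eq`; `p 0² + q 0² = r(0)`)
gives a time `c` with `x_0(c) = 0`, `v_0(c) > 0`, so `v_0(c) ≥ δ`.  Replace `(x, v)` by the shifted solution (`Sol.shift`): `c = 0`.
(3) `half_pass` for `(x, v)`: `T ∈ (3π/4, 5π/4)`, `x_0 > 0` on `(0, T)`, `x_0(T) = 0`, `v_0(T) < 0`.  `half_pass` for the reflected solution `x' s = -x (-s)`, `v' s = v (-s)`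
(`Sol.reflect`, a solution for `-B`, `D.neg`, same bounds; `x'_0(0) = 0`, `v'_0(0) = v_0(0) ≥ δ`): `T' ∈ (3π/4, 5π/4)`, `x'_0 > 0` on `(0, T')`, `x'_0(T') = 0`, `v'_0(T') < 0`.
(4) `pass`: `W1 x' v' T' = -W1 x v T`, `W2 x' v' T' = W2 x v T`; with `W_reflect`: `W1 x v (-T') = W1 x v T`, `W2 x v (-T') = W2 x v T`.
(5) By `x_eq`, `v_eq` with `θ = T + T'`: `x T = cos θ x(-T') + sin θ v(-T')`, `v T = -sin θ x(-T') + cos θ v(-T')`.  `0`-components: `0 = sin θ v_0(-T')`,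
`v_0(T) = cos θ v_0(-T')`, `v_0(T) < 0`, `v_0(-T') = v'_0(T') < 0`: `sin θ = 0`, `cos θ > 0`; `θ ∈ (3π/2, 5π/2)`: `θ = 2π`.  So `x T = x (-T')`, `v T = v (-T')`, `T = -T' + 2π`.
(6) `(x (· + 2π), v (· + 2π))` is a solution which agrees with `(x, v)` at `-T'`: `Sol.unique`.
-/

namespace Pool.Agent.Work.MP_659252_gt.Z

variable {d : ℕ} {α : Fin (d + 1) → ℝ} {lo hi : ℝ}

private theorem le_of_sq_le_sq {a b : ℝ} (h : a ^ 2 ≤ b ^ 2) (hb : 0 < b) : a ≤ b := by
  by_contra hcon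
  push Not at hcon
  nlinarith

private theorem W1_zero (x v : ℝ → V d) : W1 x v 0 = x 0 := by
  unfold W1
  rw [Real.cos_zero, Real.sin_zero, one_smul, zero_smul, sub_zero]

private theorem W2_zero (x v : ℝ → V d) : W2 x v 0 = v 0 := by
  unfold W2
  rw [Real.cos_zero, Real.sin_zero, one_smul, zero_smul, zero_add]

/-- the half passage of a solution which starts at the equator -/
private theorem half {C ε δ : ℝ} (hδ : 0 < δ) (hη : 0 ≤ C * ε) (hsm : C * ε ≤ δ / 100) {x v : ℝ → V d}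
    (hl : ∀ i, (∀ s s', |W1 x v s i - W1 x v s' i| ≤ C * ε * |s - s'|) ∧
        (∀ s s', |W2 x v s i - W2 x v s' i| ≤ C * ε * |s - s'|) ∧
        ∀ s, ∃ e, |e| ≤ C * ε ∧ HasDerivAt (fun s => x s i) (v s i + e) s)
    (hx : x 0 0 = 0) (hv : δ ≤ v 0 0) :
    ∃ T, 3 * Real.pi / 4 < T ∧ T < 5 * Real.pi / 4 ∧ (∀ s ∈ Set.Ioo 0 T, 0 < x s 0) ∧ x T 0 = 0 ∧
      v T 0 < 0 := by
  obtain ⟨h1, h2, h3⟩ := hl 0
  refine half_pass (fun s => W1 x v s 0) (fun s => W2 x v s 0) (fun s => x s 0) (fun s => v s 0) δ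
    (C * ε) hδ hη hsm ?_ ?_ h1 h2 ?_ ?_ h3
  · change W1 x v 0 0 = 0
    rw [W1_zero, hx]
  · change δ ≤ W2 x v 0 0
    rw [W2_zero]
    exact hv
  · intro s
    exact congrFun (x_eq x v s) 0
  · intro s
    exact congrFun (v_eq x v s) 0

private theorem per_core (hd : 1 ≤ d) {B : ℝ → ℝ} (D : Dat α B lo hi) (hB : ∀ μ, |B μ| < 1)
    {C ε δ : ℝ} (hδ : 0 < δ) (hη : 0 ≤ C * ε) (hsm : C * ε ≤ δ / 100)
    (hl : ∀ B : ℝ → ℝ, Dat α B lo hi → (∀ μ, |B μ| ≤ ε) → ∀ x v : ℝ → V d, Sol α B x v → ∀ i,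
        (∀ s s', |W1 x v s i - W1 x v s' i| ≤ C * ε * |s - s'|) ∧
        (∀ s s', |W2 x v s i - W2 x v s' i| ≤ C * ε * |s - s'|) ∧
        ∀ s, ∃ e, |e| ≤ C * ε ∧ HasDerivAt (fun s => x s i) (v s i + e) s)
    (hBε : ∀ μ, |B μ| ≤ ε) {x v : ℝ → V d} (h : Sol α B x v) (hx : x 0 0 = 0) (hv : δ ≤ v 0 0)
    (s : ℝ) : x (s + 2 * Real.pi) = x s := by
  have hpi := Real.pi_pos
  obtain ⟨T, hT1, hT2, hT3, hT4, hT5⟩ := half hδ hη hsm (hl B D hBε x v h) hx hv
  have h' := h.reflect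
  have hBε' : ∀ μ, |(fun μ => -B μ) μ| ≤ ε := by
    intro μ
    simp only [abs_neg]
    exact hBε μ
  obtain ⟨T', hT1', hT2', hT3', hT4', hT5'⟩ := half hδ hη hsm
    (hl _ D.neg hBε' _ _ h') (by
      simp only [neg_zero, Pi.neg_apply, hx]) (by
      simp only [neg_zero]
      exact hv)
  obtain ⟨e1, e2⟩ := pass hd D hB h h' T (by linarith) hx hT3 hT4 T' (by linarith)
    (by simp only [neg_zero, Pi.neg_apply, hx]) hT3' hT4' (by simp only [neg_zero])
    (by simp only [neg_zero])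
  obtain ⟨e3, e4⟩ := W_reflect x v T'
  have f1 : W1 x v (-T') = W1 x v T := by
    have := e3.symm.trans e1
    exact neg_injective this
  have f2 : W2 x v (-T') = W2 x v T := e4.symm.trans e2
  -- the components
  have g1 := congrFun (x_eq x v T) 0
  have g2 := congrFun (x_eq x v (-T')) 0
  have g3 := congrFun (v_eq x v (-T')) 0
  rw [f1, f2] at g2 g3
  simp only [Pi.add_apply, Pi.smul_apply, smul_eq_mul, Real.cos_neg, Real.sin_neg] at g1 g2 g3
  have k1 : x (-T') 0 = 0 := by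
    have h9 : (-x (-T')) 0 = 0 := hT4'
    rw [Pi.neg_apply] at h9
    linarith
  have k2 : v (-T') 0 < 0 := hT5'
  rw [hT4] at g1
  rw [k1] at g2
  have hsin : Real.sin (T + T') * v (-T') 0 = 0 := by
    rw [g3, Real.sin_add]
    have hc := Real.sin_sq_add_cos_sq T'
    linear_combination (-1 : ℝ) * g1 + (Real.cos T * Real.cos T' - Real.sin T * Real.sin T') * g2 +
      (Real.cos T * W1 x v T 0 + Real.sin T * W2 x v T 0) * hc
  have hs0 : Real.sin (T + T') = 0 := by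
    rcases mul_eq_zero.1 hsin with h1 | h1
    · exact h1
    · exact absurd h1 k2.ne
  have hT : T + T' - 2 * Real.pi = 0 := by
    rw [← Real.sin_eq_zero_iff_of_lt_of_lt (by linarith) (by linarith), Real.sin_sub_two_pi]
    exact hs0
  have hT' : T = -T' + 2 * Real.pi := by linarith
  have m1 : x T = x (-T') := by
    rw [x_eq x v T, x_eq x v (-T'), f1, f2]
    have c1 : Real.cos T = Real.cos (-T') := by rw [hT', Real.cos_add_two_pi]
    have c2 : Real.sin T = Real.sin (-T') := by rw [hT', Real.sin_add_two_pi]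
    rw [c1, c2]
  have m2 : v T = v (-T') := by
    rw [v_eq x v T, v_eq x v (-T'), f1, f2]
    have c1 : Real.cos T = Real.cos (-T') := by rw [hT', Real.cos_add_two_pi]
    have c2 : Real.sin T = Real.sin (-T') := by rw [hT', Real.sin_add_two_pi]
    rw [c1, c2]
  have u := Sol.unique hd D hB (h.shift (2 * Real.pi)) h (-T') (by
    change x (-T' + 2 * Real.pi) = x (-T')
    rw [← hT']
    exact m1) (by
    change v (-T' + 2 * Real.pi) = v (-T')
    rw [← hT']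
    exact m2) s
  exact u.1

theorem periodic (hd : 1 ≤ d) (h0 : α 0 = 0) (hlo : 0 < lo) (hlt : lo < hi) (hα : ∀ j, j ≠ 0 → hi < α j) :
    ∃ ε : ℝ, 0 < ε ∧ ∀ B : ℝ → ℝ, Dat α B lo hi → (∀ μ, |B μ| ≤ ε) → ∀ x v : ℝ → V d, Sol α B x v →
      ∀ s, x (s + 2 * Real.pi) = x s := by
  obtain ⟨C, hC, hlip⟩ := W_lip (d := d) (α := α) hd h0 hlo hlt hα
  have hadm : Adm α lo := ⟨hlo, fun j hj => hlt.trans (hα j hj)⟩
  obtain ⟨δ, hδ, hbelow⟩ := below (d := d) (α := α) h0 hadm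
  refine ⟨min (1 / 2) (δ / (200 * C)), lt_min (by norm_num) (by positivity), ?_⟩
  intro B D hB x v h s
  set ε := min (1 / 2) (δ / (200 * C)) with hε
  have hε0 : 0 < ε := lt_min (by norm_num) (by positivity)
  have hε1 : ε ≤ 1 / 2 := min_le_left _ _
  have hε2 : ε ≤ δ / (200 * C) := min_le_right _ _
  have hη : 0 ≤ C * ε := by positivity
  have hsm : C * ε ≤ δ / 100 := by
    have h1 : C * ε ≤ C * (δ / (200 * C)) := mul_le_mul_of_nonneg_left hε2 hC.le
    have h2 : C * (δ / (200 * C)) = δ / 200 := by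
      field_simp
    rw [h2] at h1
    linarith
  have hB1 : ∀ μ, |B μ| < 1 := fun μ => (hB μ).trans_lt (by linarith)
  have hl : ∀ B : ℝ → ℝ, Dat α B lo hi → (∀ μ, |B μ| ≤ ε) → ∀ x v : ℝ → V d, Sol α B x v → ∀ i,
        (∀ s s', |W1 x v s i - W1 x v s' i| ≤ C * ε * |s - s'|) ∧
        (∀ s s', |W2 x v s i - W2 x v s' i| ≤ C * ε * |s - s'|) ∧
        ∀ s, ∃ e, |e| ≤ C * ε ∧ HasDerivAt (fun s => x s i) (v s i + e) s :=
    fun B D hB x v h => hlip B ε D hε0.le hε1 hB x v h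
  by_cases hr : ∃ s₀, x s₀ 0 ^ 2 + v s₀ 0 ^ 2 < δ ^ 2
  · obtain ⟨s₀, hs₀⟩ := hr
    have hz : ∀ θ : ℝ, bb α B (Real.cos θ • x s₀ + Real.sin θ • v s₀) = 0 := by
      intro θ
      set y := Real.cos θ • x s₀ + Real.sin θ • v s₀ with hy
      have hcs := Real.sin_sq_add_cos_sq θ
      have hyy : y ⬝ᵥ y = 1 := by
        rw [hy, add_dotProduct, dotProduct_add, dotProduct_add, smul_dotProduct, smul_dotProduct,
          smul_dotProduct, smul_dotProduct, dotProduct_smul, dotProduct_smul, dotProduct_smul,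
          dotProduct_smul, dotProduct_comm (v s₀) (x s₀), h.xx, h.xv, h.vv]
        simp only [smul_eq_mul]
        linear_combination hcs
      have hy0 : y ≠ 0 := by
        intro h1
        rw [h1, zero_dotProduct] at hyy
        exact zero_ne_one hyy
      have hy1 : y 0 ^ 2 < δ ^ 2 := by
        refine lt_of_le_of_lt ?_ hs₀
        have h1 : y 0 = Real.cos θ * x s₀ 0 + Real.sin θ * v s₀ 0 := rfl
        rw [h1]
        nlinarith [sq_nonneg (Real.cos θ * v s₀ 0 - Real.sin θ * x s₀ 0)]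
      exact bb_eq_zero hd D y hy0 (Or.inl (hbelow y hyy hy1).le)
    have hc := fun s => (Sol.circle hd D hB1 h s₀ hz s).1
    rw [hc (s + 2 * Real.pi), hc s]
    have e1 : s + 2 * Real.pi - s₀ = s - s₀ + 2 * Real.pi := by ring
    rw [e1, Real.cos_add_two_pi, Real.sin_add_two_pi]
  · push Not at hr
    obtain ⟨h1, h2, -⟩ := hl B D hB x v h 0
    obtain ⟨c, hc1, hc2⟩ := crossing (fun s => W1 x v s 0) (fun s => W2 x v s 0) δ (C * ε) hδ hη hsm
      (by
        change δ ^ 2 ≤ W1 x v 0 0 ^ 2 + W2 x v 0 0 ^ 2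
        rw [W1_zero, W2_zero]
        exact hr 0) h1 h2
    have g1 : x c 0 = 0 := by
      rw [← hc1]
      exact congrFun (x_eq x v c) 0
    have g2 : 0 < v c 0 := by
      have g3 : v c 0 = -Real.sin c * W1 x v c 0 + Real.cos c * W2 x v c 0 :=
        congrFun (v_eq x v c) 0
      rw [g3]
      exact hc2
    have g3 : δ ≤ v c 0 := by
      have g4 := hr c
      rw [g1] at g4
      have g5 : δ ^ 2 ≤ v c 0 ^ 2 := by linarith
      exact le_of_sq_le_sq g5 g2
    have key := per_core hd D hB1 hδ hη hsm hl hB (h.shift c) (by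
      change x (0 + c) 0 = 0
      rw [zero_add]
      exact g1) (by
      change δ ≤ v (0 + c) 0
      rw [zero_add]
      exact g3) (s - c)
    have e1 : s - c + 2 * Real.pi + c = s + 2 * Real.pi := by ring
    have e2 : s - c + c = s := by ring
    change x (s - c + 2 * Real.pi + c) = x (s - c + c) at key
    rw [e1, e2] at key
    exact key

end Pool.Agent.Work.MP_659252_gt.Z
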