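import Pool.Agent.Work.MP_659252_gt.Z.WLip

/-!
# The closed geodesics are simple.  Size: M.

Let `C` be the constant of `W_lip`, `ε = min (1/2) (1/(8 (d+1) C))`, `η = C ε ≤ 1/(8 (d+1))`.
PROOF.  Let `x s = x s'`, `s < s' < s + 2π`.  By the period `2π` we may assume `r = s' - s ∈ (0, π]` (otherwise replace `(s, s')` by `(s', s + 2π)`: `x (s + 2π) = x s`).
`x s' = cos s' W1(s') + sin s' W2(s') = cos r x s + sin r v s + E`, `E = cos s' (W1(s') - W1(s)) + sin s' (W2(s') - W2(s))` (`x_eq`, `v_eq` at `s`, addition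
formulas), `|E_i| ≤ 2 η r`.  Dot products with `x s` and `v s` (`|x_i|, |v_i| ≤ 1`): `1 - cos r = E ⬝ x`, `-sin r = E ⬝ v`, so
`2 - 2 cos r = (1 - cos r)² + sin² r ≤ 2 (2 (d+1) η r)² ≤ r²/8`.  But `2 - 2 cos r = 4 sin²(r/2) ≥ 4 (r/π)²` (`Real.mul_le_sin`: `2/π · (r/2) ≤ sin (r/2)`), and
`4/π² > 1/8` (`π < 4`): contradiction as `r > 0`.
-/

namespace Pool.Agent.Work.MP_659252_gt.Z

variable {d : ℕ} {α : Fin (d + 1) → ℝ} {lo hi : ℝ}

private theorem simp_abs_le {x : V d} (hx : x ⬝ᵥ x = 1) (i : Fin (d + 1)) : |x i| ≤ 1 := by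
  have h1 : x i * x i ≤ ∑ j, x j * x j :=
    Finset.single_le_sum (f := fun j => x j * x j) (fun j _ => mul_self_nonneg _) (Finset.mem_univ i)
  have h2 : ∑ j, x j * x j = 1 := hx
  rw [h2] at h1
  apply abs_le.mpr
  constructor <;> nlinarith

private theorem simp_dot_le {E x : V d} {c : ℝ} (hE : ∀ i, |E i| ≤ c) (hx : ∀ i, |x i| ≤ 1) :
    |E ⬝ᵥ x| ≤ (d + 1) * c := by
  have hc : 0 ≤ c := (abs_nonneg _).trans (hE 0)
  calc |E ⬝ᵥ x| = |∑ i, E i * x i| := rfl
    _ ≤ ∑ i, |E i * x i| := Finset.abs_sum_le_sum_abs _ _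
    _ ≤ ∑ _i : Fin (d + 1), c := by
        apply Finset.sum_le_sum
        intro i _
        rw [abs_mul]
        calc |E i| * |x i| ≤ c * 1 := mul_le_mul (hE i) (hx i) (abs_nonneg _) hc
          _ = c := mul_one _
    _ = (d + 1) * c := by simp

theorem simple (hd : 1 ≤ d) (h0 : α 0 = 0) (hlo : 0 < lo) (hlt : lo < hi) (hα : ∀ j, j ≠ 0 → hi < α j) :
    ∃ ε : ℝ, 0 < ε ∧ ∀ B : ℝ → ℝ, Dat α B lo hi → (∀ μ, |B μ| ≤ ε) → ∀ x v : ℝ → V d, Sol α B x v →
      (∀ s, x (s + 2 * Real.pi) = x s) → Set.InjOn x (Set.Ico 0 (2 * Real.pi)) := by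
  obtain ⟨C, hC, hlip⟩ := W_lip hd h0 hlo hlt hα
  have hd1 : (0 : ℝ) < d + 1 := by positivity
  refine ⟨min (1 / 2) (1 / (8 * (d + 1) * C)), lt_min (by norm_num) (by positivity), ?_⟩
  intro B D hB x v hS hper
  set ε : ℝ := min (1 / 2) (1 / (8 * (d + 1) * C)) with hε
  have hε0 : 0 < ε := lt_min (by norm_num) (by positivity)
  have hε2 : ε ≤ 1 / 2 := min_le_left _ _
  have hη : (d + 1) * (C * ε) ≤ 1 / 8 := by
    have h1 : ε ≤ 1 / (8 * (d + 1) * C) := min_le_right _ _
    calc (d + 1) * (C * ε) ≤ (d + 1) * (C * (1 / (8 * (d + 1) * C))) := by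
          apply mul_le_mul_of_nonneg_left _ hd1.le
          exact mul_le_mul_of_nonneg_left h1 hC.le
      _ = 1 / 8 := by field_simp
  have hl := hlip B ε D hε0.le hε2 hB x v hS
  have key : ∀ s s', s < s' → s' - s ≤ Real.pi → x s = x s' → False := by
    intro s s' hss hr heq
    set r := s' - s with hrd
    have hr0 : 0 < r := by rw [hrd]; linarith
    let E : V d := Real.cos s' • (W1 x v s' - W1 x v s) + Real.sin s' • (W2 x v s' - W2 x v s)
    have hxE : x s' = Real.cos r • x s + Real.sin r • v s + E := by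
      have h1 := x_eq x v s'
      rw [h1]
      funext i
      simp only [E, W1, W2, Pi.add_apply, Pi.smul_apply, Pi.sub_apply, smul_eq_mul, hrd, Real.cos_sub,
        Real.sin_sub]
      ring
    have hEi : ∀ i, |E i| ≤ 2 * (C * ε) * r := by
      intro i
      have h1 := (hl i).1 s' s
      have h2 := (hl i).2.1 s' s
      have h3 : |s' - s| = r := by rw [← hrd]; exact abs_of_pos hr0
      rw [h3] at h1 h2
      have h4 : E i = Real.cos s' * (W1 x v s' i - W1 x v s i) + Real.sin s' * (W2 x v s' i - W2 x v s i) := rfl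
      rw [h4]
      calc |Real.cos s' * (W1 x v s' i - W1 x v s i) + Real.sin s' * (W2 x v s' i - W2 x v s i)|
          ≤ |Real.cos s' * (W1 x v s' i - W1 x v s i)| + |Real.sin s' * (W2 x v s' i - W2 x v s i)| :=
            abs_add_le _ _
        _ = |Real.cos s'| * |W1 x v s' i - W1 x v s i| + |Real.sin s'| * |W2 x v s' i - W2 x v s i| := by
            rw [abs_mul, abs_mul]
        _ ≤ 1 * (C * ε * r) + 1 * (C * ε * r) := by
            apply add_le_add
            · exact mul_le_mul (Real.abs_cos_le_one _) h1 (abs_nonneg _) zero_le_one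
            · exact mul_le_mul (Real.abs_sin_le_one _) h2 (abs_nonneg _) zero_le_one
        _ = 2 * (C * ε) * r := by ring
    have hEd : E = x s' - Real.cos r • x s - Real.sin r • v s := by
      rw [hxE]; abel
    have hEx : E ⬝ᵥ x s = 1 - Real.cos r := by
      rw [hEd, ← heq, sub_dotProduct, sub_dotProduct, smul_dotProduct, smul_dotProduct,
        dotProduct_comm (v s) (x s), hS.xx, hS.xv]
      simp
    have hEv : E ⬝ᵥ v s = -Real.sin r := by
      rw [hEd, ← heq, sub_dotProduct, sub_dotProduct, smul_dotProduct, smul_dotProduct, hS.xv, hS.vv]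
      simp
    have h5 := simp_dot_le hEi (fun i => simp_abs_le (hS.xx s) i)
    have h6 := simp_dot_le hEi (fun i => simp_abs_le (hS.vv s) i)
    rw [hEx] at h5
    rw [hEv] at h6
    have h7 : (d + 1) * (2 * (C * ε) * r) ≤ r / 4 := by
      calc (d + 1) * (2 * (C * ε) * r) = ((d + 1) * (C * ε)) * (2 * r) := by ring
        _ ≤ 1 / 8 * (2 * r) := mul_le_mul_of_nonneg_right hη (by linarith)
        _ = r / 4 := by ring
    have h8 := h5.trans h7
    have h9 := h6.trans h7
    have h10 : (1 - Real.cos r) ^ 2 ≤ (r / 4) ^ 2 := by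
      rw [← sq_abs]; exact pow_le_pow_left₀ (abs_nonneg _) h8 2
    have h11 : (-Real.sin r) ^ 2 ≤ (r / 4) ^ 2 := by
      rw [← sq_abs (-Real.sin r)]; exact pow_le_pow_left₀ (abs_nonneg _) h9 2
    have h12 : Real.sin r ^ 2 + Real.cos r ^ 2 = 1 := Real.sin_sq_add_cos_sq r
    have h13 : 2 / Real.pi * (r / 2) ≤ Real.sin (r / 2) :=
      Real.mul_le_sin (by linarith) (by linarith)
    have hpi := Real.pi_pos
    have hpi4 := Real.pi_lt_four
    have h14 : r / 4 < Real.sin (r / 2) := by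
      refine lt_of_lt_of_le ?_ h13
      have : 2 / Real.pi * (r / 2) = r / Real.pi := by field_simp
      rw [this]
      exact div_lt_div_of_pos_left hr0 hpi hpi4
    have h15 : Real.cos r = 1 - 2 * Real.sin (r / 2) ^ 2 := by
      have h16 := Real.cos_two_mul (r / 2)
      have h17 := Real.sin_sq_add_cos_sq (r / 2)
      have h18 : 2 * (r / 2) = r := by ring
      rw [h18] at h16
      linarith
    have h19 : (r / 4) ^ 2 < Real.sin (r / 2) ^ 2 := pow_lt_pow_left₀ h14 (by linarith) (by norm_num)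
    nlinarith [h10, h11, h12, h15, h19]
  have key2 : ∀ s ∈ Set.Ico 0 (2 * Real.pi), ∀ s' ∈ Set.Ico 0 (2 * Real.pi), s < s' → x s = x s' → False := by
    intro s hs s' hs' hlt' heq
    rcases le_or_gt (s' - s) Real.pi with h | h
    · exact key s s' hlt' h heq
    · refine key s' (s + 2 * Real.pi) ?_ ?_ ?_
      · linarith [hs.1, hs'.2]
      · linarith
      · rw [hper, heq]
  intro s hs s' hs' heq
  by_contra hne
  rcases lt_or_gt_of_ne hne with h | h
  · exact key2 s hs s' hs' h heq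
  · exact key2 s' hs' s hs h heq.symm

end Pool.Agent.Work.MP_659252_gt.Z
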