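import Pool.Agent.Work.MP_659252_gt.Z.FE
import Pool.Agent.Work.MP_659252_gt.Z.Per
import Pool.Agent.Work.MP_659252_gt.Z.Simp

/-!
# Assembly, first part: `conf α B` is a tangent vector to the space of Zoll metrics
-/

namespace Pool.Agent.Work.MP_659252_gt.Z

open scoped ContDiff

variable {d : ℕ} {α : Fin (d + 1) → ℝ} {lo hi : ℝ}

theorem zoll (hd : 1 ≤ d) (h0 : α 0 = 0) (hlo : 0 < lo) (hlt : lo < hi) (hα : ∀ j, j ≠ 0 → hi < α j) :
    ∃ ε : ℝ, 0 < ε ∧ ∀ B : ℝ → ℝ, Dat α B lo hi → (∀ μ, |B μ| ≤ ε) → IsZoll (Gt α B) := by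
  obtain ⟨ε₁, h1, H1⟩ := periodic hd h0 hlo hlt hα
  obtain ⟨ε₂, h2, H2⟩ := simple hd h0 hlo hlt hα
  refine ⟨min (1 / 2) (min ε₁ ε₂), lt_min (by norm_num) (lt_min h1 h2), fun B D hB => ?_⟩
  have hB1 : ∀ μ, |B μ| < 1 := fun μ => lt_of_le_of_lt ((hB μ).trans (min_le_left _ _)) (by norm_num)
  have hBa : ∀ μ, |B μ| ≤ ε₁ := fun μ => (hB μ).trans ((min_le_right _ _).trans (min_le_left _ _))
  have hBb : ∀ μ, |B μ| ≤ ε₂ := fun μ => (hB μ).trans ((min_le_right _ _).trans (min_le_right _ _))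
  refine ⟨Gt_isMetric hd D hB1, 2 * Real.pi, by positivity, fun γ hγ hu => ?_⟩
  have hs := geodesic_sol hd D hB1 γ hγ hu
  have hp := H1 B D hBa _ _ hs
  exact ⟨hp, H2 B D hBb _ _ hs hp⟩

theorem conf_inT_aux {B : ℝ → ℝ} (hd : 1 ≤ d) (D : Dat α B lo hi) : InT (conf α B) := by
  obtain ⟨ε, hε, H⟩ := zoll hd D.a0 D.lo_pos D.lo_hi D.adm
  -- `B` is bounded
  obtain ⟨K, hK0, hK⟩ : ∃ K : ℝ, 0 < K ∧ ∀ μ, |B μ| ≤ K := by
    have hcont : Continuous B := D.smooth.continuous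
    obtain ⟨K, hK⟩ := (isCompact_Icc (a := lo) (b := hi)).exists_bound_of_continuousOn hcont.continuousOn
    refine ⟨max K 1, lt_max_of_lt_right one_pos, fun μ => ?_⟩
    by_cases hμ : μ ∈ Set.Ioo lo hi
    · exact (hK μ (Set.Ioo_subset_Icc_self hμ)).trans (le_max_left _ _)
    · rw [D.supp μ hμ, abs_zero]
      exact (zero_le_one).trans (le_max_right _ _)
  refine ⟨ε / K, div_pos hε hK0, fun t => Gt α (fun μ => t * B μ), ?_, fun t ht => ?_,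
    fun x v w _ _ => Gt_zero x v w, fun x v w _ _ => Gt_deriv x v w⟩
  · exact (Gt_smooth hd D).mono (Set.prod_mono (Set.subset_univ _) subset_rfl)
  · refine H _ ⟨D.a0, D.lo_pos, D.lo_hi, D.adm, contDiff_const.mul D.smooth, fun μ hμ => by
      rw [D.supp μ hμ, mul_zero]⟩ fun μ => ?_
    rw [abs_mul]
    have h1 : |t| ≤ ε / K := (abs_lt.mpr ⟨by linarith [ht.1], ht.2⟩).le
    calc |t| * |B μ| ≤ ε / K * K := mul_le_mul h1 (hK μ) (abs_nonneg _) (div_pos hε hK0).le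
      _ = ε := div_mul_cancel₀ _ hK0.ne'

end Pool.Agent.Work.MP_659252_gt.Z
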