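import Pool.Agent.Work.MP_659252_gt.Z.HDefs

/-!
# Curves of rotations.  Size: S-M.

PROOF.  `t ↦ (R t).mulVec x` has derivative `Ω.mulVec x` at `0` (entrywise, `HasDerivAt.fun_sum`), so `Q (R x) (R v)` has derivative `Q (Ω x) v + Q x (Ω v)` etc. (`Q` is
bilinear and continuous), product rule for `RR`; `R 0 = 1`, and `Q x (Ω x) = Q (Ω x) x` (`Q_comm`).
`skew`: differentiate `∑_k R_ki R_kj = δ_ij` at `t = 0`: `Ω_ji + Ω_ij = 0`.
-/

namespace Pool.Agent.Work.MP_659252_gt.Z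

variable {d : ℕ} {α : Fin (d + 1) → ℝ} {μ : ℝ}

private theorem hcv_entry (R : ℝ → Matrix (Fin (d + 1)) (Fin (d + 1)) ℝ)
    (Ω : Matrix (Fin (d + 1)) (Fin (d + 1)) ℝ)
    (hD : ∀ i j, HasDerivAt (fun t => R t i j) (Ω i j) 0) (x : V d) (i : Fin (d + 1)) :
    HasDerivAt (fun t => (R t).mulVec x i) (Ω.mulVec x i) 0 := by
  simp only [Matrix.mulVec, dotProduct]
  exact HasDerivAt.fun_sum fun j _ => (hD i j).mul_const (x j)

private theorem hcv_Q (R : ℝ → Matrix (Fin (d + 1)) (Fin (d + 1)) ℝ)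
    (Ω : Matrix (Fin (d + 1)) (Fin (d + 1)) ℝ) (h1 : R 0 = 1)
    (hD : ∀ i j, HasDerivAt (fun t => R t i j) (Ω i j) 0) (x v : V d) :
    HasDerivAt (fun t => Q α μ ((R t).mulVec x) ((R t).mulVec v))
      (Q α μ (Ω.mulVec x) v + Q α μ x (Ω.mulVec v)) 0 := by
  unfold Q
  rw [← Finset.sum_add_distrib]
  refine HasDerivAt.fun_sum fun i _ => ?_
  have h := ((hcv_entry R Ω hD x i).mul (hcv_entry R Ω hD v i)).div_const (α i - μ)
  rw [h1, Matrix.one_mulVec, Matrix.one_mulVec] at h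
  refine h.congr_deriv ?_
  ring

theorem RR_curve (R : ℝ → Matrix (Fin (d + 1)) (Fin (d + 1)) ℝ) (Ω : Matrix (Fin (d + 1)) (Fin (d + 1)) ℝ)
    (h1 : R 0 = 1) (hD : ∀ i j, HasDerivAt (fun t => R t i j) (Ω i j) 0) (x v : V d) :
    HasDerivAt (fun t => RR α μ ((R t).mulVec x) ((R t).mulVec v)) (dRR α μ Ω x v) 0 := by
  unfold RR dRR
  have hxv := hcv_Q (α := α) (μ := μ) R Ω h1 hD x v
  have hxx := hcv_Q (α := α) (μ := μ) R Ω h1 hD x x
  have hvv := hcv_Q (α := α) (μ := μ) R Ω h1 hD v v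
  have h := (hxv.pow 2).sub (hxx.mul hvv)
  rw [h1, Matrix.one_mulVec, Matrix.one_mulVec] at h
  refine h.congr_deriv ?_
  rw [Q_comm α μ x (Ω.mulVec x), Q_comm α μ v (Ω.mulVec v)]
  ring

theorem Q_curve (R : ℝ → Matrix (Fin (d + 1)) (Fin (d + 1)) ℝ) (Ω : Matrix (Fin (d + 1)) (Fin (d + 1)) ℝ)
    (h1 : R 0 = 1) (hD : ∀ i j, HasDerivAt (fun t => R t i j) (Ω i j) 0) (x v : V d) :
    ContinuousAt (fun t => Q α μ ((R t).mulVec x) ((R t).mulVec v)) 0 :=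
  (hcv_Q R Ω h1 hD x v).continuousAt

theorem skew_curve (R : ℝ → Matrix (Fin (d + 1)) (Fin (d + 1)) ℝ)
    (hR : ∀ t, R t ∈ Matrix.orthogonalGroup (Fin (d + 1)) ℝ) (Ω : Matrix (Fin (d + 1)) (Fin (d + 1)) ℝ)
    (h1 : R 0 = 1) (hD : ∀ i j, HasDerivAt (fun t => R t i j) (Ω i j) 0) : Ω.transpose = -Ω := by
  ext i j
  have h2 : ∀ t, ∑ k, R t k i * R t k j = (1 : Matrix (Fin (d + 1)) (Fin (d + 1)) ℝ) i j := by
    intro t
    have h3 := (Matrix.mem_orthogonalGroup_iff' (Fin (d + 1)) ℝ).1 (hR t)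
    have h4 := congrFun (congrFun h3 i) j
    rw [Matrix.mul_apply] at h4
    simpa [Matrix.star_eq_conjTranspose] using h4
  have h5 : HasDerivAt (fun t => ∑ k, R t k i * R t k j)
      (∑ k, (Ω k i * R 0 k j + R 0 k i * Ω k j)) 0 :=
    HasDerivAt.fun_sum fun k _ => (hD k i).mul (hD k j)
  have h6 : HasDerivAt (fun t => ∑ k, R t k i * R t k j) 0 0 := by
    simp only [h2]
    exact hasDerivAt_const _ _
  have h7 := h5.unique h6
  rw [h1, Finset.sum_add_distrib] at h7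
  simp only [Matrix.one_apply, mul_ite, mul_one, mul_zero, ite_mul, one_mul, zero_mul,
    Finset.sum_ite_eq', Finset.mem_univ, if_true] at h7
  rw [Matrix.transpose_apply, Matrix.neg_apply]
  linarith

end Pool.Agent.Work.MP_659252_gt.Z
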