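import Pool.Agent.Work.MP_659252_gt.Z.HDefs
import Pool.Agent.Work.MP_659252_gt.Z.MetA
import Pool.Agent.Work.MP_659252_gt.Z.RFact

/-!
# The half circle integral of `conf` vanishes on planes which miss the cone.  Size: S.

PROOF.  `Q α lo y y ≥ 0` on the whole circle (`Q_nonneg_of_RR`), so `bb α B y = 0` (`bb_eq_zero`), and `val (conf α B) y w w = 2 bb ... = 0` (`val_conf`): the
integrand is `0`.  `conf_smooth`: the entries are `2 bb(x) Φ_ij(x, lev x)` (`glue`).
-/

namespace Pool.Agent.Work.MP_659252_gt.Z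

open scoped ContDiff

variable {d : ℕ} {α : Fin (d + 1) → ℝ} {B : ℝ → ℝ} {lo hi : ℝ}

theorem half_zero (hd : 1 ≤ d) (D : Dat α B lo hi) (x v : V d) (hxx : x ⬝ᵥ x = 1) (hxv : x ⬝ᵥ v = 0)
    (hvv : v ⬝ᵥ v = 1) (h : RR α lo x v ≤ 0) : half (conf α B) x v = 0 := by
  have h1 : ∀ s, val (conf α B) (cp x v s) (cv x v s) (cv x v s) = 0 := by
    intro s
    have hq : 0 ≤ Q α lo (cp x v s) (cp x v s) := Q_nonneg_of_RR D.adm_lo x v hxx hxv hvv h s
    have hne : cp x v s ≠ 0 := by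
      intro h0
      have h2 : cp x v s ⬝ᵥ cp x v s = 1 := by
        unfold cp
        rw [add_dotProduct, smul_dotProduct, smul_dotProduct, dotProduct_add, dotProduct_add, dotProduct_smul,
          dotProduct_smul, dotProduct_smul, dotProduct_smul, hxx, hxv, hvv, dotProduct_comm v x, hxv]
        simp only [smul_eq_mul, mul_one, mul_zero, add_zero, zero_add]
        have := Real.sin_sq_add_cos_sq s
        nlinarith
      rw [h0] at h2
      simp at h2
    rw [val_conf, bb_eq_zero hd D _ hne (Or.inl hq)]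
    ring
  unfold half
  simp only [h1]
  simp

theorem conf_smooth (hd : 1 ≤ d) (D : Dat α B lo hi) : ContDiffOn ℝ ∞ (conf α B) {0}ᶜ := by
  rw [contDiffOn_pi]
  intro i
  rw [contDiffOn_pi]
  intro j
  have hcoord : ∀ k : Fin (d + 1), ContDiffOn ℝ ∞ (fun p : V d × ℝ => p.1 k) {p | p.1 ≠ 0 ∧ Adm α p.2} := by
    intro k
    have : ContDiff ℝ ∞ (fun p : V d × ℝ => p.1 k) := (contDiff_apply ℝ ℝ k).comp contDiff_fst
    exact this.contDiffOn
  have hden : ∀ k : Fin (d + 1), ContDiffOn ℝ ∞ (fun p : V d × ℝ => α k - p.2) {p | p.1 ≠ 0 ∧ Adm α p.2} := by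
    intro k
    have : ContDiff ℝ ∞ (fun p : V d × ℝ => α k - p.2) := contDiff_const.sub contDiff_snd
    exact this.contDiffOn
  have hdne : ∀ k : Fin (d + 1), ∀ p ∈ {p : V d × ℝ | p.1 ≠ 0 ∧ Adm α p.2}, α k - p.2 ≠ 0 := by
    intro k p hp
    exact hp.2.ne D.a0 k
  have hQ2 : ContDiffOn ℝ ∞ (fun p : V d × ℝ => Q2 α p.2 p.1 p.1) {p | p.1 ≠ 0 ∧ Adm α p.2} := by
    unfold Q2
    apply ContDiffOn.sum
    intro k _
    apply ContDiffOn.div ((hcoord k).mul (hcoord k)) ((hden k).pow 2)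
    intro p hp
    exact pow_ne_zero 2 (hdne k p hp)
  have hΦ : ContDiffOn ℝ ∞ (fun p : V d × ℝ => 2 * (p.1 i / (α i - p.2) * (p.1 j / (α j - p.2)) /
      Q2 α p.2 p.1 p.1)) {p | p.1 ≠ 0 ∧ Adm α p.2} := by
    apply ContDiffOn.mul contDiffOn_const
    apply ContDiffOn.div _ hQ2
    · intro p hp
      exact (Q2_pos D.a0 hp.2 p.1 hp.1).ne'
    · apply ContDiffOn.mul
      · exact (hcoord i).div (hden i) (hdne i)
      · exact (hcoord j).div (hden j) (hdne j)
  refine (glue hd D _ hΦ).congr ?_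
  intro x _
  unfold conf bb
  ring

end Pool.Agent.Work.MP_659252_gt.Z
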