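import Pool.Agent.Work.MP_659252_gt.Z.Arc
import Pool.Agent.Work.MP_659252_gt.Z.WDer
import Pool.Agent.Work.MP_659252_gt.Z.Cons
import Pool.Agent.Work.MP_659252_gt.Z.RFact

/-!
# A passage through the upper half sphere, lower boundary of the ring.  Size: M-L.

`x_0 = 0` at `0` and `T`, `x_0 > 0` between, `RR α lo > 0` (conserved: `RR_const`).  Let `A s = Q α lo (x s) (x s)`, continuous.
Facts.  (1) Where `A ≥ 0`: `bb (x s) = 0` (`bb_eq_zero`), so on an interval with `A ≥ 0` the frame `W1`, `W2` is constant (`W_const`) and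
`x s = cos s W1 + sin s W2`, `v s = -sin s W1 + cos s W2` (`x_eq`, `v_eq`).
(2) Where `A = 0`: `A` has derivative `2 Q α lo x v` (`x' = v` because `be = 0`), and `Q α lo x v ^ 2 = RR α lo > 0`, so it is not `0`.
(3) `A 0 > 0`, `A T > 0` (`Q_pos`, `x_0 = 0`).
PROOF.  There is `s ∈ (0, T)` with `A s < 0`: otherwise `A ≥ 0` on `[0, T]`, the frame is constant, `x s = cos s w₁ + sin s w₂` for `s ∈ [0, T]`; then `T = π`
(`x_0 s = sin s · (w₂)_0` because `(w₁)_0 = x_0 0 = 0`; positive on `(0, T)`, zero at `T`), so `Q ≥ 0` on a half circle, by antipody on the whole circle,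
so `RR ≤ 0` (`RR_nonpos`): contradiction.
Let `a = inf {s ∈ [0, T] | A s ≤ 0}`, `b = sup {...}` (compact nonempty set): `A a = 0 = A b`, `0 < a < b < T` (by the point with `A < 0`), `A > 0` on `[0, a)`, `(b, T]`,
so the frame is constant on `[0, a]` and on `[b, T]`; the derivative of `A` at `a` is `≤ 0`, so `Q α lo (x a) (v a) < 0`; at `b` it is `≥ 0`, so `> 0`.
Claim: `A < 0` on `(a, b)`.  If `A s* > 0` for some `s* ∈ (a, b)` let `s' = sup {s ≤ s* | A s ≤ 0} ∈ [a, s*)`, `s'' = inf {s ≥ s* | A s ≤ 0} ∈ (s*, b]`: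
`A s' = 0 = A s''`, `A ≥ 0` on `[s', s'']`, the derivative at `s'` is `≥ 0`; constant frame; `arc_pos` on `[s', s'']` (`x_0 > 0` there) gives `A s'' > 0`:
contradiction.  If `A s* = 0`, then by (2) `A > 0` at some points arbitrarily close to `s*`, contradiction to the first case.
-/

namespace Pool.Agent.Work.MP_659252_gt.Z

variable {d : ℕ} {α : Fin (d + 1) → ℝ} {B : ℝ → ℝ} {lo hi : ℝ}

private theorem hasDerivAt_A (μ : ℝ) {x : ℝ → V d} {x' : V d} {s : ℝ} (h : HasDerivAt x x' s) :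
    HasDerivAt (fun t => Q α μ (x t) (x t)) (2 * Q α μ (x s) x') s := by
  have hi : ∀ i : Fin (d + 1), HasDerivAt (fun t => x t i * x t i / (α i - μ))
      ((x' i * x s i + x s i * x' i) / (α i - μ)) s := fun i =>
    (((hasDerivAt_pi.1 h i).mul (hasDerivAt_pi.1 h i)).div_const _)
  have hs := HasDerivAt.fun_sum (u := Finset.univ) fun i _ => hi i
  have e : ∑ i, (x' i * x s i + x s i * x' i) / (α i - μ) = 2 * Q α μ (x s) x' := by
    unfold Q
    rw [Finset.mul_sum]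
    exact Finset.sum_congr rfl fun i _ => by ring
  rw [← e]
  exact hs

private theorem ne_zero_of_dot {y : V d} (h : y ⬝ᵥ y = 1) : y ≠ 0 := by
  rintro rfl
  simp at h

private theorem be_zero (hd : 1 ≤ d) (D : Dat α B lo hi) {x v : ℝ → V d} (h : Sol α B x v) (s : ℝ)
    (hs : 0 ≤ Q α lo (x s) (x s)) : bb α B (x s) = 0 ∧ be α B (x s) = 0 := by
  have hb : bb α B (x s) = 0 := bb_eq_zero hd D _ (ne_zero_of_dot (h.xx s)) (Or.inl hs)
  exact ⟨hb, by unfold be; rw [hb]; simp⟩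

private theorem deriv_A (hd : 1 ≤ d) (D : Dat α B lo hi) {x v : ℝ → V d} (h : Sol α B x v) (s : ℝ)
    (hs : 0 ≤ Q α lo (x s) (x s)) :
    HasDerivAt (fun t => Q α lo (x t) (x t)) (2 * Q α lo (x s) (v s)) s := by
  have := hasDerivAt_A (α := α) lo (h.dx s)
  rw [(be_zero hd D h s hs).2, zero_smul, add_zero] at this
  exact this

private theorem cont_A (μ : ℝ) {x v : ℝ → V d} (h : Sol α B x v) :
    Continuous (fun t => Q α μ (x t) (x t)) :=
  continuous_iff_continuousAt.2 fun s => (hasDerivAt_A (α := α) μ (h.dx s)).continuousAt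

private theorem left_nonpos {f : ℝ → ℝ} {f' a c : ℝ} (hf : HasDerivAt f f' a) (h0 : f a = 0) (hc : c < a)
    (hp : ∀ s ∈ Set.Ico c a, 0 < f s) : f' ≤ 0 := by
  have ht := (hasDerivWithinAt_iff_tendsto_slope' (s := Set.Iio a) (by simp)).1 hf.hasDerivWithinAt
  refine le_of_tendsto ht ?_
  filter_upwards [Ico_mem_nhdsLT hc] with s hs
  rw [slope_def_field, h0, sub_zero]
  exact div_nonpos_of_nonneg_of_nonpos (hp s hs).le (by linarith [hs.2])

private theorem right_nonneg {f : ℝ → ℝ} {f' b c : ℝ} (hf : HasDerivAt f f' b) (h0 : f b = 0) (hc : b < c)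
    (hp : ∀ s ∈ Set.Ioc b c, 0 < f s) : 0 ≤ f' := by
  have ht := (hasDerivWithinAt_iff_tendsto_slope' (s := Set.Ioi b) (by simp)).1 hf.hasDerivWithinAt
  refine ge_of_tendsto ht ?_
  filter_upwards [Ioc_mem_nhdsGT hc] with s hs
  rw [slope_def_field, h0, sub_zero]
  exact div_nonneg (hp s hs).le (by linarith [hs.1])

/-- first point of `{f ≤ 0}` to the right of `p` -/
private theorem first_right {f : ℝ → ℝ} (hf : Continuous f) {p q : ℝ} (hpq : p ≤ q) (hp : 0 < f p)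
    (hq : f q ≤ 0) : ∃ r, p < r ∧ r ≤ q ∧ f r = 0 ∧ ∀ s ∈ Set.Ico p r, 0 < f s := by
  set K := {s | s ∈ Set.Icc p q ∧ f s ≤ 0} with hK
  have hKc : IsCompact K := by
    have : K = Set.Icc p q ∩ f ⁻¹' Set.Iic 0 := by ext; simp [hK]
    rw [this]
    exact isCompact_Icc.inter_right (isClosed_Iic.preimage hf)
  have hKn : K.Nonempty := ⟨q, ⟨hpq, le_rfl⟩, hq⟩
  have hm := hKc.sInf_mem hKn
  set r := sInf K with hr
  have hpr : p < r := lt_of_le_of_ne hm.1.1 fun e => by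
    have := hm.2
    rw [← e] at this
    linarith
  have hpos : ∀ s ∈ Set.Ico p r, 0 < f s := by
    intro s hs
    by_contra hc
    have : s ∈ K := ⟨⟨hs.1, hs.2.le.trans hm.1.2⟩, not_lt.1 hc⟩
    exact absurd (csInf_le hKc.bddBelow this) (not_le.2 hs.2)
  refine ⟨r, hpr, hm.1.2, le_antisymm hm.2 ?_, hpos⟩
  have ht : Filter.Tendsto f (nhdsWithin r (Set.Iio r)) (nhds (f r)) := hf.continuousAt.mono_left nhdsWithin_le_nhds
  refine ge_of_tendsto ht ?_
  filter_upwards [Ico_mem_nhdsLT hpr] with s hs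
  exact (hpos s hs).le

/-- last point of `{f ≤ 0}` to the left of `q` -/
private theorem first_left {f : ℝ → ℝ} (hf : Continuous f) {p q : ℝ} (hpq : p ≤ q) (hp : f p ≤ 0)
    (hq : 0 < f q) : ∃ r, p ≤ r ∧ r < q ∧ f r = 0 ∧ ∀ s ∈ Set.Ioc r q, 0 < f s := by
  obtain ⟨r, h1, h2, h3, h4⟩ := first_right (f := fun t => f (-t)) (hf.comp continuous_neg)
    (p := -q) (q := -p) (by linarith) (by simpa using hq) (by simpa using hp)
  refine ⟨-r, by linarith, by linarith, h3, fun s hs => ?_⟩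
  have := h4 (-s) ⟨by linarith [hs.2], by linarith [hs.1]⟩
  simpa using this

private theorem exists_half (θ : ℝ) : ∃ θ' ∈ Set.Icc 0 Real.pi,
    (Real.cos θ = Real.cos θ' ∧ Real.sin θ = Real.sin θ') ∨
    (Real.cos θ = -Real.cos θ' ∧ Real.sin θ = -Real.sin θ') := by
  set k : ℤ := ⌊θ / Real.pi⌋ with hk
  have hp := Real.pi_pos
  have h1 : (k : ℝ) * Real.pi ≤ θ := by
    have := Int.floor_le (θ / Real.pi)
    rwa [le_div_iff₀ hp] at this
  have h2 : θ < (k + 1) * Real.pi := by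
    have := Int.lt_floor_add_one (θ / Real.pi)
    rwa [div_lt_iff₀ hp] at this
  refine ⟨θ - k * Real.pi, ⟨by linarith, by nlinarith⟩, ?_⟩
  rw [Real.cos_sub_int_mul_pi, Real.sin_sub_int_mul_pi]
  rcases Int.even_or_odd k with he | ho
  · left
    rw [he.neg_one_zpow]
    simp
  · right
    rw [ho.neg_one_zpow]
    simp

theorem path_lo (hd : 1 ≤ d) (D : Dat α B lo hi) (hB : ∀ μ, |B μ| < 1) {x v : ℝ → V d} (h : Sol α B x v)
    (T : ℝ) (hT : 0 < T) (h0 : x 0 0 = 0) (hpos : ∀ s ∈ Set.Ioo 0 T, 0 < x s 0) (hT0 : x T 0 = 0)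
    (hR : 0 < RR α lo (x 0) (v 0)) :
    ∃ a b : ℝ, 0 < a ∧ a < b ∧ b < T ∧
      (W1 x v a = W1 x v 0 ∧ W2 x v a = W2 x v 0) ∧ (W1 x v b = W1 x v T ∧ W2 x v b = W2 x v T) ∧
      Q α lo (x a) (x a) = 0 ∧ Q α lo (x a) (v a) < 0 ∧
      Q α lo (x b) (x b) = 0 ∧ 0 < Q α lo (x b) (v b) ∧
      ∀ s ∈ Set.Ioo a b, Q α lo (x s) (x s) < 0 := by
  have hlo : Adm α lo := D.adm_lo
  have hne : ∀ s, x s ≠ 0 := fun s => ne_zero_of_dot (h.xx s)
  have hc := cont_A (α := α) lo h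
  have hRs : ∀ s, 0 < RR α lo (x s) (v s) := fun s => by
    rw [RR_const hd D h lo hlo s 0]
    exact hR
  have hQne : ∀ s, Q α lo (x s) (x s) = 0 → Q α lo (x s) (v s) ≠ 0 := by
    intro s hs hq
    have := hRs s
    unfold RR at this
    rw [hs, hq] at this
    simp at this
  have hA0 : 0 < Q α lo (x 0) (x 0) := Q_pos hlo _ (hne 0) h0
  have hAT : 0 < Q α lo (x T) (x T) := Q_pos hlo _ (hne T) hT0
  have hconst : ∀ a b : ℝ, (∀ s ∈ Set.Icc a b, 0 ≤ Q α lo (x s) (x s)) →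
      ∀ s ∈ Set.Icc a b, W1 x v s = W1 x v a ∧ W2 x v s = W2 x v a := fun a b hab =>
    W_const h fun s hs => (be_zero hd D h s (hab s hs)).1
  -- a negative point
  obtain ⟨s0, hs0, hneg⟩ : ∃ s ∈ Set.Ioo 0 T, Q α lo (x s) (x s) < 0 := by
    by_contra hcon
    push Not at hcon
    have hall : ∀ s ∈ Set.Icc 0 T, 0 ≤ Q α lo (x s) (x s) := by
      intro s hs
      rcases eq_or_lt_of_le hs.1 with e | h1
      · rw [← e]; exact hA0.le
      rcases eq_or_lt_of_le hs.2 with e | h2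
      · rw [e]; exact hAT.le
      exact hcon s ⟨h1, h2⟩
    have hw1 : W1 x v 0 = x 0 := by unfold W1; simp
    have hw2 : W2 x v 0 = v 0 := by unfold W2; simp
    have hx : ∀ s ∈ Set.Icc 0 T, x s = Real.cos s • x 0 + Real.sin s • v 0 := by
      intro s hs
      have e := x_eq x v s
      rw [(hconst 0 T hall s hs).1, (hconst 0 T hall s hs).2, hw1, hw2] at e
      exact e
    have hx0 : ∀ s ∈ Set.Icc 0 T, x s 0 = Real.sin s * v 0 0 := by
      intro s hs
      rw [hx s hs]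
      simp [h0]
    have hsT : Real.sin T * v 0 0 = 0 := by rw [← hx0 T ⟨hT.le, le_rfl⟩]; exact hT0
    have hv0 : v 0 0 ≠ 0 := by
      intro e
      have := hpos (T / 2) ⟨by linarith, by linarith⟩
      rw [hx0 (T / 2) ⟨by linarith, by linarith⟩, e, mul_zero] at this
      exact lt_irrefl _ this
    have hsin : Real.sin T = 0 := by
      rcases mul_eq_zero.1 hsT with e | e
      · exact e
      · exact absurd e hv0
    have hpi : Real.pi ≤ T := by
      by_contra hc'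
      exact absurd hsin (Real.sin_pos_of_pos_of_lt_pi hT (not_le.1 hc')).ne'
    have : RR α lo (x 0) (v 0) ≤ 0 := by
      refine RR_nonpos _ _ fun θ => ?_
      obtain ⟨θ', hθ', hh⟩ := exists_half θ
      have hq := hall θ' ⟨hθ'.1, hθ'.2.trans hpi⟩
      rw [hx θ' ⟨hθ'.1, hθ'.2.trans hpi⟩] at hq
      rcases hh with ⟨e1, e2⟩ | ⟨e1, e2⟩
      · rw [e1, e2]; exact hq
      · rw [e1, e2]
        have e3 : -Real.cos θ' • x 0 + -Real.sin θ' • v 0 = -(Real.cos θ' • x 0 + Real.sin θ' • v 0) := by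
          rw [neg_smul, neg_smul, neg_add]
        rw [e3, Q_neg, Q_comm, Q_neg, neg_neg]
        exact hq
    linarith
  obtain ⟨a, ha0, has, hAa, hapos⟩ := first_right hc hs0.1.le hA0 hneg.le
  obtain ⟨b, hbs, hbT, hAb, hbpos⟩ := first_left hc hs0.2.le hneg.le hAT
  have has0 : a < s0 := lt_of_le_of_ne has fun e => by rw [e] at hAa; linarith
  have hbs0 : s0 < b := lt_of_le_of_ne hbs fun e => by rw [← e] at hAb; linarith
  have hab : a < b := has0.trans hbs0
  have hda : 2 * Q α lo (x a) (v a) ≤ 0 := left_nonpos (deriv_A hd D h a hAa.ge) hAa ha0 hapos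
  have hdb : 0 ≤ 2 * Q α lo (x b) (v b) := right_nonneg (deriv_A hd D h b hAb.ge) hAb hbT hbpos
  have hqa : Q α lo (x a) (v a) < 0 := lt_of_le_of_ne (by linarith) (hQne a hAa)
  have hqb : 0 < Q α lo (x b) (v b) := lt_of_le_of_ne (by linarith) (hQne b hAb).symm
  have hle : ∀ s ∈ Set.Ioo a b, Q α lo (x s) (x s) ≤ 0 := by
    intro s hs
    by_contra hcon
    rw [not_le] at hcon
    obtain ⟨s1, h1a, h1s, hA1, h1pos⟩ := first_left hc hs.1.le hAa.le hcon
    obtain ⟨s2, h2s, h2b, hA2, h2pos⟩ := first_right hc hs.2.le hcon hAb.le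
    have h12 : s1 < s2 := h1s.trans h2s
    have hall : ∀ t ∈ Set.Icc s1 s2, 0 ≤ Q α lo (x t) (x t) := by
      intro t ht
      rcases eq_or_lt_of_le ht.1 with e | h1
      · rw [← e]; exact hA1.ge
      rcases eq_or_lt_of_le ht.2 with e | h2
      · rw [e]; exact hA2.ge
      rcases le_total t s with h3 | h3
      · exact (h1pos t ⟨h1, h3⟩).le
      · exact (h2pos t ⟨h3, h2⟩).le
    have hx : ∀ t ∈ Set.Icc s1 s2, x t = Real.cos t • W1 x v s1 + Real.sin t • W2 x v s1 := by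
      intro t ht
      have e := x_eq x v t
      rw [(hconst s1 s2 hall t ht).1, (hconst s1 s2 hall t ht).2] at e
      exact e
    have hd1 : 0 ≤ 2 * Q α lo (x s1) (v s1) := by
      refine right_nonneg (deriv_A hd D h s1 hA1.ge) hA1 h1s fun t ht => h1pos t ht
    obtain ⟨o1, o2, o3⟩ := W_orth h s1
    have key := arc_pos hlo (W1 x v s1) (W2 x v s1) o1 o2 o3 s1 s2 h12 (fun t ht => by
        rw [← hx t ht]
        exact hpos t ⟨lt_of_lt_of_le (ha0.trans_le h1a) ht.1, lt_of_le_of_lt ht.2 (h2b.trans_lt hbT)⟩)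
      (by rw [← hx s1 ⟨le_rfl, h12.le⟩]; exact hA1)
      (by rw [← hx s1 ⟨le_rfl, h12.le⟩, ← v_eq x v s1]; linarith)
    rw [← hx s2 ⟨h12.le, le_rfl⟩, hA2] at key
    exact lt_irrefl _ key
  refine ⟨a, b, ha0, hab, hbT, ?_, ?_, hAa, hqa, hAb, hqb, ?_⟩
  · refine hconst 0 a (fun s hs => ?_) a ⟨ha0.le, le_rfl⟩
    rcases eq_or_lt_of_le hs.2 with e | h2
    · rw [e]; exact hAa.ge
    · exact (hapos s ⟨hs.1, h2⟩).le
  · have := hconst b T (fun s hs => ?_) T ⟨hbT.le, le_rfl⟩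
    · exact ⟨this.1.symm, this.2.symm⟩
    rcases eq_or_lt_of_le hs.1 with e | h2
    · rw [← e]; exact hAb.ge
    · exact (hbpos s ⟨h2, hs.2⟩).le
  · intro s hs
    refine lt_of_le_of_ne (hle s hs) fun e => ?_
    have hm : IsLocalMax (fun t => Q α lo (x t) (x t)) s := by
      filter_upwards [Ioo_mem_nhds hs.1 hs.2] with t ht
      rw [e]
      exact hle t ht
    have := hm.hasDerivAt_eq_zero (deriv_A hd D h s e.ge)
    exact hQne s e (by linarith)

/-- if `RR α lo ≤ 0` then `b = 0` along the solution and the frame is constant -/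
theorem path_none (hd : 1 ≤ d) (D : Dat α B lo hi) {x v : ℝ → V d} (h : Sol α B x v)
    (hR : RR α lo (x 0) (v 0) ≤ 0) (s : ℝ) :
    bb α B (x s) = 0 ∧ W1 x v s = W1 x v 0 ∧ W2 x v s = W2 x v 0 := by
  have hlo : Adm α lo := D.adm_lo
  have hb : ∀ t, bb α B (x t) = 0 := by
    intro t
    have h1 : RR α lo (x t) (v t) ≤ 0 := by rw [RR_const hd D h lo hlo t 0]; exact hR
    have h2 := Q_nonneg_of_RR hlo (x t) (v t) (h.xx t) (h.xv t) (h.vv t) h1 0
    rw [Real.cos_zero, Real.sin_zero, one_smul, zero_smul, add_zero] at h2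
    exact (be_zero hd D h t h2).1
  refine ⟨hb s, ?_⟩
  rcases le_total 0 s with hs | hs
  · exact W_const h (fun t _ => hb t) s ⟨hs, le_rfl⟩
  · have := W_const h (a := s) (b := 0) (fun t _ => hb t) 0 ⟨hs, le_rfl⟩
    exact ⟨this.1.symm, this.2.symm⟩

end Pool.Agent.Work.MP_659252_gt.Z
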