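import Pool.Agent.Work.MP_659252_gt.Z.Bas

/-!
# The autonomous system in the ring: definitions
-/

namespace Pool.Agent.Work.MP_659252_gt.Z

variable {d : ℕ}

/-- the field `(m, p, w₁, w₂) ↦ (-2 p, -RR'_m(w₁, w₂), (B(m)/2) X1_m(w₁, w₂), (B(m)/2) X2_m(w₁, w₂))` -/
noncomputable def FF (α : Fin (d + 1) → ℝ) (B : ℝ → ℝ) (z : ℝ × ℝ × V d × V d) : ℝ × ℝ × V d × V d :=
  (-2 * z.2.1, -RR' α z.1 z.2.2.1 z.2.2.2, (B z.1 / 2) • X1 α z.1 z.2.2.1 z.2.2.2,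
    (B z.1 / 2) • X2 α z.1 z.2.2.1 z.2.2.2)

/-- the time factor `1/((1 + b) N)` -/
noncomputable def gg (α : Fin (d + 1) → ℝ) (B : ℝ → ℝ) (x : V d) : ℝ :=
  1 / ((1 + bb α B x) * Q2 α (lev α x) x x)

/-- the state `(lev x, Q(x, v), c W1, W2)` -/
noncomputable def ZZ (α : Fin (d + 1) → ℝ) (c : ℝ) (x v : ℝ → V d) (s : ℝ) : ℝ × ℝ × V d × V d :=
  (lev α (x s), Q α (lev α (x s)) (x s) (v s), c • W1 x v s, W2 x v s)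

/-- `x(s)` is in the closed ring `lo ≤ lev ≤ hi`, and `x_0(s) > 0` -/
def InRing (α : Fin (d + 1) → ℝ) (lo hi : ℝ) (x : V d) : Prop := 0 < x 0 ∧ Q α lo x x ≤ 0 ∧ 0 ≤ Q α hi x x

end Pool.Agent.Work.MP_659252_gt.Z
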