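import Pool.Agent.Work.MP_659252_gt.Z.LevD
import Pool.Agent.Work.MP_659252_gt.Z.WDer
import Pool.Agent.Work.MP_659252_gt.Z.ZDefs

/-!
# The level and `Q(x, v)` along a solution.  Size: M.

Let `(x, v)` be a solution, `μ = lev α (x s)` admissible with `Q α μ x x = 0`, `N = Q2 α μ x x > 0`, `b = bb`, `β = be = b/(2 (1+b) N)`,
`q = Q α μ x v`.  As `Q x x = 0`: `X1 = -2 q A x`, `X2 = 2 (q A v - Q(v,v) A x)`, `A = AX α μ`.
PROOF.  `lev_D`: chain rule with `lev_fderiv`: derivative `-2 Q(x, x')/N`, `Q(x, x') = q - 2 β q N = q (1 - b/(1+b)) = q/(1+b)`.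
`q_D`: `(m, y, z) ↦ Q α m y z` has derivative `m' Q2 x v + Q(x', v) + Q(x, v')`; `Q(x', v) = Q(v,v) - 2 β q Q2(x,v)`,
`Q(x, v') = -0 + 2 β (q Q2(x,v) - Q(v,v) N)`, sum `Q(v,v) (1 - 2 β N) = Q(v,v)/(1+b)`, and `m' = -2q/((1+b)N)`:
total `(N Q(v,v) - 2 q Q2(x,v))/((1+b)N) = -RR' α μ x v · gg` (the last term of `RR'` vanishes as `Q x x = 0`).
-/

namespace Pool.Agent.Work.MP_659252_gt.Z

variable {d : ℕ} {α : Fin (d + 1) → ℝ} {B : ℝ → ℝ}

private theorem one_bb (hB : ∀ μ, |B μ| < 1) (x : V d) : 1 + bb α B x ≠ 0 := by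
  unfold bb
  have h := abs_lt.1 (hB (lev α x))
  rcases Real.sign_apply_eq (x 0) with h1 | h1 | h1 <;> rw [h1] <;> intro h2 <;> linarith [h.1, h.2]

private theorem Q_X1 {μ : ℝ} {x v : V d} (h : Q α μ x x = 0) (y : V d) :
    Q α μ y (X1 α μ x v) = -2 * Q α μ x v * Q2 α μ y x := by
  have h1 : Q α μ y (X1 α μ x v) = ∑ i, y i * (2 * (Q α μ x x * v i - Q α μ x v * x i) / (α i - μ)) /
      (α i - μ) := rfl
  rw [h1, h]
  unfold Q2
  rw [Finset.mul_sum]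
  apply Finset.sum_congr rfl
  intro i _
  rw [← mul_div_assoc, div_div, ← sq]
  ring

private theorem Q_X2 {μ : ℝ} {x v : V d} (y : V d) :
    Q α μ y (X2 α μ x v) = 2 * (Q α μ x v * Q2 α μ y v - Q α μ v v * Q2 α μ y x) := by
  have h1 : Q α μ y (X2 α μ x v) = ∑ i, y i * (2 * (Q α μ x v * v i - Q α μ v v * x i) / (α i - μ)) /
      (α i - μ) := rfl
  rw [h1]
  unfold Q2
  rw [Finset.mul_sum, Finset.mul_sum, ← Finset.sum_sub_distrib, Finset.mul_sum]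
  apply Finset.sum_congr rfl
  intro i _
  rw [← mul_div_assoc, div_div, ← sq]
  ring

private theorem Q_has {L : ℝ → ℝ} {x v : ℝ → V d} {L' : ℝ} {x' v' : V d} {s : ℝ}
    (hL : HasDerivAt L L' s) (hx : HasDerivAt x x' s) (hv : HasDerivAt v v' s)
    (hne : ∀ i, α i - L s ≠ 0) :
    HasDerivAt (fun s => Q α (L s) (x s) (v s))
      (Q α (L s) x' (v s) + Q α (L s) (x s) v' + L' * Q2 α (L s) (x s) (v s)) s := by
  unfold Q Q2
  rw [Finset.mul_sum, ← Finset.sum_add_distrib, ← Finset.sum_add_distrib]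
  apply HasDerivAt.fun_sum
  intro i _
  have h1 := hasDerivAt_pi.1 hx i
  have h2 := hasDerivAt_pi.1 hv i
  have h3 := (h1.mul h2).div ((hasDerivAt_const s (α i)).sub hL) (hne i)
  refine h3.congr_deriv ?_
  have := hne i
  simp only [Pi.mul_apply, Pi.sub_apply]
  field_simp
  ring

theorem lev_D (h0 : α 0 = 0) (hB : ∀ μ, |B μ| < 1) {x v : ℝ → V d} (h : Sol α B x v) (s : ℝ)
    (hμ : Adm α (lev α (x s))) (hr : Q α (lev α (x s)) (x s) (x s) = 0) :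
    HasDerivAt (fun s => lev α (x s)) (gg α B (x s) * (-2 * Q α (lev α (x s)) (x s) (v s))) s := by
  have hx0 : x s ≠ 0 := by
    intro hx
    have := h.xx s
    rw [hx, zero_dotProduct] at this
    exact zero_ne_one this
  have hd : DifferentiableAt ℝ (lev α) (x s) :=
    (lev_contDiffAt h0 hμ (x s) hx0 hr).differentiableAt (by simp)
  have h1 := hd.hasFDerivAt.comp_hasDerivAt s (h.dx s)
  refine h1.congr_deriv ?_
  rw [lev_fderiv h0 hμ (x s) hx0 hr]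
  obtain ⟨m, hm⟩ : ∃ m, m = lev α (x s) := ⟨_, rfl⟩
  have hN : 0 < Q2 α m (x s) (x s) := by
    rw [hm]
    exact Q2_pos h0 hμ (x s) hx0
  have hb := one_bb (α := α) hB (x s)
  unfold gg be
  rw [← hm] at hr ⊢
  rw [Q_comm α m (x s) (v s + _), Q_add, Q_smul, Q_comm α m _ (x s), Q_comm α m _ (x s), Q_X1 hr]
  obtain ⟨N, hNe⟩ : ∃ N, N = Q2 α m (x s) (x s) := ⟨_, rfl⟩
  obtain ⟨b, hbe⟩ : ∃ b, b = bb α B (x s) := ⟨_, rfl⟩
  rw [← hNe] at hN ⊢
  rw [← hbe] at hb ⊢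
  have hN' := hN.ne'
  field_simp
  ring

theorem q_D (h0 : α 0 = 0) (hB : ∀ μ, |B μ| < 1) {x v : ℝ → V d} (h : Sol α B x v) (s : ℝ)
    (hμ : Adm α (lev α (x s))) (hr : Q α (lev α (x s)) (x s) (x s) = 0) :
    HasDerivAt (fun s => Q α (lev α (x s)) (x s) (v s))
      (gg α B (x s) * (-RR' α (lev α (x s)) (x s) (v s))) s := by
  have hx0 : x s ≠ 0 := by
    intro hx
    have := h.xx s
    rw [hx, zero_dotProduct] at this
    exact zero_ne_one this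
  have h1 := Q_has (α := α) (lev_D h0 hB h s hμ hr) (h.dx s) (h.dv s) (fun i => hμ.ne h0 i)
  refine h1.congr_deriv ?_
  obtain ⟨m, hm⟩ : ∃ m, m = lev α (x s) := ⟨_, rfl⟩
  have hN : 0 < Q2 α m (x s) (x s) := by
    rw [hm]
    exact Q2_pos h0 hμ (x s) hx0
  have hb := one_bb (α := α) hB (x s)
  unfold gg be RR'
  rw [← hm] at hr ⊢
  rw [Q_add, Q_smul, Q_comm α m (X1 α m (x s) (v s)) (v s), Q_X1 hr,
    Q_comm α m (x s) (-x s + _), Q_add, Q_neg, hr, Q_smul, Q_comm α m (X2 α m (x s) (v s)) (x s),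
    Q_X2, Q2_comm α m (v s) (x s)]
  obtain ⟨N, hNe⟩ : ∃ N, N = Q2 α m (x s) (x s) := ⟨_, rfl⟩
  obtain ⟨b, hbe⟩ : ∃ b, b = bb α B (x s) := ⟨_, rfl⟩
  rw [← hNe] at hN ⊢
  rw [← hbe] at hb ⊢
  have hN' := hN.ne'
  field_simp
  ring

end Pool.Agent.Work.MP_659252_gt.Z
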