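import Pool.Agent.Work.MP_659252_gt.Z.Glue

/-!
# Uniqueness for the first order system.  Size: M.

PROOF.  The right side is `Fld (x, v) = (v + E1 (x, v), -x + E2 (x, v))`, `E1 (x,v)_i = be x * X1 α (lev x) x v i`.  Expanding `X1`, `X2`, every
component of `E1`, `E2` is a finite sum of terms `bb x * Φ (x, lev x) / (1 + bb x) * (polynomial in x, v)`, `Φ` smooth on `x ≠ 0`, `μ` admissible
(e.g. `Φ = 1/((α_i - μ)(α_j - μ)(α_k - μ) Q2 α μ x x)`...).  By `glue` (and `bb_contDiffOn`, `1 + bb ≠ 0`) `Fld` is smooth on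
`{(x, v) | x ≠ 0}`.  So it is locally Lipschitz, and two solutions on `ℝ` with values in that open set which agree at one time agree everywhere:
`ODE_solution_unique_univ` style argument (the set of agreement is closed, and open by local uniqueness
`ODE_solution_unique_of_mem_Icc` / `ContDiffAt.exists_lipschitzOnWith`), or `ODE_solution_unique_of_mem_Icc` on compact intervals with the Lipschitz
constant of `Fld` on a compact neighbourhood; the solutions stay in the compact set `x ⬝ x = 1 = v ⬝ v`, which is contained in the open set.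
-/

namespace Pool.Agent.Work.MP_659252_gt.Z

open scoped ContDiff

variable {d : ℕ} {α : Fin (d + 1) → ℝ} {B : ℝ → ℝ} {lo hi : ℝ}

private theorem phi_smooth (h0 : α 0 = 0) (i j : Fin (d + 1)) :
    ContDiffOn ℝ ∞ (fun p : V d × ℝ => (α i - p.2)⁻¹ * (α j - p.2)⁻¹ * (Q2 α p.2 p.1 p.1)⁻¹)
      {p | p.1 ≠ 0 ∧ Adm α p.2} := by
  have hden : ∀ k, ContDiffOn ℝ ∞ (fun p : V d × ℝ => α k - p.2) {p | p.1 ≠ 0 ∧ Adm α p.2} :=
    fun k => (contDiff_const.sub contDiff_snd).contDiffOn
  have hcoord : ∀ k, ContDiffOn ℝ ∞ (fun p : V d × ℝ => p.1 k) {p | p.1 ≠ 0 ∧ Adm α p.2} :=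
    fun k => ((contDiff_apply ℝ ℝ k).comp contDiff_fst).contDiffOn
  have hQ2 : ContDiffOn ℝ ∞ (fun p : V d × ℝ => Q2 α p.2 p.1 p.1) {p | p.1 ≠ 0 ∧ Adm α p.2} := by
    unfold Q2
    refine ContDiffOn.sum fun k _ => ?_
    exact ((hcoord k).mul (hcoord k)).div ((hden k).pow 2)
      (fun p hp => pow_ne_zero 2 (Adm.ne h0 hp.2 k))
  exact (((hden i).inv (fun p hp => Adm.ne h0 hp.2 i)).mul
    ((hden j).inv (fun p hp => Adm.ne h0 hp.2 j))).mul
    (hQ2.inv (fun p hp => (Q2_pos h0 hp.2 p.1 hp.1).ne'))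

/-- the coefficient functions -/
private noncomputable def gg (α : Fin (d + 1) → ℝ) (B : ℝ → ℝ) (i j : Fin (d + 1)) (x : V d) : ℝ :=
  bb α B x * ((α i - lev α x)⁻¹ * (α j - lev α x)⁻¹ * (Q2 α (lev α x) x x)⁻¹)

private theorem gg_smooth (hd : 1 ≤ d) (D : Dat α B lo hi) (i j : Fin (d + 1)) {x : V d} (hx : x ≠ 0) :
    ContDiffAt ℝ ∞ (gg α B i j) x :=
  (glue hd D _ (phi_smooth D.a0 i j)).contDiffAt (isOpen_compl_singleton.mem_nhds hx)

private theorem X1_eq (x v : V d) (i : Fin (d + 1)) :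
    be α B x * X1 α (lev α x) x v i =
      (1 + bb α B x)⁻¹ * ∑ j, gg α B i j x * (x j * (x j * v i - x i * v j)) := by
  have e1 : ∑ j, gg α B i j x * (x j * (x j * v i - x i * v j)) =
      bb α B x * (Q2 α (lev α x) x x)⁻¹ * (α i - lev α x)⁻¹ *
        (Q α (lev α x) x x * v i - Q α (lev α x) x v * x i) := by
    unfold Q
    rw [Finset.sum_mul, Finset.sum_mul, ← Finset.sum_sub_distrib, Finset.mul_sum]
    refine Finset.sum_congr rfl fun j _ => ?_
    unfold gg
    simp only [div_eq_mul_inv]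
    ring
  rw [e1]
  unfold be X1
  simp only [div_eq_mul_inv, mul_inv]
  ring

private theorem X2_eq (x v : V d) (i : Fin (d + 1)) :
    be α B x * X2 α (lev α x) x v i =
      (1 + bb α B x)⁻¹ * ∑ j, gg α B i j x * (v j * (x j * v i - x i * v j)) := by
  have e1 : ∑ j, gg α B i j x * (v j * (x j * v i - x i * v j)) =
      bb α B x * (Q2 α (lev α x) x x)⁻¹ * (α i - lev α x)⁻¹ *
        (Q α (lev α x) x v * v i - Q α (lev α x) v v * x i) := by
    unfold Q
    rw [Finset.sum_mul, Finset.sum_mul, ← Finset.sum_sub_distrib, Finset.mul_sum]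
    refine Finset.sum_congr rfl fun j _ => ?_
    unfold gg
    simp only [div_eq_mul_inv]
    ring
  rw [e1]
  unfold be X2
  simp only [div_eq_mul_inv, mul_inv]
  ring

private theorem one_add_bb_ne (hB : ∀ μ, |B μ| < 1) (x : V d) : 1 + bb α B x ≠ 0 := by
  have h1 := abs_lt.mp (hB (lev α x))
  unfold bb
  rcases Real.sign_apply_eq (x 0) with h | h | h <;> rw [h] <;> intro h2 <;> linarith [h1.1, h1.2]

/-- the right side of the system -/
private noncomputable def Fld (α : Fin (d + 1) → ℝ) (B : ℝ → ℝ) (p : V d × V d) : V d × V d :=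
  (p.2 + be α B p.1 • X1 α (lev α p.1) p.1 p.2, -p.1 + be α B p.1 • X2 α (lev α p.1) p.1 p.2)

private theorem Fld_smooth (hd : 1 ≤ d) (D : Dat α B lo hi) (hB : ∀ μ, |B μ| < 1) (p : V d × V d)
    (hp : p.1 ≠ 0) : ContDiffAt ℝ 1 (Fld α B) p := by
  have hx : ∀ k, ContDiffAt ℝ 1 (fun p : V d × V d => p.1 k) p :=
    fun k => ((contDiff_apply ℝ ℝ k).comp contDiff_fst).contDiffAt
  have hv : ∀ k, ContDiffAt ℝ 1 (fun p : V d × V d => p.2 k) p :=
    fun k => ((contDiff_apply ℝ ℝ k).comp contDiff_snd).contDiffAt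
  have hg : ∀ i j, ContDiffAt ℝ 1 (fun p : V d × V d => gg α B i j p.1) p := fun i j =>
    ContDiffAt.comp p (((gg_smooth hd D i j hp)).of_le (by simp)) contDiffAt_fst
  have hb : ContDiffAt ℝ 1 (fun p : V d × V d => bb α B p.1) p :=
    ContDiffAt.comp p ((((bb_contDiffOn hd D).contDiffAt (isOpen_compl_singleton.mem_nhds hp))).of_le
      (by simp)) contDiffAt_fst
  have hbi : ContDiffAt ℝ 1 (fun p : V d × V d => (1 + bb α B p.1)⁻¹) p :=
    (contDiffAt_const.add hb).inv (one_add_bb_ne hB p.1)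
  unfold Fld
  refine ContDiffAt.prodMk ?_ ?_
  · refine contDiffAt_pi.mpr fun i => ?_
    simp only [Pi.add_apply, Pi.smul_apply, smul_eq_mul, X1_eq]
    exact (hv i).add (hbi.mul (ContDiffAt.sum fun j _ =>
      (hg i j).mul ((hx j).mul (((hx j).mul (hv i)).sub ((hx i).mul (hv j))))))
  · refine contDiffAt_pi.mpr fun i => ?_
    simp only [Pi.add_apply, Pi.neg_apply, Pi.smul_apply, smul_eq_mul, X2_eq]
    exact (hx i).neg.add (hbi.mul (ContDiffAt.sum fun j _ =>
      (hg i j).mul ((hv j).mul (((hx j).mul (hv i)).sub ((hx i).mul (hv j))))))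

theorem Sol.unique (hd : 1 ≤ d) (D : Dat α B lo hi) (hB : ∀ μ, |B μ| < 1) {x v x' v' : ℝ → V d}
    (h : Sol α B x v) (h' : Sol α B x' v') (s₀ : ℝ) (hx : x s₀ = x' s₀) (hv : v s₀ = v' s₀) (s : ℝ) :
    x s = x' s ∧ v s = v' s := by
  have key : ∀ {x v : ℝ → V d}, Sol α B x v →
      ∀ t, HasDerivAt (fun t => (x t, v t)) (Fld α B (x t, v t)) t := by
    intro x v h t
    exact (h.dx t).prodMk (h.dv t)
  have hne : ∀ {x v : ℝ → V d}, Sol α B x v → ∀ t, x t ≠ 0 := by
    intro x v h t h0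
    have h1 := h.xx t
    rw [h0, zero_dotProduct] at h1
    exact zero_ne_one h1
  have hcont : ∀ {x v : ℝ → V d}, Sol α B x v → Continuous (fun t => (x t, v t)) := by
    intro x v h
    exact continuous_iff_continuousAt.mpr fun t => (key h t).continuousAt
  have hclopen : IsClopen {t | (x t, v t) = (x' t, v' t)} := by
    refine ⟨isClosed_eq (hcont h) (hcont h'), ?_⟩
    rw [isOpen_iff_mem_nhds]
    intro t ht
    obtain ⟨K, u, hu, hK⟩ := (Fld_smooth hd D hB (x t, v t) (hne h t)).exists_lipschitzOnWith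
    have hu' : u ∈ nhds (x' t, v' t) := by
      have ht' : (x t, v t) = (x' t, v' t) := ht
      rw [← ht']; exact hu
    refine ODE_solution_unique_of_eventually (v := fun _ => Fld α B) (s := fun _ => u) (K := K)
      (Filter.Eventually.of_forall fun _ => hK) ?_ ?_ ht
    · filter_upwards [(hcont h).continuousAt.preimage_mem_nhds hu] with τ hτ
      exact ⟨key h τ, hτ⟩
    · filter_upwards [(hcont h').continuousAt.preimage_mem_nhds hu'] with τ hτ
      exact ⟨key h' τ, hτ⟩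
  have huniv := hclopen.eq_univ ⟨s₀, (by rw [hx, hv] : (x s₀, v s₀) = (x' s₀, v' s₀))⟩
  have hs : s ∈ {t | (x t, v t) = (x' t, v' t)} := by rw [huniv]; exact Set.mem_univ s
  exact Prod.mk.inj hs

end Pool.Agent.Work.MP_659252_gt.Z
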