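import Pool.Agent.Work.MP_659252_gt.Z.Bas

/-!
# The first variation of the energy.  Size: M-L.  (Only `Defs` is used.)

Let `γ` be a geodesic of `G`, `W` a smooth vector field along `γ` with `γ ⬝ W = 0`, `W = 0` outside `(a, b)`.
PROOF.  Variation: `Γ (s, t) = (γ t + s W t) / √(1 + s² (W t ⬝ W t))`.  It is smooth, `Γ ⬝ Γ = 1` (as `γ ⬝ W = 0`), `Γ (0, t) = γ t`, and
`Γ (s, t) = γ t` outside `(a, b)`: `IsVariation`.  At `s = 0`: `∂_s Γ = W`, `∂_s ∂_t Γ = ∂_t ∂_s Γ = W'` (smooth function of two variables; or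
directly: `∂_t Γ = (γ' + s W') c(s,t) + (γ + s W) ∂_t c(s,t)`, `c = (1 + s² (W⬝W))^(-1/2)`, `∂_t c` and `∂_s c` are `O(s)`).
The function `e (s, t) = val G (Γ) (∂_t Γ) (∂_t Γ)` is smooth on `ℝ²` (`Γ ≠ 0`), so `s ↦ ∫ t in a..b, e (s, t)` has derivative
`∫ ∂_s e (0, t) dt` at `0` (`intervalIntegral.hasDerivAt_integral_of_dominated_loc_of_deriv_le` with the bound of `∂_s e` on the compact set
`[-1,1] × [a,b]`, or the library lemma for `ContDiff` parametric integrals), and by the product rule and the symmetry of `G`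
`∂_s e (0, t) = 2 val G γ γ' W' + ∑ (D_W G_ij) γ'_i γ'_j`.  By `crit` the derivative is `0`.
(`deriv (fun t => Γ (s, t)) t` is the partial derivative; `Γ` is smooth.)
-/

namespace Pool.Agent.Work.MP_659252_gt.Z

open scoped ContDiff

variable {d : ℕ}

private theorem hasDerivAt_fst {F : Type*} [NormedAddCommGroup F] [NormedSpace ℝ F]
    {f : ℝ × ℝ → F} (hf : ContDiff ℝ ∞ f) (s t : ℝ) :
    HasDerivAt (fun s => f (s, t)) (fderiv ℝ f (s, t) (1, 0)) s := by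
  have h1 : HasFDerivAt f (fderiv ℝ f (s, t)) (s, t) :=
    (hf.differentiable (by simp) (s, t)).hasFDerivAt
  have h2 : HasDerivAt (fun s : ℝ => ((s, t) : ℝ × ℝ)) (1, 0) s :=
    (hasDerivAt_id s).prodMk (hasDerivAt_const s t)
  exact h1.comp_hasDerivAt s h2

private theorem hasDerivAt_snd {F : Type*} [NormedAddCommGroup F] [NormedSpace ℝ F]
    {f : ℝ × ℝ → F} (hf : ContDiff ℝ ∞ f) (s t : ℝ) :
    HasDerivAt (fun t => f (s, t)) (fderiv ℝ f (s, t) (0, 1)) t := by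
  have h1 : HasFDerivAt f (fderiv ℝ f (s, t)) (s, t) :=
    (hf.differentiable (by simp) (s, t)).hasFDerivAt
  have h2 : HasDerivAt (fun t : ℝ => ((s, t) : ℝ × ℝ)) (0, 1) t :=
    (hasDerivAt_const t s).prodMk (hasDerivAt_id t)
  exact h1.comp_hasDerivAt t h2

/-- differentiation under the integral sign -/
private theorem hasDerivAt_int {e : ℝ × ℝ → ℝ} (he : ContDiff ℝ ∞ e) (a b : ℝ) :
    HasDerivAt (fun s => ∫ t in a..b, e (s, t)) (∫ t in a..b, fderiv ℝ e (0, t) (1, 0)) 0 := by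
  have hcont : Continuous e := he.continuous
  have hfd : Continuous (fderiv ℝ e) := he.continuous_fderiv (by simp)
  have hg : Continuous (fun p : ℝ × ℝ => fderiv ℝ e p (1, 0)) := hfd.clm_apply continuous_const
  obtain ⟨M, hM⟩ := ((isCompact_Icc (a := (-1 : ℝ)) (b := 1)).prod
    (isCompact_uIcc (a := a) (b := b))).exists_bound_of_continuousOn hg.continuousOn
  have hc : ∀ s : ℝ, Continuous (fun t : ℝ => ((s, t) : ℝ × ℝ)) := fun s => by fun_prop
  have h := intervalIntegral.hasDerivAt_integral_of_dominated_loc_of_deriv_le (𝕜 := ℝ)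
    (μ := MeasureTheory.volume) (F := fun s t => e (s, t))
    (F' := fun s t => fderiv ℝ e (s, t) (1, 0)) (x₀ := 0) (s := Set.Icc (-1) 1)
    (bound := fun _ => M) (a := a) (b := b) (Icc_mem_nhds (by norm_num) (by norm_num))
    (Filter.Eventually.of_forall fun s => (hcont.comp (hc s)).aestronglyMeasurable)
    ((hcont.comp (hc 0)).intervalIntegrable _ _)
    ((hg.comp (hc 0)).aestronglyMeasurable)
    (Filter.Eventually.of_forall fun t ht s hs => hM (s, t) ⟨hs, Set.uIoc_subset_uIcc ht⟩)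
    (continuous_const.intervalIntegrable _ _)
    (Filter.Eventually.of_forall fun t _ s _ => hasDerivAt_fst he s t)
  exact h.2

/-- the variation -/
private noncomputable def vf (γ W : ℝ → V d) (p : ℝ × ℝ) : V d :=
  (√(1 + p.1 ^ 2 * (W p.2 ⬝ᵥ W p.2)))⁻¹ • (γ p.2 + p.1 • W p.2)

private theorem q_nonneg (w : V d) : 0 ≤ w ⬝ᵥ w := by
  unfold dotProduct
  exact Finset.sum_nonneg fun i _ => mul_self_nonneg (w i)

private theorem q_pos (s : ℝ) (w : V d) : 0 < 1 + s ^ 2 * (w ⬝ᵥ w) := by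
  have := mul_nonneg (sq_nonneg s) (q_nonneg w)
  linarith

private theorem vf_smooth {γ W : ℝ → V d} (hγ : ContDiff ℝ ∞ γ) (hW : ContDiff ℝ ∞ W) :
    ContDiff ℝ ∞ (vf γ W) := by
  have hW2 : ContDiff ℝ ∞ (fun p : ℝ × ℝ => W p.2) := hW.comp contDiff_snd
  have hγ2 : ContDiff ℝ ∞ (fun p : ℝ × ℝ => γ p.2) := hγ.comp contDiff_snd
  have hq : ContDiff ℝ ∞ (fun p : ℝ × ℝ => W p.2 ⬝ᵥ W p.2) := by
    unfold dotProduct
    exact ContDiff.sum fun i _ => (contDiff_pi.1 hW2 i).mul (contDiff_pi.1 hW2 i)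
  have h1 : ContDiff ℝ ∞ (fun p : ℝ × ℝ => 1 + p.1 ^ 2 * (W p.2 ⬝ᵥ W p.2)) :=
    contDiff_const.add ((contDiff_fst.pow 2).mul hq)
  have h2 : ContDiff ℝ ∞ (fun p : ℝ × ℝ => √(1 + p.1 ^ 2 * (W p.2 ⬝ᵥ W p.2))) :=
    h1.sqrt fun p => (q_pos p.1 (W p.2)).ne'
  have h3 : ContDiff ℝ ∞ (fun p : ℝ × ℝ => (√(1 + p.1 ^ 2 * (W p.2 ⬝ᵥ W p.2)))⁻¹) :=
    h2.inv fun p => (Real.sqrt_pos.2 (q_pos p.1 (W p.2))).ne'
  exact h3.smul (hγ2.add (contDiff_fst.smul hW2))

private theorem vf_sphere {γ W : ℝ → V d} (hγ : ∀ t, γ t ⬝ᵥ γ t = 1)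
    (hperp : ∀ t, γ t ⬝ᵥ W t = 0) (p : ℝ × ℝ) : vf γ W p ⬝ᵥ vf γ W p = 1 := by
  unfold vf
  have h1 : W p.2 ⬝ᵥ γ p.2 = 0 := by rw [dotProduct_comm]; exact hperp p.2
  rw [smul_dotProduct, dotProduct_smul, add_dotProduct, dotProduct_add, dotProduct_add,
    smul_dotProduct, smul_dotProduct, dotProduct_smul, dotProduct_smul, hγ, hperp, h1]
  simp only [smul_eq_mul, mul_zero, add_zero, zero_add]
  have h2 := q_pos p.1 (W p.2)
  have h3 : √(1 + p.1 ^ 2 * (W p.2 ⬝ᵥ W p.2)) * √(1 + p.1 ^ 2 * (W p.2 ⬝ᵥ W p.2)) =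
    1 + p.1 ^ 2 * (W p.2 ⬝ᵥ W p.2) := Real.mul_self_sqrt h2.le
  have h4 : √(1 + p.1 ^ 2 * (W p.2 ⬝ᵥ W p.2)) ≠ 0 := (Real.sqrt_pos.2 h2).ne'
  have h5 : (1 : ℝ) + p.1 * (p.1 * (W p.2 ⬝ᵥ W p.2)) =
      √(1 + p.1 ^ 2 * (W p.2 ⬝ᵥ W p.2)) * √(1 + p.1 ^ 2 * (W p.2 ⬝ᵥ W p.2)) := by
    rw [h3]
    ring
  rw [h5]
  field_simp

private theorem vf_start (γ W : ℝ → V d) (t : ℝ) : vf γ W (0, t) = γ t := by
  unfold vf
  simp

private theorem vf_fixed (γ W : ℝ → V d) (s t : ℝ) (h : W t = 0) : vf γ W (s, t) = γ t := by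
  unfold vf
  simp [h]

private theorem vf_deriv (γ W : ℝ → V d) (t : ℝ) :
    HasDerivAt (fun s => vf γ W (s, t)) (W t) 0 := by
  have h1 : HasDerivAt (fun s : ℝ => 1 + s ^ 2 * (W t ⬝ᵥ W t)) 0 0 := by
    have h := (((hasDerivAt_id (0 : ℝ)).pow 2).mul_const (W t ⬝ᵥ W t)).const_add 1
    simpa using h
  have hv : (1 : ℝ) + 0 ^ 2 * (W t ⬝ᵥ W t) = 1 := by ring
  have h2 : HasDerivAt (fun s : ℝ => √(1 + s ^ 2 * (W t ⬝ᵥ W t))) 0 0 := by
    have h := h1.sqrt (by rw [hv]; exact one_ne_zero)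
    rwa [zero_div] at h
  have h3 : HasDerivAt (fun s : ℝ => (√(1 + s ^ 2 * (W t ⬝ᵥ W t)))⁻¹) 0 0 := by
    have h := h2.fun_inv (by rw [hv]; simp)
    rwa [neg_zero, zero_div] at h
  have h4 : HasDerivAt (fun s : ℝ => γ t + s • W t) (W t) 0 := by
    have h := ((hasDerivAt_id (0 : ℝ)).smul_const (W t)).const_add (γ t)
    simpa using h
  have h5 := h3.fun_smul h4
  rw [hv] at h5
  simpa [vf] using h5

theorem weak_EL (G : Ten d) (hG : IsMetric G) (γ : ℝ → V d) (hγ : IsGeodesic G γ) (a b : ℝ) (hab : a < b)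
    (W : ℝ → V d) (hW : ContDiff ℝ ∞ W) (hperp : ∀ t, γ t ⬝ᵥ W t = 0)
    (hsupp : ∀ t, t ≤ a ∨ b ≤ t → W t = 0) :
    ∫ t in a..b, (2 * val G (γ t) (deriv γ t) (deriv W t) +
      ∑ i, ∑ j, fderiv ℝ (fun x => G x i j) (γ t) (W t) * (deriv γ t i * deriv γ t j)) = 0 := by
  obtain ⟨Γ, hΓdef⟩ : ∃ Γ : ℝ × ℝ → V d, Γ = vf γ W := ⟨_, rfl⟩
  have hΓ : ContDiff ℝ ∞ Γ := by
    rw [hΓdef]
    exact vf_smooth hγ.smooth hW
  have hsph : ∀ p, Γ p ⬝ᵥ Γ p = 1 := by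
    rw [hΓdef]
    exact vf_sphere hγ.sphere hperp
  have hstart : ∀ t, Γ (0, t) = γ t := by
    rw [hΓdef]
    exact vf_start γ W
  have hWd : ∀ t, HasDerivAt (fun s => Γ (s, t)) (W t) 0 := by
    rw [hΓdef]
    exact vf_deriv γ W
  have hvar : IsVariation γ a b Γ :=
    ⟨hΓ, hsph, hstart, by
      intro s t ht
      rw [hΓdef]
      exact vf_fixed γ W s t (hsupp t ht)⟩
  have hcrit := hγ.crit a b Γ hab hvar
  have hΓ2 : ContDiff ℝ ∞ (fderiv ℝ Γ) := (contDiff_infty_iff_fderiv.1 hΓ).2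
  obtain ⟨D, hDdef⟩ : ∃ D : ℝ × ℝ → V d, D = fun p => fderiv ℝ Γ p (0, 1) := ⟨_, rfl⟩
  have hD : ContDiff ℝ ∞ D := by
    rw [hDdef]
    exact hΓ2.clm_apply contDiff_const
  have hne : ∀ p, Γ p ∈ ({0}ᶜ : Set (V d)) := by
    intro p h0
    have h1 := hsph p
    rw [Set.mem_singleton_iff.1 h0, zero_dotProduct] at h1
    exact zero_ne_one h1
  have hGΓ : ContDiff ℝ ∞ (fun p => G (Γ p)) := hG.smooth.comp_contDiff hΓ hne
  obtain ⟨e, hedef⟩ : ∃ e : ℝ × ℝ → ℝ, e = fun p => ∑ i, ∑ j, G (Γ p) i j * (D p i * D p j) :=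
    ⟨_, rfl⟩
  have he : ContDiff ℝ ∞ e := by
    rw [hedef]
    exact ContDiff.sum fun i _ => ContDiff.sum fun j _ =>
      (contDiff_pi.1 (contDiff_pi.1 hGΓ i) j).mul ((contDiff_pi.1 hD i).mul (contDiff_pi.1 hD j))
  have henergy : ∀ s, energy G (fun t => Γ (s, t)) a b = ∫ t in a..b, e (s, t) := by
    intro s
    unfold energy
    apply intervalIntegral.integral_congr
    intro t _
    have h1 : deriv (fun t => Γ (s, t)) t = D (s, t) := by
      rw [hDdef]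
      exact (hasDerivAt_snd hΓ s t).deriv
    simp only [h1, val, hedef]
  rw [funext henergy, (hasDerivAt_int he a b).deriv] at hcrit
  rw [← hcrit]
  apply intervalIntegral.integral_congr
  intro t _
  have h0 : Γ (0, t) = γ t := hstart t
  have hD0 : D (0, t) = deriv γ t := by
    have h1 := (hasDerivAt_snd hΓ 0 t).deriv
    rw [funext hstart] at h1
    rw [hDdef, h1]
  have hfd : ∀ t, fderiv ℝ Γ (0, t) (1, 0) = W t := fun t =>
    (hasDerivAt_fst hΓ 0 t).unique (hWd t)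
  have hDs : HasDerivAt (fun s => D (s, t)) (deriv W t) 0 := by
    have h1 := (hasDerivAt_fst hΓ2 0 t).clm_apply (hasDerivAt_const (0 : ℝ) ((0, 1) : ℝ × ℝ))
    have h2 := (hasDerivAt_snd hΓ2 0 t).clm_apply (hasDerivAt_const t ((1, 0) : ℝ × ℝ))
    rw [map_zero, add_zero] at h1 h2
    simp only [hfd] at h2
    have h4 : ContDiff ℝ 2 Γ := contDiff_infty.1 hΓ 2
    have h3 := (h4.contDiffAt (x := (0, t))).isSymmSndFDerivAt
      (by rw [minSmoothness_of_isRCLikeNormedField]) (1, 0) (0, 1)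
    rw [h3, ← h2.deriv] at h1
    rw [hDdef]
    exact h1
  have hes : HasDerivAt (fun s => e (s, t)) (∑ i, ∑ j,
      (fderiv ℝ (fun x => G x i j) (γ t) (W t) * (deriv γ t i * deriv γ t j) +
        G (γ t) i j * (deriv W t i * deriv γ t j + deriv γ t i * deriv W t j))) 0 := by
    rw [hedef]
    apply HasDerivAt.fun_sum
    intro i _
    apply HasDerivAt.fun_sum
    intro j _
    have hdiff : DifferentiableAt ℝ (fun x => G x i j) (γ t) := by
      have h1 : ContDiffAt ℝ ∞ G (γ t) := hG.smooth.contDiffAt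
        (isOpen_compl_singleton.mem_nhds (by rw [← h0]; exact hne (0, t)))
      exact ((contDiffAt_pi.1 ((contDiffAt_pi.1 h1) i)) j).differentiableAt (by simp)
    have hg : HasDerivAt (fun s => G (Γ (s, t)) i j) (fderiv ℝ (fun x => G x i j) (γ t) (W t)) 0 :=
      hdiff.hasFDerivAt.comp_hasDerivAt_of_eq (0 : ℝ) (hWd t) h0.symm
    have hi : HasDerivAt (fun s => D (s, t) i) (deriv W t i) 0 := (hasDerivAt_pi.1 hDs) i
    have hj : HasDerivAt (fun s => D (s, t) j) (deriv W t j) 0 := (hasDerivAt_pi.1 hDs) j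
    have h := hg.fun_mul (hi.fun_mul hj)
    rw [h0, hD0] at h
    exact h
  have hfin := (hasDerivAt_fst he 0 t).unique hes
  have hsym : ∑ i, ∑ j, G (γ t) i j * (deriv W t i * deriv γ t j) =
      ∑ i, ∑ j, G (γ t) i j * (deriv γ t i * deriv W t j) := by
    rw [Finset.sum_comm]
    refine Finset.sum_congr rfl fun i _ => Finset.sum_congr rfl fun j _ => ?_
    rw [hG.symm (γ t) j i]
    ring
  have hsplit : ∑ i, ∑ j, (fderiv ℝ (fun x => G x i j) (γ t) (W t) * (deriv γ t i * deriv γ t j) +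
        G (γ t) i j * (deriv W t i * deriv γ t j + deriv γ t i * deriv W t j)) =
      ∑ i, ∑ j, fderiv ℝ (fun x => G x i j) (γ t) (W t) * (deriv γ t i * deriv γ t j) +
      (∑ i, ∑ j, G (γ t) i j * (deriv W t i * deriv γ t j) +
        ∑ i, ∑ j, G (γ t) i j * (deriv γ t i * deriv W t j)) := by
    rw [← Finset.sum_add_distrib, ← Finset.sum_add_distrib]
    refine Finset.sum_congr rfl fun i _ => ?_
    rw [← Finset.sum_add_distrib, ← Finset.sum_add_distrib]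
    refine Finset.sum_congr rfl fun j _ => ?_
    ring
  rw [hsplit, hsym] at hfin
  change 2 * val G (γ t) (deriv γ t) (deriv W t) +
    ∑ i, ∑ j, fderiv ℝ (fun x => G x i j) (γ t) (W t) * (deriv γ t i * deriv γ t j) =
    fderiv ℝ e (0, t) (1, 0)
  rw [hfin]
  unfold val
  ring

end Pool.Agent.Work.MP_659252_gt.Z
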