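import Pool.Agent.Work.MP_659252_gt.Z.RingD
import Pool.Agent.Work.MP_659252_gt.Z.Lev

/-!
# The autonomous system.  Size: M.

PROOF.  `gg_pos`: `1 + b > 0` (`|b| ≤ |B| < 1`), `Q2 > 0` (`Q2_pos`).  `gg_cont`: along the times where `x s` is in the ring `lev` is smooth (`lev_contDiffAt`),
so `gg` is continuous there (`Real.sign (x 0) = 1` near such a time).
`Z_plus` (`c = 1`, solution for `B`): components: `lev_D`, `q_D` with `RR' α μ (x s) (v s) = RR' α μ (W1 s) (W2 s)` (`RR'_rot`, with `c = cos s`, `s = sin s`),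
`W1_deriv`, `W2_deriv` and `be = gg * (b/2)`, `b = sign(x_0) B(μ) = B(μ)`.
`Z_minus` (`c = -1`, solution for `-B`): now `b = -B(μ)`; `RR'` does not change if the first vector changes sign, and
`X1 α μ (-w₁) w₂ = X1 α μ w₁ w₂`, `X2 α μ (-w₁) w₂ = -X2 α μ w₁ w₂`: so `(-W1)' = -gg (-B/2) X1(W1, W2) = gg (B/2) X1(-W1, W2)`,
`W2' = gg (-B/2) X2(W1, W2) = gg (B/2) X2(-W1, W2)`.
Common hypothesis: `x s` is in the ring, so (`lev_root`) the level is admissible and a root.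
-/

namespace Pool.Agent.Work.MP_659252_gt.Z

variable {d : ℕ} {α : Fin (d + 1) → ℝ} {B : ℝ → ℝ} {lo hi : ℝ}

private theorem ring_facts (D : Dat α B lo hi) {x : V d} (hx : InRing α lo hi x) :
    x ≠ 0 ∧ Adm α (lev α x) ∧ Q α (lev α x) x x = 0 ∧ 0 < Q2 α (lev α x) x x := by
  have hx0 : x ≠ 0 := by
    intro h
    have := hx.1
    rw [h, Pi.zero_apply] at this
    exact lt_irrefl _ this
  obtain ⟨h1, h2, h3⟩ := lev_root D.a0 D.adm_lo D.adm_hi D.lo_hi.le x hx0 hx.2.1 hx.2.2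
  have hadm := D.adm_mem h1 h2
  exact ⟨hx0, hadm, h3, Q2_pos D.a0 hadm x hx0⟩

private theorem bb_ring (B : ℝ → ℝ) {x : V d} (hx : 0 < x 0) : bb α B x = B (lev α x) := by
  unfold bb
  rw [Real.sign_of_pos hx, one_mul]

theorem gg_pos (hd : 1 ≤ d) (D : Dat α B lo hi) (hB : ∀ μ, |B μ| < 1) (x : V d) (hx : InRing α lo hi x) :
    0 < gg α B x := by
  obtain ⟨-, -, -, hQ⟩ := ring_facts D hx
  unfold gg
  rw [bb_ring B hx.1]
  have h1 := (abs_lt.1 (hB (lev α x))).1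
  have h2 : 0 < 1 + B (lev α x) := by linarith
  positivity

theorem gg_cont (hd : 1 ≤ d) (D : Dat α B lo hi) (hB : ∀ μ, |B μ| < 1) (x : V d) (hx : InRing α lo hi x) :
    ContinuousAt (gg α B) x := by
  obtain ⟨hx0, hadm, hr, hQ⟩ := ring_facts D hx
  have hlev : ContinuousAt (lev α) x := (lev_contDiffAt D.a0 hadm x hx0 hr).continuousAt
  have hBc : ContinuousAt (fun y : V d => B (lev α y)) x :=
    ContinuousAt.comp (g := B) D.smooth.continuous.continuousAt hlev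
  have hQc : ContinuousAt (fun y : V d => Q2 α (lev α y) y y) x := by
    unfold Q2
    apply tendsto_finset_sum
    intro i _
    have hi : ContinuousAt (fun y : V d => y i) x := (continuous_apply i).continuousAt
    exact (hi.mul hi).div ((continuousAt_const.sub hlev).pow 2)
      (pow_ne_zero 2 (Adm.ne D.a0 hadm i))
  have h1 := (abs_lt.1 (hB (lev α x))).1
  have h2 : 0 < 1 + B (lev α x) := by linarith
  have hG : ContinuousAt (fun y : V d => 1 / ((1 + B (lev α y)) * Q2 α (lev α y) y y)) x :=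
    continuousAt_const.div ((continuousAt_const.add hBc).mul hQc) (mul_pos h2 hQ).ne'
  refine hG.congr ?_
  have hpos : ∀ᶠ y : V d in nhds x, 0 < y 0 :=
    (continuous_apply (0 : Fin (d + 1))).continuousAt.eventually (lt_mem_nhds hx.1)
  filter_upwards [hpos] with y hy
  unfold gg
  rw [bb_ring B hy]

private theorem RR'_sign {c : ℝ} (hc : c * c = 1) (μ : ℝ) (w₁ w₂ : V d) :
    RR' α μ (c • w₁) w₂ = RR' α μ w₁ w₂ := by
  unfold RR'
  have e1 : Q α μ (c • w₁) (c • w₁) = Q α μ w₁ w₁ := by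
    rw [Q_smul, Q_comm, Q_smul, ← mul_assoc, hc, one_mul]
  have e2 : Q2 α μ (c • w₁) (c • w₁) = Q2 α μ w₁ w₁ := by
    rw [Q2_smul, Q2_comm, Q2_smul, ← mul_assoc, hc, one_mul]
  rw [e1, e2, Q_smul, Q2_smul]
  have e3 : 2 * (c * Q α μ w₁ w₂) * (c * Q2 α μ w₁ w₂) =
      (c * c) * (2 * Q α μ w₁ w₂ * Q2 α μ w₁ w₂) := by ring
  rw [e3, hc, one_mul]

private theorem X1_sign {c : ℝ} (hc : c * c = 1) (μ : ℝ) (w₁ w₂ : V d) :
    X1 α μ (c • w₁) w₂ = X1 α μ w₁ w₂ := by
  funext i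
  unfold X1
  have e1 : Q α μ (c • w₁) (c • w₁) = Q α μ w₁ w₁ := by
    rw [Q_smul, Q_comm, Q_smul, ← mul_assoc, hc, one_mul]
  rw [e1, Q_smul, Pi.smul_apply, smul_eq_mul]
  have e3 : c * Q α μ w₁ w₂ * (c * w₁ i) = (c * c) * (Q α μ w₁ w₂ * w₁ i) := by ring
  rw [e3, hc, one_mul]

private theorem X2_sign {c : ℝ} (μ : ℝ) (w₁ w₂ : V d) :
    X2 α μ (c • w₁) w₂ = c • X2 α μ w₁ w₂ := by
  funext i
  unfold X2
  rw [Q_smul, Pi.smul_apply, Pi.smul_apply, smul_eq_mul, smul_eq_mul]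
  ring

private theorem Z_gen (D : Dat α B lo hi) {B' : ℝ → ℝ} (hB' : ∀ μ, |B' μ| < 1)
    {c : ℝ} (hc : c * c = 1) {x v : ℝ → V d} (h : Sol α B' x v) (s : ℝ)
    (hs : InRing α lo hi (x s)) (hb : B' (lev α (x s)) = c * B (lev α (x s))) :
    HasDerivAt (ZZ α c x v) (gg α B' (x s) • FF α B (ZZ α c x v s)) s := by
  obtain ⟨hx0, hadm, hr, hQ⟩ := ring_facts D hs
  have hbb : bb α B' (x s) = c * B (lev α (x s)) := by rw [bb_ring B' hs.1, hb]
  have hbe : be α B' (x s) = gg α B' (x s) * (c * B (lev α (x s)) / 2) := by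
    unfold be gg
    rw [hbb]
    have h1 := (abs_lt.1 (hB' (lev α (x s)))).1
    rw [hb] at h1
    have h2 : (1 + c * B (lev α (x s))) ≠ 0 := by
      have : 0 < 1 + c * B (lev α (x s)) := by linarith
      exact this.ne'
    have h3 := hQ.ne'
    field_simp
  have d1 := lev_D D.a0 hB' h s hadm hr
  have d2 := q_D D.a0 hB' h s hadm hr
  have d3 : HasDerivAt (fun s => c • W1 x v s)
      (c • (be α B' (x s) • X1 α (lev α (x s)) (W1 x v s) (W2 x v s))) s :=
    (W1_deriv h s).const_smul c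
  have d4 := W2_deriv h s
  have hrot : RR' α (lev α (x s)) (x s) (v s) =
      RR' α (lev α (x s)) (W1 x v s) (W2 x v s) := by
    have := RR'_rot (α := α) (lev α (x s)) (Real.cos s) (Real.sin s) (Real.cos_sq_add_sin_sq s)
      (x s) (v s)
    rw [← this]
    rfl
  have hall := d1.prodMk (d2.prodMk (d3.prodMk d4))
  have hval : gg α B' (x s) • FF α B (ZZ α c x v s) =
      (gg α B' (x s) * (-2 * Q α (lev α (x s)) (x s) (v s)),
        gg α B' (x s) * (-RR' α (lev α (x s)) (x s) (v s)),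
        c • (be α B' (x s) • X1 α (lev α (x s)) (W1 x v s) (W2 x v s)),
        be α B' (x s) • X2 α (lev α (x s)) (W1 x v s) (W2 x v s)) := by
    unfold FF ZZ
    simp only [Prod.smul_mk, smul_eq_mul]
    rw [RR'_sign hc, X1_sign hc, X2_sign, hrot, hbe]
    refine Prod.ext rfl (Prod.ext rfl (Prod.ext ?_ ?_))
    · show gg α B' (x s) • (B (lev α (x s)) / 2) • X1 α (lev α (x s)) (W1 x v s) (W2 x v s) =
        c • (gg α B' (x s) * (c * B (lev α (x s)) / 2)) • X1 α (lev α (x s)) (W1 x v s) (W2 x v s)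
      rw [smul_smul, smul_smul]
      congr 1
      have : c * (gg α B' (x s) * (c * B (lev α (x s)) / 2)) =
          (c * c) * (gg α B' (x s) * (B (lev α (x s)) / 2)) := by ring
      rw [this, hc, one_mul]
    · show gg α B' (x s) • (B (lev α (x s)) / 2) • c • X2 α (lev α (x s)) (W1 x v s) (W2 x v s) =
        (gg α B' (x s) * (c * B (lev α (x s)) / 2)) • X2 α (lev α (x s)) (W1 x v s) (W2 x v s)
      rw [smul_smul, smul_smul]
      congr 1
      ring
  rw [hval]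
  exact hall

theorem Z_plus (hd : 1 ≤ d) (D : Dat α B lo hi) (hB : ∀ μ, |B μ| < 1) {x v : ℝ → V d} (h : Sol α B x v)
    (s : ℝ) (hs : InRing α lo hi (x s)) :
    HasDerivAt (ZZ α 1 x v) (gg α B (x s) • FF α B (ZZ α 1 x v s)) s :=
  Z_gen D hB (by norm_num) h s hs (by rw [one_mul])

theorem Z_minus (hd : 1 ≤ d) (D : Dat α B lo hi) (hB : ∀ μ, |B μ| < 1) {x v : ℝ → V d}
    (h : Sol α (fun μ => -B μ) x v) (s : ℝ) (hs : InRing α lo hi (x s)) :
    HasDerivAt (ZZ α (-1) x v) (gg α (fun μ => -B μ) (x s) • FF α B (ZZ α (-1) x v s)) s :=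
  Z_gen D (fun μ => by rw [abs_neg]; exact hB μ) (by norm_num) h s hs (by ring)

end Pool.Agent.Work.MP_659252_gt.Z
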